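import Mathlib

/-!
# A Lipschitz arc in three-space with a nearly closed loop at every scale
-/

namespace Pool.Agent.X132.Shadow

open Set

/-- The `k`-th tent. -/
noncomputable def tent (c : ℝ) (k : ℕ) (x : ℝ) : ℝ :=
  max 0 (8 * (1 / 4) ^ k - 32 * |x - c * (1 / 4) ^ k|)

/-- The supremum of the tents. -/
noncomputable def wave (c x : ℝ) : ℝ := ⨆ k : ℕ, tent c k x

theorem tent_nonneg (c : ℝ) (k : ℕ) (x : ℝ) : 0 ≤ tent c k x := le_max_left _ _

theorem tent_le (c : ℝ) (k : ℕ) (x : ℝ) : tent c k x ≤ 8 := by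
  unfold tent
  refine max_le (by norm_num) ?_
  have h1 : ((1 : ℝ) / 4) ^ k ≤ 1 := pow_le_one₀ (by norm_num) (by norm_num)
  have h2 := abs_nonneg (x - c * (1 / 4) ^ k)
  linarith

theorem tent_bdd (c x : ℝ) : BddAbove (range fun k => tent c k x) :=
  ⟨8, by rintro _ ⟨k, rfl⟩; exact tent_le c k x⟩

theorem tent_lip (c : ℝ) (k : ℕ) (x y : ℝ) : tent c k x ≤ tent c k y + 32 * |x - y| := by
  unfold tent
  have h0 := abs_nonneg (x - y)
  refine max_le ?_ ?_
  · have := le_max_left 0 (8 * (1 / 4 : ℝ) ^ k - 32 * |y - c * (1 / 4) ^ k|)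
    linarith
  · have := le_max_right 0 (8 * (1 / 4 : ℝ) ^ k - 32 * |y - c * (1 / 4) ^ k|)
    have h1 : |y - c * (1 / 4) ^ k| ≤ |x - y| + |x - c * (1 / 4) ^ k| := by
      have := abs_add_le (y - x) (x - c * (1 / 4) ^ k)
      rw [abs_sub_comm y x] at this
      simpa using this
    linarith

theorem wave_lip' (c x y : ℝ) : wave c x ≤ wave c y + 32 * |x - y| := by
  unfold wave
  refine ciSup_le fun k => ?_
  have h1 := tent_lip c k x y
  have h2 := le_ciSup (tent_bdd c y) k
  linarith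

theorem wave_lip (c x y : ℝ) : |wave c x - wave c y| ≤ 32 * |x - y| := by
  rw [abs_le]
  have h1 := wave_lip' c x y
  have h2 := wave_lip' c y x
  rw [abs_sub_comm y x] at h2
  constructor <;> linarith

theorem wave_zero {c : ℝ} (hc : 1 / 4 ≤ c) : wave c 0 = 0 := by
  unfold wave
  have : ∀ k, tent c k 0 = 0 := by
    intro k
    unfold tent
    have hq : (0 : ℝ) < (1 / 4) ^ k := by positivity
    refine max_eq_left ?_
    have h1 : |0 - c * (1 / 4 : ℝ) ^ k| = c * (1 / 4) ^ k := by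
      rw [zero_sub, abs_neg, abs_of_nonneg]; positivity
    rw [h1]
    nlinarith
  simp [this]

theorem wave_eq {c : ℝ} (hc : 1 / 2 ≤ c) (hc' : c ≤ 3 / 4) (k : ℕ) {x : ℝ}
    (h1 : (1 / 4) ^ k / 4 ≤ x) (h2 : x ≤ (1 / 4) ^ k) : wave c x = tent c k x := by
  unfold wave
  refine le_antisymm (ciSup_le fun j => ?_) (le_ciSup (tent_bdd c x) k)
  rcases lt_trichotomy j k with h | h | h
  · refine le_trans (max_le le_rfl ?_) (tent_nonneg c k x)
    have hp : (0 : ℝ) < (1 / 4) ^ j := by positivity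
    have h3 : ((1 : ℝ) / 4) ^ k ≤ (1 / 4) ^ j / 4 := by
      have : ((1 : ℝ) / 4) ^ k ≤ (1 / 4) ^ (j + 1) :=
        pow_le_pow_of_le_one (by norm_num) (by norm_num) h
      rw [pow_succ] at this
      linarith
    have h4 := neg_abs_le (x - c * (1 / 4) ^ j)
    nlinarith
  · rw [h]
  · refine le_trans (max_le le_rfl ?_) (tent_nonneg c k x)
    have hp : (0 : ℝ) < (1 / 4) ^ j := by positivity
    have h3 : ((1 : ℝ) / 4) ^ j ≤ (1 / 4) ^ k / 4 := by
      have : ((1 : ℝ) / 4) ^ j ≤ (1 / 4) ^ (k + 1) :=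
        pow_le_pow_of_le_one (by norm_num) (by norm_num) h
      rw [pow_succ] at this
      linarith
    have h4 := le_abs_self (x - c * (1 / 4) ^ j)
    nlinarith

/-- The two coordinate functions on the first third of a fundamental interval. -/
theorem piece1 (k : ℕ) {x : ℝ} (h1 : (1 / 4) ^ k * (1 / 4) ≤ x) (h2 : x ≤ (1 / 4) ^ k * (2 / 4)) :
    wave (1 / 2) x = 32 * x - 8 * (1 / 4) ^ k ∧ wave (3 / 4) x = 0 := by
  have hq : (0 : ℝ) < (1 / 4) ^ k := by positivity
  rw [wave_eq (by norm_num) (by norm_num) k (by linarith) (by linarith),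
    wave_eq (by norm_num) (by norm_num) k (by linarith) (by linarith)]
  unfold tent
  constructor
  · rw [abs_of_nonpos (by linarith), max_eq_right (by linarith)]; ring
  · rw [abs_of_nonpos (by linarith), max_eq_left (by linarith)]

theorem piece2 (k : ℕ) {x : ℝ} (h1 : (1 / 4) ^ k * (2 / 4) ≤ x) (h2 : x ≤ (1 / 4) ^ k * (3 / 4)) :
    wave (1 / 2) x = 24 * (1 / 4) ^ k - 32 * x ∧ wave (3 / 4) x = 32 * x - 16 * (1 / 4) ^ k := by
  have hq : (0 : ℝ) < (1 / 4) ^ k := by positivity
  rw [wave_eq (by norm_num) (by norm_num) k (by linarith) (by linarith),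
    wave_eq (by norm_num) (by norm_num) k (by linarith) (by linarith)]
  unfold tent
  constructor
  · rw [abs_of_nonneg (by linarith), max_eq_right (by linarith)]; ring
  · rw [abs_of_nonpos (by linarith), max_eq_right (by linarith)]; ring

theorem piece3 (k : ℕ) {x : ℝ} (h1 : (1 / 4) ^ k * (3 / 4) ≤ x) (h2 : x ≤ (1 / 4) ^ k) :
    wave (1 / 2) x = 0 ∧ wave (3 / 4) x = 32 * (1 / 4) ^ k - 32 * x := by
  have hq : (0 : ℝ) < (1 / 4) ^ k := by positivity
  rw [wave_eq (by norm_num) (by norm_num) k (by linarith) (by linarith),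
    wave_eq (by norm_num) (by norm_num) k (by linarith) (by linarith)]
  unfold tent
  constructor
  · rw [abs_of_nonneg (by linarith), max_eq_left (by linarith)]
  · rw [abs_of_nonneg (by linarith), max_eq_right (by linarith)]; ring

/-- The values of the two coordinate functions. -/
theorem wave_values {x : ℝ} (h0 : 0 ≤ x) (h1 : x ≤ 1) :
    wave (1 / 2) x = 0 ∨ wave (3 / 4) x = 0 ∨
      ∃ j : ℕ, wave (1 / 2) x + wave (3 / 4) x = 8 * (1 / 4) ^ j := by
  rcases h0.eq_or_lt with rfl | h0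
  · left; exact wave_zero (by norm_num)
  obtain ⟨k, hk1, hk2⟩ := exists_nat_pow_near_of_lt_one h0 h1 (y := (1 / 4 : ℝ))
    (by norm_num) (by norm_num)
  rw [pow_succ] at hk1
  rcases le_total x ((1 / 4) ^ k * (2 / 4)) with h2 | h2
  · right; left; exact (piece1 k hk1.le h2).2
  rcases le_total x ((1 / 4) ^ k * (3 / 4)) with h3 | h3
  · right; right
    refine ⟨k, ?_⟩
    rw [(piece2 k h2 h3).1, (piece2 k h2 h3).2]; ring
  · left; exact (piece3 k h3 hk2).1

/-- Euclidean three-space. -/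
abbrev E3 := EuclideanSpace ℝ (Fin 3)

/-- The parametrised arc. -/
noncomputable def arc (x : ℝ) : E3 := !₂[x, wave (1 / 2) x, wave (3 / 4) x]

@[simp] theorem arc_zero (x : ℝ) : arc x 0 = x := rfl
@[simp] theorem arc_one (x : ℝ) : arc x 1 = wave (1 / 2) x := rfl
@[simp] theorem arc_two (x : ℝ) : arc x 2 = wave (3 / 4) x := rfl

theorem coord_le_norm (v : E3) (i : Fin 3) : |v i| ≤ ‖v‖ := by
  have := PiLp.norm_apply_le v i
  simpa using this

theorem norm_le_sum (v : E3) : ‖v‖ ≤ |v 0| + |v 1| + |v 2| := by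
  rw [EuclideanSpace.norm_eq, Fin.sum_univ_three]
  rw [Real.sqrt_le_left (by positivity)]
  simp only [Real.norm_eq_abs]
  have h0 := abs_nonneg (v 0)
  have h1 := abs_nonneg (v 1)
  have h2 := abs_nonneg (v 2)
  nlinarith [mul_nonneg h0 h1, mul_nonneg h0 h2, mul_nonneg h1 h2]

theorem dist_arc_le (x y : ℝ) : dist (arc x) (arc y) ≤ 65 * |x - y| := by
  rw [dist_eq_norm]
  refine (norm_le_sum _).trans ?_
  have h1 := wave_lip (1 / 2) x y
  have h2 := wave_lip (3 / 4) x y
  simp only [PiLp.sub_apply, arc_zero, arc_one, arc_two]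
  linarith

theorem le_dist_arc (x y : ℝ) : |x - y| ≤ dist (arc x) (arc y) := by
  rw [dist_eq_norm]
  simpa using coord_le_norm (arc x - arc y) 0

theorem arc_lipschitz : LipschitzWith 65 arc :=
  LipschitzWith.of_dist_le_mul fun x y => by
    rw [Real.dist_eq]; exact dist_arc_le x y

theorem arc_injective : Function.Injective arc := fun x y h => by
  have := le_dist_arc x y
  rw [h, dist_self] at this
  have := abs_nonpos_iff.1 this
  linarith

end Pool.Agent.X132.Shadow
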