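import Mathlib

/-!
# Intrinsic metrics, admissible compacta and shadows of Vietoris-Rips complexes
-/

namespace Pool.Agent.X132.Shadow

open Set Topology

universe u

/-- The intrinsic (extended) distance on a subset `M` of a metric space: the infimum of the lengths
of the continuous paths in `M` from `p` to `q`. -/
noncomputable def pathEDist {E : Type*} [PseudoEMetricSpace E] (M : Set E) (p q : E) : ENNReal :=
  ⨅ (γ : C(unitInterval, E)) (_ : γ 0 = p ∧ γ 1 = q ∧ ∀ t, γ t ∈ M), eVariationOn γ Set.univ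

/-- The intrinsic distance as a real number. -/
noncomputable def dM {E : Type*} [PseudoEMetricSpace E] (M : Set E) (p q : E) : ℝ :=
  (pathEDist M p q).toReal

/-- The closed `r`-neighbourhood of `M`. -/
def nbhd {N : ℕ} (r : ℝ) (M : Set (EuclideanSpace ℝ (Fin N))) :
    Set (EuclideanSpace ℝ (Fin N)) :=
  {x | Metric.infDist x M ≤ r}

/-- The standing assumptions: `M` is compact and connected, its intrinsic metric is finite and
makes it a geodesic space, there is a neighbourhood retraction satisfying (M3), and (M1), (M2)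
hold. -/
structure Admissible {N : ℕ} (M : Set (EuclideanSpace ℝ (Fin N))) : Prop where
  compact : IsCompact M
  connected : IsConnected M
  finite_dist : ∀ p ∈ M, ∀ q ∈ M, pathEDist M p q ≠ ⊤
  geodesic : ∀ p ∈ M, ∀ q ∈ M, ∃ c : ℝ → EuclideanSpace ℝ (Fin N),
    c 0 = p ∧ c (dM M p q) = q ∧ (∀ a ∈ Icc 0 (dM M p q), c a ∈ M) ∧
    ∀ a ∈ Icc 0 (dM M p q), ∀ b ∈ Icc 0 (dM M p q), dM M (c a) (c b) = |a - b|
  retraction : ∃ U ∈ 𝓝ˢ M, ∃ π : EuclideanSpace ℝ (Fin N) → EuclideanSpace ℝ (Fin N),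
    ContinuousOn π U ∧ (∀ x ∈ U, π x ∈ M) ∧ (∀ x ∈ M, π x = x) ∧
    ∃ ε : ℝ → ℝ, (∀ r > 0, nbhd r M ⊆ U → 0 < ε r ∧ ∀ x ∈ nbhd r M, ‖π x - x‖ < ε r) ∧
      Filter.Tendsto ε (𝓝[>] 0) (𝓝 0)
  close_maps : ∃ ρ > 0, ∀ (X : Type u) [TopologicalSpace X] (f g : C(X, M)),
    (∀ x, dM M (f x) (g x) < ρ) → f.Homotopic g
  locally_bilipschitz : ∃ δ > 0, ∃ ξ > 1, ∀ p ∈ M, ∀ q ∈ M, ‖p - q‖ < δ →
    ‖p - q‖ ≤ dM M p q ∧ dM M p q ≤ ξ * ‖p - q‖

/-- The shadow of the Euclidean Vietoris-Rips complex: the union of the convex hulls of the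
nonempty subsets of `S` of diameter less than `β`. -/
def shadow {N : ℕ} (β : ℝ) (S : Finset (EuclideanSpace ℝ (Fin N))) :
    Set (EuclideanSpace ℝ (Fin N)) :=
  ⋃ σ ∈ {σ : Finset (EuclideanSpace ℝ (Fin N)) | σ ⊆ S ∧ σ.Nonempty ∧
    Metric.diam (σ : Set (EuclideanSpace ℝ (Fin N))) < β},
    convexHull ℝ (σ : Set (EuclideanSpace ℝ (Fin N)))

end Pool.Agent.X132.Shadow
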