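import Mathlib
import Pool.Agent.X132.ShadowA
import Pool.Agent.X132.ShadowDefs

/-!
# The intrinsic metric of the arc
-/

namespace Pool.Agent.X132.Shadow

open Set Topology

/-- The arc as a set. -/
noncomputable def theArc : Set E3 := arc '' Icc (0 : ℝ) 1

/-- The length of the piece of the arc between parameters `a` and `b`. -/
noncomputable def len (a b : ℝ) : ENNReal := eVariationOn arc (Icc a b)

theorem len_le {a b : ℝ} (h : a ≤ b) : len a b ≤ ENNReal.ofReal (65 * (b - a)) := by
  have h1 : eVariationOn (arc ∘ id) (Icc a b) ≤ (65 : NNReal) * eVariationOn id (Icc a b) :=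
    (arc_lipschitz.lipschitzOnWith (s := univ)).comp_eVariationOn_le (mapsTo_univ _ _)
  have h2 : eVariationOn (id : ℝ → ℝ) (Icc a b) ≤ ENNReal.ofReal (b - a) := by
    have := (monotone_id (α := ℝ)).monotoneOn (Icc a b) |>.eVariationOn_eq
      (left_mem_Icc.2 h) (right_mem_Icc.2 h)
    rw [inter_self] at this
    exact this.le
  calc len a b ≤ (65 : NNReal) * eVariationOn id (Icc a b) := h1
    _ ≤ (65 : NNReal) * ENNReal.ofReal (b - a) := by gcongr
    _ = ENNReal.ofReal (65 * (b - a)) := by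
        rw [ENNReal.ofReal_mul (by norm_num)]; simp

theorem len_ne_top {a b : ℝ} (h : a ≤ b) : len a b ≠ ⊤ :=
  ne_top_of_le_ne_top ENNReal.ofReal_ne_top (len_le h)

theorem le_len {a b : ℝ} (h : a ≤ b) : ENNReal.ofReal (b - a) ≤ len a b := by
  have h1 : edist (arc a) (arc b) ≤ len a b :=
    eVariationOn.edist_le _ (left_mem_Icc.2 h) (right_mem_Icc.2 h)
  refine le_trans ?_ h1
  rw [edist_dist]
  refine ENNReal.ofReal_le_ofReal ?_
  have := le_dist_arc a b
  rw [abs_sub_comm] at this
  exact (le_abs_self _).trans this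

theorem len_add {a b c : ℝ} (hab : a ≤ b) (hbc : b ≤ c) : len a b + len b c = len a c := by
  have := eVariationOn.Icc_add_Icc arc (s := univ) hab hbc (mem_univ _)
  simpa [len] using this

/-- The real-valued length. -/
noncomputable def rlen (a b : ℝ) : ℝ := (len a b).toReal

theorem rlen_le {a b : ℝ} (h : a ≤ b) : rlen a b ≤ 65 * (b - a) :=
  ENNReal.toReal_le_of_le_ofReal (by linarith) (len_le h)

theorem le_rlen {a b : ℝ} (h : a ≤ b) : b - a ≤ rlen a b :=
  (ENNReal.ofReal_le_iff_le_toReal (len_ne_top h)).1 (le_len h)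

theorem rlen_add {a b c : ℝ} (hab : a ≤ b) (hbc : b ≤ c) : rlen a b + rlen b c = rlen a c := by
  unfold rlen
  rw [← len_add hab hbc, ENNReal.toReal_add (len_ne_top hab) (len_ne_top hbc)]

theorem pathEDist_comm_le (M : Set E3) (p q : E3) : pathEDist M p q ≤ pathEDist M q p := by
  unfold pathEDist
  refine le_iInf₂ fun γ hγ => ?_
  refine iInf₂_le_of_le (γ.comp ⟨unitInterval.symm, unitInterval.continuous_symm⟩) ?_ ?_
  · refine ⟨?_, ?_, fun t => hγ.2.2 _⟩
    · simp [hγ.2.1]
    · simp [hγ.1]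
  · exact eVariationOn.comp_le_of_antitoneOn γ unitInterval.symm
      (fun a _ b _ h => unitInterval.strictAnti_symm.antitone h) (mapsTo_univ _ _)

theorem pathEDist_comm (M : Set E3) (p q : E3) : pathEDist M p q = pathEDist M q p :=
  le_antisymm (pathEDist_comm_le M p q) (pathEDist_comm_le M q p)

/-- The first time at which a function reaches the value `y`. -/
theorem exists_hitting (g : unitInterval → ℝ) (hg : Continuous g) {a b : ℝ}
    (h0 : g 0 = a) (h1 : g 1 = b) :
    ∃ h : ℝ → unitInterval, MonotoneOn h (Icc a b) ∧ ∀ y ∈ Icc a b, g (h y) = y := by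
  classical
  refine ⟨fun y => sInf {t | y ≤ g t}, ?_, ?_⟩
  · intro y _ z _ hyz
    exact sInf_le_sInf fun t ht => hyz.trans ht
  · intro y hy
    have hne : {t : unitInterval | y ≤ g t}.Nonempty := ⟨1, by simpa [h1] using hy.2⟩
    have hcl : IsClosed {t : unitInterval | y ≤ g t} := isClosed_le continuous_const hg
    have hmem : sInf {t : unitInterval | y ≤ g t} ∈ {t : unitInterval | y ≤ g t} :=
      hcl.sInf_mem hne
    refine le_antisymm ?_ hmem
    by_contra hlt
    push Not at hlt
    set τ := sInf {t : unitInterval | y ≤ g t} with hτ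
    have hsub := intermediate_value_Icc (show (0 : unitInterval) ≤ τ from τ.2.1) hg.continuousOn
    obtain ⟨s, hs, hsy⟩ := hsub (show y ∈ Icc (g 0) (g τ) from ⟨by rw [h0]; exact hy.1, hlt.le⟩)
    have : τ ≤ s := sInf_le (show y ≤ g s from hsy.ge)
    have hsτ : s = τ := le_antisymm hs.2 this
    rw [hsτ] at hsy
    exact absurd hsy hlt.ne'

theorem pathEDist_arc {a b : ℝ} (ha : a ∈ Icc (0 : ℝ) 1) (hb : b ∈ Icc (0 : ℝ) 1) (hab : a ≤ b) :
    pathEDist theArc (arc a) (arc b) = len a b := by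
  unfold pathEDist
  apply le_antisymm
  · have hc : Continuous fun u : unitInterval => arc (a + u * (b - a)) :=
      arc_lipschitz.continuous.comp (by fun_prop)
    refine iInf₂_le_of_le ⟨fun u => arc (a + u * (b - a)), hc⟩ ?_ ?_
    · refine ⟨by simp, by simp, fun t => ⟨_, ?_, rfl⟩⟩
      have h1 := t.2.1
      have h2 := t.2.2
      constructor
      · have := ha.1; nlinarith
      · have := hb.2; nlinarith
    · refine eVariationOn.comp_le_of_monotoneOn arc (fun u : unitInterval => a + u * (b - a)) ?_ ?_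
      · intro u _ v _ huv
        have : (u : ℝ) ≤ v := huv
        simp only
        nlinarith
      · intro t _
        have h1 := t.2.1
        have h2 := t.2.2
        constructor
        · simp only; nlinarith
        · simp only; nlinarith
  · refine le_iInf₂ fun γ hγ => ?_
    obtain ⟨h, hm, hh⟩ := exists_hitting (fun t => γ t 0) (by fun_prop) (a := a) (b := b)
      (by simp [hγ.1]) (by simp [hγ.2.1])
    have hγ' : ∀ t, γ t = arc (γ t 0) := by
      intro t
      obtain ⟨x, _, hx⟩ := hγ.2.2 t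
      rw [← hx]; rfl
    have h1 : EqOn arc (γ ∘ h) (Icc a b) := by
      intro y hy
      simp only [Function.comp_apply]
      rw [hγ' (h y)]
      rw [hh y hy]
    calc len a b = eVariationOn (γ ∘ h) (Icc a b) := eVariationOn.congr h1
      _ ≤ eVariationOn γ univ := eVariationOn.comp_le_of_monotoneOn γ h hm (mapsTo_univ _ _)

theorem dM_arc {a b : ℝ} (ha : a ∈ Icc (0 : ℝ) 1) (hb : b ∈ Icc (0 : ℝ) 1) (hab : a ≤ b) :
    dM theArc (arc a) (arc b) = rlen a b := by
  unfold dM rlen
  rw [pathEDist_arc ha hb hab]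

theorem dM_comm (p q : E3) : dM theArc p q = dM theArc q p := by
  unfold dM
  rw [pathEDist_comm]

theorem arc_finite : ∀ p ∈ theArc, ∀ q ∈ theArc, pathEDist theArc p q ≠ ⊤ := by
  rintro _ ⟨a, ha, rfl⟩ _ ⟨b, hb, rfl⟩
  rcases le_total a b with h | h
  · rw [pathEDist_arc ha hb h]; exact len_ne_top h
  · rw [pathEDist_comm, pathEDist_arc hb ha h]; exact len_ne_top h

theorem arc_M2 : ∃ δ > 0, ∃ ξ > 1, ∀ p ∈ theArc, ∀ q ∈ theArc, ‖p - q‖ < δ →
    ‖p - q‖ ≤ dM theArc p q ∧ dM theArc p q ≤ ξ * ‖p - q‖ := by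
  refine ⟨1, one_pos, 65, by norm_num, ?_⟩
  have key : ∀ a ∈ Icc (0 : ℝ) 1, ∀ b ∈ Icc (0 : ℝ) 1, a ≤ b →
      ‖arc a - arc b‖ ≤ dM theArc (arc a) (arc b) ∧
      dM theArc (arc a) (arc b) ≤ 65 * ‖arc a - arc b‖ := by
    intro a ha b hb hab
    rw [dM_arc ha hb hab]
    constructor
    · unfold rlen
      have h1 : edist (arc a) (arc b) ≤ len a b :=
        eVariationOn.edist_le _ (left_mem_Icc.2 hab) (right_mem_Icc.2 hab)
      rw [edist_dist, ENNReal.ofReal_le_iff_le_toReal (len_ne_top hab), dist_eq_norm] at h1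
      exact h1
    · refine (rlen_le hab).trans ?_
      have := le_dist_arc a b
      rw [abs_sub_comm, abs_of_nonneg (by linarith), dist_eq_norm] at this
      linarith
  rintro _ ⟨a, ha, rfl⟩ _ ⟨b, hb, rfl⟩ _
  rcases le_total a b with h | h
  · exact key a ha b hb h
  · rw [norm_sub_rev, dM_comm]; exact key b hb a ha h

theorem geodesic_aux {a b : ℝ} (ha : a ∈ Icc (0 : ℝ) 1) (hb : b ∈ Icc (0 : ℝ) 1) (hab : a ≤ b) :
    ∃ c : ℝ → E3, c 0 = arc a ∧ c (rlen a b) = arc b ∧
      (∀ u ∈ Icc 0 (rlen a b), c u ∈ theArc) ∧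
      ∀ u ∈ Icc 0 (rlen a b), ∀ v ∈ Icc 0 (rlen a b), dM theArc (c u) (c v) = |u - v| := by
  have hT0 : rlen a a = 0 := by
    have h1 := rlen_le (le_refl a)
    have h2 := le_rlen (le_refl a)
    linarith
  have hcont : ContinuousOn (rlen a) (Icc a b) := by
    have : LipschitzOnWith 65 (rlen a) (Icc a b) := by
      refine LipschitzOnWith.of_dist_le_mul fun x hx y hy => ?_
      have key : ∀ x ∈ Icc a b, ∀ y ∈ Icc a b, x ≤ y → |rlen a x - rlen a y| ≤ 65 * |x - y| := by
        intro x hx y hy hxy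
        have h1 := rlen_add hx.1 hxy
        have h2 := rlen_le hxy
        have h3 := le_rlen hxy
        rw [abs_sub_comm, abs_sub_comm x y, abs_of_nonneg (by linarith),
          abs_of_nonneg (by linarith)]
        linarith
      rw [Real.dist_eq, Real.dist_eq]
      rcases le_total x y with h | h
      · exact key x hx y hy h
      · rw [abs_sub_comm, abs_sub_comm x y]; exact key y hy x hx h
    exact this.continuousOn
  have hsurj : ∀ u ∈ Icc 0 (rlen a b), ∃ x ∈ Icc a b, rlen a x = u := by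
    intro u hu
    have := intermediate_value_Icc hab hcont
    rw [hT0] at this
    exact this hu
  choose! x hx hxu using hsurj
  have hsub : Icc a b ⊆ Icc (0 : ℝ) 1 := Icc_subset_Icc ha.1 hb.2
  have h0mem : (0 : ℝ) ∈ Icc 0 (rlen a b) := ⟨le_rfl, by have := le_rlen hab; linarith⟩
  have h1mem : rlen a b ∈ Icc 0 (rlen a b) := ⟨by have := le_rlen hab; linarith, le_rfl⟩
  refine ⟨fun u => arc (x u), ?_, ?_, ?_, ?_⟩
  · have h1 := hx 0 h0mem
    have h2 := hxu 0 h0mem
    have h3 := le_rlen h1.1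
    have : x 0 = a := le_antisymm (by linarith) h1.1
    simp only [this]
  · have h1 := hx _ h1mem
    have h2 := hxu _ h1mem
    have h3 := rlen_add h1.1 h1.2
    have h4 := le_rlen h1.2
    have : x (rlen a b) = b := le_antisymm h1.2 (by linarith)
    simp only [this]
  · intro u hu
    exact ⟨x u, hsub (hx u hu), rfl⟩
  · have key : ∀ u ∈ Icc 0 (rlen a b), ∀ v ∈ Icc 0 (rlen a b), x u ≤ x v →
        dM theArc (arc (x u)) (arc (x v)) = |u - v| := by
      intro u hu v hv huv
      rw [dM_arc (hsub (hx u hu)) (hsub (hx v hv)) huv]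
      have h1 := rlen_add (hx u hu).1 huv
      rw [hxu u hu, hxu v hv] at h1
      have h2 := le_rlen huv
      rw [abs_sub_comm, abs_of_nonneg (by linarith)]
      linarith
    intro u hu v hv
    simp only
    rcases le_total (x u) (x v) with h | h
    · exact key u hu v hv h
    · rw [dM_comm, abs_sub_comm]; exact key v hv u hu h

theorem arc_geodesic : ∀ p ∈ theArc, ∀ q ∈ theArc, ∃ c : ℝ → E3,
    c 0 = p ∧ c (dM theArc p q) = q ∧ (∀ a ∈ Icc 0 (dM theArc p q), c a ∈ theArc) ∧
    ∀ a ∈ Icc 0 (dM theArc p q), ∀ b ∈ Icc 0 (dM theArc p q),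
      dM theArc (c a) (c b) = |a - b| := by
  rintro _ ⟨a, ha, rfl⟩ _ ⟨b, hb, rfl⟩
  rcases le_total a b with h | h
  · rw [dM_arc ha hb h]
    exact geodesic_aux ha hb h
  · rw [dM_comm, dM_arc hb ha h]
    obtain ⟨c, h0, h1, h2, h3⟩ := geodesic_aux hb ha h
    refine ⟨fun u => c (rlen b a - u), by simp [h1], by simp [h0], ?_, ?_⟩
    · intro u hu
      exact h2 _ ⟨by linarith [hu.2], by linarith [hu.1]⟩
    · intro u hu v hv
      rw [h3 _ ⟨by linarith [hu.2], by linarith [hu.1]⟩ _ ⟨by linarith [hv.2], by linarith [hv.1]⟩]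
      rw [abs_sub_comm u v]
      congr 1; ring

end Pool.Agent.X132.Shadow
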