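import Mathlib
import Pool.Agent.X132.ShadowB

/-!
# The arc is admissible; continuous logarithms on contractible spaces
-/

namespace Pool.Agent.X132.Shadow

open Set Topology

universe u

theorem arc_isCompact : IsCompact theArc := isCompact_Icc.image arc_lipschitz.continuous

theorem arc_isConnected : IsConnected theArc :=
  (isConnected_Icc zero_le_one).image _ arc_lipschitz.continuous.continuousOn

/-- The arc is homeomorphic to the unit interval. -/
noncomputable def arcHomeo : theArc ≃ₜ unitInterval where
  toFun p := ⟨p.1 0, by obtain ⟨x, hx, h⟩ := p.2; rw [← h]; exact hx⟩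
  invFun t := ⟨arc t, t.1, t.2, rfl⟩
  left_inv := by
    rintro ⟨_, x, hx, rfl⟩
    rfl
  right_inv := by
    intro t; rfl
  continuous_toFun := by
    refine Continuous.subtype_mk ?_ _
    fun_prop
  continuous_invFun := by
    refine Continuous.subtype_mk ?_ _
    exact arc_lipschitz.continuous.comp continuous_subtype_val

instance : ContractibleSpace unitInterval :=
  (convex_Icc (0 : ℝ) 1).contractibleSpace ⟨0, by simp⟩

theorem theArc_contractible : ContractibleSpace theArc := arcHomeo.contractibleSpace

theorem arc_M1 : ∃ ρ > 0, ∀ (X : Type u) [TopologicalSpace X] (f g : C(X, theArc)),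
    (∀ x, dM theArc (f x) (g x) < ρ) → f.Homotopic g := by
  refine ⟨1, one_pos, fun X _ f g _ => ?_⟩
  haveI := theArc_contractible
  obtain ⟨y, hy⟩ := id_nullhomotopic theArc
  have h1 : f.Homotopic (ContinuousMap.const X y) := by
    have := hy.comp (ContinuousMap.Homotopic.refl f)
    simpa using this
  have h2 : g.Homotopic (ContinuousMap.const X y) := by
    have := hy.comp (ContinuousMap.Homotopic.refl g)
    simpa using this
  exact h1.trans h2.symm

/-- The retraction of three-space onto the arc. -/
noncomputable def retr (p : E3) : E3 := arc (max 0 (min 1 (p 0)))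

theorem retr_mem (p : E3) : retr p ∈ theArc :=
  ⟨_, ⟨le_max_left _ _, max_le zero_le_one (min_le_left _ _)⟩, rfl⟩

theorem retr_self {p : E3} (hp : p ∈ theArc) : retr p = p := by
  obtain ⟨x, hx, rfl⟩ := hp
  unfold retr
  rw [arc_zero, min_eq_right hx.2, max_eq_right hx.1]

theorem retr_dist (p q : E3) : dist (retr p) (retr q) ≤ 65 * dist p q := by
  refine (dist_arc_le _ _).trans ?_
  have h1 : |p 0 - q 0| ≤ dist p q := by
    rw [dist_eq_norm]; exact coord_le_norm (p - q) 0
  have h2 : |max 0 (min 1 (p 0)) - max 0 (min 1 (q 0))| ≤ |p 0 - q 0| := by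
    refine (abs_max_sub_max_le_max _ _ _ _).trans ?_
    rw [sub_self, abs_zero]
    refine max_le (abs_nonneg _) ?_
    refine (abs_min_sub_min_le_max _ _ _ _).trans ?_
    rw [sub_self, abs_zero]
    exact max_le (abs_nonneg _) le_rfl
  linarith

theorem retr_continuous : Continuous retr := by
  have : LipschitzWith 65 retr := LipschitzWith.of_dist_le_mul fun p q => retr_dist p q
  exact this.continuous

theorem arc_retraction : ∃ U ∈ 𝓝ˢ theArc, ∃ π : E3 → E3,
    ContinuousOn π U ∧ (∀ x ∈ U, π x ∈ theArc) ∧ (∀ x ∈ theArc, π x = x) ∧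
    ∃ ε : ℝ → ℝ, (∀ r > 0, nbhd r theArc ⊆ U →
      0 < ε r ∧ ∀ x ∈ nbhd r theArc, ‖π x - x‖ < ε r) ∧
      Filter.Tendsto ε (𝓝[>] 0) (𝓝 0) := by
  refine ⟨univ, Filter.univ_mem, retr, retr_continuous.continuousOn, fun x _ => retr_mem x,
    fun x hx => retr_self hx, fun r => 67 * r, ?_, ?_⟩
  · intro r hr _
    refine ⟨by simp only; linarith, fun x hx => ?_⟩
    obtain ⟨p, hp, hpx⟩ := arc_isCompact.exists_infDist_eq_dist arc_isConnected.nonempty x
    have hx' : Metric.infDist x theArc ≤ r := hx
    rw [hpx] at hx'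
    have h1 := retr_dist x p
    rw [retr_self hp] at h1
    have h2 := dist_triangle (retr x) p x
    rw [dist_comm p x] at h2
    rw [← dist_eq_norm]
    simp only
    linarith
  · have : Filter.Tendsto (fun r : ℝ => 67 * r) (𝓝 0) (𝓝 (67 * 0)) :=
      (continuous_const.mul continuous_id).tendsto 0
    rw [mul_zero] at this
    exact this.mono_left nhdsWithin_le_nhds

theorem arc_admissible : Admissible.{u} theArc where
  compact := arc_isCompact
  connected := arc_isConnected
  finite_dist := arc_finite
  geodesic := arc_geodesic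
  retraction := arc_retraction
  close_maps := arc_M1
  locally_bilipschitz := arc_M2

/-- A nowhere vanishing continuous function on a contractible space has a continuous logarithm. -/
theorem exists_log {X : Type*} [TopologicalSpace X] [ContractibleSpace X]
    (P : C(X, {z : ℂ // z ≠ 0})) : ∃ L : C(X, ℂ), ∀ x, Complex.exp (L x) = P x := by
  obtain ⟨x0, hx0⟩ := id_nullhomotopic X
  have h : (ContinuousMap.const X (P x0)).Homotopic P := by
    have := ContinuousMap.Homotopic.comp (ContinuousMap.Homotopic.refl P) hx0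
    simpa using this.symm
  obtain ⟨H⟩ := h
  have hcov := Complex.isCoveringMap_exp
  let F : C(unitInterval × X, {z : ℂ // z ≠ 0}) := H.toContinuousMap
  have h0 : ∀ a : X, F (0, a) = (fun z : ℂ => (⟨_, z.exp_ne_zero⟩ : {z : ℂ // z ≠ 0}))
      ((ContinuousMap.const X (Complex.log (P x0))) a) := by
    intro a
    apply Subtype.ext
    simp only [ContinuousMap.const_apply]
    rw [Complex.exp_log (P x0).2]
    change (H (0, a) : ℂ) = _
    rw [H.apply_zero]
    rfl
  refine ⟨⟨fun x => hcov.liftHomotopy F (ContinuousMap.const X (Complex.log (P x0))) h0 (1, x),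
    by fun_prop⟩, fun x => ?_⟩
  have h1 := congrFun (hcov.liftHomotopy_lifts F (ContinuousMap.const X (Complex.log (P x0))) h0)
    (1, x)
  have h2 : F (1, x) = P x := H.apply_one x
  rw [h2] at h1
  exact congrArg Subtype.val h1

/-- The argument of a path does not decrease if the path stays on the correct side. -/
theorem im_le {θ w : unitInterval → ℂ} (hθ : Continuous θ) (hw : ∀ t, Complex.exp (θ t) = w t)
    (h : ∀ t, 0 ≤ (w t / w 0).im) : (θ 0).im ≤ (θ 1).im := by
  by_contra hlt
  push Not at hlt
  have hpi := Real.pi_pos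
  have hv1 : (θ 1).im - (θ 0).im ≤ max ((θ 1).im - (θ 0).im) (-(Real.pi / 2)) := le_max_left _ _
  have hv2 : max ((θ 1).im - (θ 0).im) (-(Real.pi / 2)) < 0 := max_lt (by linarith) (by linarith)
  have hv3 : -(Real.pi / 2) ≤ max ((θ 1).im - (θ 0).im) (-(Real.pi / 2)) := le_max_right _ _
  obtain ⟨t, ht⟩ := mem_range_of_exists_le_of_exists_ge
    (f := fun t => (θ t).im - (θ 0).im)
    (c := max ((θ 1).im - (θ 0).im) (-(Real.pi / 2)))
    ((Complex.continuous_im.comp hθ).sub continuous_const) ⟨1, hv1⟩ ⟨0, by simpa using hv2.le⟩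
  have h1 : w t / w 0 = Complex.exp (θ t - θ 0) := by
    rw [Complex.exp_sub, hw, hw]
  have h2 := h t
  rw [h1, Complex.exp_im, Complex.sub_im] at h2
  simp only at ht
  rw [ht] at h2
  have h3 := Real.sin_neg_of_neg_of_neg_pi_lt hv2 (by linarith)
  have h4 := Real.exp_pos (θ t - θ 0).re
  nlinarith

theorem im_ne {θ w : unitInterval → ℂ} (hw : ∀ t, Complex.exp (θ t) = w t)
    (h : 0 < (w 1 / w 0).im) : (θ 1).im ≠ (θ 0).im := by
  intro heq
  have h1 : w 1 / w 0 = Complex.exp (θ 1 - θ 0) := by
    rw [Complex.exp_sub, hw, hw]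
  rw [h1, Complex.exp_im, Complex.sub_im, heq, sub_self, Real.sin_zero] at h
  simp at h

end Pool.Agent.X132.Shadow
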