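import Mathlib
import Pool.Agent.X132.ShadowC

/-!
# The shadow of a fine sample of the arc is not contractible
-/

namespace Pool.Agent.X132.Shadow

open Set Topology

/-- The sample: the points of the arc with parameters `i / 4 ^ m`. -/
noncomputable def sample (m : ℕ) : Finset E3 :=
  (Finset.range (4 ^ m + 1)).image fun i : ℕ => arc (i * (1 / 4) ^ m)

theorem four_mul (m : ℕ) : (4 : ℝ) ^ m * (1 / 4) ^ m = 1 := by
  rw [← mul_pow]; norm_num

theorem sample_mem {m i : ℕ} (hi : i ≤ 4 ^ m) : arc (i * (1 / 4) ^ m) ∈ sample m :=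
  Finset.mem_image.2 ⟨i, Finset.mem_range.2 (by omega), rfl⟩

theorem sample_subset (m : ℕ) {p : E3} (hp : p ∈ sample m) : p ∈ theArc := by
  obtain ⟨i, hi, rfl⟩ := Finset.mem_image.1 hp
  have hi' : i ≤ 4 ^ m := by have := Finset.mem_range.1 hi; omega
  refine ⟨_, ⟨by positivity, ?_⟩, rfl⟩
  have : (i : ℝ) ≤ 4 ^ m := by exact_mod_cast hi'
  calc (i : ℝ) * (1 / 4) ^ m ≤ 4 ^ m * (1 / 4) ^ m := by gcongr
    _ = 1 := four_mul m

theorem sample_dist (m : ℕ) {η : ℝ} (h : 65 * (1 / 4) ^ m < η) :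
    Metric.hausdorffEDist (sample m : Set E3) theArc < ENNReal.ofReal η := by
  have hq : (0 : ℝ) < (1 / 4) ^ m := by positivity
  refine lt_of_le_of_lt (b := ENNReal.ofReal (65 * (1 / 4) ^ m)) ?_
    ((ENNReal.ofReal_lt_ofReal_iff (by linarith)).2 h)
  refine Metric.hausdorffEDist_le_of_mem_edist ?_ ?_
  · intro p hp
    exact ⟨p, sample_subset m hp, by simp⟩
  · rintro _ ⟨x, hx, rfl⟩
    set i := ⌊x * 4 ^ m⌋₊ with hi
    have h1 : (i : ℝ) ≤ x * 4 ^ m := Nat.floor_le (mul_nonneg hx.1 (by positivity))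
    have h2 : x * 4 ^ m < i + 1 := Nat.lt_floor_add_one _
    have hile : i ≤ 4 ^ m := by
      have : (i : ℝ) ≤ 4 ^ m := h1.trans (by
        have := hx.2
        have h4 : (0 : ℝ) < 4 ^ m := by positivity
        nlinarith)
      exact_mod_cast this
    refine ⟨_, sample_mem hile, ?_⟩
    rw [edist_dist]
    refine ENNReal.ofReal_le_ofReal ((dist_arc_le _ _).trans ?_)
    have hx' : x = x * 4 ^ m * (1 / 4) ^ m := by rw [mul_assoc, four_mul, mul_one]
    have h3 : |x - i * (1 / 4) ^ m| ≤ (1 / 4) ^ m := by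
      rw [abs_le]
      constructor
      · nlinarith
      · nlinarith
    linarith

/-- The shadow of a sample avoids the axis of the `k`-th loop. -/
theorem shadow_avoids (k m : ℕ) {w : E3} (hw : w ∈ shadow ((1 / 4) ^ k) (sample m)) :
    ¬ (w 1 = 2 * (1 / 4) ^ k ∧ w 2 = 2 * (1 / 4) ^ k) := by
  rintro ⟨h1, h2⟩
  have hq : (0 : ℝ) < (1 / 4) ^ k := by positivity
  obtain ⟨σ, ⟨hσ, ⟨p, hp⟩, hd⟩, hwσ⟩ := mem_iUnion₂.1 hw
  have hsub : (σ : Set E3) ⊆ Metric.ball p ((1 / 4) ^ k) := by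
    intro s hs
    have hb : Bornology.IsBounded (σ : Set E3) := σ.finite_toSet.isBounded
    exact lt_of_le_of_lt (Metric.dist_le_diam_of_mem hb hs hp) hd
  have hwb : w ∈ Metric.ball p ((1 / 4) ^ k) :=
    convexHull_min hsub (convex_ball _ _) hwσ
  rw [Metric.mem_ball, dist_eq_norm] at hwb
  have c1 := coord_le_norm (w - p) 1
  have c2 := coord_le_norm (w - p) 2
  obtain ⟨x, hx, hxp⟩ := sample_subset m (hσ hp)
  rw [PiLp.sub_apply, h1, ← hxp, arc_one] at c1
  rw [PiLp.sub_apply, h2, ← hxp, arc_two] at c2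
  rw [← hxp] at hwb
  have c1' := abs_lt.1 (lt_of_le_of_lt c1 hwb)
  have c2' := abs_lt.1 (lt_of_le_of_lt c2 hwb)
  rcases wave_values hx.1 hx.2 with h | h | ⟨j, hj⟩
  · rw [h] at c1'; linarith [c1'.2]
  · rw [h] at c2'; linarith [c2'.2]
  · rcases lt_trichotomy j k with h | h | h
    · have h3 : ((1 : ℝ) / 4) ^ k ≤ (1 / 4) ^ j / 4 := by
        have : ((1 : ℝ) / 4) ^ k ≤ (1 / 4) ^ (j + 1) :=
          pow_le_pow_of_le_one (by norm_num) (by norm_num) h
        rw [pow_succ] at this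
        linarith
      linarith [c1'.1, c2'.1]
    · rw [h] at hj; linarith [c1'.1, c2'.1]
    · have h3 : ((1 : ℝ) / 4) ^ j ≤ (1 / 4) ^ k / 4 := by
        have : ((1 : ℝ) / 4) ^ j ≤ (1 / 4) ^ (k + 1) :=
          pow_le_pow_of_le_one (by norm_num) (by norm_num) h
        rw [pow_succ] at this
        linarith
      linarith [c1'.2, c2'.2]

/-- Segments between close sample points lie in the shadow. -/
theorem seg_mem {β : ℝ} {S : Finset E3} {p q : E3} (hp : p ∈ S) (hq : q ∈ S) (h : dist p q < β)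
    {w : E3} (hw : w ∈ segment ℝ p q) : w ∈ shadow β S := by
  classical
  refine mem_iUnion₂.2 ⟨{p, q}, ⟨?_, ⟨p, by simp⟩, ?_⟩, ?_⟩
  · intro x hx
    simp only [Finset.mem_insert, Finset.mem_singleton] at hx
    rcases hx with rfl | rfl
    · exact hp
    · exact hq
  · simpa [Metric.diam_pair] using h
  · simpa [convexHull_pair] using hw

/-- On an interval on which both coordinate functions are affine, the arc is a segment. -/
theorem arc_mem_segment {a b x A B C D : ℝ} (hab : a < b) (hx : x ∈ Icc a b)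
    (h1 : ∀ y ∈ Icc a b, wave (1 / 2) y = A * y + B) (h2 : ∀ y ∈ Icc a b, wave (3 / 4) y = C * y + D) :
    arc x ∈ segment ℝ (arc a) (arc b) := by
  have hba : 0 < b - a := by linarith
  refine ⟨(b - x) / (b - a), (x - a) / (b - a), div_nonneg (by linarith [hx.2]) hba.le,
    div_nonneg (by linarith [hx.1]) hba.le, by field_simp; ring, ?_⟩
  ext i
  fin_cases i
  · simp only [Fin.zero_eta, PiLp.add_apply, PiLp.smul_apply, arc_zero, smul_eq_mul]
    field_simp; ring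
  · simp only [Fin.mk_one, PiLp.add_apply, PiLp.smul_apply, arc_one, smul_eq_mul]
    rw [h1 a (left_mem_Icc.2 hab.le), h1 b (right_mem_Icc.2 hab.le), h1 x hx]
    field_simp; ring
  · simp only [Fin.reduceFinMk, PiLp.add_apply, PiLp.smul_apply, arc_two, smul_eq_mul]
    rw [h2 a (left_mem_Icc.2 hab.le), h2 b (right_mem_Icc.2 hab.le), h2 x hx]
    field_simp; ring

theorem edge_mem (k n e : ℕ) (he : e + 1 ≤ 4) {A B C D : ℝ}
    (hm : 65 * (1 / 4 : ℝ) ^ (k + 1 + n) < (1 / 4) ^ k)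
    (h1 : ∀ y ∈ Icc ((1 / 4 : ℝ) ^ k * (e / 4)) ((1 / 4) ^ k * ((e + 1) / 4)),
      wave (1 / 2) y = A * y + B)
    (h2 : ∀ y ∈ Icc ((1 / 4 : ℝ) ^ k * (e / 4)) ((1 / 4) ^ k * ((e + 1) / 4)),
      wave (3 / 4) y = C * y + D) {x : ℝ}
    (hx : x ∈ Icc ((1 / 4 : ℝ) ^ k * (e / 4)) ((1 / 4) ^ k * ((e + 1) / 4))) :
    arc x ∈ shadow ((1 / 4) ^ k) (sample (k + 1 + n)) := by
  set m := k + 1 + n with hmdef
  have hr : (0 : ℝ) < (1 / 4) ^ m := by positivity
  have hscale : ∀ c : ℕ, (1 / 4 : ℝ) ^ k * (c / 4) = (c * 4 ^ n : ℕ) * (1 / 4) ^ m := by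
    intro c
    rw [hmdef, pow_add, pow_add]
    push_cast
    have := four_mul n
    have h3 : (1 / 4 : ℝ) ^ k * (c / 4) = (1 / 4 : ℝ) ^ k * (c / 4) * (4 ^ n * (1 / 4) ^ n) := by
      rw [this, mul_one]
    rw [h3]; ring
  have hle4 : ∀ c : ℕ, c ≤ 4 → c * 4 ^ n ≤ 4 ^ m := by
    intro c hc
    calc c * 4 ^ n ≤ 4 * 4 ^ n := Nat.mul_le_mul_right _ hc
      _ = 4 ^ (n + 1) := by ring
      _ ≤ 4 ^ m := Nat.pow_le_pow_right (by norm_num) (by omega)
  have hs1 := hscale e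
  have hs2 := hscale (e + 1)
  push_cast at hs1 hs2
  rcases hx.2.eq_or_lt with hxe | hxlt
  · -- the right end point is a sample point
    have hmem := sample_mem (m := m) (i := (e + 1) * 4 ^ n) (hle4 _ he)
    have hxe' : x = (((e + 1) * 4 ^ n : ℕ) : ℝ) * (1 / 4) ^ m := by
      rw [hxe]; push_cast; exact hs2
    rw [hxe']
    refine seg_mem hmem hmem ?_ (left_mem_segment ℝ _ _)
    rw [dist_self]; positivity
  · set i := ⌊x * 4 ^ m⌋₊ with hi
    have hx0 : 0 ≤ x := le_trans (by positivity) hx.1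
    have hX : x = x * 4 ^ m * (1 / 4) ^ m := by rw [mul_assoc, four_mul, mul_one]
    have g1 : (i : ℝ) ≤ x * 4 ^ m := Nat.floor_le (mul_nonneg hx0 (by positivity))
    have g2 : x * 4 ^ m < i + 1 := Nat.lt_floor_add_one _
    have g3 : e * 4 ^ n ≤ i := by
      rw [hi]
      apply Nat.le_floor
      have : ((e : ℝ) * 4 ^ n) * (1 / 4) ^ m ≤ x * 4 ^ m * (1 / 4) ^ m := by
        rw [← hX, ← hs1]; exact hx.1
      have := le_of_mul_le_mul_right this hr
      push_cast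
      exact this
    have g4 : i < (e + 1) * 4 ^ n := by
      rw [hi, Nat.floor_lt (mul_nonneg hx0 (by positivity))]
      have : x * 4 ^ m * (1 / 4) ^ m < (((e : ℝ) + 1) * 4 ^ n) * (1 / 4) ^ m := by
        rw [← hX, ← hs2]; exact hxlt
      have := lt_of_mul_lt_mul_right this hr.le
      push_cast
      exact this
    have hi4 : i + 1 ≤ 4 ^ m := by have := hle4 _ he; omega
    have m1 := sample_mem (m := m) (i := i) (by omega)
    have m2 := sample_mem (m := m) (i := i + 1) hi4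
    push_cast at m2
    have ha : (1 / 4 : ℝ) ^ k * (e / 4) ≤ i * (1 / 4) ^ m := by
      rw [hs1]
      have : (e : ℝ) * 4 ^ n ≤ i := by exact_mod_cast g3
      gcongr
    have hb : ((i : ℝ) + 1) * (1 / 4) ^ m ≤ (1 / 4 : ℝ) ^ k * ((e + 1) / 4) := by
      rw [hs2]
      have : (i : ℝ) + 1 ≤ ((e : ℝ) + 1) * 4 ^ n := by exact_mod_cast g4
      gcongr
    have hab : (i : ℝ) * (1 / 4) ^ m < ((i : ℝ) + 1) * (1 / 4) ^ m := by nlinarith
    refine seg_mem m1 m2 ?_ (arc_mem_segment (A := A) (B := B) (C := C) (D := D) hab ?_ ?_ ?_)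
    · refine lt_of_le_of_lt (dist_arc_le _ _) (lt_of_le_of_lt ?_ hm)
      rw [abs_sub_comm, abs_of_nonneg (by linarith)]
      linarith
    · constructor
      · rw [hX]; gcongr
      · rw [hX]; gcongr
    · intro y hy; exact h1 y ⟨ha.trans hy.1, hy.2.trans hb⟩
    · intro y hy; exact h2 y ⟨ha.trans hy.1, hy.2.trans hb⟩

end Pool.Agent.X132.Shadow
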