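import Mathlib

/-!
# Fractional revival: algebraic preliminaries
-/

namespace Pool.Agent.X132.FR

open Polynomial

/-- A rational number embedded in the reals. -/
def IsRat (x : ℝ) : Prop := ∃ q : ℚ, (q : ℝ) = x

theorem IsRat.add {x y : ℝ} (hx : IsRat x) (hy : IsRat y) : IsRat (x + y) := by
  obtain ⟨a, rfl⟩ := hx
  obtain ⟨b, rfl⟩ := hy
  exact ⟨a + b, by push_cast; ring⟩

theorem IsRat.mul {x y : ℝ} (hx : IsRat x) (hy : IsRat y) : IsRat (x * y) := by
  obtain ⟨a, rfl⟩ := hx
  obtain ⟨b, rfl⟩ := hy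
  exact ⟨a * b, by push_cast; ring⟩

theorem IsRat.neg {x : ℝ} (hx : IsRat x) : IsRat (-x) := by
  obtain ⟨a, rfl⟩ := hx
  exact ⟨-a, by push_cast; ring⟩

theorem IsRat.div {x y : ℝ} (hx : IsRat x) (hy : IsRat y) : IsRat (x / y) := by
  obtain ⟨a, rfl⟩ := hx
  obtain ⟨b, rfl⟩ := hy
  exact ⟨a / b, by push_cast; ring⟩

theorem isRat_sum {ι : Type*} (s : Finset ι) (f : ι → ℝ) (h : ∀ i ∈ s, IsRat (f i)) :
    IsRat (∑ i ∈ s, f i) := by
  classical
  induction s using Finset.induction_on with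
  | empty => exact ⟨0, by simp⟩
  | insert a s ha ih =>
    rw [Finset.sum_insert ha]
    exact (h a (Finset.mem_insert_self a s)).add (ih fun i hi => h i (Finset.mem_insert_of_mem hi))

/-- There is a `ℚ`-linear retraction of the reals onto the rationals. -/
theorem exists_proj : ∃ π : ℝ →ₗ[ℚ] ℚ, ∀ q : ℚ, π (q : ℝ) = q := by
  obtain ⟨g, hg⟩ := LinearMap.exists_leftInverse_of_injective (Algebra.linearMap ℚ ℝ)
    (LinearMap.ker_eq_bot.2 (algebraMap ℚ ℝ).injective)
  refine ⟨g, fun q => ?_⟩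
  have := LinearMap.congr_fun hg q
  simpa using this

/-- If all moments of a positive measure with finite support are rational, then the monic
polynomial whose roots are the points of the support has rational coefficients; in particular
the sum of the points of the support is rational. -/
theorem sum_rational {ι : Type*} [Fintype ι] (w x : ι → ℝ) (hw : ∀ j, 0 ≤ w j)
    (hμ : ∀ m : ℕ, IsRat (∑ j, w j * x j ^ m)) (X : Finset ℝ)
    (hX : ∀ y, y ∈ X ↔ ∃ j, w j ≠ 0 ∧ x j = y) : IsRat (∑ y ∈ X, y) := by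
  classical
  obtain ⟨π, hπ⟩ := exists_proj
  set p : ℝ[X] := ∏ y ∈ X, (Polynomial.X - C y) with hp
  have hmonic : p.Monic := monic_prod_of_monic _ _ fun y _ => monic_X_sub_C y
  have hdeg : p.natDegree = X.card := by
    rw [hp, natDegree_prod_of_monic _ _ fun y _ => monic_X_sub_C y]
    simp
  have hroot : ∀ y ∈ X, p.eval y = 0 := by
    intro y hy
    rw [hp, eval_prod]
    exact Finset.prod_eq_zero hy (by simp)
  -- the difference with the projected polynomial
  set q : ℝ[X] := ∑ k ∈ Finset.range X.card, C (p.coeff k - (π (p.coeff k) : ℝ)) * Polynomial.X ^ k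
    with hq
  have hqdeg : q.degree < X.card := by
    rw [hq]
    refine lt_of_le_of_lt (degree_sum_le _ _) ?_
    rw [Finset.sup_lt_iff (by exact_mod_cast WithBot.bot_lt_coe _)]
    intro k hk
    refine lt_of_le_of_lt (degree_C_mul_X_pow_le _ _) ?_
    exact_mod_cast Finset.mem_range.1 hk
  -- orthogonality
  have hL : ∀ m : ℕ, ∑ j, w j * (q.eval (x j) * x j ^ m) = 0 := by
    intro m
    have h1 : ∑ j, w j * (p.eval (x j) * x j ^ m) = 0 := by
      refine Finset.sum_eq_zero fun j _ => ?_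
      by_cases hj : w j = 0
      · rw [hj, zero_mul]
      · rw [hroot _ ((hX _).2 ⟨j, hj, rfl⟩)]; ring
    have h2 : ∑ j, w j * (p.eval (x j) * x j ^ m) =
        ∑ k ∈ Finset.range (X.card + 1), p.coeff k * ∑ j, w j * x j ^ (k + m) := by
      simp only [eval_eq_sum_range, hdeg, Finset.sum_mul, Finset.mul_sum]
      rw [Finset.sum_comm]
      refine Finset.sum_congr rfl fun k _ => Finset.sum_congr rfl fun j _ => ?_
      rw [pow_add]; ring
    choose μ hμ' using hμ
    have h3 : ∑ k ∈ Finset.range (X.card + 1), p.coeff k * (μ (k + m) : ℝ) = 0 := by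
      rw [← h1, h2]
      refine Finset.sum_congr rfl fun k _ => ?_
      rw [hμ']
    have h4 : ∑ k ∈ Finset.range (X.card + 1), π (p.coeff k) * μ (k + m) = 0 := by
      have := congrArg π h3
      rw [map_sum, map_zero] at this
      rw [← this]
      refine Finset.sum_congr rfl fun k _ => ?_
      have : p.coeff k * (μ (k + m) : ℝ) = (μ (k + m)) • p.coeff k := by
        rw [Algebra.smul_def]; simp [mul_comm]
      rw [this, map_smul, smul_eq_mul, mul_comm]
    have h5 : ∑ k ∈ Finset.range (X.card + 1), (π (p.coeff k) : ℝ) * (μ (k + m) : ℝ) = 0 := by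
      exact_mod_cast h4
    have h6 : ∑ k ∈ Finset.range (X.card + 1), (p.coeff k - (π (p.coeff k) : ℝ)) *
        (μ (k + m) : ℝ) = 0 := by
      simp only [sub_mul, Finset.sum_sub_distrib]
      rw [h3, h5, sub_zero]
    rw [Finset.sum_range_succ] at h6
    have h7 : p.coeff X.card - (π (p.coeff X.card) : ℝ) = 0 := by
      have : p.coeff X.card = 1 := by rw [← hdeg]; exact hmonic.coeff_natDegree
      rw [this]
      have h8 := hπ 1
      push_cast at h8
      rw [h8]; simp
    rw [h7, zero_mul, add_zero] at h6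
    rw [← h6, hq]
    simp only [eval_finsetSum, eval_mul, eval_C, eval_pow, eval_X, Finset.sum_mul, Finset.mul_sum,
      ← hμ']
    rw [Finset.sum_comm]
    refine Finset.sum_congr rfl fun k _ => ?_
    rw [hμ', Finset.mul_sum]
    refine Finset.sum_congr rfl fun j _ => ?_
    rw [pow_add]; ring
  have hsq : ∑ j, w j * (q.eval (x j)) ^ 2 = 0 := by
    have h1 : ∑ j, w j * (q.eval (x j)) ^ 2 =
        ∑ k ∈ Finset.range (q.natDegree + 1), q.coeff k * ∑ j, w j * (q.eval (x j) * x j ^ k) := by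
      have h2 : ∀ j, w j * (q.eval (x j)) ^ 2 = ∑ k ∈ Finset.range (q.natDegree + 1),
          q.coeff k * (w j * (q.eval (x j) * x j ^ k)) := by
        intro j
        rw [sq]
        conv_lhs => rw [eval_eq_sum_range]
        rw [Finset.sum_mul, Finset.mul_sum]
        conv_lhs => rw [← eval_eq_sum_range]
        refine Finset.sum_congr rfl fun k _ => by ring
      simp only [h2, Finset.mul_sum]
      rw [Finset.sum_comm]
    rw [h1]
    refine Finset.sum_eq_zero fun k _ => ?_
    rw [hL k, mul_zero]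
  have hqroot : ∀ y ∈ X, q.eval y = 0 := by
    intro y hy
    obtain ⟨j, hj, rfl⟩ := (hX y).1 hy
    have h1 := (Finset.sum_eq_zero_iff_of_nonneg (fun j _ => mul_nonneg (hw j)
      (sq_nonneg (q.eval (x j))))).1 hsq j (Finset.mem_univ j)
    rcases mul_eq_zero.1 h1 with h | h
    · exact absurd h hj
    · exact pow_eq_zero_iff (two_ne_zero) |>.1 h
  have hq0 : q = 0 := by
    by_contra hne
    have h1 : X.card ≤ q.roots.toFinset.card := Finset.card_le_card fun y hy => by
      rw [Multiset.mem_toFinset, mem_roots hne]; exact hqroot y hy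
    have h2 := Multiset.toFinset_card_le q.roots
    have h3 := card_roots' q
    have h4 : q.natDegree < X.card := (natDegree_lt_iff_degree_lt hne).2 hqdeg
    omega
  have hcoeff : ∀ k, k < X.card → IsRat (p.coeff k) := by
    intro k hk
    have h1 : q.coeff k = p.coeff k - (π (p.coeff k) : ℝ) := by
      rw [hq, finsetSum_coeff]
      simp only [coeff_C_mul, coeff_X_pow]
      simp [hk]
    rw [hq0, coeff_zero] at h1
    exact ⟨π (p.coeff k), by linarith⟩
  rcases Nat.eq_zero_or_pos X.card with h0 | h0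
  · rw [Finset.card_eq_zero] at h0
    rw [h0]; exact ⟨0, by simp⟩
  · have h1 : p.coeff (X.card - 1) = -∑ y ∈ X, y := by
      have h2 := prod_X_sub_C_nextCoeff (s := X) (fun y : ℝ => y)
      rw [← hp, nextCoeff_of_natDegree_pos (by rw [hdeg]; exact h0), hdeg] at h2
      exact h2
    have h3 := (hcoeff (X.card - 1) (by omega)).neg
    rw [h1, neg_neg] at h3
    exact h3

/-- If moreover all points of the support are integral square multiples of one real number, they
are rational. -/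
theorem points_rational {ι : Type*} [Fintype ι] (w x : ι → ℝ) (hw : ∀ j, 0 ≤ w j)
    (hμ : ∀ m : ℕ, IsRat (∑ j, w j * x j ^ m)) (G : ℝ)
    (hG : ∀ j, w j ≠ 0 → ∃ m : ℤ, x j = G * (m : ℝ) ^ 2) :
    ∀ j, w j ≠ 0 → IsRat (x j) := by
  classical
  set X : Finset ℝ := (Finset.univ.filter fun j => w j ≠ 0).image x with hXdef
  have hX : ∀ y, y ∈ X ↔ ∃ j, w j ≠ 0 ∧ x j = y := by
    intro y
    simp [hXdef]
  have hsum := sum_rational w x hw hμ X hX
  have hm : ∀ y ∈ X, ∃ m : ℤ, y = G * (m : ℝ) ^ 2 := by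
    intro y hy
    obtain ⟨j, hj, rfl⟩ := (hX y).1 hy
    exact hG j hj
  choose! m hm using hm
  have hsum2 : ∑ y ∈ X, y = G * ((∑ y ∈ X, (m y) ^ 2 : ℤ) : ℝ) := by
    push_cast
    rw [Finset.mul_sum]
    exact Finset.sum_congr rfl fun y hy => hm y hy
  by_cases h0 : (∑ y ∈ X, (m y) ^ 2 : ℤ) = 0
  · intro j hj
    have hxj : x j ∈ X := (hX _).2 ⟨j, hj, rfl⟩
    have h1 := (Finset.sum_eq_zero_iff_of_nonneg (fun y _ => sq_nonneg (m y))).1 h0 _ hxj
    have h2 : m (x j) = 0 := pow_eq_zero_iff (two_ne_zero) |>.1 h1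
    rw [hm _ hxj, h2]
    exact ⟨0, by simp⟩
  · have hGrat : IsRat G := by
      have h1 : G = (∑ y ∈ X, y) / ((∑ y ∈ X, (m y) ^ 2 : ℤ) : ℝ) := by
        rw [hsum2]
        have : ((∑ y ∈ X, (m y) ^ 2 : ℤ) : ℝ) ≠ 0 := by exact_mod_cast h0
        field_simp
      rw [h1]
      exact hsum.div ⟨((∑ y ∈ X, (m y) ^ 2 : ℤ) : ℚ), by push_cast; rfl⟩
    intro j hj
    obtain ⟨k, hk⟩ := hG j hj
    rw [hk]
    exact hGrat.mul ⟨(k : ℚ) ^ 2, by push_cast; rfl⟩

/-- The arithmetic at the end of the argument. -/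
theorem int_eq_zero {n : ℤ} {α β : ℝ} (hβ : IsRat β) (hβ0 : β ≠ 0) (h1 : α ^ 2 + β ^ 2 = 1)
    (h2 : (n : ℝ) * β = 2 * α) : n = 0 := by
  obtain ⟨b, rfl⟩ := hβ
  have hb : b ≠ 0 := by rintro rfl; simp at hβ0
  have h3 : ((n : ℝ) ^ 2 + 4) * (b : ℝ) ^ 2 = 4 := by
    have h2' : ((n : ℝ) * b) ^ 2 = (2 * α) ^ 2 := by rw [h2]
    linear_combination h2' + 4 * h1
  have h4 : ((n : ℚ) ^ 2 + 4) * b ^ 2 = 4 := by exact_mod_cast h3
  have h5 : IsSquare (((n ^ 2 + 4 : ℤ)) : ℚ) := by
    refine ⟨2 / b, ?_⟩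
    push_cast
    field_simp
    linarith
  rw [Rat.isSquare_intCast_iff] at h5
  obtain ⟨m, hm⟩ := h5
  by_contra hn
  have h6 : |n| ≥ 1 := Int.one_le_abs hn
  have h7 : m * m = |m| * |m| := (abs_mul_abs_self m).symm
  have h8 : n ^ 2 = |n| * |n| := by rw [abs_mul_abs_self]; ring
  have h9 : |m| > |n| := by
    by_contra hle
    push Not at hle
    have := abs_nonneg m
    nlinarith
  have h10 : |m| < |n| + 2 := by
    by_contra hge
    push Not at hge
    nlinarith
  have h11 : |m| = |n| + 1 := by omega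
  rw [h7, h8, h11] at hm
  have : 2 * |n| = 3 := by nlinarith
  omega

end Pool.Agent.X132.FR
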