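import Mathlib
import Pool.Agent.X132.FRA

/-!
# Fractional revival: the transition matrix
-/

namespace Pool.Agent.X132.FR

open Matrix Complex

variable {V : Type} [Fintype V] [DecidableEq V]

/-- The transition matrix `exp (i t A)` of the continuous-time quantum walk. -/
noncomputable def walk (A : Matrix V V ℂ) (t : ℝ) : Matrix V V ℂ :=
  NormedSpace.exp (((t : ℂ) * I) • A)

/-- A diagonalisation. -/
structure Diag (A : Matrix V V ℂ) (Q : Matrix V V ℂ) (l : V → ℝ) : Prop where
  h1 : Q * Qᴴ = 1
  h2 : Qᴴ * Q = 1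
  h3 : A = Q * Matrix.diagonal (fun j => (l j : ℂ)) * Qᴴ

theorem exists_diag {A : Matrix V V ℂ} (hA : A.IsHermitian) : ∃ Q l, Diag A Q l := by
  refine ⟨(hA.eigenvectorUnitary : Matrix V V ℂ), hA.eigenvalues, ?_, ?_, ?_⟩
  · exact Matrix.mem_unitaryGroup_iff.1 hA.eigenvectorUnitary.2
  · exact Matrix.mem_unitaryGroup_iff'.1 hA.eigenvectorUnitary.2
  · have := hA.spectral_theorem
    rw [Unitary.conjStarAlgAut_apply] at this
    exact this

variable {A Q : Matrix V V ℂ} {l : V → ℝ}

theorem Diag.pow (h : Diag A Q l) (k : ℕ) :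
    A ^ k = Q * Matrix.diagonal (fun j => (l j : ℂ) ^ k) * Qᴴ := by
  induction k with
  | zero =>
    have : Matrix.diagonal (fun j : V => ((l j : ℂ)) ^ 0) = 1 := by
      simp
    rw [this, mul_one, h.h1, pow_zero]
  | succ k ih =>
    rw [pow_succ, ih]
    conv_lhs => rw [h.h3]
    calc Q * Matrix.diagonal (fun j => (l j : ℂ) ^ k) * Qᴴ *
          (Q * Matrix.diagonal (fun j => (l j : ℂ)) * Qᴴ)
        = Q * Matrix.diagonal (fun j => (l j : ℂ) ^ k) * (Qᴴ * Q) *
          Matrix.diagonal (fun j => (l j : ℂ)) * Qᴴ := by simp only [mul_assoc]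
      _ = Q * (Matrix.diagonal (fun j => (l j : ℂ) ^ k) *
          Matrix.diagonal (fun j => (l j : ℂ))) * Qᴴ := by rw [h.h2, mul_one]; simp only [mul_assoc]
      _ = _ := by
        rw [Matrix.diagonal_mul_diagonal]
        congr 3

theorem Diag.walk (h : Diag A Q l) (t : ℝ) :
    walk A t = Q * Matrix.diagonal (fun j => Complex.exp ((t * l j : ℝ) * I)) * Qᴴ := by
  unfold FR.walk
  have hunit : IsUnit Q := ⟨⟨Q, Qᴴ, h.h1, h.h2⟩, rfl⟩
  have hinv : Q⁻¹ = Qᴴ := Matrix.inv_eq_right_inv h.h1
  have e1 : ((t : ℂ) * I) • A = Q * Matrix.diagonal (fun j => ((t : ℂ) * I) * (l j : ℂ)) * Q⁻¹ := by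
    rw [h.h3, hinv]
    have : Matrix.diagonal (fun j => ((t : ℂ) * I) * (l j : ℂ)) =
        ((t : ℂ) * I) • Matrix.diagonal (fun j => (l j : ℂ)) := by
      rw [← Matrix.diagonal_smul]; rfl
    rw [this, mul_smul_comm, smul_mul_assoc]
  rw [e1, Matrix.exp_conj _ _ hunit, Matrix.exp_diagonal, hinv]
  congr 2
  congr 1
  funext j
  rw [Pi.coe_exp, ← Complex.exp_eq_exp_ℂ]
  congr 1
  push_cast
  ring

theorem diag_entry (Q : Matrix V V ℂ) (d : V → ℂ) (u v : V) :
    (Q * Matrix.diagonal d * Qᴴ) u v = ∑ j, Q u j * star (Q v j) * d j := by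
  rw [Matrix.mul_apply]
  refine Finset.sum_congr rfl fun j _ => ?_
  rw [Matrix.mul_diagonal, Matrix.conjTranspose_apply]
  ring

theorem walk_transpose (hA : Aᵀ = A) (t : ℝ) : (walk A t)ᵀ = walk A t := by
  unfold walk
  rw [← Matrix.exp_transpose, Matrix.transpose_smul, hA]

theorem walk_conj_mul (hA : A.IsHermitian) (t : ℝ) : (walk A t)ᴴ * walk A t = 1 := by
  obtain ⟨Q, l, h⟩ := exists_diag hA
  rw [h.walk, Matrix.conjTranspose_mul, Matrix.conjTranspose_mul, Matrix.conjTranspose_conjTranspose,
    Matrix.diagonal_conjTranspose]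
  have : ∀ j, star (Complex.exp ((t * l j : ℝ) * I)) * Complex.exp ((t * l j : ℝ) * I) = 1 := by
    intro j
    have h1 : star (Complex.exp ((t * l j : ℝ) * I)) = Complex.exp (-((t * l j : ℝ) * I)) := by
      rw [Complex.star_def, ← Complex.exp_conj]
      simp
    rw [h1, ← Complex.exp_add]
    simp
  calc Q * (Matrix.diagonal (star fun j => Complex.exp ((t * l j : ℝ) * I)) * Qᴴ) *
        (Q * Matrix.diagonal (fun j => Complex.exp ((t * l j : ℝ) * I)) * Qᴴ)
      = Q * Matrix.diagonal (star fun j => Complex.exp ((t * l j : ℝ) * I)) * (Qᴴ * Q) *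
        Matrix.diagonal (fun j => Complex.exp ((t * l j : ℝ) * I)) * Qᴴ := by
        simp only [mul_assoc]
    _ = Q * (Matrix.diagonal (star fun j => Complex.exp ((t * l j : ℝ) * I)) *
        Matrix.diagonal (fun j => Complex.exp ((t * l j : ℝ) * I))) * Qᴴ := by
        rw [h.h2, mul_one]; simp only [mul_assoc]
    _ = 1 := by
        rw [Matrix.diagonal_mul_diagonal]
        have : (fun j => (star fun j => Complex.exp ((t * l j : ℝ) * I)) j *
            Complex.exp ((t * l j : ℝ) * I)) = fun _ => (1 : ℂ) := by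
          funext j
          exact this j
        rw [this, Matrix.diagonal_one, mul_one, h.h1]

/-- The transition matrix commutes with the powers of the matrix. -/
theorem walk_comm (hA : A.IsHermitian) (t : ℝ) (k : ℕ) : A ^ k * walk A t = walk A t * A ^ k := by
  have h1 : Commute (A ^ k) (((t : ℂ) * I) • A) :=
    ((Commute.refl A).pow_left k).smul_right _
  exact h1.exp_right.eq

/-- Block structure. -/
theorem block (hA : A.IsHermitian) (hAT : Aᵀ = A) {t : ℝ} {a b : V} (hab : a ≠ b) {α β : ℂ}
    (hβ : β ≠ 0) (h : ∀ v, walk A t v a = if v = a then α else if v = b then β else 0) :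
    (∀ v, v ≠ a → v ≠ b → walk A t b v = 0) ∧ (∀ v, v ≠ a → v ≠ b → walk A t v b = 0) := by
  have hsymm : ∀ u v, walk A t u v = walk A t v u := by
    intro u v
    have := congrFun (congrFun (walk_transpose hAT t) u) v
    rw [Matrix.transpose_apply] at this
    exact this.symm
  have key : ∀ v, v ≠ a → v ≠ b → walk A t b v = 0 := by
    intro v hva hvb
    have h1 := congrFun (congrFun (walk_conj_mul hA t) a) v
    rw [Matrix.mul_apply, Matrix.one_apply_ne (fun h => hva h.symm)] at h1
    have h2 : ∑ j, (walk A t)ᴴ a j * walk A t j v =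
        star α * walk A t a v + star β * walk A t b v := by
      rw [Finset.sum_eq_add a b hab]
      · simp only [Matrix.conjTranspose_apply]
        rw [h a, h b, if_pos rfl, if_neg (fun h => hab h.symm), if_pos rfl]
      · intro c _ hc
        rw [Matrix.conjTranspose_apply, h c, if_neg hc.1, if_neg hc.2]
        simp
      · intro h; simp at h
      · intro h; simp at h
    rw [h2, hsymm a v, h v, if_neg hva, if_neg hvb, mul_zero, zero_add] at h1
    rcases mul_eq_zero.1 h1 with h3 | h3
    · exact absurd (star_eq_zero.1 h3) hβ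
    · exact h3
  exact ⟨key, fun v h1 h2 => by rw [hsymm]; exact key v h1 h2⟩

/-- The fundamental relation between walk counts. -/
theorem relation (hA : A.IsHermitian) (hAT : Aᵀ = A) {t : ℝ} {a b : V} (hab : a ≠ b) {α β : ℂ}
    (hβ : β ≠ 0) (h : ∀ v, walk A t v a = if v = a then α else if v = b then β else 0) (k : ℕ) :
    β * ((A ^ k) a a - (A ^ k) b b) = (α - walk A t b b) * (A ^ k) a b := by
  have hsymm : ∀ u v, walk A t u v = walk A t v u := by
    intro u v
    have := congrFun (congrFun (walk_transpose hAT t) u) v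
    rw [Matrix.transpose_apply] at this
    exact this.symm
  obtain ⟨h1, h2⟩ := block hA hAT hab hβ h
  have e := congrFun (congrFun (walk_comm hA t k) a) b
  rw [Matrix.mul_apply, Matrix.mul_apply, Finset.sum_eq_add a b hab, Finset.sum_eq_add a b hab] at e
  · rw [hsymm a b, h b, h a, if_pos rfl, if_neg (fun h => hab h.symm), if_pos rfl] at e
    linear_combination e
  · intro c _ hc
    rw [hsymm a c, h c, if_neg hc.1, if_neg hc.2, zero_mul]
  · intro h; simp at h
  · intro h; simp at h
  · intro c _ hc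
    rw [h2 c hc.1 hc.2, mul_zero]
  · intro h; simp at h
  · intro h; simp at h

/-- In the presence of a bipartition, a column supported on one colour class is periodic. -/
theorem bipartite_col (σ : V → ℂ) (hσ : ∀ v, σ v * σ v = 1)
    (hbip : ∀ u v, σ u * A u v * σ v = -A u v) {t : ℝ} {a b : V} {α β : ℂ} (hσab : σ b = σ a)
    (h : ∀ v, walk A t v a = if v = a then α else if v = b then β else 0) :
    ∀ v, walk A (-t) v a = walk A t v a := by
  have hD : Matrix.diagonal σ * Matrix.diagonal σ = 1 := by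
    rw [Matrix.diagonal_mul_diagonal]
    have : (fun i => σ i * σ i) = fun _ => (1 : ℂ) := funext hσ
    rw [this, Matrix.diagonal_one]
  have hunit : IsUnit (Matrix.diagonal σ) := ⟨⟨_, _, hD, hD⟩, rfl⟩
  have hinv : (Matrix.diagonal σ)⁻¹ = Matrix.diagonal σ := Matrix.inv_eq_right_inv hD
  have e1 : Matrix.diagonal σ * walk A t * Matrix.diagonal σ = walk A (-t) := by
    unfold walk
    conv_lhs => rw [← hinv]
    rw [hinv]
    have := Matrix.exp_conj (Matrix.diagonal σ) (((t : ℂ) * I) • A) hunit
    rw [hinv] at this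
    rw [← this]
    congr 1
    ext u v
    rw [Matrix.mul_diagonal, Matrix.diagonal_mul, Matrix.smul_apply, Matrix.smul_apply,
      smul_eq_mul, smul_eq_mul]
    push_cast
    linear_combination ((t : ℂ) * I) * hbip u v
  intro v
  rw [← e1, Matrix.mul_diagonal, Matrix.diagonal_mul]
  by_cases hva : v = a
  · subst hva
    linear_combination (walk A t v v) * hσ v
  · by_cases hvb : v = b
    · subst hvb
      rw [hσab]
      linear_combination (walk A t v a) * hσ a
    · rw [h v, if_neg hva, if_neg hvb]; ring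

theorem walk_neg_mul (hA : A.IsHermitian) (t : ℝ) : walk A t * walk A (-t) = 1 := by
  obtain ⟨Q, l, h⟩ := exists_diag hA
  rw [h.walk, h.walk]
  calc Q * Matrix.diagonal (fun j => Complex.exp ((t * l j : ℝ) * I)) * Qᴴ *
        (Q * Matrix.diagonal (fun j => Complex.exp ((-t * l j : ℝ) * I)) * Qᴴ)
      = Q * Matrix.diagonal (fun j => Complex.exp ((t * l j : ℝ) * I)) * (Qᴴ * Q) *
        Matrix.diagonal (fun j => Complex.exp ((-t * l j : ℝ) * I)) * Qᴴ := by
        simp only [mul_assoc]
    _ = Q * (Matrix.diagonal (fun j => Complex.exp ((t * l j : ℝ) * I)) *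
        Matrix.diagonal (fun j => Complex.exp ((-t * l j : ℝ) * I))) * Qᴴ := by
        rw [h.h2, mul_one]; simp only [mul_assoc]
    _ = 1 := by
        rw [Matrix.diagonal_mul_diagonal]
        have : (fun j => Complex.exp ((t * l j : ℝ) * I) * Complex.exp ((-t * l j : ℝ) * I)) =
            fun _ => (1 : ℂ) := by
          funext j
          rw [← Complex.exp_add]
          push_cast
          ring_nf
          simp
        rw [this, Matrix.diagonal_one, mul_one, h.h1]

/-- Eigenvalues in the support are multiples of `π / t`. -/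
theorem support_int (hd : Diag A Q l) {t : ℝ} {a : V}
    (h : ∀ v, walk A (-t) v a = walk A t v a) (j : V) (hj : Q a j ≠ 0) :
    ∃ m : ℤ, t * l j = m * Real.pi := by
  have h1 : ∀ v, ∑ i, Q v i * (star (Q a i) * (Complex.exp ((t * l i : ℝ) * I) -
      Complex.exp ((-t * l i : ℝ) * I))) = 0 := by
    intro v
    have := h v
    rw [hd.walk, hd.walk, diag_entry, diag_entry] at this
    rw [← sub_eq_zero, ← Finset.sum_sub_distrib] at this
    rw [← neg_eq_zero, ← this, ← Finset.sum_neg_distrib]
    refine Finset.sum_congr rfl fun i _ => ?_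
    ring
  have h2 : Q *ᵥ (fun i => star (Q a i) * (Complex.exp ((t * l i : ℝ) * I) -
      Complex.exp ((-t * l i : ℝ) * I))) = 0 := by
    funext v
    exact h1 v
  have h3 := congrArg (fun x => Qᴴ *ᵥ x) h2
  simp only [Matrix.mulVec_mulVec, hd.h2, Matrix.one_mulVec, Matrix.mulVec_zero] at h3
  have h4 := congrFun h3 j
  simp only [Pi.zero_apply] at h4
  have h5 : Complex.exp ((t * l j : ℝ) * I) - Complex.exp ((-t * l j : ℝ) * I) = 0 := by
    rcases mul_eq_zero.1 h4 with h6 | h6
    · exact absurd (star_eq_zero.1 h6) hj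
    · exact h6
  have h6 : Real.sin (t * l j) = 0 := by
    have h7 := congrArg Complex.im h5
    rw [Complex.sub_im, Complex.exp_ofReal_mul_I_im, Complex.exp_ofReal_mul_I_im, neg_mul,
      Real.sin_neg, Complex.zero_im] at h7
    linarith
  obtain ⟨m, hm⟩ := Real.sin_eq_zero_iff.1 h6
  exact ⟨m, hm.symm⟩

end Pool.Agent.X132.FR
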