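import Mathlib
import Pool.Agent.X132.FRB

/-!
# Fractional revival: rationality and cospectrality
-/

namespace Pool.Agent.X132.FR

open Matrix Complex

variable {V : Type} [Fintype V] [DecidableEq V]

/-- The entries of the transition matrix in a column that is periodic with half period `t` are
rational, when the matrix is integral. -/
theorem entries_rational {B : Matrix V V ℤ} {A Q : Matrix V V ℂ} {l : V → ℝ}
    (hB : A = B.map (Int.cast : ℤ → ℂ)) (hd : Diag A Q l) {t : ℝ} (ht : 0 < t) {a : V}
    (h : ∀ v, walk A (-t) v a = walk A t v a) (v : V) : ∃ q : ℚ, walk A t v a = q := by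
  classical
  have hpow : ∀ (k : ℕ) (u w : V), (A ^ k) u w = (((B ^ k) u w : ℤ) : ℂ) := by
    intro k u w
    have : A ^ k = (B ^ k).map (Int.cast : ℤ → ℂ) := by
      rw [hB]
      exact (Matrix.map_pow B (Int.castRingHom ℂ) k).symm
    rw [this, Matrix.map_apply]
  have hmom : ∀ (k : ℕ) (u w : V), ∑ j, Q u j * star (Q w j) * (l j : ℂ) ^ k =
      (((B ^ k) u w : ℤ) : ℂ) := by
    intro k u w
    rw [← hpow, hd.pow, diag_entry]
  set wt : V → ℝ := fun j => Complex.normSq (Q a j) with hwt
  have hw : ∀ j, 0 ≤ wt j := fun j => Complex.normSq_nonneg _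
  have hw0 : ∀ j, wt j ≠ 0 ↔ Q a j ≠ 0 := by
    intro j
    rw [hwt]
    simp
  have hμ : ∀ m : ℕ, IsRat (∑ j, wt j * ((l j) ^ 2) ^ m) := by
    intro m
    refine ⟨((B ^ (2 * m)) a a : ℤ), ?_⟩
    have h1 := hmom (2 * m) a a
    have h2 : ∑ j, Q a j * star (Q a j) * (l j : ℂ) ^ (2 * m) =
        ((∑ j, wt j * ((l j) ^ 2) ^ m : ℝ) : ℂ) := by
      push_cast
      refine Finset.sum_congr rfl fun j _ => ?_
      rw [hwt, pow_mul]
      congr 1
      rw [Complex.star_def, Complex.mul_conj]
    rw [h2] at h1
    have h3 := congrArg Complex.re h1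
    rw [Complex.ofReal_re, Complex.intCast_re] at h3
    rw [h3]
    simp
  have hG : ∀ j, wt j ≠ 0 → ∃ m : ℤ, (l j) ^ 2 = (Real.pi / t) ^ 2 * (m : ℝ) ^ 2 := by
    intro j hj
    obtain ⟨m, hm⟩ := support_int hd h j ((hw0 j).1 hj)
    refine ⟨m, ?_⟩
    have : l j = m * Real.pi / t := by field_simp; linarith
    rw [this]; ring
  have hrat := points_rational wt (fun j => (l j) ^ 2) hw hμ _ hG
  -- rational squares of eigenvalues
  have hy : ∀ j, ∃ y : ℚ, wt j ≠ 0 → (y : ℝ) = (l j) ^ 2 := by
    intro j
    by_cases hj : wt j = 0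
    · exact ⟨0, fun h => absurd hj h⟩
    · obtain ⟨y, hy⟩ := hrat j hj
      exact ⟨y, fun _ => hy⟩
  choose y hy using hy
  set Y : Finset ℚ := (Finset.univ.filter fun j => wt j ≠ 0).image y with hY
  set r : ℚ → ℚ := fun z => if Real.cos (t * Real.sqrt z) = 1 then 1 else -1 with hr
  set p : Polynomial ℚ := Lagrange.interpolate Y (fun z => z) r with hp
  have hval : ∀ j, wt j ≠ 0 → ((p.eval (y j) : ℚ) : ℂ) = Complex.exp ((t * l j : ℝ) * I) := by
    intro j hj
    have h1 : p.eval (y j) = r (y j) := by
      rw [hp]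
      refine Lagrange.eval_interpolate_at_node r (Function.injective_id.injOn) ?_
      rw [hY]
      exact Finset.mem_image.2 ⟨j, by simpa using hj, rfl⟩
    have h2 : Real.cos (t * Real.sqrt (y j : ℝ)) = Real.cos (t * l j) := by
      rw [hy j hj, Real.sqrt_sq_eq_abs]
      have : t * |l j| = |t * l j| := by rw [abs_mul, abs_of_pos ht]
      rw [this, Real.cos_abs]
    obtain ⟨m, hm⟩ := support_int hd h j ((hw0 j).1 hj)
    have hsin : Real.sin (t * l j) = 0 := by rw [hm]; exact Real.sin_int_mul_pi m
    have hcos : Real.cos (t * l j) = 1 ∨ Real.cos (t * l j) = -1 := by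
      have h3 := Real.sin_sq_add_cos_sq (t * l j)
      rw [hsin] at h3
      have h4 : (Real.cos (t * l j) - 1) * (Real.cos (t * l j) + 1) = 0 := by nlinarith
      rcases mul_eq_zero.1 h4 with h5 | h5
      · left; linarith
      · right; linarith
    rw [h1, hr]
    simp only
    apply Complex.ext
    · rw [Complex.exp_ofReal_mul_I_re, h2]
      rcases hcos with h5 | h5
      · rw [h5, if_pos rfl]; simp
      · rw [h5, if_neg (by norm_num)]; simp
    · rw [Complex.exp_ofReal_mul_I_im, hsin]
      simp
  refine ⟨∑ k ∈ Finset.range (p.natDegree + 1), p.coeff k * ((B ^ (2 * k)) v a : ℤ), ?_⟩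
  rw [hd.walk, diag_entry]
  have h1 : ∀ j, Q v j * star (Q a j) * Complex.exp ((t * l j : ℝ) * I) =
      ∑ k ∈ Finset.range (p.natDegree + 1), (p.coeff k : ℂ) *
        (Q v j * star (Q a j) * (l j : ℂ) ^ (2 * k)) := by
    intro j
    by_cases hj : wt j = 0
    · have h2 : Q a j = 0 := by
        by_contra hne
        exact (hw0 j).2 hne hj
      rw [h2]; simp
    · rw [← hval j hj, Polynomial.eval_eq_sum_range]
      push_cast
      rw [Finset.mul_sum]
      refine Finset.sum_congr rfl fun k _ => ?_
      have h3 : ((y j : ℚ) : ℂ) = (l j : ℂ) ^ 2 := by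
        have := hy j hj
        have h4 : (((y j : ℚ) : ℝ) : ℂ) = (((l j) ^ 2 : ℝ) : ℂ) := by rw [this]
        push_cast at h4
        exact h4
      rw [h3, pow_mul]; ring
  simp only [h1]
  rw [Finset.sum_comm]
  push_cast
  refine Finset.sum_congr rfl fun k _ => ?_
  rw [← Finset.mul_sum, hmom]

/-- Powers of a shifted matrix. -/
theorem aeval_entry {A : Matrix V V ℂ} {a b : V} (h : ∀ k : ℕ, (A ^ k) a a = (A ^ k) b b)
    (f : Polynomial ℂ) : (Polynomial.aeval A f) a a = (Polynomial.aeval A f) b b := by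
  rw [Polynomial.aeval_eq_sum_range]
  simp only [Matrix.sum_apply, Matrix.smul_apply]
  exact Finset.sum_congr rfl fun k _ => by rw [h k]

theorem adjugate_entry {A : Matrix V V ℂ} {a b : V} (h : ∀ k : ℕ, (A ^ k) a a = (A ^ k) b b)
    (z : ℂ) (hz : (Matrix.scalar V z - A).det ≠ 0) :
    (Matrix.scalar V z - A).adjugate a a = (Matrix.scalar V z - A).adjugate b b := by
  set M := Matrix.scalar V z - A with hM
  have hCH := Matrix.aeval_self_charpoly M
  -- `M * q(M) = -c`
  set f := M.charpoly.divX with hf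
  set c := M.charpoly.coeff 0 with hc
  have h1 : M.charpoly = f * Polynomial.X + Polynomial.C c := (Polynomial.divX_mul_X_add _).symm
  have h2 : Polynomial.aeval M f * M = -(c • (1 : Matrix V V ℂ)) := by
    rw [h1, map_add, map_mul, Polynomial.aeval_X, Polynomial.aeval_C] at hCH
    rw [eq_neg_iff_add_eq_zero, ← hCH]
    congr 1
    rw [Algebra.algebraMap_eq_smul_one]
  have hc0 : c ≠ 0 := by
    intro h0
    apply hz
    rw [Matrix.det_eq_sign_charpoly_coeff, ← hc, h0, mul_zero]
  have h3 : M.det • Polynomial.aeval M f = -(c • M.adjugate) := by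
    have h4 : Polynomial.aeval M f * M * M.adjugate = -(c • (1 : Matrix V V ℂ)) * M.adjugate := by
      rw [h2]
    rw [mul_assoc, Matrix.mul_adjugate, mul_smul_comm, mul_one, neg_mul, smul_mul_assoc,
      one_mul] at h4
    exact h4
  have hMk : ∀ k : ℕ, (M ^ k) a a = (M ^ k) b b := by
    intro k
    have h5 : M = Polynomial.aeval A (Polynomial.C z - Polynomial.X) := by
      rw [map_sub, Polynomial.aeval_C, Polynomial.aeval_X, hM]
      congr 1
    rw [h5, ← map_pow]
    exact aeval_entry h _
  have h6 := aeval_entry hMk f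
  have h7 := congrFun (congrFun h3 a) a
  have h8 := congrFun (congrFun h3 b) b
  rw [Matrix.smul_apply, Matrix.neg_apply, Matrix.smul_apply, smul_eq_mul, smul_eq_mul] at h7 h8
  rw [h6, h8] at h7
  have h9 : c * M.adjugate b b = c * M.adjugate a a := by linear_combination -h7
  exact (mul_left_cancel₀ hc0 h9).symm

/-- The adjugate entry is the characteristic polynomial of the vertex-deleted matrix. -/
theorem adjugate_eq_minor (M : Matrix V V ℂ) (a : V) :
    M.adjugate a a = (M.submatrix (fun x : ({a}ᶜ : Set V) => x.1) (fun x => x.1)).det := by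
  rw [Matrix.adjugate_apply]
  rw [Matrix.twoBlockTriangular_det _ (fun i => i ≠ a)]
  · have h1 : (Matrix.toSquareBlockProp (M.updateRow a (Pi.single a 1)) fun i => ¬ (i ≠ a)).det =
        1 := by
      have : Unique {i : V // ¬ (i ≠ a)} := ⟨⟨⟨a, by simp⟩⟩, fun x => Subtype.ext (by
        have := x.2; push Not at this; exact this)⟩
      rw [Matrix.det_unique]
      simp only [Matrix.toSquareBlockProp_def, Matrix.of_apply]
      have hd : ((default : {i : V // ¬ (i ≠ a)}) : V) = a := by
        have := (default : {i : V // ¬ (i ≠ a)}).2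
        push Not at this; exact this
      rw [hd]
      simp
    rw [h1, mul_one]
    let e : ({a}ᶜ : Set V) ≃ {i : V // i ≠ a} := Equiv.subtypeEquivRight (by simp)
    rw [← Matrix.det_submatrix_equiv_self e]
    congr 1
    ext x y
    simp only [Matrix.submatrix_apply, Matrix.toSquareBlockProp_def, Matrix.of_apply]
    rw [Matrix.updateRow_ne (e x).2]
    rfl
  · intro i hi j hj
    push Not at hi
    subst hi
    rw [Matrix.updateRow_self, Pi.single_eq_of_ne hj]

/-- Equal diagonal entries of all powers give equal characteristic polynomials of the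
vertex-deleted matrices. -/
theorem charpoly_eq_of_walks {A : Matrix V V ℂ} {a b : V}
    (h : ∀ k : ℕ, (A ^ k) a a = (A ^ k) b b) :
    (A.submatrix (fun x : ({a}ᶜ : Set V) => x.1) (fun x => x.1)).charpoly =
      (A.submatrix (fun x : ({b}ᶜ : Set V) => x.1) (fun x => x.1)).charpoly := by
  have hchar : ∀ (c : V) (z : ℂ),
      (A.submatrix (fun x : ({c}ᶜ : Set V) => x.1) (fun x => x.1)).charpoly.eval z =
        (Matrix.scalar V z - A).adjugate c c := by
    intro c z
    rw [adjugate_eq_minor, Matrix.eval_charpoly]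
    congr 1
    ext x y
    simp only [Matrix.sub_apply, Matrix.submatrix_apply, Matrix.scalar_apply,
      Matrix.diagonal_apply]
    congr 1
    by_cases hxy : x = y
    · subst hxy; simp
    · rw [if_neg hxy, if_neg (fun h => hxy (Subtype.ext h))]
  refine Polynomial.eq_of_infinite_eval_eq _ _ ?_
  have hfin : {z : ℂ | (Matrix.scalar V z - A).det = 0}.Finite := by
    have : {z : ℂ | (Matrix.scalar V z - A).det = 0} ⊆ {z : ℂ | A.charpoly.IsRoot z} := by
      intro z hz
      rw [Set.mem_ofPred_eq, Polynomial.IsRoot, Matrix.eval_charpoly]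
      exact hz
    exact (Polynomial.finite_setOfPred_isRoot (Matrix.charpoly_monic A).ne_zero).subset this
  refine (hfin.infinite_compl).mono ?_
  intro z hz
  rw [Set.mem_ofPred_eq, hchar, hchar]
  exact adjugate_entry h z hz

end Pool.Agent.X132.FR
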