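import Mathlib
import Pool.Agent.X132.FRB

/-!
# Graphs with five blocks and two special vertices
-/

namespace Pool.Agent.X132.Rev

open Matrix

/-- The vertices: two special vertices `inl false`, `inl true`, and five blocks. -/
abbrev Vert (L : ℕ) (m : Fin 5 → ℕ) : Type := Bool ⊕ (Σ i : Fin 5, Bool × ZMod L × Fin (m i))

/-- `joined u i`: the special vertex `u` is joined to all vertices of the block `i`. -/
def joined (u : Bool) (i : Fin 5) : Prop := (u = false ∧ (i = 0 ∨ i = 2)) ∨ (u = true ∧ (i = 1 ∨ i = 2))

instance (u : Bool) (i : Fin 5) : Decidable (joined u i) := by unfold joined; infer_instance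

/-- Adjacency. -/
def adj {L : ℕ} {m : Fin 5 → ℕ} (r : Fin 5 → Fin 5 → ℕ) : Vert L m → Vert L m → Prop
  | .inl _, .inl _ => False
  | .inl u, .inr p => joined u p.1
  | .inr p, .inl u => joined u p.1
  | .inr p, .inr q => p.2.1 ≠ q.2.1 ∧ (p.2.2.1 + q.2.2.1).val < r p.1 q.1

instance {L : ℕ} {m : Fin 5 → ℕ} (r : Fin 5 → Fin 5 → ℕ) :
    DecidableRel (adj (L := L) (m := m) r) := fun x y => by
  rcases x with x | x <;> rcases y with y | y <;> unfold adj <;> infer_instance

/-- The graph. -/
def graph (L : ℕ) (m : Fin 5 → ℕ) (r : Fin 5 → Fin 5 → ℕ) (hr : ∀ i j, r i j = r j i) :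
    SimpleGraph (Vert L m) where
  Adj := adj r
  symm := by
    constructor
    rintro (x | x) (y | y) h
    · exact h
    · exact h
    · exact h
    · exact ⟨h.1.symm, by rw [add_comm, hr]; exact h.2⟩
  loopless := by
    constructor
    rintro (x | x) h
    · exact h
    · exact h.1 rfl

instance (L : ℕ) (m : Fin 5 → ℕ) (r : Fin 5 → Fin 5 → ℕ) (hr : ∀ i j, r i j = r j i) :
    DecidableRel (graph L m r hr).Adj :=
  inferInstanceAs (DecidableRel (adj (L := L) (m := m) r))

/-- The block of a vertex. -/
def cell {L : ℕ} {m : Fin 5 → ℕ} : Vert L m → Bool ⊕ Fin 5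
  | .inl u => .inl u
  | .inr p => .inr p.1

/-- The action of the adjacency matrix on functions that are constant on the blocks. -/
def quo {R : Type} [CommRing R] (L : ℕ) (m : Fin 5 → ℕ) (r : Fin 5 → Fin 5 → ℕ)
    (u : Bool ⊕ Fin 5 → R) : Bool ⊕ Fin 5 → R
  | .inl b => ∑ i, if joined b i then ((2 * L * m i : ℕ) : R) * u (.inr i) else 0
  | .inr i => (∑ b : Bool, if joined b i then u (.inl b) else 0) +
      ∑ j, ((r i j * m j : ℕ) : R) * u (.inr j)

theorem card_lt {L : ℕ} [NeZero L] (x : ZMod L) (r : ℕ) (hr : r ≤ L) :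
    (Finset.univ.filter fun y : ZMod L => (x + y).val < r).card = r := by
  have h1 : (Finset.univ.filter fun y : ZMod L => (x + y).val < r).card =
      (Finset.univ.filter fun y : ZMod L => y.val < r).card := by
    refine Finset.card_bij (fun y _ => x + y) ?_ ?_ ?_
    · intro y hy
      simpa using hy
    · intro y _ z _ h
      exact add_left_cancel h
    · intro z hz
      exact ⟨z - x, by simpa using hz, by ring⟩
  rw [h1]
  have h2 : (Finset.univ.filter fun y : ZMod L => y.val < r).card = (Finset.range r).card := by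
    refine Finset.card_bij (fun y _ => y.val) ?_ ?_ ?_
    · intro y hy
      simpa using hy
    · intro y _ z _ h
      exact ZMod.val_injective L h
    · intro z hz
      rw [Finset.mem_range] at hz
      refine ⟨(z : ZMod L), ?_, ZMod.val_cast_of_lt (lt_of_lt_of_le hz hr)⟩
      rw [Finset.mem_filter, ZMod.val_cast_of_lt (lt_of_lt_of_le hz hr)]
      exact ⟨Finset.mem_univ _, hz⟩
  rw [h2, Finset.card_range]

theorem adj_ll {L : ℕ} {m : Fin 5 → ℕ} {r : Fin 5 → Fin 5 → ℕ} (hr : ∀ i j, r i j = r j i)
    (b c : Bool) : ¬ (graph L m r hr).Adj (.inl b) (.inl c) := fun h => h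

theorem adj_lr {L : ℕ} {m : Fin 5 → ℕ} {r : Fin 5 → Fin 5 → ℕ} (hr : ∀ i j, r i j = r j i)
    (b : Bool) (p : Σ i : Fin 5, Bool × ZMod L × Fin (m i)) :
    (graph L m r hr).Adj (.inl b) (.inr p) ↔ joined b p.1 := Iff.rfl

theorem adj_rl {L : ℕ} {m : Fin 5 → ℕ} {r : Fin 5 → Fin 5 → ℕ} (hr : ∀ i j, r i j = r j i)
    (b : Bool) (p : Σ i : Fin 5, Bool × ZMod L × Fin (m i)) :
    (graph L m r hr).Adj (.inr p) (.inl b) ↔ joined b p.1 := Iff.rfl

variable {L : ℕ} [NeZero L] {m : Fin 5 → ℕ} {r : Fin 5 → Fin 5 → ℕ}

theorem mulVec_cell {R : Type} [CommRing R] (hr : ∀ i j, r i j = r j i) (hrL : ∀ i j, r i j ≤ L)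
    (u : Bool ⊕ Fin 5 → R) :
    (graph L m r hr).adjMatrix R *ᵥ (fun v => u (cell v)) = fun v => quo L m r u (cell v) := by
  funext v
  rw [Matrix.mulVec, dotProduct, Fintype.sum_sum_type, Fintype.sum_sigma]
  rcases v with b | ⟨i, ε, x, k⟩
  · have h1 : ∀ c : Bool, (graph L m r hr).adjMatrix R (.inl b) (.inl c) * u (cell (L := L) (m := m) (.inl c)) = 0 := by
      intro c
      rw [SimpleGraph.adjMatrix_apply, if_neg (adj_ll hr b c), zero_mul]
    rw [Finset.sum_eq_zero (fun c _ => h1 c), zero_add]
    unfold cell quo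
    refine Finset.sum_congr rfl fun i _ => ?_
    by_cases hb : joined b i
    · rw [if_pos hb]
      have h2 : ∀ p : Bool × ZMod L × Fin (m i),
          (graph L m r hr).adjMatrix R (.inl b) (.inr ⟨i, p⟩) * u (.inr i) = u (.inr i) := by
        intro p
        rw [SimpleGraph.adjMatrix_apply, if_pos ((adj_lr hr b ⟨i, p⟩).2 hb), one_mul]
      calc ∑ p : Bool × ZMod L × Fin (m i),
            (graph L m r hr).adjMatrix R (.inl b) (.inr ⟨i, p⟩) * u (.inr i)
          = ∑ p : Bool × ZMod L × Fin (m i), u (.inr i) := Finset.sum_congr rfl fun p _ => h2 p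
        _ = _ := by
          rw [Finset.sum_const, Finset.card_univ, Fintype.card_prod, Fintype.card_prod,
            Fintype.card_bool, ZMod.card, Fintype.card_fin, nsmul_eq_mul]
          push_cast
          ring
    · rw [if_neg hb]
      refine Finset.sum_eq_zero fun p _ => ?_
      rw [SimpleGraph.adjMatrix_apply, if_neg (fun h => hb ((adj_lr hr b ⟨i, p⟩).1 h)), zero_mul]
  · unfold cell quo
    congr 1
    · refine Finset.sum_congr rfl fun b _ => ?_
      by_cases hb : joined b i
      · rw [if_pos hb, SimpleGraph.adjMatrix_apply,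
          if_pos ((adj_rl hr b ⟨i, (ε, x, k)⟩).2 hb), one_mul]
      · rw [if_neg hb, SimpleGraph.adjMatrix_apply,
          if_neg (fun h => hb ((adj_rl hr b ⟨i, (ε, x, k)⟩).1 h)), zero_mul]
    · refine Finset.sum_congr rfl fun j _ => ?_
      have h2 : ∀ p : Bool × ZMod L × Fin (m j),
          (graph L m r hr).adjMatrix R (.inr ⟨i, ε, x, k⟩) (.inr ⟨j, p⟩) * u (.inr j) =
            (if p.1 = !ε then 1 else 0) * ((if (x + p.2.1).val < r i j then 1 else 0) * u (.inr j)) := by
        intro p
        rw [SimpleGraph.adjMatrix_apply]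
        by_cases h3 : p.1 = !ε
        · rw [if_pos h3, one_mul]
          congr 1
          refine if_congr ?_ rfl rfl
          constructor
          · intro h; exact h.2
          · intro h; exact ⟨by rw [h3]; cases ε <;> simp, h⟩
        · rw [if_neg h3, zero_mul, if_neg, zero_mul]
          intro h
          apply h3
          have := h.1
          revert this
          show ε ≠ p.1 → p.1 = !ε
          cases ε <;> cases p.1 <;> simp
      calc ∑ p : Bool × ZMod L × Fin (m j),
            (graph L m r hr).adjMatrix R (.inr ⟨i, ε, x, k⟩) (.inr ⟨j, p⟩) * u (.inr j)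
          = ∑ p : Bool × ZMod L × Fin (m j), (if p.1 = !ε then 1 else 0) *
              ((if (x + p.2.1).val < r i j then 1 else 0) * u (.inr j)) :=
            Finset.sum_congr rfl fun p _ => h2 p
        _ = _ := by
          rw [Fintype.sum_prod_type]
          have h4 : ∀ c : Bool, ∑ q : ZMod L × Fin (m j), (if c = !ε then (1 : R) else 0) *
              ((if (x + q.1).val < r i j then 1 else 0) * u (.inr j)) =
              if c = !ε then ((r i j * m j : ℕ) : R) * u (.inr j) else 0 := by
            intro c
            by_cases hc : c = !ε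
            · rw [if_pos hc, if_pos hc, Fintype.sum_prod_type]
              have h5 : ∀ y : ZMod L, ∑ l : Fin (m j), (1 : R) *
                  ((if (x + y).val < r i j then 1 else 0) * u (.inr j)) =
                  if (x + y).val < r i j then (m j : R) * u (.inr j) else 0 := by
                intro y
                rw [Finset.sum_const, Finset.card_univ, Fintype.card_fin, nsmul_eq_mul]
                split_ifs <;> ring
              rw [Finset.sum_congr rfl fun y _ => h5 y, ← Finset.sum_filter, Finset.sum_const,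
                card_lt x _ (hrL i j), nsmul_eq_mul]
              push_cast
              ring
            · rw [if_neg hc, if_neg hc]
              refine Finset.sum_eq_zero fun q _ => ?_
              rw [zero_mul]
          rw [Finset.sum_congr rfl fun c _ => h4 c]
          cases ε <;> simp

end Pool.Agent.X132.Rev
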