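import Mathlib
import Pool.Agent.X132.RevA

/-!
# Vectors annihilated by a cubic polynomial of the adjacency matrix
-/

namespace Pool.Agent.X132.Rev

open Matrix Complex Pool.Agent.X132.FR

variable {V : Type} [Fintype V] [DecidableEq V]

/-- The relation `A³ e = (x+y+z) A² e - (xy+xz+yz) A e + xyz e`. -/
def Cubic {R : Type} [CommRing R] (A : Matrix V V R) (e : V → R) (x y z : R) : Prop :=
  ∀ v, (A *ᵥ (A *ᵥ (A *ᵥ e))) v = (x + y + z) * (A *ᵥ (A *ᵥ e)) v -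
    (x * y + x * z + y * z) * (A *ᵥ e) v + x * y * z * e v

theorem walk_phase {A : Matrix V V ℂ} (hA : A.IsHermitian) {e : V → ℂ} {x y z : ℝ}
    (h : Cubic A e (x : ℂ) y z) {t : ℝ} {ω : ℂ}
    (hx : Complex.exp ((t * x : ℝ) * I) = ω) (hy : Complex.exp ((t * y : ℝ) * I) = ω)
    (hz : Complex.exp ((t * z : ℝ) * I) = ω) : walk A t *ᵥ e = ω • e := by
  obtain ⟨Q, l, hd⟩ := exists_diag hA
  have hstep : ∀ w : V → ℂ, ∀ j, (Qᴴ *ᵥ (A *ᵥ w)) j = (l j : ℂ) * (Qᴴ *ᵥ w) j := by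
    intro w j
    have : Qᴴ *ᵥ (A *ᵥ w) = Matrix.diagonal (fun j => (l j : ℂ)) *ᵥ (Qᴴ *ᵥ w) := by
      rw [Matrix.mulVec_mulVec, Matrix.mulVec_mulVec]
      congr 1
      conv_lhs => rw [hd.h3]
      rw [← mul_assoc, ← mul_assoc, hd.h2, one_mul]
    rw [this, Matrix.mulVec_diagonal]
  have hval : ∀ j, Complex.exp ((t * l j : ℝ) * I) * (Qᴴ *ᵥ e) j = ω * (Qᴴ *ᵥ e) j := by
    intro j
    have h1 : (Qᴴ *ᵥ (A *ᵥ (A *ᵥ (A *ᵥ e)))) j = (x + y + z) * (Qᴴ *ᵥ (A *ᵥ (A *ᵥ e))) j -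
        (x * y + x * z + y * z) * (Qᴴ *ᵥ (A *ᵥ e)) j + x * y * z * (Qᴴ *ᵥ e) j := by
      have : A *ᵥ (A *ᵥ (A *ᵥ e)) = ((x : ℂ) + y + z) • (A *ᵥ (A *ᵥ e)) -
          ((x : ℂ) * y + x * z + y * z) • (A *ᵥ e) + ((x : ℂ) * y * z) • e := by
        funext v
        rw [h v]
        simp only [Pi.add_apply, Pi.sub_apply, Pi.smul_apply, smul_eq_mul]
      rw [this, Matrix.mulVec_add, Matrix.mulVec_sub, Matrix.mulVec_smul, Matrix.mulVec_smul,
        Matrix.mulVec_smul]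
      simp only [Pi.add_apply, Pi.sub_apply, Pi.smul_apply, smul_eq_mul]
    rw [hstep, hstep, hstep] at h1
    have h2 : ((l j : ℂ) - x) * ((l j : ℂ) - y) * ((l j : ℂ) - z) * (Qᴴ *ᵥ e) j = 0 := by
      linear_combination h1
    rcases mul_eq_zero.1 h2 with h3 | h3
    · rcases mul_eq_zero.1 h3 with h4 | h4
      · rcases mul_eq_zero.1 h4 with h5 | h5
        · have : l j = x := by exact_mod_cast sub_eq_zero.1 h5
          rw [this, hx]
        · have : l j = y := by exact_mod_cast sub_eq_zero.1 h5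
          rw [this, hy]
      · have : l j = z := by exact_mod_cast sub_eq_zero.1 h4
        rw [this, hz]
    · rw [h3, mul_zero, mul_zero]
  rw [hd.walk, ← Matrix.mulVec_mulVec, ← Matrix.mulVec_mulVec]
  have h4 : Matrix.diagonal (fun j => Complex.exp ((t * l j : ℝ) * I)) *ᵥ (Qᴴ *ᵥ e) =
      ω • (Qᴴ *ᵥ e) := by
    funext j
    rw [Matrix.mulVec_diagonal, hval j]
    rfl
  rw [h4, Matrix.mulVec_smul, Matrix.mulVec_mulVec, hd.h1, Matrix.one_mulVec]

/-- The `(u, v)` entry of the orthogonal projection onto the eigenspace of the real matrix `A` for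
`θ`. -/
noncomputable def eproj (A : Matrix V V ℝ) (θ : ℝ) (u v : V) : ℝ :=
  ((Module.End.eigenspace (Matrix.toEuclideanLin A) θ).starProjection
    (EuclideanSpace.single v (1 : ℝ))) u

/-- The orthogonal projection onto the eigenspace. -/
noncomputable def projE (A : Matrix V V ℝ) (θ : ℝ) : EuclideanSpace ℝ V →L[ℝ] EuclideanSpace ℝ V :=
  (Module.End.eigenspace (Matrix.toEuclideanLin A) θ).starProjection

theorem perp {A : Matrix V V ℝ} (hA : Aᵀ = A) (θ : ℝ) (w : V → ℝ) :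
    WithLp.toLp 2 (A *ᵥ w - θ • w) ∈ (Module.End.eigenspace (Matrix.toEuclideanLin A) θ)ᗮ := by
  rw [Submodule.mem_orthogonal]
  intro z hz
  rw [Module.End.mem_eigenspace_iff] at hz
  have h1 : A *ᵥ z.ofLp = θ • z.ofLp := by
    have := congrArg WithLp.ofLp hz
    rw [Matrix.toLpLin_apply] at this
    simpa using this
  have h2 : inner ℝ z (WithLp.toLp 2 (A *ᵥ w - θ • w)) = z.ofLp ⬝ᵥ (A *ᵥ w - θ • w) := by
    rw [EuclideanSpace.inner_eq_star_dotProduct]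
    simp [dotProduct_comm]
  rw [h2, dotProduct_sub, Matrix.dotProduct_mulVec, ← Matrix.mulVec_transpose, hA, h1]
  simp

theorem proj_cubic {A : Matrix V V ℝ} (hA : Aᵀ = A) {e : V → ℝ} {x y z : ℝ} (h : Cubic A e x y z)
    (hxy : x ≠ y) (hxz : x ≠ z) :
    projE A x (WithLp.toLp 2 e) = WithLp.toLp 2 (((x - y) * (x - z))⁻¹ •
      (A *ᵥ (A *ᵥ e) - (y + z) • (A *ᵥ e) + (y * z) • e)) := by
  have hD : (x - y) * (x - z) ≠ 0 := mul_ne_zero (sub_ne_zero.2 hxy) (sub_ne_zero.2 hxz)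
  unfold projE
  refine (Submodule.eq_starProjection_of_mem_of_inner_eq_zero ?_ ?_)
  · rw [Module.End.mem_eigenspace_iff, Matrix.toLpLin_apply, ← WithLp.toLp_smul]
    congr 1
    funext v
    have h1 := h v
    simp only [Matrix.mulVec_add, Matrix.mulVec_sub, Matrix.mulVec_smul, Pi.add_apply,
      Pi.sub_apply, Pi.smul_apply, smul_eq_mul]
    linear_combination ((x - y) * (x - z))⁻¹ * h1
  · have h3 : WithLp.toLp 2 e - WithLp.toLp 2 (((x - y) * (x - z))⁻¹ •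
        (A *ᵥ (A *ᵥ e) - (y + z) • (A *ᵥ e) + (y * z) • e)) = WithLp.toLp 2
        (A *ᵥ (-((x - y) * (x - z))⁻¹ • (A *ᵥ e + (x - y - z) • e)) -
          x • (-((x - y) * (x - z))⁻¹ • (A *ᵥ e + (x - y - z) • e))) := by
      rw [← WithLp.toLp_sub]
      congr 1
      funext v
      simp only [Matrix.mulVec_add, Matrix.mulVec_smul, Pi.add_apply,
        Pi.sub_apply, Pi.smul_apply, smul_eq_mul]
      field_simp
      ring
    intro w hw
    have := perp hA x (-((x - y) * (x - z))⁻¹ • (A *ᵥ e + (x - y - z) • e))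
    rw [Submodule.mem_orthogonal'] at this
    rw [h3]
    exact this w hw

theorem proj_zero {A : Matrix V V ℝ} (hA : Aᵀ = A) {e : V → ℝ} {x y z θ : ℝ} (h : Cubic A e x y z)
    (hx : θ ≠ x) (hy : θ ≠ y) (hz : θ ≠ z) : projE A θ (WithLp.toLp 2 e) = 0 := by
  have hD : (θ - x) * (θ - y) * (θ - z) ≠ 0 :=
    mul_ne_zero (mul_ne_zero (sub_ne_zero.2 hx) (sub_ne_zero.2 hy)) (sub_ne_zero.2 hz)
  unfold projE
  rw [Submodule.starProjection_apply_eq_zero_iff]
  have h3 : WithLp.toLp 2 e = WithLp.toLp 2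
      (A *ᵥ (-((θ - x) * (θ - y) * (θ - z))⁻¹ • (A *ᵥ (A *ᵥ e) + (θ - x - y - z) • (A *ᵥ e) +
        (θ ^ 2 - (x + y + z) * θ + (x * y + x * z + y * z)) • e)) -
        θ • (-((θ - x) * (θ - y) * (θ - z))⁻¹ • (A *ᵥ (A *ᵥ e) + (θ - x - y - z) • (A *ᵥ e) +
        (θ ^ 2 - (x + y + z) * θ + (x * y + x * z + y * z)) • e))) := by
    congr 1
    funext v
    have h1 := h v
    simp only [Matrix.mulVec_add, Matrix.mulVec_smul, Pi.add_apply,
      Pi.sub_apply, Pi.smul_apply, smul_eq_mul]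
    field_simp
    linear_combination h1
  rw [h3]
  exact perp hA θ _

end Pool.Agent.X132.Rev
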