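import Mathlib
import Pool.Agent.X132.RevB

/-!
# Fractional revival from two cubic vectors
-/

namespace Pool.Agent.X132.Rev

open Matrix Complex Pool.Agent.X132.FR

variable {V : Type} [Fintype V] [DecidableEq V]

/-- The vector `e_a + s e_b`. -/
def two {R : Type} [CommRing R] (a b : V) (s : R) : V → R := Pi.single a 1 + s • Pi.single b 1

theorem two_a {R : Type} [CommRing R] {a b : V} (hab : a ≠ b) (s : R) : two a b s a = 1 := by
  unfold two
  simp [hab]

theorem two_b {R : Type} [CommRing R] {a b : V} (hab : a ≠ b) (s : R) : two a b s b = s := by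
  unfold two
  simp [hab.symm]

theorem revival_a {A : Matrix V V ℂ} {t : ℝ} {a b : V} {s s' ω ω' : ℂ} (hs : s ≠ s')
    (hss : s * s' = -1) (h1 : walk A t *ᵥ two a b s = ω • two a b s)
    (h2 : walk A t *ᵥ two a b s' = ω' • two a b s') :
    walk A t *ᵥ Pi.single a 1 = ((s * ω' - s' * ω) / (s - s')) • (Pi.single a 1 : V → ℂ) +
      ((ω - ω') / (s - s')) • (Pi.single b 1 : V → ℂ) := by
  have hne : s - s' ≠ 0 := sub_ne_zero.2 hs
  have h3 : (Pi.single a 1 : V → ℂ) = (s / (s - s')) • two a b s' - (s' / (s - s')) • two a b s := by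
    funext v
    unfold two
    simp only [Pi.sub_apply, Pi.smul_apply, Pi.add_apply, smul_eq_mul]
    field_simp
    ring
  conv_lhs => rw [h3]
  rw [Matrix.mulVec_sub, Matrix.mulVec_smul, Matrix.mulVec_smul, h1, h2]
  funext v
  unfold two
  simp only [Pi.sub_apply, Pi.smul_apply, Pi.add_apply, smul_eq_mul]
  field_simp
  linear_combination ((Pi.single b 1 : V → ℂ) v) * (ω' - ω) * hss

theorem revival_b {A : Matrix V V ℂ} {t : ℝ} {a b : V} {s s' ω ω' : ℂ} (hs : s ≠ s')
    (h1 : walk A t *ᵥ two a b s = ω • two a b s)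
    (h2 : walk A t *ᵥ two a b s' = ω' • two a b s') :
    walk A t *ᵥ Pi.single b 1 = ((ω - ω') / (s - s')) • (Pi.single a 1 : V → ℂ) +
      ((s * ω - s' * ω') / (s - s')) • (Pi.single b 1 : V → ℂ) := by
  have hne : s - s' ≠ 0 := sub_ne_zero.2 hs
  have h3 : (Pi.single b 1 : V → ℂ) = (1 / (s - s')) • two a b s - (1 / (s - s')) • two a b s' := by
    funext v
    unfold two
    simp only [Pi.sub_apply, Pi.smul_apply, Pi.add_apply, smul_eq_mul]
    field_simp
    ring
  conv_lhs => rw [h3]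
  rw [Matrix.mulVec_sub, Matrix.mulVec_smul, Matrix.mulVec_smul, h1, h2]
  funext v
  unfold two
  simp only [Pi.sub_apply, Pi.smul_apply, Pi.add_apply, smul_eq_mul]
  field_simp
  ring

theorem toLp_single (v : V) : (EuclideanSpace.single v (1 : ℝ)) =
    WithLp.toLp 2 (Pi.single v 1 : V → ℝ) := rfl

theorem eproj_b {A : Matrix V V ℝ} (hA : Aᵀ = A) {a b : V} {s s' x y z x' y' z' : ℝ} (hs : s ≠ s')
    (h : Cubic A (two a b s) x y z) (h' : Cubic A (two a b s') x' y' z')
    (hxy : x ≠ y) (hxz : x ≠ z) (hx : x ≠ x') (hy : x ≠ y') (hz : x ≠ z') (u : V) :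
    eproj A x u b = 1 / (s - s') * (((x - y) * (x - z))⁻¹ *
      ((A *ᵥ (A *ᵥ two a b s)) u - (y + z) * (A *ᵥ two a b s) u + y * z * two a b s u)) := by
  have hne : s - s' ≠ 0 := sub_ne_zero.2 hs
  have h3 : WithLp.toLp 2 (Pi.single b 1 : V → ℝ) = (1 / (s - s')) • WithLp.toLp 2 (two a b s) -
      (1 / (s - s')) • WithLp.toLp 2 (two a b s') := by
    rw [← WithLp.toLp_smul, ← WithLp.toLp_smul, ← WithLp.toLp_sub]
    congr 1
    funext v
    unfold two
    simp only [Pi.sub_apply, Pi.smul_apply, Pi.add_apply, smul_eq_mul]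
    field_simp
    ring
  have h4 : eproj A x u b = (projE A x (WithLp.toLp 2 (Pi.single b 1 : V → ℝ))) u := rfl
  rw [h4, h3, map_sub, map_smul, map_smul, proj_cubic hA h hxy hxz, proj_zero hA h' hx hy hz]
  simp
  ring

theorem eproj_a {A : Matrix V V ℝ} (hA : Aᵀ = A) {a b : V} {s s' x y z x' y' z' : ℝ} (hs : s ≠ s')
    (h : Cubic A (two a b s) x y z) (h' : Cubic A (two a b s') x' y' z')
    (hxy : x ≠ y) (hxz : x ≠ z) (hx : x ≠ x') (hy : x ≠ y') (hz : x ≠ z') (u : V) :
    eproj A x u a = -s' / (s - s') * (((x - y) * (x - z))⁻¹ *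
      ((A *ᵥ (A *ᵥ two a b s)) u - (y + z) * (A *ᵥ two a b s) u + y * z * two a b s u)) := by
  have hne : s - s' ≠ 0 := sub_ne_zero.2 hs
  have h3 : WithLp.toLp 2 (Pi.single a 1 : V → ℝ) = (-s' / (s - s')) • WithLp.toLp 2 (two a b s) +
      (s / (s - s')) • WithLp.toLp 2 (two a b s') := by
    rw [← WithLp.toLp_smul, ← WithLp.toLp_smul, ← WithLp.toLp_add]
    congr 1
    funext v
    unfold two
    simp only [Pi.smul_apply, Pi.add_apply, smul_eq_mul]
    field_simp
    ring
  have h4 : eproj A x u a = (projE A x (WithLp.toLp 2 (Pi.single a 1 : V → ℝ))) u := rfl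
  rw [h4, h3, map_add, map_smul, map_smul, proj_cubic hA h hxy hxz, proj_zero hA h' hx hy hz]
  simp
  ring

/-! ### The vectors for graphs with five blocks -/

/-- `e_a + s e_b` as a function of the block. -/
def base {R : Type} [CommRing R] (s : R) : Bool ⊕ Fin 5 → R
  | .inl false => 1
  | .inl true => s
  | .inr _ => 0

/-- The neighbours of the special vertices. -/
def lev1 {R : Type} [CommRing R] (s : R) : Bool ⊕ Fin 5 → R
  | .inl _ => 0
  | .inr i => ![1, s, 1 + s, 0, 0] i

variable {L : ℕ} {m : Fin 5 → ℕ}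

theorem two_eq {R : Type} [CommRing R] (s : R) :
    two (V := Vert L m) (.inl false) (.inl true) s = fun v => base s (cell v) := by
  funext v
  unfold two
  rcases v with v | v
  · cases v
    · simp [base, cell]
    · simp [base, cell]
  · simp [base, cell]

theorem quo_base {R : Type} [CommRing R] (r : Fin 5 → Fin 5 → ℕ) (s : R) :
    quo L m r (base s) = lev1 s := by
  funext c
  rcases c with c | c
  · cases c <;> simp [quo, base, lev1]
  · fin_cases c <;> simp [quo, base, lev1, joined, add_comm]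

end Pool.Agent.X132.Rev
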