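import Mathlib
import Pool.Agent.X132.RevC

/-!
# The data of the two graphs
-/

namespace Pool.Agent.X132.Rev

open Matrix

/-- Sizes of the blocks (divided by `2 L`). -/
def mA : Fin 5 → ℕ := ![51, 85, 17, 84, 138]

/-- The numbers `r i j`. -/
def rA : Fin 5 → Fin 5 → ℕ := ![![29, 91, 5, 0, 68], ![91, 165, 187, 92, 4], ![5, 187, 537, 92, 72], ![0, 92, 92, 391, 0], ![68, 4, 72, 0, 238]]

theorem rA_symm : ∀ i j, rA i j = rA j i := by decide

theorem rA_le : ∀ i j, rA i j ≤ 647496 := by decide

/-- Second iterate. -/
def lev2A {R : Type} [CommRing R] (s : R) : Bool ⊕ Fin 5 → R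
  | .inl false => 88059456 + 22014864 * s
  | .inl true => 22014864 + 132089184 * s
  | .inr i => ![1564 + 7820 * s, 7820 + 17204 * s, 9384 + 25024 * s, 1564 + 9384 * s, 4692 + 1564 * s] i

theorem quo_lev1A {R : Type} [CommRing R] (s : R) :
    quo 647496 mA rA (lev1 s) = lev2A s := by
  funext c
  rcases c with c | c
  · cases c
    · simp [quo, lev1, lev2A, joined, Fin.sum_univ_five, mA]
      ring
    · simp [quo, lev1, lev2A, joined, Fin.sum_univ_five, mA]
      ring
  · fin_cases c
    · simp [quo, lev1, lev2A, joined, Fin.sum_univ_five, mA, rA]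
      ring
    · simp [quo, lev1, lev2A, joined, Fin.sum_univ_five, mA, rA]
      ring
    · simp [quo, lev1, lev2A, joined, Fin.sum_univ_five, mA, rA]
      ring
    · simp [quo, lev1, lev2A, joined, Fin.sum_univ_five, mA, rA]
      ring
    · simp [quo, lev1, lev2A, joined, Fin.sum_univ_five, mA, rA]
      ring

theorem quo_lev2A {R : Type} [CommRing R] {s : R} (h : s ^ 2 = 2 * s + 1) (c : Bool ⊕ Fin 5) :
    quo 647496 mA rA (lev2A s) c = (34408 + 7820 * s) * lev2A s c - (-80721168 + 220148640 * s) * lev1 s c + (-2892224772864 + -723056193216 * s) * base s c := by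
  rcases c with c | c
  · cases c
    · simp [quo, base, lev1, lev2A, joined, Fin.sum_univ_five, mA, rA]
      linear_combination (-172156236480) * h
    · simp [quo, base, lev1, lev2A, joined, Fin.sum_univ_five, mA, rA]
      linear_combination (-309881225664) * h
  · fin_cases c
    · simp [quo, base, lev1, lev2A, joined, Fin.sum_univ_five, mA, rA]
      linear_combination (-61152400) * h
    · simp [quo, base, lev1, lev2A, joined, Fin.sum_univ_five, mA, rA]
      linear_combination (85613360) * h
    · simp [quo, base, lev1, lev2A, joined, Fin.sum_univ_five, mA, rA]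
      linear_combination (24460960) * h
    · simp [quo, base, lev1, lev2A, joined, Fin.sum_univ_five, mA, rA]
      linear_combination (-73382880) * h
    · simp [quo, base, lev1, lev2A, joined, Fin.sum_univ_five, mA, rA]
      linear_combination (-12230480) * h

/-- Sizes of the blocks (divided by `2 L`). -/
def mB : Fin 5 → ℕ := ![14, 28, 14, 132, 1]

/-- The numbers `r i j`. -/
def rB : Fin 5 → Fin 5 → ℕ := ![![354, 12, 42, 20, 48], ![12, 6, 285, 10, 486], ![42, 285, 90, 46, 18], ![20, 10, 46, 30, 128], ![48, 486, 18, 128, 3264]]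

theorem rB_symm : ∀ i j, rB i j = rB j i := by decide

theorem rB_le : ∀ i j, rB i j ≤ 121968 := by decide

/-- Second iterate. -/
def lev2B {R : Type} [CommRing R] (s : R) : Bool ⊕ Fin 5 → R
  | .inl false => 6830208 + 3415104 * s
  | .inl true => 3415104 + 10245312 * s
  | .inr i => ![5544 + 924 * s, 4158 + 4158 * s, 1848 + 9240 * s, 924 + 924 * s, 924 + 13860 * s] i

theorem quo_lev1B {R : Type} [CommRing R] (s : R) :
    quo 121968 mB rB (lev1 s) = lev2B s := by
  funext c
  rcases c with c | c
  · cases c
    · simp [quo, lev1, lev2B, joined, Fin.sum_univ_five, mB]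
      ring
    · simp [quo, lev1, lev2B, joined, Fin.sum_univ_five, mB]
      ring
  · fin_cases c
    · simp [quo, lev1, lev2B, joined, Fin.sum_univ_five, mB, rB]
      ring
    · simp [quo, lev1, lev2B, joined, Fin.sum_univ_five, mB, rB]
      ring
    · simp [quo, lev1, lev2B, joined, Fin.sum_univ_five, mB, rB]
      ring
    · simp [quo, lev1, lev2B, joined, Fin.sum_univ_five, mB, rB]
      ring
    · simp [quo, lev1, lev2B, joined, Fin.sum_univ_five, mB, rB]
      ring

theorem quo_lev2B {R : Type} [CommRing R] {s : R} (h : s ^ 2 = 1 * s + 1) (c : Bool ⊕ Fin 5) :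
    quo 121968 mB rB (lev2B s) c = (2772 + 5544 * s) * lev2B s c - (-18783072 + 20490624 * s) * lev1 s c + (-12622224384 + -31555560960 * s) * base s c := by
  rcases c with c | c
  · cases c
    · simp [quo, base, lev1, lev2B, joined, Fin.sum_univ_five, mB, rB]
      linear_combination (-18933336576) * h
    · simp [quo, base, lev1, lev2B, joined, Fin.sum_univ_five, mB, rB]
      linear_combination (-25244448768) * h
  · fin_cases c
    · simp [quo, base, lev1, lev2B, joined, Fin.sum_univ_five, mB, rB]
      linear_combination (-5122656) * h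
    · simp [quo, base, lev1, lev2B, joined, Fin.sum_univ_five, mB, rB]
      linear_combination (-2561328) * h
    · simp [quo, base, lev1, lev2B, joined, Fin.sum_univ_five, mB, rB]
      linear_combination (-30735936) * h
    · simp [quo, base, lev1, lev2B, joined, Fin.sum_univ_five, mB, rB]
      linear_combination (-5122656) * h
    · simp [quo, base, lev1, lev2B, joined, Fin.sum_univ_five, mB, rB]
      linear_combination (-76839840) * h

end Pool.Agent.X132.Rev
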