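import Mathlib
import Pool.Agent.X132.RevD

/-!
# The first graph: balanced fractional revival
-/

namespace Pool.Agent.X132.Rev

open Matrix Complex Pool.Agent.X132.FR

/-- The first graph. -/
abbrev graphA : SimpleGraph (Vert 647496 mA) := graph 647496 mA rA rA_symm

theorem mulVecA {R : Type} [CommRing R] (u : Bool ⊕ Fin 5 → R) :
    graphA.adjMatrix R *ᵥ (fun v => u (cell v)) = fun v => quo 647496 mA rA u (cell v) :=
  mulVec_cell rA_symm rA_le u

theorem stepsA {R : Type} [CommRing R] (s : R) :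
    graphA.adjMatrix R *ᵥ two (.inl false) (.inl true) s = (fun v => lev1 s (cell v)) ∧
    graphA.adjMatrix R *ᵥ (graphA.adjMatrix R *ᵥ two (.inl false) (.inl true) s) =
      (fun v => lev2A s (cell v)) ∧
    graphA.adjMatrix R *ᵥ (graphA.adjMatrix R *ᵥ (graphA.adjMatrix R *ᵥ
      two (.inl false) (.inl true) s)) = (fun v => quo 647496 mA rA (lev2A s) (cell v)) := by
  have h1 : graphA.adjMatrix R *ᵥ two (.inl false) (.inl true) s =
      (fun v => lev1 s (cell v)) := by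
    rw [two_eq, mulVecA, quo_base]
  have h2 : graphA.adjMatrix R *ᵥ (graphA.adjMatrix R *ᵥ two (.inl false) (.inl true) s) =
      (fun v => lev2A s (cell v)) := by
    rw [h1, mulVecA, quo_lev1A]
  refine ⟨h1, h2, ?_⟩
  rw [h2, mulVecA]

theorem cubicA {R : Type} [CommRing R] {s : R} (h : s ^ 2 = 2 * s + 1) :
    Cubic (graphA.adjMatrix R) (two (.inl false) (.inl true) s) (14076 + 17204 * (s - 1))
      (14076 + 4692 * (s - 1)) (14076 - 14076 * (s - 1)) := by
  intro v
  obtain ⟨h1, h2, h3⟩ := stepsA s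
  rw [h3, h2, h1, two_eq]
  have h4 := quo_lev2A h (cell v)
  linear_combination h4 + (-227486928 * lev1 s (cell v) -
    (14076 * (-227486928) + (-1136231160768) * (s - 1)) * base s (cell v)) * h

theorem adj_hermitian {V : Type} [Fintype V] [DecidableEq V] (X : SimpleGraph V)
    [DecidableRel X.Adj] : (X.adjMatrix ℂ).IsHermitian := by
  ext u v
  simp [SimpleGraph.adjMatrix_apply, Matrix.conjTranspose_apply, X.adj_comm]

theorem exp_quarter : Complex.exp ((Real.pi / 2 : ℝ) * I) = I := by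
  rw [Complex.exp_mul_I, ← Complex.ofReal_cos, ← Complex.ofReal_sin, Real.cos_pi_div_two,
    Real.sin_pi_div_two]
  simp

theorem exp_mul_quarter (θ : ℝ) (k : ℕ) :
    Complex.exp ((θ + k * (Real.pi / 2) : ℝ) * I) = Complex.exp (θ * I) * I ^ k := by
  have h1 : (I : ℂ) ^ k = Complex.exp (k * ((Real.pi / 2 : ℝ) * I)) := by
    rw [Complex.exp_nat_mul, exp_quarter]
  rw [h1, ← Complex.exp_add]
  congr 1
  push_cast
  ring

theorem exp_neg_mul_quarter (θ : ℝ) (k : ℕ) :
    Complex.exp ((θ - k * (Real.pi / 2) : ℝ) * I) = Complex.exp (θ * I) * (-I) ^ k := by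
  have h1 : (-I : ℂ) = Complex.exp (-((Real.pi / 2 : ℝ) * I)) := by
    rw [Complex.exp_neg, exp_quarter, Complex.inv_I]
  rw [h1, ← Complex.exp_nat_mul, ← Complex.exp_add]
  congr 1
  push_cast
  ring

/-- The time of balanced revival. -/
noncomputable def timeA : ℝ := Real.pi / (3128 * √2)

theorem timeA_mul (k : ℝ) : timeA * (1564 * k * √2) = k * (Real.pi / 2) := by
  unfold timeA
  have : (√2 : ℝ) ≠ 0 := by positivity
  field_simp
  ring

theorem sq2 : (√2 : ℝ) ^ 2 = 2 := Real.sq_sqrt (by norm_num)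

theorem phasesA :
    walk (graphA.adjMatrix ℂ) timeA *ᵥ two (.inl false) (.inl true) ((1 + √2 : ℝ) : ℂ) =
      (Complex.exp ((timeA * 14076 : ℝ) * I) * (-I)) •
        two (.inl false) (.inl true) ((1 + √2 : ℝ) : ℂ) ∧
    walk (graphA.adjMatrix ℂ) timeA *ᵥ two (.inl false) (.inl true) ((1 - √2 : ℝ) : ℂ) =
      (Complex.exp ((timeA * 14076 : ℝ) * I) * I) •
        two (.inl false) (.inl true) ((1 - √2 : ℝ) : ℂ) := by
  have hI11 : (I : ℂ) ^ 11 = -I := by
    calc (I : ℂ) ^ 11 = (I ^ 2) ^ 5 * I := by ring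
      _ = -I := by rw [Complex.I_sq]; ring
  have hI3 : (I : ℂ) ^ 3 = -I := by
    calc (I : ℂ) ^ 3 = (I ^ 2) * I := by ring
      _ = -I := by rw [Complex.I_sq]; ring
  have hI9 : (I : ℂ) ^ 9 = I := by
    calc (I : ℂ) ^ 9 = (I ^ 2) ^ 4 * I := by ring
      _ = I := by rw [Complex.I_sq]; ring
  have hN11 : (-I : ℂ) ^ 11 = I := by
    calc (-I : ℂ) ^ 11 = -(I ^ 11) := by ring
      _ = I := by rw [hI11]; ring
  have hN3 : (-I : ℂ) ^ 3 = I := by
    calc (-I : ℂ) ^ 3 = -(I ^ 3) := by ring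
      _ = I := by rw [hI3]; ring
  have hN9 : (-I : ℂ) ^ 9 = -I := by
    calc (-I : ℂ) ^ 9 = -(I ^ 9) := by ring
      _ = -I := by rw [hI9]
  have hA := adj_hermitian graphA
  have c1 : (((1 + √2 : ℝ) : ℂ)) ^ 2 = 2 * ((1 + √2 : ℝ) : ℂ) + 1 := by
    have : (1 + √2 : ℝ) ^ 2 = 2 * (1 + √2) + 1 := by linear_combination sq2
    exact_mod_cast this
  have c2 : (((1 - √2 : ℝ) : ℂ)) ^ 2 = 2 * ((1 - √2 : ℝ) : ℂ) + 1 := by
    have : (1 - √2 : ℝ) ^ 2 = 2 * (1 - √2) + 1 := by linear_combination sq2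
    exact_mod_cast this
  constructor
  · have h := cubicA c1
    have e1 : (14076 + 17204 * (((1 + √2 : ℝ) : ℂ) - 1)) = ((14076 + 17204 * √2 : ℝ) : ℂ) := by
      push_cast; ring
    have e2 : (14076 + 4692 * (((1 + √2 : ℝ) : ℂ) - 1)) = ((14076 + 4692 * √2 : ℝ) : ℂ) := by
      push_cast; ring
    have e3 : (14076 - 14076 * (((1 + √2 : ℝ) : ℂ) - 1)) = ((14076 - 14076 * √2 : ℝ) : ℂ) := by
      push_cast; ring
    rw [e1, e2, e3] at h
    refine walk_phase hA h ?_ ?_ ?_
    · have : timeA * (14076 + 17204 * √2) = timeA * 14076 + (11 : ℕ) * (Real.pi / 2) := by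
        rw [← timeA_mul]; push_cast; ring
      rw [this, exp_mul_quarter, hI11]
    · have : timeA * (14076 + 4692 * √2) = timeA * 14076 + (3 : ℕ) * (Real.pi / 2) := by
        rw [← timeA_mul]; push_cast; ring
      rw [this, exp_mul_quarter, hI3]
    · have : timeA * (14076 - 14076 * √2) = timeA * 14076 - (9 : ℕ) * (Real.pi / 2) := by
        rw [← timeA_mul]; push_cast; ring
      rw [this, exp_neg_mul_quarter, hN9]
  · have h := cubicA c2
    have e1 : (14076 + 17204 * (((1 - √2 : ℝ) : ℂ) - 1)) = ((14076 - 17204 * √2 : ℝ) : ℂ) := by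
      push_cast; ring
    have e2 : (14076 + 4692 * (((1 - √2 : ℝ) : ℂ) - 1)) = ((14076 - 4692 * √2 : ℝ) : ℂ) := by
      push_cast; ring
    have e3 : (14076 - 14076 * (((1 - √2 : ℝ) : ℂ) - 1)) = ((14076 + 14076 * √2 : ℝ) : ℂ) := by
      push_cast; ring
    rw [e1, e2, e3] at h
    refine walk_phase hA h ?_ ?_ ?_
    · have : timeA * (14076 - 17204 * √2) = timeA * 14076 - (11 : ℕ) * (Real.pi / 2) := by
        rw [← timeA_mul]; push_cast; ring
      rw [this, exp_neg_mul_quarter, hN11]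
    · have : timeA * (14076 - 4692 * √2) = timeA * 14076 - (3 : ℕ) * (Real.pi / 2) := by
        rw [← timeA_mul]; push_cast; ring
      rw [this, exp_neg_mul_quarter, hN3]
    · have : timeA * (14076 + 14076 * √2) = timeA * 14076 + (9 : ℕ) * (Real.pi / 2) := by
        rw [← timeA_mul]; push_cast; ring
      rw [this, exp_mul_quarter, hI9]

theorem balancedA : ∃ α β : ℂ, ‖α‖ = 1 / √2 ∧ ‖β‖ = 1 / √2 ∧
    walk (graphA.adjMatrix ℂ) timeA *ᵥ Pi.single (.inl false) 1 =
      α • (Pi.single (.inl false) 1 : Vert 647496 mA → ℂ) +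
        β • (Pi.single (.inl true) 1 : Vert 647496 mA → ℂ) := by
  obtain ⟨h1, h2⟩ := phasesA
  have h0 : (√2 : ℝ) ≠ 0 := by positivity
  have hs : ((1 + √2 : ℝ) : ℂ) ≠ ((1 - √2 : ℝ) : ℂ) := by
    intro h
    have h' : (1 + √2 : ℝ) = 1 - √2 := by exact_mod_cast h
    apply h0
    linarith
  have hss : ((1 + √2 : ℝ) : ℂ) * ((1 - √2 : ℝ) : ℂ) = -1 := by
    have : (1 + √2 : ℝ) * (1 - √2) = -1 := by linear_combination -sq2
    exact_mod_cast this
  have key := revival_a hs hss h1 h2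
  have hd : ((1 + √2 : ℝ) : ℂ) - ((1 - √2 : ℝ) : ℂ) = ((2 * √2 : ℝ) : ℂ) := by
    push_cast; ring
  have hE : ‖Complex.exp ((timeA * 14076 : ℝ) * I)‖ = 1 := Complex.norm_exp_ofReal_mul_I _
  have hfin : (2 : ℝ) / (2 * √2) = 1 / √2 := by field_simp
  refine ⟨_, _, ?_, ?_, key⟩
  · rw [hd]
    have : ((1 + √2 : ℝ) : ℂ) * (Complex.exp ((timeA * 14076 : ℝ) * I) * I) -
        ((1 - √2 : ℝ) : ℂ) * (Complex.exp ((timeA * 14076 : ℝ) * I) * (-I)) =
        ((2 : ℝ) : ℂ) * (Complex.exp ((timeA * 14076 : ℝ) * I) * I) := by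
      push_cast; ring
    rw [this, norm_div, norm_mul, norm_mul, hE, Complex.norm_I, Complex.norm_real,
      Complex.norm_real, Real.norm_eq_abs, Real.norm_eq_abs, abs_of_pos (by norm_num),
      abs_of_pos (by positivity), mul_one, mul_one, hfin]
  · rw [hd]
    have : Complex.exp ((timeA * 14076 : ℝ) * I) * (-I) - Complex.exp ((timeA * 14076 : ℝ) * I) * I =
        ((-2 : ℝ) : ℂ) * (Complex.exp ((timeA * 14076 : ℝ) * I) * I) := by
      push_cast; ring
    rw [this, norm_div, norm_mul, norm_mul, hE, Complex.norm_I, Complex.norm_real,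
      Complex.norm_real, Real.norm_eq_abs, Real.norm_eq_abs, abs_of_neg (by norm_num),
      abs_of_pos (by positivity), mul_one, mul_one, neg_neg, hfin]

end Pool.Agent.X132.Rev
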