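import Mathlib
import Pool.Agent.X132.RevE

/-!
# The second graph: support eigenvalues of degree four
-/

namespace Pool.Agent.X132.Rev

open Matrix Complex Pool.Agent.X132.FR

/-- The second graph. -/
abbrev graphB : SimpleGraph (Vert 121968 mB) := graph 121968 mB rB rB_symm

theorem mulVecB {R : Type} [CommRing R] (u : Bool ⊕ Fin 5 → R) :
    graphB.adjMatrix R *ᵥ (fun v => u (cell v)) = fun v => quo 121968 mB rB u (cell v) :=
  mulVec_cell rB_symm rB_le u

theorem stepsB {R : Type} [CommRing R] (s : R) :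
    graphB.adjMatrix R *ᵥ two (.inl false) (.inl true) s = (fun v => lev1 s (cell v)) ∧
    graphB.adjMatrix R *ᵥ (graphB.adjMatrix R *ᵥ two (.inl false) (.inl true) s) =
      (fun v => lev2B s (cell v)) ∧
    graphB.adjMatrix R *ᵥ (graphB.adjMatrix R *ᵥ (graphB.adjMatrix R *ᵥ
      two (.inl false) (.inl true) s)) = (fun v => quo 121968 mB rB (lev2B s) (cell v)) := by
  have h1 : graphB.adjMatrix R *ᵥ two (.inl false) (.inl true) s =
      (fun v => lev1 s (cell v)) := by
    rw [two_eq, mulVecB, quo_base]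
  have h2 : graphB.adjMatrix R *ᵥ (graphB.adjMatrix R *ᵥ two (.inl false) (.inl true) s) =
      (fun v => lev2B s (cell v)) := by
    rw [h1, mulVecB, quo_lev1B]
  refine ⟨h1, h2, ?_⟩
  rw [h2, mulVecB]

/-- The roots are `u`, `u + 924 w`, `u - 924 w` with `u = 924 (1 + 2 s)`, `w² = 37`. -/
theorem cubicB {R : Type} [CommRing R] {s w : R} (h : s ^ 2 = 1 * s + 1) (hw : w ^ 2 = 37) :
    Cubic (graphB.adjMatrix R) (two (.inl false) (.inl true) s) (924 * (1 + 2 * s))
      (924 * (1 + 2 * s) + 924 * w) (924 * (1 + 2 * s) - 924 * w) := by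
  intro v
  obtain ⟨h1, h2, h3⟩ := stepsB s
  rw [h3, h2, h1, two_eq]
  have h4 := quo_lev2B h (cell v)
  linear_combination h4 + (12 * 853776 * lev1 s (cell v) -
    (4 * 788889024 * (1 + 2 * s) + 16 * 788889024) * base s (cell v)) * h +
    (-853776 * lev1 s (cell v) + 788889024 * (1 + 2 * s) * base s (cell v)) * hw

/-- The time of fractional revival. -/
noncomputable def timeB : ℝ := 2 * Real.pi / (924 * √37)

theorem sq5 : (√5 : ℝ) ^ 2 = 5 := Real.sq_sqrt (by norm_num)
theorem sq37 : (√37 : ℝ) ^ 2 = 37 := Real.sq_sqrt (by norm_num)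

/-- The two values of `s`. -/
noncomputable def gp : ℝ := (1 + √5) / 2
/-- The two values of `s`. -/
noncomputable def gm : ℝ := (1 - √5) / 2

theorem gp_sq : gp ^ 2 = 1 * gp + 1 := by unfold gp; linear_combination (1 / 4 : ℝ) * sq5
theorem gm_sq : gm ^ 2 = 1 * gm + 1 := by unfold gm; linear_combination (1 / 4 : ℝ) * sq5
theorem gp_gm : gp * gm = -1 := by unfold gp gm; linear_combination (-1 / 4 : ℝ) * sq5
theorem gp_sub : gp - gm = √5 := by unfold gp gm; ring
theorem gp_ne : gp ≠ gm := by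
  intro h
  have h1 := gp_sub
  have h2 : (0 : ℝ) < √5 := by positivity
  rw [h, sub_self] at h1
  linarith

theorem timeB_mul : timeB * (924 * √37) = 2 * Real.pi := by
  unfold timeB
  have : (√37 : ℝ) ≠ 0 := by positivity
  field_simp

theorem phaseB {s : ℝ} (hs : s ^ 2 = 1 * s + 1) :
    walk (graphB.adjMatrix ℂ) timeB *ᵥ two (.inl false) (.inl true) (s : ℂ) =
      Complex.exp ((timeB * (924 * (1 + 2 * s)) : ℝ) * I) •
        two (.inl false) (.inl true) (s : ℂ) := by
  have c1 : (s : ℂ) ^ 2 = 1 * (s : ℂ) + 1 := by exact_mod_cast hs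
  have c2 : ((√37 : ℝ) : ℂ) ^ 2 = 37 := by exact_mod_cast sq37
  have h := cubicB c1 c2
  have e1 : (924 * (1 + 2 * (s : ℂ))) = ((924 * (1 + 2 * s) : ℝ) : ℂ) := by
    push_cast; ring
  have e2 : (((924 * (1 + 2 * s) : ℝ) : ℂ) + 924 * ((√37 : ℝ) : ℂ)) =
      ((924 * (1 + 2 * s) + 924 * √37 : ℝ) : ℂ) := by
    push_cast; ring
  have e3 : (((924 * (1 + 2 * s) : ℝ) : ℂ) - 924 * ((√37 : ℝ) : ℂ)) =
      ((924 * (1 + 2 * s) - 924 * √37 : ℝ) : ℂ) := by
    push_cast; ring
  rw [e1, e2, e3] at h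
  refine walk_phase (adj_hermitian graphB) h rfl ?_ ?_
  · have : timeB * (924 * (1 + 2 * s) + 924 * √37) = timeB * (924 * (1 + 2 * s)) + 2 * Real.pi := by
      rw [← timeB_mul]; ring
    rw [this]
    push_cast
    rw [add_mul, Complex.exp_add, Complex.exp_two_pi_mul_I, mul_one]
  · have : timeB * (924 * (1 + 2 * s) - 924 * √37) = timeB * (924 * (1 + 2 * s)) - 2 * Real.pi := by
      rw [← timeB_mul]; ring
    rw [this]
    push_cast
    rw [sub_mul, Complex.exp_sub, Complex.exp_two_pi_mul_I, div_one]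

/-- The two phases. -/
noncomputable def omp : ℂ := Complex.exp ((timeB * (924 * (1 + 2 * gp)) : ℝ) * I)
/-- The two phases. -/
noncomputable def omm : ℂ := Complex.exp ((timeB * (924 * (1 + 2 * gm)) : ℝ) * I)

theorem omp_ne : omp ≠ omm := by
  unfold omp omm
  intro h
  rw [Complex.exp_eq_exp_iff_exists_int] at h
  obtain ⟨n, hn⟩ := h
  have h1 : ((timeB * (924 * (1 + 2 * gp)) : ℝ) : ℂ) =
      ((timeB * (924 * (1 + 2 * gm)) + n * (2 * Real.pi) : ℝ) : ℂ) := by
    apply mul_right_cancel₀ Complex.I_ne_zero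
    rw [hn]
    push_cast
    ring
  have h2 : timeB * (924 * (1 + 2 * gp)) = timeB * (924 * (1 + 2 * gm)) + n * (2 * Real.pi) := by
    exact_mod_cast h1
  have h3 : timeB * (924 * 2 * √5) = n * (2 * Real.pi) := by
    rw [← gp_sub]; linear_combination h2
  have hpi := Real.pi_pos
  have h37 : (0 : ℝ) < √37 := by positivity
  have h4 : 2 * √5 = n * √37 := by
    rw [← timeB_mul] at h3
    have htb : timeB ≠ 0 := by unfold timeB; positivity
    have : timeB * 924 * (2 * √5) = timeB * 924 * (n * √37) := by linear_combination h3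
    exact mul_left_cancel₀ (mul_ne_zero htb (by norm_num)) this
  have h5 : (20 : ℝ) = n ^ 2 * 37 := by
    have : (2 * √5) ^ 2 = (n * √37) ^ 2 := by rw [h4]
    rw [mul_pow, mul_pow, sq5, sq37] at this
    linarith
  have h6 : (20 : ℤ) = n ^ 2 * 37 := by exact_mod_cast h5
  omega

theorem alpha_ne : (gp : ℂ) * omm - (gm : ℂ) * omp ≠ 0 := by
  intro h
  have h1 : (gp : ℂ) * omm = (gm : ℂ) * omp := sub_eq_zero.1 h
  have h2 := congrArg norm h1
  have e1 : ‖omm‖ = 1 := Complex.norm_exp_ofReal_mul_I _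
  have e2 : ‖omp‖ = 1 := Complex.norm_exp_ofReal_mul_I _
  rw [norm_mul, norm_mul, e1, e2, mul_one, mul_one, Complex.norm_real, Complex.norm_real,
    Real.norm_eq_abs, Real.norm_eq_abs] at h2
  have h3 : gp ^ 2 = gm ^ 2 := by rw [← sq_abs, h2, sq_abs]
  rw [gp_sq, gm_sq] at h3
  exact gp_ne (by linarith)

theorem gp_neC : ((gp : ℝ) : ℂ) ≠ ((gm : ℝ) : ℂ) := by
  intro h
  exact gp_ne (by exact_mod_cast h)

theorem columnB_a : walk (graphB.adjMatrix ℂ) timeB *ᵥ Pi.single (.inl false) 1 =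
      (((gp : ℂ) * omm - (gm : ℂ) * omp) / ((gp : ℂ) - (gm : ℂ))) •
        (Pi.single (.inl false) 1 : Vert 121968 mB → ℂ) +
      ((omp - omm) / ((gp : ℂ) - (gm : ℂ))) • (Pi.single (.inl true) 1 : Vert 121968 mB → ℂ) :=
  revival_a gp_neC (by exact_mod_cast gp_gm) (phaseB gp_sq) (phaseB gm_sq)

theorem columnB_b : walk (graphB.adjMatrix ℂ) timeB *ᵥ Pi.single (.inl true) 1 =
      ((omp - omm) / ((gp : ℂ) - (gm : ℂ))) •
        (Pi.single (.inl false) 1 : Vert 121968 mB → ℂ) +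
      (((gp : ℂ) * omp - (gm : ℂ) * omm) / ((gp : ℂ) - (gm : ℂ))) •
        (Pi.single (.inl true) 1 : Vert 121968 mB → ℂ) :=
  revival_b gp_neC (phaseB gp_sq) (phaseB gm_sq)

theorem timeB_pos : 0 < timeB := by unfold timeB; positivity

end Pool.Agent.X132.Rev
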