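import Mathlib
import Pool.Agent.X132.RevF

/-!
# The second graph: spectral data
-/

namespace Pool.Agent.X132.Rev

open Matrix Complex Pool.Agent.X132.FR Polynomial

theorem graphB_symm : (graphB.adjMatrix ℝ)ᵀ = graphB.adjMatrix ℝ := graphB.transpose_adjMatrix

/-- The middle eigenvalue of a class. -/
noncomputable def mid (s : ℝ) : ℝ := 924 * (1 + 2 * s)

theorem mid_gp : mid gp = 1848 + 924 * √5 := by unfold mid gp; ring
theorem mid_gm : mid gm = 1848 - 924 * √5 := by unfold mid gm; ring

theorem irr5 : Irrational (√5) := by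
  have : Nat.Prime 5 := by norm_num
  exact_mod_cast this.irrational_sqrt

theorem irr37 : Irrational (√37) := by
  have : Nat.Prime 37 := by norm_num
  exact_mod_cast this.irrational_sqrt

theorem irr185 : Irrational (√185) := by
  rw [irrational_sqrt_ofNat_iff]
  rintro ⟨n, hn⟩
  have h1 : n ≤ 13 ∨ 14 ≤ n := by omega
  rcases h1 with h1 | h1
  · have : n * n ≤ 13 * 13 := Nat.mul_le_mul h1 h1
    omega
  · have : 14 * 14 ≤ n * n := Nat.mul_le_mul h1 h1
    have hh : (185 : ℕ) = n * n := hn
    omega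

theorem sqrt185 : √5 * √37 = √185 := by
  rw [← Real.sqrt_mul (by norm_num)]
  norm_num

/-- The class of the roots with the same sign in different classes. -/
theorem roots_ne (w : ℝ) (hw : w = 0 ∨ w = 924 * √37 ∨ w = -(924 * √37)) : 924 * (2 * √5) ≠ w := by
  have h5 : (0 : ℝ) < √5 := by positivity
  rintro rfl
  rcases hw with h | h | h
  · linarith
  · have h1 : 2 * √5 = √37 := by linarith
    have h2 : (2 * √5) ^ 2 = (√37) ^ 2 := by rw [h1]
    rw [mul_pow, sq5, sq37] at h2
    norm_num at h2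
  · have h37 : (0 : ℝ) < √37 := by positivity
    linarith

theorem roots_ne2 (w : ℝ) (hw : w = 0 ∨ w = 924 * √37 ∨ w = -(924 * √37)) :
    924 * (2 * √5) + 924 * √37 ≠ w := by
  have h5 : (0 : ℝ) < √5 := by positivity
  have h37 : (0 : ℝ) < √37 := by positivity
  rintro rfl
  rcases hw with h | h | h
  · linarith
  · linarith
  · linarith

theorem mid_sub : mid gp - mid gm = 924 * (2 * √5) := by
  rw [mid_gp, mid_gm]; ring

theorem lev_a (s : ℝ) : (graphB.adjMatrix ℝ *ᵥ (graphB.adjMatrix ℝ *ᵥ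
    two (.inl false) (.inl true) s)) (.inl false) = 6830208 + 3415104 * s ∧
    (graphB.adjMatrix ℝ *ᵥ two (.inl false) (.inl true) s) (.inl false) = 0 ∧
    two (V := Vert 121968 mB) (.inl false) (.inl true) s (.inl false) = 1 := by
  obtain ⟨h1, h2, -⟩ := stepsB (R := ℝ) s
  refine ⟨?_, ?_, ?_⟩
  · rw [h2]; rfl
  · rw [h1]; rfl
  · exact two_a (by simp) s

theorem entry_plus : 0 < eproj (graphB.adjMatrix ℝ) (mid gp) (.inl false) (.inl true) := by
  have h37 : (0 : ℝ) < √37 := by positivity
  have h5 : (0 : ℝ) < √5 := by positivity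
  have hp := cubicB gp_sq sq37
  have hm := cubicB gm_sq sq37
  have hsub := mid_sub
  unfold mid at hsub
  have e := eproj_b graphB_symm gp_ne hp hm (by intro h; linarith) (by intro h; linarith)
    (fun h => roots_ne 0 (Or.inl rfl) (by linarith))
    (fun h => roots_ne _ (Or.inr (Or.inl rfl)) (by linarith))
    (fun h => roots_ne _ (Or.inr (Or.inr rfl)) (by linarith)) (.inl false)
  obtain ⟨g1, g2, g3⟩ := lev_a gp
  rw [g1, g2, g3, gp_sub] at e
  unfold mid
  rw [e]
  have hW : 6830208 + 3415104 * gp - (924 * (1 + 2 * gp) + 924 * √37 +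
      (924 * (1 + 2 * gp) - 924 * √37)) * 0 + (924 * (1 + 2 * gp) + 924 * √37) *
      (924 * (1 + 2 * gp) - 924 * √37) * 1 = 853776 * (-24 + 12 * gp) := by
    linear_combination 4 * 853776 * gp_sq - 853776 * sq37
  have hD : (924 * (1 + 2 * gp) - (924 * (1 + 2 * gp) + 924 * √37)) *
      (924 * (1 + 2 * gp) - (924 * (1 + 2 * gp) - 924 * √37)) = -(853776 * 37) := by
    linear_combination -853776 * sq37
  rw [hW, hD]
  have hg : gp < 2 := by
    unfold gp
    nlinarith [sq5]
  have : 0 < 24 - 12 * gp := by linarith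
  have h3 : 1 / √5 * ((-(853776 * 37))⁻¹ * (853776 * (-24 + 12 * gp))) =
      (24 - 12 * gp) / (37 * √5) := by
    field_simp
    ring
  rw [h3]
  exact div_pos this (mul_pos (by norm_num) h5)

theorem entry_minus : eproj (graphB.adjMatrix ℝ) (mid gm) (.inl false) (.inl true) < 0 := by
  have h37 : (0 : ℝ) < √37 := by positivity
  have h5 : (0 : ℝ) < √5 := by positivity
  have hp := cubicB gp_sq sq37
  have hm := cubicB gm_sq sq37
  have hsub := mid_sub
  unfold mid at hsub
  have e := eproj_b graphB_symm gp_ne.symm hm hp (by intro h; linarith) (by intro h; linarith)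
    (fun h => roots_ne 0 (Or.inl rfl) (by linarith))
    (fun h => roots_ne _ (Or.inr (Or.inr rfl)) (by linarith))
    (fun h => roots_ne _ (Or.inr (Or.inl rfl)) (by linarith)) (.inl false)
  obtain ⟨g1, g2, g3⟩ := lev_a gm
  have hs : gm - gp = -√5 := by rw [← gp_sub]; ring
  rw [g1, g2, g3, hs] at e
  unfold mid
  rw [e]
  have hW : 6830208 + 3415104 * gm - (924 * (1 + 2 * gm) + 924 * √37 +
      (924 * (1 + 2 * gm) - 924 * √37)) * 0 + (924 * (1 + 2 * gm) + 924 * √37) *
      (924 * (1 + 2 * gm) - 924 * √37) * 1 = 853776 * (-24 + 12 * gm) := by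
    linear_combination 4 * 853776 * gm_sq - 853776 * sq37
  have hD : (924 * (1 + 2 * gm) - (924 * (1 + 2 * gm) + 924 * √37)) *
      (924 * (1 + 2 * gm) - (924 * (1 + 2 * gm) - 924 * √37)) = -(853776 * 37) := by
    linear_combination -853776 * sq37
  rw [hW, hD]
  have hg : gm < 0 := by
    have h7 : (1 : ℝ) < √5 := by
      rw [show (1 : ℝ) = √1 by simp]
      exact Real.sqrt_lt_sqrt (by norm_num) (by norm_num)
    unfold gm
    linarith
  have : 0 < 24 - 12 * gm := by linarith
  have h3 : 1 / (-√5) * ((-(853776 * 37))⁻¹ * (853776 * (-24 + 12 * gm))) =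
      -((24 - 12 * gm) / (37 * √5)) := by
    field_simp
    ring
  rw [h3]
  have : 0 < (24 - 12 * gm) / (37 * √5) := div_pos this (mul_pos (by norm_num) h5)
  linarith

/-- The conjugate root. -/
theorem conj_root {θ η : ℝ} (h1 : (θ = 1848 + 924 * √5 ∧ η = 1848 - 924 * √5) ∨
    (θ = 1848 - 924 * √5 ∧ η = 1848 + 924 * √5)) : aeval ((η : ℝ) : ℂ) (minpoly ℚ θ) = 0 := by
  have hsum : θ + η = 3696 := by rcases h1 with ⟨rfl, rfl⟩ | ⟨rfl, rfl⟩ <;> ring
  have hmul : θ * η = -853776 := by
    rcases h1 with ⟨rfl, rfl⟩ | ⟨rfl, rfl⟩ <;> linear_combination (-853776 : ℝ) * sq5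
  have hirr : Irrational θ := by
    rcases h1 with ⟨rfl, -⟩ | ⟨rfl, -⟩
    · exact_mod_cast (irr5.ratCast_mul (q := 924) (by norm_num)).ratCast_add 1848
    · exact_mod_cast (irr5.ratCast_mul (q := 924) (by norm_num)).ratCast_sub 1848
  set P : ℚ[X] := X ^ 2 - C 3696 * X - C 853776 with hP
  have hPm : P.Monic := by
    rw [hP]
    monicity!
  have hPdeg : P.natDegree = 2 := by
    rw [hP]
    compute_degree!
  have hθ : ∀ z : ℂ, z ^ 2 = 3696 * z + 853776 → aeval z P = 0 := by
    intro z hz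
    rw [hP]
    simp only [map_sub, map_mul, map_pow, aeval_X, aeval_C]
    have e1 : (algebraMap ℚ ℂ) 3696 = 3696 := by simp
    have e2 : (algebraMap ℚ ℂ) 853776 = 853776 := by simp
    rw [e1, e2, hz]
    ring
  have hθ1 : θ ^ 2 = 3696 * θ + 853776 := by linear_combination θ * hsum - hmul
  have hη1 : η ^ 2 = 3696 * η + 853776 := by linear_combination η * hsum - hmul
  have hθP : aeval θ P = 0 := by
    have h2 := hθ (θ : ℂ) (by exact_mod_cast hθ1)
    have h3 : ((aeval θ P : ℝ) : ℂ) = 0 := by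
      rw [← h2]
      exact (Polynomial.aeval_algebraMap_apply ℂ θ P).symm
    exact_mod_cast h3
  set m := minpoly ℚ θ with hm
  have hmod := Polynomial.modByMonic_add_div m P
  set q := m %ₘ P with hq
  have hdeg : q.natDegree < 2 := by
    rw [← hPdeg]
    exact Polynomial.natDegree_modByMonic_lt m hPm (by intro h; rw [h] at hPdeg; simp at hPdeg)
  have hqθ : aeval θ q = 0 := by
    have h3 := congrArg (aeval θ) hmod
    rw [map_add, map_mul, hθP, zero_mul, add_zero] at h3
    rw [h3]
    exact minpoly.aeval ℚ θ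
  have hq0 : q = 0 := by
    have h4 : q = C (q.coeff 1) * X + C (q.coeff 0) :=
      Polynomial.eq_X_add_C_of_natDegree_le_one (by omega)
    rw [h4] at hqθ
    simp only [map_add, map_mul, aeval_C, aeval_X, eq_ratCast] at hqθ
    by_cases hc : q.coeff 1 = 0
    · rw [hc] at hqθ
      have : q.coeff 0 = 0 := by
        simpa using hqθ
      rw [h4, hc, this]
      simp
    · exfalso
      apply hirr
      refine ⟨-(q.coeff 0) / q.coeff 1, ?_⟩
      have hc' : (q.coeff 1 : ℝ) ≠ 0 := by exact_mod_cast hc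
      push_cast
      rw [div_eq_iff hc']
      linarith
  rw [hq0, zero_add] at hmod
  rw [← hmod, map_mul, hθ (η : ℂ) (by exact_mod_cast hη1), zero_mul]

end Pool.Agent.X132.Rev
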