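import Mathlib

/-!
# Powers of affine forms and the coning operator
-/

namespace Pool.Agent.X132.Cone

open MvPolynomial

/-- Real polynomials in three variables. -/
abbrev Poly := MvPolynomial (Fin 3) ℝ

/-- The affine form `a 0 * x + a 1 * y + a 2 * z + b`. -/
noncomputable def aff (a : Fin 3 → ℝ) (b : ℝ) : Poly := C b + ∑ i, C (a i) * X i

theorem aff_add (a a' : Fin 3 → ℝ) (b b' : ℝ) : aff a b + aff a' b' = aff (a + a') (b + b') := by
  simp only [aff, Pi.add_apply, map_add, add_mul, Finset.sum_add_distrib]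
  ring

theorem aff_smul (t : ℝ) (a : Fin 3 → ℝ) (b : ℝ) : C t * aff a b = aff (t • a) (t * b) := by
  simp only [aff, Pi.smul_apply, smul_eq_mul, map_mul, mul_add, Finset.mul_sum]
  congr 1
  refine Finset.sum_congr rfl fun i _ => ?_
  ring

theorem eval_aff (q : Fin 3 → ℝ) (a : Fin 3 → ℝ) (b : ℝ) :
    eval q (aff a b) = b + ∑ i, a i * q i := by
  simp [aff]

theorem pderiv_aff (a : Fin 3 → ℝ) (b : ℝ) (i : Fin 3) : pderiv i (aff a b) = C (a i) := by
  simp only [aff, map_add, pderiv_C, zero_add, map_sum, Derivation.leibniz, pderiv_X, smul_eq_mul,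
    mul_zero, add_zero]
  rw [Finset.sum_eq_single i]
  · simp
  · intro j _ hj
    simp [Pi.single_apply, hj]
  · simp

/-- The polynomials of degree at most `s`. -/
noncomputable abbrev PolyLE (s : ℕ) : Submodule ℝ Poly := restrictTotalDegree (Fin 3) ℝ s

/-- The span of the `s`-th powers of the affine forms vanishing on a set of points. -/
noncomputable def powSpan (Q : Set (Fin 3 → ℝ)) (s : ℕ) : Submodule ℝ Poly :=
  Submodule.span ℝ {f | ∃ a b, (∀ q ∈ Q, eval q (aff a b) = 0) ∧ f = aff a b ^ s}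

theorem powSpan_anti {Q R : Set (Fin 3 → ℝ)} (h : Q ⊆ R) (s : ℕ) : powSpan R s ≤ powSpan Q s := by
  refine Submodule.span_mono ?_
  rintro f ⟨a, b, hab, rfl⟩
  exact ⟨a, b, fun q hq => hab q (h hq), rfl⟩

theorem totalDegree_aff (a : Fin 3 → ℝ) (b : ℝ) : (aff a b).totalDegree ≤ 1 := by
  unfold aff
  refine (totalDegree_add _ _).trans (max_le (by simp) ?_)
  refine (totalDegree_finsetSum _ _).trans (Finset.sup_le fun i _ => ?_)
  refine (totalDegree_mul _ _).trans ?_
  simp

theorem powSpan_le (Q : Set (Fin 3 → ℝ)) (s : ℕ) : powSpan Q s ≤ PolyLE s := by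
  refine Submodule.span_le.2 ?_
  rintro f ⟨a, b, _, rfl⟩
  rw [SetLike.mem_coe, mem_restrictTotalDegree]
  refine (totalDegree_pow _ _).trans ?_
  have := totalDegree_aff a b
  nlinarith

/-- Coefficient extraction: if a polynomial curve lies in a subspace for all nonzero parameters,
then its constant coefficient and linear coefficient lie in the subspace. -/
theorem mem_of_curve {W : Submodule ℝ Poly} {n : ℕ} (v : ℕ → Poly)
    (h : ∀ t : ℝ, t ≠ 0 → ∑ j ∈ Finset.range n, t ^ j • v j ∈ W) (j : ℕ) (hj : j < n) :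
    v j ∈ W := by
  by_contra hv
  obtain ⟨φ, hφ, hφW⟩ := Submodule.exists_dual_map_eq_bot_of_notMem (p := W) hv inferInstance
  have hφW' : ∀ x ∈ W, φ x = 0 := by
    intro x hx
    have : φ x ∈ W.map φ := Submodule.mem_map_of_mem hx
    rw [hφW] at this
    simpa using this
  let r : Polynomial ℝ := ∑ j ∈ Finset.range n, Polynomial.C (φ (v j)) * Polynomial.X ^ j
  have hr : ∀ t : ℝ, t ≠ 0 → r.eval t = 0 := by
    intro t ht
    have := hφW' _ (h t ht)
    rw [map_sum] at this
    simp only [map_smul, smul_eq_mul] at this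
    simp only [r, Polynomial.eval_finsetSum, Polynomial.eval_mul, Polynomial.eval_C,
      Polynomial.eval_pow, Polynomial.eval_X]
    rw [← this]
    refine Finset.sum_congr rfl fun j _ => by ring
  have hr0 : r = 0 := by
    refine Polynomial.eq_zero_of_infinite_isRoot r ?_
    refine Set.Infinite.mono (s := {t : ℝ | t ≠ 0}) (fun t ht => hr t ht) ?_
    exact (Set.finite_singleton (0 : ℝ)).infinite_compl
  apply hφ
  have h1 : r.coeff j = φ (v j) := by
    simp only [r, Polynomial.finsetSum_coeff, Polynomial.coeff_C_mul, Polynomial.coeff_X_pow]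
    simp [hj]
  rw [← h1, hr0, Polynomial.coeff_zero]

theorem pow_curve (f g : Poly) (n : ℕ) (t : ℝ) :
    (f + C t * g) ^ n = ∑ j ∈ Finset.range (n + 1), t ^ j • ((n.choose j : ℝ) • (g ^ j * f ^ (n - j))) := by
  rw [add_comm, add_pow]
  refine Finset.sum_congr rfl fun j _ => ?_
  rw [MvPolynomial.smul_eq_C_mul, MvPolynomial.smul_eq_C_mul, mul_pow, C_pow]
  simp only [map_natCast]
  ring

/-- If a subspace contains the `s`-th powers of all affine forms, it contains all products of `s`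
affine forms. -/
theorem prod_mem (s : ℕ) : ∀ W : Submodule ℝ Poly, (∀ a b, aff a b ^ s ∈ W) →
    ∀ L : List Poly, L.length = s → (∀ f ∈ L, ∃ a b, f = aff a b) → L.prod ∈ W := by
  induction s with
  | zero =>
    intro W hW L hL _
    rw [List.length_eq_zero_iff] at hL
    subst hL
    simpa using hW 0 0
  | succ s ih =>
    intro W hW L hL hf
    match L, hL with
    | f :: L', hL =>
      obtain ⟨a0, b0, hf0⟩ := hf f (by simp)
      rw [List.prod_cons]
      refine ih (W.comap (LinearMap.mulLeft ℝ f)) (fun a b => ?_) L' (by simpa using hL)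
        (fun g hg => hf g (by simp [hg]))
      rw [Submodule.mem_comap, LinearMap.mulLeft_apply]
      have := mem_of_curve (W := W) (n := s + 1 + 1)
        (fun j => (((s + 1).choose j : ℝ) • (f ^ j * aff a b ^ (s + 1 - j)))) (by
          intro t _
          rw [← pow_curve, hf0, aff_smul, aff_add]
          exact hW _ _) 1 (by omega)
      have h2 : (f * aff a b ^ s) = ((s + 1 : ℕ) : ℝ)⁻¹ •
          (((s + 1).choose 1 : ℝ) • (f ^ 1 * aff a b ^ (s + 1 - 1))) := by
        rw [Nat.choose_one_right, smul_smul, inv_mul_cancel₀ (by positivity), one_smul, pow_one,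
          Nat.add_sub_cancel]
      rw [h2]
      exact W.smul_mem _ this

theorem X_aff (i : Fin 3) : (X i : Poly) = aff (Pi.single i 1) 0 := by
  simp only [aff, map_zero, zero_add]
  rw [Finset.sum_eq_single i]
  · simp
  · intro j _ hj
    simp [Pi.single_apply, hj]
  · simp

theorem one_aff : (1 : Poly) = aff 0 1 := by
  simp [aff]

theorem polyLE_eq (s : ℕ) : PolyLE s = powSpan ∅ s := by
  refine le_antisymm ?_ (powSpan_le _ _)
  intro f hf
  rw [mem_restrictTotalDegree] at hf
  rw [f.as_sum]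
  refine Submodule.sum_mem _ fun m hm => ?_
  have hdeg : m 0 + m 1 + m 2 ≤ s := by
    have h1 := le_totalDegree hm
    have h2 : (m.sum fun _ e => e) = m 0 + m 1 + m 2 := by
      rw [Finsupp.sum_fintype _ _ (by simp), Fin.sum_univ_three]
    omega
  have hmon : monomial m (coeff m f) = (coeff m f) •
      (List.replicate (m 0) (X 0 : Poly) ++ List.replicate (m 1) (X 1) ++
        List.replicate (m 2) (X 2) ++ List.replicate (s - (m 0 + m 1 + m 2)) 1).prod := by
    rw [MvPolynomial.smul_eq_C_mul, monomial_eq, Finsupp.prod_fintype _ _ (by simp),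
      Fin.prod_univ_three]
    simp [mul_assoc]
  rw [hmon]
  refine Submodule.smul_mem _ _ (prod_mem s _ ?_ _ ?_ ?_)
  · intro a b
    exact Submodule.subset_span ⟨a, b, by simp, rfl⟩
  · simp; omega
  · intro g hg
    simp only [List.mem_append, List.mem_replicate] at hg
    rcases hg with ((⟨_, rfl⟩ | ⟨_, rfl⟩) | ⟨_, rfl⟩) | ⟨_, rfl⟩
    · exact ⟨_, _, X_aff 0⟩
    · exact ⟨_, _, X_aff 1⟩
    · exact ⟨_, _, X_aff 2⟩
    · exact ⟨_, _, one_aff⟩

/-- The coning operator: in homogeneous coordinates, the derivative in the direction of the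
apex. -/
noncomputable def D (q : Fin 3 → ℝ) (k : ℕ) : Poly →ₗ[ℝ] Poly :=
  (k : ℝ) • LinearMap.id + ∑ i, (LinearMap.mulLeft ℝ (C (q i) - X i)).comp
    ((pderiv i : Derivation ℝ Poly Poly) : Poly →ₗ[ℝ] Poly)

theorem D_apply (q : Fin 3 → ℝ) (k : ℕ) (f : Poly) :
    D q k f = (k : ℝ) • f + ∑ i, (C (q i) - X i) * pderiv i f := by
  simp [D, LinearMap.sum_apply]

theorem D_pow (q : Fin 3 → ℝ) (k : ℕ) (a : Fin 3 → ℝ) (b : ℝ) :
    D q (k + 1) (aff a b ^ (k + 1)) = (((k : ℝ) + 1) * eval q (aff a b)) • aff a b ^ k := by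
  rw [D_apply, eval_aff]
  simp only [Derivation.leibniz_pow, pderiv_aff, Nat.add_sub_cancel, MvPolynomial.smul_eq_C_mul,
    smul_eq_mul, nsmul_eq_mul, map_mul, map_add, map_sum, map_natCast, map_one]
  have h1 : ∑ i, (C (q i) - X i : Poly) * (((k + 1 : ℕ) : Poly) * (aff a b ^ k * C (a i))) =
      ((k : Poly) + 1) * aff a b ^ k * (∑ i, C (a i) * C (q i) - ∑ i, C (a i) * X i) := by
    rw [← Finset.sum_sub_distrib, Finset.mul_sum]
    refine Finset.sum_congr rfl fun i _ => ?_
    push_cast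
    ring
  rw [h1]
  have h2 : (∑ i, C (a i) * X i : Poly) = aff a b - C b := by simp [aff]
  rw [h2]
  push_cast
  ring

/-- Iterates of the coning operator on polynomials of degree `n`. -/
noncomputable def E (q : Fin 3 → ℝ) (n : ℕ) : ℕ → Poly →ₗ[ℝ] Poly
  | 0 => LinearMap.id
  | j + 1 => (D q (n - j)).comp (E q n j)

theorem E_pow (q : Fin 3 → ℝ) (n j : ℕ) (hj : j ≤ n) (a : Fin 3 → ℝ) (b : ℝ) :
    E q n j (aff a b ^ n) = ((n.descFactorial j : ℝ) * (eval q (aff a b)) ^ j) •
      aff a b ^ (n - j) := by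
  induction j with
  | zero => simp [E]
  | succ j ih =>
    rw [E, LinearMap.comp_apply, ih (by omega), map_smul]
    obtain ⟨m, hm⟩ : ∃ m, n - j = m + 1 := ⟨n - j - 1, by omega⟩
    rw [hm, D_pow, smul_smul]
    have hm' : n - (j + 1) = m := by omega
    rw [hm', Nat.descFactorial_succ, hm]
    congr 1
    push_cast
    ring

theorem E_zero {q : Fin 3 → ℝ} {n : ℕ} {f : Poly} (h : D q n f = 0) (j : ℕ) :
    E q n (j + 1) f = 0 := by
  induction j with
  | zero => simpa [E] using h
  | succ j ih => rw [E, LinearMap.comp_apply, ih, map_zero]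

/-- The substitution operator. -/
noncomputable def T (q : Fin 3 → ℝ) (l : Poly) (n : ℕ) : Poly →ₗ[ℝ] Poly :=
  ∑ j ∈ Finset.range (n + 1), ((-1) ^ j * ((j.factorial : ℝ))⁻¹) •
    (LinearMap.mulLeft ℝ (l ^ j)).comp (E q n j)

theorem T_pow (q : Fin 3 → ℝ) (l : Poly) (n : ℕ) (a : Fin 3 → ℝ) (b : ℝ) :
    T q l n (aff a b ^ n) = (aff a b - C (eval q (aff a b)) * l) ^ n := by
  have h1 : (aff a b - C (eval q (aff a b)) * l) = aff a b + C (-(eval q (aff a b))) * l := by
    rw [map_neg]; ring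
  rw [h1, pow_curve, T, LinearMap.sum_apply]
  refine Finset.sum_congr rfl fun j hj => ?_
  have hjn : j ≤ n := by have := Finset.mem_range.1 hj; omega
  rw [LinearMap.smul_apply, LinearMap.comp_apply, E_pow q n j hjn, LinearMap.mulLeft_apply,
    mul_smul_comm, smul_smul, smul_smul]
  congr 1
  have h2 : (n.descFactorial j : ℝ) = (j.factorial : ℝ) * (n.choose j : ℝ) := by
    exact_mod_cast Nat.descFactorial_eq_factorial_mul_choose n j
  rw [h2, neg_pow (eval q (aff a b))]
  have h3 : (j.factorial : ℝ) ≠ 0 := by positivity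
  field_simp

theorem T_fix {q : Fin 3 → ℝ} (l : Poly) {n : ℕ} {f : Poly} (h : D q n f = 0) :
    T q l n f = f := by
  rw [T, LinearMap.sum_apply, Finset.sum_eq_single 0]
  · simp [E]
  · intro j _ hj
    obtain ⟨i, rfl⟩ := Nat.exists_eq_succ_of_ne_zero hj
    rw [LinearMap.smul_apply, LinearMap.comp_apply, Nat.succ_eq_add_one, E_zero h, map_zero,
      smul_zero]
  · intro h; simp at h

/-- The kernel of the coning operator. -/
theorem mem_powSpan_insert {q : Fin 3 → ℝ} {Q : Set (Fin 3 → ℝ)} {n : ℕ} {a0 : Fin 3 → ℝ} {b0 : ℝ}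
    (h0 : ∀ x ∈ Q, eval x (aff a0 b0) = 0) (h1 : eval q (aff a0 b0) = 1) {f : Poly}
    (hf : f ∈ powSpan Q n) (hD : D q n f = 0) : f ∈ powSpan (insert q Q) n := by
  rw [← T_fix (aff a0 b0) hD]
  have hle : powSpan Q n ≤ (powSpan (insert q Q) n).comap (T q (aff a0 b0) n) := by
    refine Submodule.span_le.2 ?_
    rintro g ⟨a, b, hab, rfl⟩
    rw [SetLike.mem_coe, Submodule.mem_comap, T_pow]
    have e : aff a b - C (eval q (aff a b)) * aff a0 b0 =
        aff (a + (-(eval q (aff a b))) • a0) (b + (-(eval q (aff a b))) * b0) := by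
      rw [← aff_add, ← aff_smul, map_neg]; ring
    refine Submodule.subset_span ⟨_, _, ?_, by rw [e]⟩
    rw [← e]
    intro x hx
    rcases hx with rfl | hx
    · simp [h1]
    · simp [h0 x hx, hab x hx]
  exact hle hf

theorem D_mem_ker {q : Fin 3 → ℝ} {Q : Set (Fin 3 → ℝ)} {n : ℕ} {f : Poly}
    (hf : f ∈ powSpan (insert q Q) (n + 1)) : D q (n + 1) f = 0 := by
  have hle : powSpan (insert q Q) (n + 1) ≤ LinearMap.ker (D q (n + 1)) := by
    refine Submodule.span_le.2 ?_
    rintro g ⟨a, b, hab, rfl⟩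
    rw [SetLike.mem_coe, LinearMap.mem_ker, D_pow, hab q (Set.mem_insert _ _), mul_zero, zero_smul]
  exact hle hf

theorem D_mem {q : Fin 3 → ℝ} {Q : Set (Fin 3 → ℝ)} {n : ℕ} {f : Poly}
    (hf : f ∈ powSpan Q (n + 1)) : D q (n + 1) f ∈ powSpan Q n := by
  have hle : powSpan Q (n + 1) ≤ (powSpan Q n).comap (D q (n + 1)) := by
    refine Submodule.span_le.2 ?_
    rintro g ⟨a, b, hab, rfl⟩
    rw [SetLike.mem_coe, Submodule.mem_comap, D_pow]
    exact Submodule.smul_mem _ _ (Submodule.subset_span ⟨a, b, hab, rfl⟩)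
  exact hle hf

/-- Surjectivity of the coning operator. -/
theorem exists_D {q : Fin 3 → ℝ} {Q : Set (Fin 3 → ℝ)} {n : ℕ} {a0 : Fin 3 → ℝ} {b0 : ℝ}
    (h0 : ∀ x ∈ Q, eval x (aff a0 b0) = 0) (h1 : eval q (aff a0 b0) = 1) {f : Poly}
    (hf : f ∈ powSpan Q n) : ∃ g ∈ powSpan Q (n + 1), D q (n + 1) g = f := by
  have hgood : ∀ a b, (∀ x ∈ Q, eval x (aff a b) = 0) → eval q (aff a b) ≠ 0 →
      aff a b ^ n ∈ (powSpan Q (n + 1)).map (D q (n + 1)) := by
    intro a b hab hq
    have hk : (((n : ℝ) + 1) * eval q (aff a b)) ≠ 0 := by positivity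
    refine ⟨(((n : ℝ) + 1) * eval q (aff a b))⁻¹ • aff a b ^ (n + 1),
      Submodule.smul_mem _ _ (Submodule.subset_span ⟨a, b, hab, rfl⟩), ?_⟩
    rw [map_smul, D_pow, smul_smul, inv_mul_cancel₀ hk, one_smul]
  have hle : powSpan Q n ≤ (powSpan Q (n + 1)).map (D q (n + 1)) := by
    refine Submodule.span_le.2 ?_
    rintro g ⟨a, b, hab, rfl⟩
    by_cases hq : eval q (aff a b) = 0
    · have := mem_of_curve (W := (powSpan Q (n + 1)).map (D q (n + 1))) (n := n + 1)
        (fun j => (((n).choose j : ℝ) • (aff a0 b0 ^ j * aff a b ^ (n - j)))) (by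
          intro t ht
          rw [← pow_curve, aff_smul, aff_add]
          refine hgood _ _ ?_ ?_
          · intro x hx
            rw [← aff_add, ← aff_smul]
            simp [hab x hx, h0 x hx]
          · rw [← aff_add, ← aff_smul]
            simp [hq, h1, ht]) 0 (by omega)
      simpa using this
    · exact hgood a b hab hq
  obtain ⟨g, hg, hgf⟩ := hle hf
  exact ⟨g, hg, hgf⟩

end Pool.Agent.X132.Cone
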