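import Mathlib
import Pool.Agent.X132.ConeA

/-!
# Cofactor chain complexes and cones: definitions
-/

namespace Pool.Agent.X132.Cone

open MvPolynomial

variable {α : Type} [LinearOrder α] [Fintype α]

/-- The space `I^s_ψ(p)`: all polynomials of degree at most `s` when `ψ` is empty, and otherwise
the span of the `s`-th powers of the affine forms vanishing at the points of `ψ`. -/
noncomputable def Ispace (p : α → Fin 3 → ℝ) (s : ℕ) (ψ : Finset α) : Submodule ℝ Poly :=
  if ψ = ∅ then PolyLE s else powSpan (p '' (ψ : Set α)) s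

/-- Finite simplicial complexes of dimension at most two (the empty face is included). -/
structure IsComplex (Δ : Finset (Finset α)) : Prop where
  empty_mem : ∅ ∈ Δ
  down : ∀ ψ ∈ Δ, ∀ θ ⊆ ψ, θ ∈ Δ
  card_le : ∀ ψ ∈ Δ, ψ.card ≤ 3

/-- The incidence number of `ψ \\ {v}` in `ψ` for the orientations given by the linear order. -/
def sgn (v : α) (ψ : Finset α) : ℝ := (-1) ^ (ψ.filter (· < v)).card

/-- The chains supported on the faces with `k` vertices (degree `k - 1`). -/
noncomputable def chains (Δ : Finset (Finset α)) (p : α → Fin 3 → ℝ) (s k : ℕ) :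
    Submodule ℝ (Finset α → Poly) where
  carrier := {c | ∀ ψ, (ψ ∈ Δ ∧ ψ.card = k → c ψ ∈ Ispace p s ψ) ∧
    (¬ (ψ ∈ Δ ∧ ψ.card = k) → c ψ = 0)}
  add_mem' := by
    intro c c' hc hc' ψ
    refine ⟨fun h => (Ispace p s ψ).add_mem ((hc ψ).1 h) ((hc' ψ).1 h), fun h => ?_⟩
    rw [Pi.add_apply, (hc ψ).2 h, (hc' ψ).2 h, add_zero]
  zero_mem' := by
    intro ψ
    exact ⟨fun _ => (Ispace p s ψ).zero_mem, fun _ => rfl⟩
  smul_mem' := by
    intro t c hc ψ
    refine ⟨fun h => (Ispace p s ψ).smul_mem t ((hc ψ).1 h), fun h => ?_⟩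
    rw [Pi.smul_apply, (hc ψ).2 h, smul_zero]

/-- The boundary map. -/
noncomputable def bd : (Finset α → Poly) →ₗ[ℝ] (Finset α → Poly) where
  toFun c := fun θ => ∑ v ∈ Finset.univ.filter (fun v => v ∉ θ),
    sgn v (insert v θ) • c (insert v θ)
  map_add' c c' := by
    funext θ
    simp [smul_add, Finset.sum_add_distrib]
  map_smul' t c := by
    funext θ
    simp only [Pi.smul_apply, RingHom.id_apply, Finset.smul_sum]
    refine Finset.sum_congr rfl fun v _ => smul_comm _ _ _

/-- The cycles supported on the faces with `k` vertices. -/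
noncomputable def cycles (Δ : Finset (Finset α)) (p : α → Fin 3 → ℝ) (s k : ℕ) :
    Submodule ℝ (Finset α → Poly) :=
  chains Δ p s k ⊓ LinearMap.ker bd

/-- The boundaries supported on the faces with `k` vertices. -/
noncomputable def boundaries (Δ : Finset (Finset α)) (p : α → Fin 3 → ℝ) (s k : ℕ) :
    Submodule ℝ (Finset α → Poly) :=
  (chains Δ p s (k + 1)).map bd

/-- The dimension of the homology at the faces with `k` vertices (degree `k - 1`). -/
noncomputable def betti (Δ : Finset (Finset α)) (p : α → Fin 3 → ℝ) (s k : ℕ) : ℕ :=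
  Module.finrank ℝ (↥(cycles Δ p s k) ⧸ (boundaries Δ p s k).submoduleOf (cycles Δ p s k))

/-- The truncated cone with apex `w`. -/
def cone (w : α) (Δ : Finset (Finset α)) : Finset (Finset α) :=
  Δ ∪ (Δ.filter (fun ψ => ψ.card ≤ 2)).image (insert w)

/-- The point `p w` lies in no proper affine subspace spanned by points `p v`, `v` a vertex
of `Δ`. -/
def General (Δ : Finset (Finset α)) (p : α → Fin 3 → ℝ) (w : α) : Prop :=
  ∀ A : Set α, (∀ v ∈ A, {v} ∈ Δ) → affineSpan ℝ (p '' A) ≠ ⊤ → p w ∉ affineSpan ℝ (p '' A)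

/-- The setting of the question: a two-complex, a new vertex, and a point in general position. -/
structure Setting (Δ : Finset (Finset α)) (w : α) (p : α → Fin 3 → ℝ) : Prop where
  complex : IsComplex Δ
  new : {w} ∉ Δ
  general : General Δ p w

/-- Coning preserves the Betti number at the faces with `k` vertices (degree `k - 1`). -/
def Preserved (Δ : Finset (Finset α)) (w : α) (p : α → Fin 3 → ℝ) (s k : ℕ) : Prop :=
  betti Δ p s k = betti (cone w Δ) p (s + 1) k

/-- Every two-dimensional face is placed at affinely independent points. -/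
def Nondegenerate (Δ : Finset (Finset α)) (p : α → Fin 3 → ℝ) : Prop :=
  ∀ σ ∈ Δ, σ.card = 3 → AffineIndependent ℝ (fun v : σ => p v)

end Pool.Agent.X132.Cone
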