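import Mathlib
import Pool.Agent.X132.ConeB

set_option linter.unusedSectionVars false

/-!
# Cofactor chain complexes and cones: proofs
-/

namespace Pool.Agent.X132.Cone

open MvPolynomial

variable {α : Type} [LinearOrder α] [Fintype α]

theorem bd_apply (c : Finset α → Poly) (θ : Finset α) :
    bd c θ = ∑ v ∈ Finset.univ.filter (fun v => v ∉ θ), sgn v (insert v θ) • c (insert v θ) := rfl

theorem sgn_sq (v : α) (ψ : Finset α) : sgn v ψ * sgn v ψ = 1 := by
  unfold sgn
  rw [← pow_add, ← two_mul, pow_mul]; norm_num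

theorem sgn_insert {u v : α} {θ : Finset α} (hu : u ∉ θ) :
    sgn v (insert u θ) = (if u < v then -1 else 1) * sgn v θ := by
  unfold sgn
  rw [Finset.filter_insert]
  split_ifs with h
  · rw [Finset.card_insert_of_notMem (by simp [hu]), pow_succ]; ring
  · rw [one_mul]

theorem sgn_self (v : α) (θ : Finset α) : sgn v (insert v θ) = sgn v θ := by
  unfold sgn
  rw [Finset.filter_insert, if_neg (lt_irrefl v)]

theorem sgn_anti {u v : α} {θ : Finset α} (huv : u ≠ v) (hu : u ∉ θ) (hv : v ∉ θ) :
    sgn v (insert v θ) * sgn u (insert u (insert v θ)) =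
      -(sgn u (insert u θ) * sgn v (insert v (insert u θ))) := by
  rw [sgn_self, sgn_self, sgn_self, sgn_self, sgn_insert hv, sgn_insert hu]
  rcases lt_or_gt_of_ne huv with h | h
  · rw [if_pos h, if_neg (not_lt.2 h.le)]; ring
  · rw [if_pos h, if_neg (not_lt.2 h.le)]; ring

theorem bd_bd (c : Finset α → Poly) : bd (bd c) = 0 := by
  funext θ
  rw [bd_apply]
  simp only [bd_apply, Finset.smul_sum, smul_smul, Pi.zero_apply]
  rw [Finset.sum_sigma']
  refine Finset.sum_involution (fun x _ => ⟨x.2, x.1⟩) ?_ ?_ ?_ ?_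
  · rintro ⟨v, u⟩ hx
    simp only [Finset.mem_sigma, Finset.mem_filter, Finset.mem_univ, true_and,
      Finset.mem_insert, not_or] at hx
    simp only
    rw [sgn_anti hx.2.1 hx.2.2 hx.1, Finset.insert_comm v u θ, neg_smul]
    exact neg_add_cancel _
  · rintro ⟨v, u⟩ hx _ heq
    simp only [Finset.mem_sigma, Finset.mem_filter, Finset.mem_univ, true_and,
      Finset.mem_insert, not_or] at hx
    simp only [Sigma.mk.injEq] at heq
    exact hx.2.1 heq.1
  · rintro ⟨v, u⟩ hx
    simp only [Finset.mem_sigma, Finset.mem_filter, Finset.mem_univ, true_and,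
      Finset.mem_insert, not_or] at hx ⊢
    exact ⟨hx.2.2, fun h => hx.2.1 h.symm, hx.1⟩
  · rintro ⟨v, u⟩ _
    rfl

/-- The homotopy. -/
noncomputable def htpy (w : α) (c : Finset α → Poly) : Finset α → Poly :=
  fun ψ => if w ∈ ψ then sgn w ψ • c (ψ.erase w) else 0

theorem htpy_eq (w : α) (c : Finset α → Poly) : bd (htpy w c) + htpy w (bd c) = c := by
  funext θ
  rw [Pi.add_apply]
  by_cases hw : w ∈ θ
  · -- `θ = insert w ψ`
    set ψ := θ.erase w with hψ
    have hwψ : w ∉ ψ := Finset.notMem_erase w θ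
    have hθ : θ = insert w ψ := (Finset.insert_erase hw).symm
    have h1 : htpy w (bd c) θ = sgn w θ • bd c ψ := by
      unfold htpy; rw [if_pos hw]
    rw [h1, bd_apply, bd_apply]
    have h2 : Finset.univ.filter (fun v => v ∉ ψ) =
        insert w (Finset.univ.filter (fun v => v ∉ θ)) := by
      ext v
      simp only [Finset.mem_filter, Finset.mem_univ, true_and, Finset.mem_insert, hθ, not_or]
      constructor
      · intro h
        by_cases hv : v = w
        · exact Or.inl hv
        · exact Or.inr ⟨hv, h⟩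
      · rintro (rfl | h)
        · exact hwψ
        · exact h.2
    rw [h2, Finset.sum_insert (by simp [hw]), smul_add, smul_smul, ← hθ, sgn_sq, one_smul]
    have h3 : ∑ v ∈ Finset.univ.filter (fun v => v ∉ θ), sgn v (insert v θ) • htpy w c (insert v θ) +
        sgn w θ • ∑ v ∈ Finset.univ.filter (fun v => v ∉ θ), sgn v (insert v ψ) • c (insert v ψ) =
        0 := by
      rw [Finset.smul_sum, ← Finset.sum_add_distrib]
      refine Finset.sum_eq_zero fun v hv => ?_
      simp only [Finset.mem_filter, Finset.mem_univ, true_and] at hv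
      have hvw : v ≠ w := fun h => hv (h ▸ hw)
      have hvψ : v ∉ ψ := fun h => hv (Finset.mem_of_mem_erase h)
      have h4 : htpy w c (insert v θ) = sgn w (insert v θ) • c (insert v ψ) := by
        unfold htpy
        rw [if_pos (Finset.mem_insert_of_mem hw), Finset.erase_insert_of_ne hvw]
      rw [h4, smul_smul, smul_smul, ← add_smul]
      have h5 := sgn_anti hvw hvψ hwψ
      rw [← hθ] at h5
      have h6 : sgn w (insert v θ) = sgn w (insert w (insert v ψ)) := by
        rw [hθ, Finset.insert_comm]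
      have h7 : sgn v (insert v θ) * sgn w (insert v θ) + sgn w θ * sgn v (insert v ψ) = 0 := by
        rw [h6]
        have e1 := sgn_sq w θ
        have e2 := sgn_sq w (insert w (insert v ψ))
        linear_combination (sgn w θ * sgn w (insert w (insert v ψ))) * h5 -
          (sgn v (insert v θ) * sgn w (insert w (insert v ψ))) * e1 -
          (sgn v (insert v ψ) * sgn w θ) * e2
      rw [h7, zero_smul]
    rw [add_comm (c θ), ← add_assoc, h3, zero_add]
  · have h1 : htpy w (bd c) θ = 0 := by unfold htpy; rw [if_neg hw]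
    rw [h1, add_zero, bd_apply, Finset.sum_eq_single w]
    · unfold htpy
      rw [if_pos (Finset.mem_insert_self w θ), smul_smul, sgn_sq, one_smul,
        Finset.erase_insert hw]
    · intro v hv hvw
      unfold htpy
      rw [if_neg, smul_zero]
      simp only [Finset.mem_insert, not_or]
      exact ⟨fun h => hvw h.symm, hw⟩
    · intro h; simp [hw] at h

theorem Ispace_anti (p : α → Fin 3 → ℝ) (s : ℕ) {θ ψ : Finset α} (h : θ ⊆ ψ) :
    Ispace p s ψ ≤ Ispace p s θ := by
  unfold Ispace
  split_ifs with h1 h2 h2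
  · exact le_rfl
  · subst h1
    exact absurd (Finset.subset_empty.1 h) h2
  · exact powSpan_le _ _
  · exact powSpan_anti (Set.image_mono (by exact_mod_cast h)) s

/-- `Ispace` is always a span of powers. -/
theorem Ispace_eq (p : α → Fin 3 → ℝ) (s : ℕ) (ψ : Finset α) :
    Ispace p s ψ = powSpan (p '' (ψ : Set α)) s := by
  unfold Ispace
  split_ifs with h
  · subst h
    rw [polyLE_eq]
    simp
  · rfl

theorem bd_mem {Δ : Finset (Finset α)} (hΔ : ∀ ψ ∈ Δ, ∀ θ ⊆ ψ, θ ∈ Δ) {p : α → Fin 3 → ℝ} {s k : ℕ}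
    {c : Finset α → Poly} (hc : c ∈ chains Δ p s (k + 1)) : bd c ∈ chains Δ p s k := by
  intro θ
  refine ⟨fun _ => ?_, fun h => ?_⟩
  · rw [bd_apply]
    refine Submodule.sum_mem _ fun v hv => Submodule.smul_mem _ _ ?_
    by_cases h : insert v θ ∈ Δ ∧ (insert v θ).card = k + 1
    · exact Ispace_anti p s (Finset.subset_insert v θ) ((hc _).1 h)
    · rw [(hc _).2 h]; exact Submodule.zero_mem _
  · rw [bd_apply]
    refine Finset.sum_eq_zero fun v hv => ?_
    simp only [Finset.mem_filter, Finset.mem_univ, true_and] at hv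
    rw [(hc _).2, smul_zero]
    rintro ⟨h1, h2⟩
    apply h
    refine ⟨hΔ _ h1 _ (Finset.subset_insert v θ), ?_⟩
    rw [Finset.card_insert_of_notMem hv] at h2
    omega

theorem bd_zero_chain {Δ : Finset (Finset α)} {p : α → Fin 3 → ℝ} {s : ℕ}
    {c : Finset α → Poly} (hc : c ∈ chains Δ p s 0) : bd c = 0 := by
  funext θ
  rw [bd_apply]
  refine Finset.sum_eq_zero fun v hv => ?_
  simp only [Finset.mem_filter, Finset.mem_univ, true_and] at hv
  rw [(hc _).2, smul_zero]
  rintro ⟨_, h2⟩
  rw [Finset.card_insert_of_notMem hv] at h2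
  omega

end Pool.Agent.X132.Cone
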