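import Mathlib
import Pool.Agent.X132.ConeC

set_option linter.unusedSectionVars false

/-!
# Comparison of the complex of a two-complex and of its cone
-/

namespace Pool.Agent.X132.Cone

open MvPolynomial

variable {α : Type} [LinearOrder α] [Fintype α]

theorem notMem_of_mem {Δ : Finset (Finset α)} (hΔ : IsComplex Δ) {w : α} (hw : {w} ∉ Δ)
    {ψ : Finset α} (hψ : ψ ∈ Δ) : w ∉ ψ :=
  fun h => hw (hΔ.down ψ hψ _ (Finset.singleton_subset_iff.2 h))

theorem mem_cone_of_notMem {Δ : Finset (Finset α)} {w : α} {ψ : Finset α} (h : w ∉ ψ) :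
    ψ ∈ cone w Δ ↔ ψ ∈ Δ := by
  unfold cone
  rw [Finset.mem_union, Finset.mem_image]
  constructor
  · rintro (h1 | ⟨θ, _, rfl⟩)
    · exact h1
    · exact absurd (Finset.mem_insert_self w θ) h
  · exact Or.inl

theorem mem_cone_of_mem {Δ : Finset (Finset α)} (hΔ : IsComplex Δ) {w : α} (hw : {w} ∉ Δ)
    {ψ : Finset α} (h : w ∈ ψ) : ψ ∈ cone w Δ ↔ ψ.erase w ∈ Δ ∧ (ψ.erase w).card ≤ 2 := by
  unfold cone
  rw [Finset.mem_union, Finset.mem_image]
  constructor
  · rintro (h1 | ⟨θ, hθ, rfl⟩)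
    · exact absurd h (notMem_of_mem hΔ hw h1)
    · rw [Finset.mem_filter] at hθ
      rw [Finset.erase_insert (notMem_of_mem hΔ hw hθ.1)]
      exact hθ
  · rintro ⟨h1, h2⟩
    exact Or.inr ⟨ψ.erase w, Finset.mem_filter.2 ⟨h1, h2⟩, Finset.insert_erase h⟩

theorem cone_down {Δ : Finset (Finset α)} (hΔ : IsComplex Δ) {w : α} (hw : {w} ∉ Δ) :
    ∀ ψ ∈ cone w Δ, ∀ θ ⊆ ψ, θ ∈ cone w Δ := by
  intro ψ hψ θ hθ
  by_cases h1 : w ∈ ψ
  · obtain ⟨h2, h3⟩ := (mem_cone_of_mem hΔ hw h1).1 hψ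
    by_cases h4 : w ∈ θ
    · rw [mem_cone_of_mem hΔ hw h4]
      exact ⟨hΔ.down _ h2 _ (Finset.erase_subset_erase w hθ),
        (Finset.card_le_card (Finset.erase_subset_erase w hθ)).trans h3⟩
    · rw [mem_cone_of_notMem h4]
      refine hΔ.down _ h2 _ ?_
      intro x hx
      exact Finset.mem_erase.2 ⟨fun h => h4 (h ▸ hx), hθ hx⟩
  · rw [mem_cone_of_notMem h1] at hψ
    rw [mem_cone_of_notMem (fun h => h1 (hθ h))]
    exact hΔ.down _ hψ _ hθ

/-- The comparison map. -/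
noncomputable def Phi (p : α → Fin 3 → ℝ) (w : α) (s : ℕ) :
    (Finset α → Poly) →ₗ[ℝ] (Finset α → Poly) where
  toFun c := fun ψ => if w ∈ ψ then 0 else D (p w) (s + 1) (c ψ)
  map_add' c c' := by
    funext ψ
    simp only [Pi.add_apply]
    split_ifs
    · simp
    · rw [map_add]
  map_smul' t c := by
    funext ψ
    simp only [Pi.smul_apply, RingHom.id_apply]
    split_ifs
    · simp
    · rw [map_smul]

theorem Phi_apply (p : α → Fin 3 → ℝ) (w : α) (s : ℕ) (c : Finset α → Poly) (ψ : Finset α) :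
    Phi p w s c ψ = if w ∈ ψ then 0 else D (p w) (s + 1) (c ψ) := rfl

theorem image_insert' (p : α → Fin 3 → ℝ) (w : α) (θ : Finset α) :
    p '' ((insert w θ : Finset α) : Set α) = insert (p w) (p '' (θ : Set α)) := by
  rw [Finset.coe_insert, Set.image_insert_eq]

/-- Separating forms. -/
def Sep (Δ : Finset (Finset α)) (p : α → Fin 3 → ℝ) (w : α) : Prop :=
  ∀ ψ ∈ Δ, ∃ a b, (∀ x ∈ p '' (ψ : Set α), eval x (aff a b) = 0) ∧ eval (p w) (aff a b) = 1

section
variable {Δ : Finset (Finset α)} (hΔ : IsComplex Δ) {w : α} (hw : {w} ∉ Δ) {p : α → Fin 3 → ℝ}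
  (hsep : Sep Δ p w) {s : ℕ}
include hΔ hw

theorem Phi_bd {k : ℕ} {c : Finset α → Poly} (hc : c ∈ chains (cone w Δ) p (s + 1) k) :
    Phi p w s (bd c) = bd (Phi p w s c) := by
  funext θ
  rw [Phi_apply]
  split_ifs with h
  · rw [bd_apply]
    symm
    refine Finset.sum_eq_zero fun v _ => ?_
    rw [Phi_apply, if_pos (Finset.mem_insert_of_mem h), smul_zero]
  · rw [bd_apply, bd_apply, map_sum]
    refine Finset.sum_congr rfl fun v hv => ?_
    rw [map_smul, Phi_apply]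
    by_cases hvw : v = w
    · subst hvw
      rw [if_pos (Finset.mem_insert_self v θ)]
      congr 1
      by_cases h2 : insert v θ ∈ cone v Δ ∧ (insert v θ).card = k
      · have := (hc _).1 h2
        rw [Ispace_eq, image_insert'] at this
        exact D_mem_ker this
      · rw [(hc _).2 h2, map_zero]
    · rw [if_neg]
      simp only [Finset.mem_insert, not_or]
      exact ⟨fun h => hvw h.symm, h⟩

theorem Phi_mem {k : ℕ} {c : Finset α → Poly} (hc : c ∈ chains (cone w Δ) p (s + 1) k) :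
    Phi p w s c ∈ chains Δ p s k := by
  intro ψ
  rw [Phi_apply]
  refine ⟨fun h => ?_, fun h => ?_⟩
  · have hwψ := notMem_of_mem hΔ hw h.1
    rw [if_neg hwψ]
    have := (hc ψ).1 ⟨(mem_cone_of_notMem hwψ).2 h.1, h.2⟩
    rw [Ispace_eq] at this ⊢
    exact D_mem this
  · split_ifs with hwψ
    · rfl
    · rw [(hc ψ).2, map_zero]
      rw [mem_cone_of_notMem hwψ]
      exact h

include hsep

theorem Phi_surj {k : ℕ} {c : Finset α → Poly} (hc : c ∈ chains Δ p s k) :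
    ∃ c' ∈ chains (cone w Δ) p (s + 1) k, Phi p w s c' = c := by
  classical
  have h : ∀ ψ, ∃ g : Poly, (ψ ∈ Δ ∧ ψ.card = k → g ∈ Ispace p (s + 1) ψ ∧
      D (p w) (s + 1) g = c ψ) ∧ (¬ (ψ ∈ Δ ∧ ψ.card = k) → g = 0) := by
    intro ψ
    by_cases hψ : ψ ∈ Δ ∧ ψ.card = k
    · obtain ⟨a, b, h0, h1⟩ := hsep ψ hψ.1
      have h2 := (hc ψ).1 hψ
      rw [Ispace_eq] at h2
      obtain ⟨g, hg, hgc⟩ := exists_D h0 h1 h2
      rw [← Ispace_eq] at hg
      exact ⟨g, fun _ => ⟨hg, hgc⟩, fun h => absurd hψ h⟩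
    · exact ⟨0, fun h => absurd h hψ, fun _ => rfl⟩
  choose g hg1 hg2 using h
  refine ⟨g, ?_, ?_⟩
  · intro ψ
    refine ⟨fun h => ?_, fun h => ?_⟩
    · by_cases hψ : ψ ∈ Δ ∧ ψ.card = k
      · exact (hg1 ψ hψ).1
      · rw [hg2 ψ hψ]; exact Submodule.zero_mem _
    · refine hg2 ψ fun h' => h ⟨?_, h'.2⟩
      exact Finset.mem_union_left _ h'.1
  · funext ψ
    rw [Phi_apply]
    split_ifs with hwψ
    · rw [(hc ψ).2]
      rintro ⟨h, _⟩
      exact notMem_of_mem hΔ hw h hwψ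
    · by_cases hψ : ψ ∈ Δ ∧ ψ.card = k
      · exact (hg1 ψ hψ).2
      · rw [hg2 ψ hψ, map_zero, (hc ψ).2 hψ]

/-- Elements of the kernel of the comparison map take values in smaller spaces. -/
theorem kernel_mem {k : ℕ} {c : Finset α → Poly} (hc : c ∈ chains (cone w Δ) p (s + 1) k)
    (h0 : Phi p w s c = 0) {ψ : Finset α} (hψ : ψ ∈ Δ) (hk : ψ.card = k) :
    c ψ ∈ Ispace p (s + 1) (insert w ψ) := by
  have hwψ := notMem_of_mem hΔ hw hψ
  obtain ⟨a, b, h1, h2⟩ := hsep ψ hψ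
  rw [Ispace_eq, image_insert']
  refine mem_powSpan_insert h1 h2 ?_ ?_
  · rw [← Ispace_eq]
    exact (hc ψ).1 ⟨(mem_cone_of_notMem hwψ).2 hψ, hk⟩
  · have := congrFun h0 ψ
    rw [Phi_apply, if_neg hwψ] at this
    exact this

theorem htpy_mem {k : ℕ} (hk2 : k ≤ 2) {c : Finset α → Poly}
    (hc : c ∈ chains (cone w Δ) p (s + 1) k) (h0 : Phi p w s c = 0) :
    htpy w c ∈ chains (cone w Δ) p (s + 1) (k + 1) := by
  intro ψ
  unfold htpy
  by_cases hwψ : w ∈ ψ
  · simp only [if_pos hwψ]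
    have hnot : w ∉ ψ.erase w := Finset.notMem_erase w ψ
    have hcard : (ψ.erase w).card + 1 = ψ.card := Finset.card_erase_add_one hwψ
    refine ⟨fun h => ?_, fun h => ?_⟩
    · have h1 := (mem_cone_of_mem hΔ hw hwψ).1 h.1
      have := kernel_mem hΔ hw hsep hc h0 h1.1 (by omega)
      rw [Finset.insert_erase hwψ] at this
      exact Submodule.smul_mem _ _ this
    · rw [(hc _).2, smul_zero]
      rintro ⟨h1, h2⟩
      rw [mem_cone_of_notMem hnot] at h1
      exact h ⟨(mem_cone_of_mem hΔ hw hwψ).2 ⟨h1, by omega⟩, by omega⟩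
  · refine ⟨fun _ => ?_, fun _ => ?_⟩
    · rw [if_neg hwψ]; exact Submodule.zero_mem _
    · rw [if_neg hwψ]

omit hΔ hw hsep in
theorem Phi_htpy (c : Finset α → Poly) : Phi p w s (htpy w c) = 0 := by
  funext ψ
  rw [Phi_apply]
  split_ifs with h
  · rfl
  · simp [htpy, h]

omit hΔ hw hsep in
theorem bd_htpy {c : Finset α → Poly} (h : bd c = 0) : bd (htpy w c) = c := by
  have := htpy_eq w c
  rw [h] at this
  have h2 : htpy w (0 : Finset α → Poly) = 0 := by
    funext ψ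
    unfold htpy
    split_ifs <;> simp
  rw [h2, add_zero] at this
  exact this

theorem cycles_surj {k : ℕ} (hk : k ≤ 3) {z : Finset α → Poly} (hz : z ∈ chains Δ p s k)
    (hbz : bd z = 0) : ∃ z' ∈ chains (cone w Δ) p (s + 1) k, bd z' = 0 ∧ Phi p w s z' = z := by
  obtain ⟨c, hc, hcz⟩ := Phi_surj hΔ hw hsep hz
  rcases k with _ | k
  · exact ⟨c, hc, bd_zero_chain hc, hcz⟩
  · have h1 := bd_mem (cone_down hΔ hw) hc
    have h2 : Phi p w s (bd c) = 0 := by rw [Phi_bd hΔ hw hc, hcz, hbz]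
    have h3 := bd_bd c
    refine ⟨c - htpy w (bd c), Submodule.sub_mem _ hc (htpy_mem hΔ hw hsep (by omega) h1 h2), ?_, ?_⟩
    · rw [map_sub, bd_htpy h3, sub_self]
    · rw [map_sub, Phi_htpy, sub_zero, hcz]

end

end Pool.Agent.X132.Cone
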