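import Mathlib
import Pool.Agent.X132.ConeD

/-!
# Comparison of the Betti numbers
-/

set_option linter.unusedSectionVars false

namespace Pool.Agent.X132.Cone

open MvPolynomial

variable {α : Type} [LinearOrder α] [Fintype α]

theorem finrank_split {V W : Type*} [AddCommGroup V] [Module ℝ V] [AddCommGroup W] [Module ℝ W]
    (f : V →ₗ[ℝ] W) (U : Submodule ℝ V) [FiniteDimensional ℝ U] :
    Module.finrank ℝ U = Module.finrank ℝ (U.map f) +
      Module.finrank ℝ (U ⊓ LinearMap.ker f : Submodule ℝ V) := by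
  have h := LinearMap.finrank_range_add_finrank_ker (f.domRestrict U)
  rw [LinearMap.range_domRestrict] at h
  rw [← h]
  congr 1
  have e1 : LinearMap.ker (f.domRestrict U) = (U ⊓ LinearMap.ker f).comap U.subtype := by
    ext x
    simp
  rw [e1]
  exact (Submodule.comapSubtypeEquivOfLe (inf_le_left : U ⊓ LinearMap.ker f ≤ U)).finrank_eq

instance finDim (Δ : Finset (Finset α)) (p : α → Fin 3 → ℝ) (s k : ℕ) :
    FiniteDimensional ℝ (chains Δ p s k) := by
  have h1 : ∀ c : chains Δ p s k, ∀ ψ, c.1 ψ ∈ PolyLE s := by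
    intro c ψ
    by_cases h : ψ ∈ Δ ∧ ψ.card = k
    · have := (c.2 ψ).1 h
      rw [Ispace_eq] at this
      exact powSpan_le _ _ this
    · rw [(c.2 ψ).2 h]; exact Submodule.zero_mem _
  let g : chains Δ p s k →ₗ[ℝ] (Finset α → PolyLE s) :=
    { toFun := fun c ψ => ⟨c.1 ψ, h1 c ψ⟩
      map_add' := fun c c' => rfl
      map_smul' := fun t c => rfl }
  refine FiniteDimensional.of_injective g ?_
  intro c c' hcc
  apply Subtype.ext
  funext ψ
  exact congrArg Subtype.val (congrFun hcc ψ)

theorem betti_eq {Δ : Finset (Finset α)} (hΔ : ∀ ψ ∈ Δ, ∀ θ ⊆ ψ, θ ∈ Δ) (p : α → Fin 3 → ℝ)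
    (s k : ℕ) : betti Δ p s k = Module.finrank ℝ (chains Δ p s k ⊓ LinearMap.ker bd : Submodule ℝ _) -
      Module.finrank ℝ ((chains Δ p s (k + 1)).map bd) := by
  unfold betti cycles boundaries
  have hle : (chains Δ p s (k + 1)).map bd ≤ chains Δ p s k ⊓ LinearMap.ker bd := by
    rintro _ ⟨c, hc, rfl⟩
    exact ⟨bd_mem hΔ hc, bd_bd c⟩
  have : FiniteDimensional ℝ (chains Δ p s k ⊓ LinearMap.ker bd : Submodule ℝ (Finset α → Poly)) :=
    Submodule.finiteDimensional_inf_left _ _
  rw [Submodule.finrank_quotient]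
  congr 1
  exact (Submodule.comapSubtypeEquivOfLe hle).finrank_eq

section
variable {Δ : Finset (Finset α)} (hΔ : IsComplex Δ) {w : α} (hw : {w} ∉ Δ) {p : α → Fin 3 → ℝ}
  (hsep : Sep Δ p w) {s : ℕ}
include hΔ hw hsep

theorem finrank_cycles {k : ℕ} (hk : k ≤ 3) :
    Module.finrank ℝ (chains (cone w Δ) p (s + 1) k ⊓ LinearMap.ker bd : Submodule ℝ _) =
      Module.finrank ℝ (chains Δ p s k ⊓ LinearMap.ker bd : Submodule ℝ _) +
      Module.finrank ℝ (chains (cone w Δ) p (s + 1) k ⊓ LinearMap.ker bd ⊓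
        LinearMap.ker (Phi p w s) : Submodule ℝ _) := by
  have : FiniteDimensional ℝ (chains (cone w Δ) p (s + 1) k ⊓ LinearMap.ker bd :
    Submodule ℝ (Finset α → Poly)) := Submodule.finiteDimensional_inf_left _ _
  rw [finrank_split (Phi p w s)]
  congr 1
  have : (chains (cone w Δ) p (s + 1) k ⊓ LinearMap.ker bd).map (Phi p w s) =
      chains Δ p s k ⊓ LinearMap.ker bd := by
    apply le_antisymm
    · rintro _ ⟨c, ⟨hc, hbc⟩, rfl⟩
      refine ⟨Phi_mem hΔ hw hc, ?_⟩
      rw [SetLike.mem_coe, LinearMap.mem_ker] at hbc ⊢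
      rw [← Phi_bd hΔ hw hc, hbc, map_zero]
    · rintro z ⟨hz, hbz⟩
      obtain ⟨z', h1, h2, h3⟩ := cycles_surj hΔ hw hsep hk hz hbz
      exact ⟨z', ⟨h1, h2⟩, h3⟩
  rw [this]

theorem finrank_boundaries {k : ℕ} (hk : k ≤ 2) :
    Module.finrank ℝ ((chains (cone w Δ) p (s + 1) (k + 1)).map bd) =
      Module.finrank ℝ ((chains Δ p s (k + 1)).map bd) +
      Module.finrank ℝ (chains (cone w Δ) p (s + 1) k ⊓ LinearMap.ker bd ⊓
        LinearMap.ker (Phi p w s) : Submodule ℝ _) := by
  rw [finrank_split (Phi p w s) ((chains (cone w Δ) p (s + 1) (k + 1)).map bd)]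
  have h1 : ((chains (cone w Δ) p (s + 1) (k + 1)).map bd).map (Phi p w s) =
      (chains Δ p s (k + 1)).map bd := by
    apply le_antisymm
    · rintro _ ⟨_, ⟨c, hc, rfl⟩, rfl⟩
      exact ⟨Phi p w s c, Phi_mem hΔ hw hc, (Phi_bd hΔ hw hc).symm⟩
    · rintro _ ⟨c, hc, rfl⟩
      obtain ⟨c', hc', rfl⟩ := Phi_surj hΔ hw hsep hc
      exact ⟨bd c', ⟨c', hc', rfl⟩, Phi_bd hΔ hw hc'⟩
  have h2 : (chains (cone w Δ) p (s + 1) (k + 1)).map bd ⊓ LinearMap.ker (Phi p w s) =
      chains (cone w Δ) p (s + 1) k ⊓ LinearMap.ker bd ⊓ LinearMap.ker (Phi p w s) := by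
    apply le_antisymm
    · rintro _ ⟨⟨c, hc, rfl⟩, hk⟩
      exact ⟨⟨bd_mem (cone_down hΔ hw) hc, bd_bd c⟩, hk⟩
    · rintro z ⟨⟨hz, hbz⟩, hkz⟩
      exact ⟨⟨htpy w z, htpy_mem hΔ hw hsep hk hz hkz, bd_htpy hbz⟩, hkz⟩
  rw [h1, h2]

/-- Coning preserves the Betti numbers in degrees `-1, 0, 1`. -/
theorem betti_low {k : ℕ} (hk : k ≤ 2) : betti (cone w Δ) p (s + 1) k = betti Δ p s k := by
  rw [betti_eq (cone_down hΔ hw), betti_eq hΔ.down, finrank_cycles hΔ hw hsep (by omega),
    finrank_boundaries hΔ hw hsep hk]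
  omega

theorem chains_four (Δ' : Finset (Finset α)) (h : ∀ ψ ∈ Δ', ψ.card ≤ 3) (t : ℕ) :
    chains Δ' p t 4 = ⊥ := by
  rw [eq_bot_iff]
  intro c hc
  rw [Submodule.mem_bot]
  funext ψ
  refine (hc ψ).2 ?_
  rintro ⟨h1, h2⟩
  have := h ψ h1
  omega

theorem cone_card : ∀ ψ ∈ cone w Δ, ψ.card ≤ 3 := by
  intro ψ hψ
  by_cases h : w ∈ ψ
  · have h1 := (mem_cone_of_mem hΔ hw h).1 hψ
    have := Finset.card_erase_add_one h
    omega
  · exact hΔ.card_le ψ ((mem_cone_of_notMem h).1 hψ)

theorem betti_top : betti (cone w Δ) p (s + 1) 3 = betti Δ p s 3 +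
    Module.finrank ℝ (chains (cone w Δ) p (s + 1) 3 ⊓ LinearMap.ker bd ⊓
        LinearMap.ker (Phi p w s) : Submodule ℝ _) := by
  rw [betti_eq (cone_down hΔ hw), betti_eq hΔ.down, finrank_cycles hΔ hw hsep le_rfl,
    chains_four hΔ hw hsep _ (cone_card hΔ hw hsep), chains_four hΔ hw hsep _ hΔ.card_le,
    Submodule.map_bot]
  have h0 : Module.finrank ℝ (⊥ : Submodule ℝ (Finset α → Poly)) = 0 := finrank_bot ℝ _
  rw [h0]
  omega

/-- The extra cycles vanish if and only if no face of dimension two is degenerate. -/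
theorem extra_iff : (chains (cone w Δ) p (s + 1) 3 ⊓ LinearMap.ker bd ⊓
        LinearMap.ker (Phi p w s) : Submodule ℝ (Finset α → Poly)) = ⊥ ↔
      ∀ σ ∈ Δ, σ.card = 3 → Ispace p (s + 1) (insert w σ) = ⊥ := by
  constructor
  · intro h σ hσ hc
    rw [eq_bot_iff]
    intro f hf
    rw [Submodule.mem_bot]
    have hwσ := notMem_of_mem hΔ hw hσ
    -- the boundary of `f [wσ]`
    have hmem : bd (Pi.single (insert w σ) f) ∈ chains (cone w Δ) p (s + 1) 3 ⊓
        LinearMap.ker bd ⊓ LinearMap.ker (Phi p w s) := by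
      refine ⟨⟨?_, bd_bd _⟩, ?_⟩
      · intro θ
        refine ⟨fun hθ => ?_, fun hθ => ?_⟩
        · rw [bd_apply]
          refine Submodule.sum_mem _ fun v hv => Submodule.smul_mem _ _ ?_
          by_cases h1 : insert v θ = insert w σ
          · rw [h1, Pi.single_eq_same]
            refine Ispace_anti p (s + 1) ?_ hf
            rw [← h1]; exact Finset.subset_insert v θ
          · rw [Pi.single_eq_of_ne h1]; exact Submodule.zero_mem _
        · rw [bd_apply]
          refine Finset.sum_eq_zero fun v hv => ?_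
          simp only [Finset.mem_filter, Finset.mem_univ, true_and] at hv
          rw [Pi.single_eq_of_ne, smul_zero]
          intro h1
          apply hθ
          have hcard : (insert v θ).card = 4 := by
            rw [h1, Finset.card_insert_of_notMem hwσ, hc]
          rw [Finset.card_insert_of_notMem hv] at hcard
          have hsub : θ ⊆ insert w σ := by rw [← h1]; exact Finset.subset_insert v θ
          refine ⟨?_, by omega⟩
          by_cases hwθ : w ∈ θ
          · rw [mem_cone_of_mem hΔ hw hwθ]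
            have h3 := Finset.card_erase_add_one hwθ
            refine ⟨hΔ.down σ hσ _ ?_, by omega⟩
            intro x hx
            have hx' := Finset.mem_erase.1 hx
            rcases Finset.mem_insert.1 (hsub hx'.2) with h4 | h4
            · exact absurd h4 hx'.1
            · exact h4
          · rw [mem_cone_of_notMem hwθ]
            refine hΔ.down σ hσ _ ?_
            intro x hx
            rcases Finset.mem_insert.1 (hsub hx) with h4 | h4
            · exact absurd (h4 ▸ hx) hwθ
            · exact h4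
      · rw [SetLike.mem_coe, LinearMap.mem_ker]
        funext θ
        rw [Phi_apply]
        split_ifs with hwθ
        · rfl
        · rw [bd_apply]
          have h1 : ∑ v ∈ Finset.univ.filter (fun v => v ∉ θ), sgn v (insert v θ) •
              (Pi.single (insert w σ) f : Finset α → Poly) (insert v θ) ∈
              Ispace p (s + 1) (insert w θ) := by
            refine Submodule.sum_mem _ fun v hv => Submodule.smul_mem _ _ ?_
            by_cases h1 : insert v θ = insert w σ
            · rw [h1, Pi.single_eq_same]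
              have hvw : v = w := by
                have : w ∈ insert v θ := by rw [h1]; exact Finset.mem_insert_self w σ
                rcases Finset.mem_insert.1 this with h4 | h4
                · exact h4.symm
                · exact absurd h4 hwθ
              subst hvw
              rw [h1]; exact hf
            · rw [Pi.single_eq_of_ne h1]; exact Submodule.zero_mem _
          rw [Ispace_eq, image_insert'] at h1
          exact D_mem_ker h1
    rw [h, Submodule.mem_bot] at hmem
    have h5 := congrFun hmem σ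
    rw [bd_apply, Finset.sum_eq_single w] at h5
    · rw [Pi.single_eq_same, Pi.zero_apply] at h5
      have h6 := congrArg (fun g => sgn w (insert w σ) • g) h5
      simp only [smul_smul, sgn_sq, one_smul, smul_zero] at h6
      exact h6
    · intro v hv hvw
      rw [Pi.single_eq_of_ne, smul_zero]
      intro h7
      have : w ∈ insert v σ := by rw [h7]; exact Finset.mem_insert_self w σ
      rcases Finset.mem_insert.1 this with h4 | h4
      · exact hvw h4.symm
      · exact hwσ h4
    · intro h7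
      simp [hwσ] at h7
  · intro h
    rw [eq_bot_iff]
    rintro c ⟨⟨hc, hbc⟩, hkc⟩
    rw [Submodule.mem_bot]
    rw [SetLike.mem_coe, LinearMap.mem_ker] at hbc hkc
    -- `c` vanishes on the faces of the original complex
    have h1 : ∀ ψ, w ∉ ψ → c ψ = 0 := by
      intro ψ hψ
      by_cases h2 : ψ ∈ Δ ∧ ψ.card = 3
      · have h3 := kernel_mem hΔ hw hsep hc hkc h2.1 h2.2
        rw [h ψ h2.1 h2.2, Submodule.mem_bot] at h3
        exact h3
      · refine (hc ψ).2 fun h3 => h2 ⟨(mem_cone_of_notMem hψ).1 h3.1, h3.2⟩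
    have h2 : htpy w c = 0 := by
      funext ψ
      unfold htpy
      split_ifs with h3
      · rw [h1 _ (Finset.notMem_erase w ψ), smul_zero]; rfl
      · rfl
    have h3 := bd_htpy (w := w) hbc
    rw [h2, map_zero] at h3
    exact h3.symm

end

end Pool.Agent.X132.Cone
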