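import Pool.Agent.X132.FTl
import Pool.Agent.Y472.K.Lim

/-!
# Coherent logarithms of sequences with an asymptotic formula `K N^{3/2} e^{κ N}`
-/

set_option autoImplicit false

namespace Pool.Agent.X132.FT

open Finset Filter Topology
open scoped Real

variable {f : ℕ → ℂ} {κ : ℝ} {K : ℂ}

/-- coherent logarithms -/
noncomputable def lg (f : ℕ → ℂ) (κ : ℝ) (K : ℂ) (N : ℕ) : ℂ :=
  Complex.log K + Complex.log (f N / ((wt κ N : ℝ) : ℂ) / K) +
    ((3 / 2 * Real.log N + κ * N : ℝ) : ℂ)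

lemma lg_exp (hK : K ≠ 0) (h : Tendsto (fun N : ℕ => f N / ((wt κ N : ℝ) : ℂ)) atTop (𝓝 K)) :
    ∀ᶠ N in atTop, Complex.exp (lg f κ K N) = f N := by
  filter_upwards [ev_ne hK h, eventually_ge_atTop 1] with N hN h1
  have hNp : (0 : ℝ) < N := by exact_mod_cast (by omega : 0 < N)
  have hwp := wt_pos κ (N := N) (by omega)
  have hwc : ((wt κ N : ℝ) : ℂ) ≠ 0 := by exact_mod_cast hwp.ne'
  unfold lg
  rw [Complex.exp_add, Complex.exp_add, Complex.exp_log hK, Complex.exp_log (by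
    simp only [ne_eq, div_eq_zero_iff, not_or]
    exact ⟨⟨hN, hwc⟩, hK⟩), ← Complex.ofReal_exp]
  have h4 : Real.exp (3 / 2 * Real.log N + κ * N) = wt κ N := by
    unfold wt
    rw [Real.exp_add, Real.rpow_def_of_pos hNp, mul_comm (3 / 2 : ℝ)]
  rw [h4]
  field_simp

lemma lg_lim (hK : K ≠ 0) (h : Tendsto (fun N : ℕ => f N / ((wt κ N : ℝ) : ℂ)) atTop (𝓝 K)) :
    Tendsto (fun N : ℕ => lg f κ K N - ((3 / 2 * Real.log N + κ * N : ℝ) : ℂ)) atTop
      (𝓝 (Complex.log K)) := by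
  have h1 := h.div_const K
  rw [div_self hK] at h1
  have h2 := ((continuousAt_clog (by simp : (1 : ℂ) ∈ Complex.slitPlane)).tendsto.comp h1).const_add
    (Complex.log K)
  rw [Complex.log_one, add_zero] at h2
  refine h2.congr fun N => ?_
  unfold lg
  simp only [Function.comp]
  ring

lemma lg_div (hK : K ≠ 0) (h : Tendsto (fun N : ℕ => f N / ((wt κ N : ℝ) : ℂ)) atTop (𝓝 K)) :
    Tendsto (fun N : ℕ => 2 * π / N * lg f κ K N) atTop (𝓝 ((2 * π * κ : ℝ) : ℂ)) := by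
  have h1 := lg_lim hK h
  have h2 : Tendsto (fun N : ℕ => ((N : ℂ))⁻¹) atTop (𝓝 0) :=
    tendsto_inv₀_cobounded.comp (tendsto_natCast_atTop_cobounded (α := ℂ))
  have h3 := (Pool.Agent.Y472.K.Lim.log_nat.const_mul (3 / 2 : ℝ)).add_const κ
  rw [mul_zero, zero_add] at h3
  have h4 := ((Complex.continuous_ofReal.tendsto _).comp h3)
  have h5 := ((h1.mul h2).add h4).const_mul (2 * (π : ℂ))
  rw [mul_zero, zero_add] at h5
  have e : (2 * (π : ℂ)) * (κ : ℂ) = ((2 * π * κ : ℝ) : ℂ) := by push_cast; ring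
  rw [e] at h5
  refine h5.congr' ?_
  filter_upwards [eventually_ge_atTop 1] with N hN
  have hNc : (N : ℂ) ≠ 0 := by exact_mod_cast (by omega : N ≠ 0)
  simp only [Function.comp]
  push_cast
  field_simp
  ring

lemma lg_diff (hK : K ≠ 0) (h : Tendsto (fun N : ℕ => f N / ((wt κ N : ℝ) : ℂ)) atTop (𝓝 K))
    (k : ℕ) : Tendsto (fun N : ℕ => lg f κ K (N + k) - lg f κ K N) atTop
      (𝓝 ((k * κ : ℝ) : ℂ)) := by
  have h1 := lg_lim hK h
  have h2 := h1.comp (tendsto_add_atTop_nat k)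
  have h3 := ((Pool.Agent.Y472.K.Lim.log_succ k).const_mul (3 / 2 : ℝ)).add_const (k * κ)
  rw [mul_zero, zero_add] at h3
  have h4 := ((Complex.continuous_ofReal.tendsto _).comp h3)
  have h5 := (h2.sub h1).add h4
  rw [sub_self, zero_add] at h5
  refine h5.congr fun N => ?_
  simp only [Function.comp]
  push_cast
  ring

lemma ratio_k (hK : K ≠ 0) (h : Tendsto (fun N : ℕ => f N / ((wt κ N : ℝ) : ℂ)) atTop (𝓝 K))
    (k : ℕ) : Tendsto (fun N : ℕ => f (N + k) / f N) atTop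
      (𝓝 (Complex.exp ((k * κ : ℝ) : ℂ))) := by
  have h1 := (Complex.continuous_exp.tendsto _).comp (lg_diff hK h k)
  refine h1.congr' ?_
  have h2 := lg_exp hK h
  filter_upwards [h2, (tendsto_add_atTop_nat k).eventually h2] with N h3 h4
  simp only [Function.comp]
  rw [Complex.exp_sub, h3, h4]

lemma log_ratio_k (hK : K ≠ 0)
    (h : Tendsto (fun N : ℕ => f N / ((wt κ N : ℝ) : ℂ)) atTop (𝓝 K)) (k : ℕ) :
    Tendsto (fun N : ℕ => Complex.log (f (N + k) / f N)) atTop (𝓝 ((k * κ : ℝ) : ℂ)) := by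
  have h1 := ratio_k hK h k
  have h3 : ContinuousAt Complex.log (Complex.exp ((k * κ : ℝ) : ℂ)) := by
    apply continuousAt_clog
    rw [← Complex.ofReal_exp]
    exact Complex.ofReal_mem_slitPlane.2 (Real.exp_pos _)
  have h4 := h3.tendsto.comp h1
  rw [← Complex.ofReal_exp, ← Complex.ofReal_log (Real.exp_pos _).le, Real.log_exp] at h4
  exact h4

end Pool.Agent.X132.FT
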