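import Pool.Agent.X132.AXg
import Pool.Agent.X132.FTn

/-!
# Closed 3-braids `u u*` with their axes: the phases of the invariants
-/

set_option autoImplicit false

namespace Pool.Agent.X132.AX

open Finset Filter Topology
open scoped Real
open Pool.Agent.W715.VC (rt rep3 wpow dual axisClosure)

lemma near_abs {T : ℂ} {c : ℝ} (h1 : -c ≤ T.re) (h2 : |T.im| ≤ c) :
    ‖T - (‖T‖ : ℂ)‖ ≤ 4 * c := by
  have h3 := Complex.norm_le_abs_re_add_abs_im T
  have h4 := Complex.norm_le_abs_re_add_abs_im (T - (‖T‖ : ℂ))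
  have h5 := Complex.re_le_norm T
  rw [Complex.sub_re, Complex.sub_im, Complex.ofReal_re, Complex.ofReal_im, sub_zero,
    abs_sub_comm, abs_of_nonneg (by linarith : 0 ≤ ‖T‖ - T.re)] at h4
  rcases abs_cases T.re with ⟨h6, h7⟩ | ⟨h6, h7⟩ <;> linarith

/-- the invariants of `L((u u*)^n)` are almost negative real numbers, up to a phase `e^{3 π i / N}` -/
theorem near_real {N : ℕ} (hN : 0 < N) {u : List (ℕ × Bool)} (hu : ∀ l ∈ u, l.1 < 2) {n : ℕ}
    (hn : n ≠ 0) (J : ℂ) (hJ : J = Pool.Agent.H550R3.Jones.cjones N 3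
      (axisClosure (wpow (u ++ dual u) n)) (rt N)) :
    ‖J + Complex.exp (3 * π * Complex.I / N) * (‖J‖ : ℂ)‖ ≤ 4 * (N : ℝ) ^ 3 := by
  have h1 := Pool.Agent.X132.FT.trace_sign hN hu hn
  have hr : ‖rt N‖ = 1 := by
    unfold rt
    rw [Complex.norm_exp]
    simp
  have h2 : rt N ^ (-3 * ((N : ℤ) - 1)) = -Complex.exp (3 * π * Complex.I / N) := by
    have h3 := Pool.Agent.W715.VC.rt_zpow_N (N := N) hN
    have h0 := Pool.Agent.W715.VC.rt_ne N
    rw [show -3 * ((N : ℤ) - 1) = (N : ℤ) * (-3) + 3 by ring, zpow_add₀ h0, _root_.zpow_mul, h3]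
    have h4 : ((-1 : ℂ) ^ (-3 : ℤ)) = -1 := by norm_num
    rw [h4, neg_one_mul]
    congr 1
    unfold rt
    rw [← Complex.exp_int_mul]
    congr 1
    push_cast
    ring
  rw [Pool.Agent.W715.VC.cjones_axis hN, h2] at hJ
  set T := (rep3 N (wpow (u ++ dual u) n)).trace with hT
  have h5 : ‖Complex.exp (3 * π * Complex.I / N)‖ = 1 := by
    rw [show (3 * π * Complex.I / N : ℂ) = ((3 * π / N : ℝ) : ℂ) * Complex.I by push_cast; ring,
      Complex.norm_exp_ofReal_mul_I]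
  have h6 : ‖J‖ = ‖T‖ := by rw [hJ, norm_mul, norm_neg, h5, one_mul]
  have h7 : J + Complex.exp (3 * π * Complex.I / N) * (‖J‖ : ℂ) =
      -Complex.exp (3 * π * Complex.I / N) * (T - (‖T‖ : ℂ)) := by
    rw [h6, hJ]
    ring
  rw [h7, norm_mul, norm_neg, h5, one_mul]
  exact near_abs h1.1 h1.2

/-! ### Consequences of exponential growth -/

variable {f : ℕ → ℂ} {V : ℝ} {F : Filter ℕ}

lemma exp_lim : Tendsto (fun N : ℕ => Complex.exp (3 * π * Complex.I / N)) atTop (𝓝 1) := by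
  have h2 : Tendsto (fun N : ℕ => ((N : ℂ))⁻¹) atTop (𝓝 0) :=
    tendsto_inv₀_cobounded.comp (tendsto_natCast_atTop_cobounded (α := ℂ))
  have h3 := (Complex.continuous_exp.tendsto _).comp (h2.const_mul (3 * π * Complex.I))
  rw [mul_zero, Complex.exp_zero] at h3
  exact h3

/-- the phase tends to `-1` where the absolute value is large compared with `N^3` -/
theorem phase_lim (hF : F ≤ atTop)
    (hf : ∀ᶠ N : ℕ in F, ‖f N + Complex.exp (3 * π * Complex.I / N) * (‖f N‖ : ℂ)‖ ≤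
      4 * (N : ℝ) ^ 3)
    (h : Tendsto (fun N : ℕ => (N : ℝ) ^ 3 / ‖f N‖) F (𝓝 0)) (h0 : ∀ᶠ N in F, f N ≠ 0) :
    Tendsto (fun N : ℕ => f N / (‖f N‖ : ℂ)) F (𝓝 (-1)) := by
  have h1 : Tendsto (fun N : ℕ => f N / (‖f N‖ : ℂ) + Complex.exp (3 * π * Complex.I / N)) F
      (𝓝 0) := by
    have h2 := h.const_mul 4
    rw [mul_zero] at h2
    refine squeeze_zero_norm' ?_ h2
    filter_upwards [hf, h0] with N h3 h4
    have h5 : 0 < ‖f N‖ := norm_pos_iff.2 h4
    have h6 : (‖f N‖ : ℂ) ≠ 0 := by exact_mod_cast h5.ne'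
    have h7 : f N / (‖f N‖ : ℂ) + Complex.exp (3 * π * Complex.I / N) =
        (f N + Complex.exp (3 * π * Complex.I / N) * (‖f N‖ : ℂ)) / (‖f N‖ : ℂ) := by
      field_simp
    rw [h7, norm_div, Complex.norm_real, norm_norm, ← mul_div_assoc]
    exact div_le_div_of_nonneg_right h3 h5.le
  have h8 := h1.sub (exp_lim.mono_left hF)
  rw [zero_sub] at h8
  refine h8.congr fun N => ?_
  ring

lemma growth_small (hF : F ≤ atTop) (hV : 0 < V)
    (h : Tendsto (fun N : ℕ => 2 * π * (Real.log ‖f N‖ / N)) F (𝓝 V)) :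
    (∀ᶠ N in F, f N ≠ 0) ∧ Tendsto (fun N : ℕ => (N : ℝ) ^ 3 / ‖f N‖) F (𝓝 0) := by
  have hpi := Real.pi_pos
  have h1 : ∀ᶠ N : ℕ in F, V / 2 < 2 * π * (Real.log ‖f N‖ / N) :=
    h.eventually_const_lt (half_lt_self hV)
  have h2 : ∀ᶠ N : ℕ in F, f N ≠ 0 := by
    filter_upwards [h1] with N h3 h4
    rw [h4, norm_zero, Real.log_zero, zero_div, mul_zero] at h3
    linarith
  refine ⟨h2, ?_⟩
  have h3 : Tendsto (fun N : ℕ => (N : ℝ) ^ 3 * Real.exp (-(V / (4 * π) * N))) atTop (𝓝 0) := by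
    have h4 := Real.tendsto_pow_mul_exp_neg_atTop_nhds_zero 3
    have h5 : Tendsto (fun N : ℕ => V / (4 * π) * (N : ℝ)) atTop atTop :=
      tendsto_natCast_atTop_atTop.const_mul_atTop (by positivity)
    have h6 := (h4.comp h5).const_mul (((V / (4 * π)) ^ 3)⁻¹)
    rw [mul_zero] at h6
    refine h6.congr fun N => ?_
    simp only [Function.comp]
    rw [mul_pow]
    have : (V / (4 * π)) ^ 3 ≠ 0 := by positivity
    field_simp
  refine squeeze_zero' (Eventually.of_forall fun N => by positivity) ?_ (h3.mono_left hF)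
  filter_upwards [h1, h2, hF (eventually_ge_atTop 1)] with N h4 h5 h6
  have hNp : (0 : ℝ) < N := by exact_mod_cast (by omega : 0 < N)
  have h7 : 0 < ‖f N‖ := norm_pos_iff.2 h5
  have h8 : V / (4 * π) * N ≤ Real.log ‖f N‖ := by
    have h9 : 2 * π * (Real.log ‖f N‖ / N) = 2 * π * Real.log ‖f N‖ / N := by ring
    rw [h9, lt_div_iff₀ hNp] at h4
    have h10 : V / (4 * π) * N = V / 2 * N / (2 * π) := by field_simp; ring
    rw [h10, div_le_iff₀ (by positivity)]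
    linarith
  have h11 : Real.exp (V / (4 * π) * N) ≤ ‖f N‖ := by
    rw [← Real.exp_log h7]
    exact Real.exp_le_exp.2 h8
  rw [Real.exp_neg, div_eq_mul_inv]
  exact mul_le_mul_of_nonneg_left (inv_anti₀ (Real.exp_pos _) h11) (by positivity)

/-- coherent logarithms -/
noncomputable def lgp (f : ℕ → ℂ) (N : ℕ) : ℂ := Complex.log (-f N) + π * Complex.I

lemma lgp_exp {N : ℕ} (h : f N ≠ 0) : Complex.exp (lgp f N) = f N := by
  unfold lgp
  rw [Complex.exp_add, Complex.exp_log (neg_ne_zero.2 h), Complex.exp_pi_mul_I]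
  ring

lemma lgp_im (h : Tendsto (fun N : ℕ => f N / (‖f N‖ : ℂ)) F (𝓝 (-1)))
    (h0 : ∀ᶠ N in F, f N ≠ 0) : Tendsto (fun N => (lgp f N).im) F (𝓝 π) := by
  have h1 := h.neg
  rw [neg_neg] at h1
  have h2 : Tendsto (fun N : ℕ => Complex.arg (-(f N / (‖f N‖ : ℂ)))) F (𝓝 0) := by
    have h3 := (Complex.continuousAt_arg (by simp : (1 : ℂ) ∈ Complex.slitPlane)).tendsto.comp h1
    rwa [Complex.arg_one] at h3
  have h3 := h2.add_const π
  rw [zero_add] at h3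
  refine h3.congr' ?_
  filter_upwards [h0] with N hN
  have h4 : 0 < ‖f N‖ := norm_pos_iff.2 hN
  unfold lgp
  rw [Complex.add_im, Complex.log_im]
  have h5 : -f N = ((‖f N‖ : ℝ) : ℂ) * -(f N / (‖f N‖ : ℂ)) := by
    have : (‖f N‖ : ℂ) ≠ 0 := by exact_mod_cast h4.ne'
    field_simp
  rw [h5, Complex.arg_real_mul _ h4]
  simp

lemma lgp_re (f : ℕ → ℂ) (N : ℕ) : (lgp f N).re = Real.log ‖f N‖ := by
  unfold lgp
  rw [Complex.add_re, Complex.log_re, norm_neg]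
  simp

lemma lgp_lim (hF : F ≤ atTop) (h : Tendsto (fun N : ℕ => f N / (‖f N‖ : ℂ)) F (𝓝 (-1)))
    (h0 : ∀ᶠ N in F, f N ≠ 0)
    (hV : Tendsto (fun N : ℕ => 2 * π * (Real.log ‖f N‖ / N)) F (𝓝 V)) :
    Tendsto (fun N : ℕ => 2 * π / N * lgp f N) F (𝓝 (V : ℂ)) := by
  have h1 := lgp_im h h0
  have h2 : Tendsto (fun N : ℕ => 2 * π / (N : ℝ)) F (𝓝 0) :=
    (tendsto_const_nhds.div_atTop tendsto_natCast_atTop_atTop).mono_left hF
  have h3 := h2.mul h1
  rw [zero_mul] at h3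
  have h4 := ((Complex.continuous_ofReal.tendsto _).comp hV).add
    (((Complex.continuous_ofReal.tendsto _).comp h3).mul_const Complex.I)
  rw [Complex.ofReal_zero, zero_mul, add_zero] at h4
  refine h4.congr fun N => ?_
  simp only [Function.comp]
  apply Complex.ext
  · have : (2 * π / (N : ℂ)) = ((2 * π / N : ℝ) : ℂ) := by push_cast; rfl
    rw [this, Complex.re_ofReal_mul, lgp_re]
    simp
    ring
  · have : (2 * π / (N : ℂ)) = ((2 * π / N : ℝ) : ℂ) := by push_cast; rfl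
    rw [this, Complex.im_ofReal_mul]
    simp

/-- the phases of the quotients -/
lemma quot_phase {k : ℕ} (hs : Tendsto (fun N : ℕ => N + k) F F)
    (h : Tendsto (fun N : ℕ => f N / (‖f N‖ : ℂ)) F (𝓝 (-1))) :
    Tendsto (fun N : ℕ => f (N + k) / f N / (‖f (N + k) / f N‖ : ℂ)) F (𝓝 1) := by
  have h1 := (h.comp hs).div h (by norm_num)
  rw [div_self (by norm_num)] at h1
  refine h1.congr fun N => ?_
  simp only [Function.comp, Pi.div_apply]
  rw [norm_div, Complex.ofReal_div, div_div_div_comm]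

lemma quot_arg {k : ℕ} (hs : Tendsto (fun N : ℕ => N + k) F F)
    (h : Tendsto (fun N : ℕ => f N / (‖f N‖ : ℂ)) F (𝓝 (-1))) (h0 : ∀ᶠ N in F, f N ≠ 0) :
    Tendsto (fun N : ℕ => Complex.arg (f (N + k) / f N)) F (𝓝 0) := by
  have h1 := quot_phase hs h
  have h3 := (Complex.continuousAt_arg (by simp : (1 : ℂ) ∈ Complex.slitPlane)).tendsto.comp h1
  rw [Complex.arg_one] at h3
  refine h3.congr' ?_
  filter_upwards [h0, hs.eventually h0] with N h4 h5
  have h6 : 0 < ‖f (N + k) / f N‖ := norm_pos_iff.2 (div_ne_zero h5 h4)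
  have h7 : f (N + k) / f N = ((‖f (N + k) / f N‖ : ℝ) : ℂ) *
      (f (N + k) / f N / (‖f (N + k) / f N‖ : ℂ)) := by
    have : ((‖f (N + k) / f N‖ : ℝ) : ℂ) ≠ 0 := by exact_mod_cast h6.ne'
    field_simp
  simp only [Function.comp]
  conv_rhs => rw [h7]
  rw [Complex.arg_real_mul _ h6]

lemma lgp_shift {k : ℕ} (hs : Tendsto (fun N : ℕ => N + k) F F)
    (h : Tendsto (fun N : ℕ => f N / (‖f N‖ : ℂ)) F (𝓝 (-1))) (h0 : ∀ᶠ N in F, f N ≠ 0) :
    Tendsto (fun N : ℕ => (lgp f (N + k) - lgp f N).im) F (𝓝 0) := by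
  have h1 := lgp_im h h0
  have h2 := (h1.comp hs).sub h1
  rw [sub_self] at h2
  exact h2

theorem main_phase {k : ℕ} (hF : F ≤ atTop) (hs : Tendsto (fun N : ℕ => N + k) F F)
    (hV : 0 < V)
    (hf : ∀ N : ℕ, 1 ≤ N → ‖f N + Complex.exp (3 * π * Complex.I / N) * (‖f N‖ : ℂ)‖ ≤
      4 * (N : ℝ) ^ 3)
    (h : Tendsto (fun N : ℕ => 2 * π * (Real.log ‖f N‖ / N)) F (𝓝 V)) :
    (∀ᶠ N in F, f N ≠ 0) ∧ Tendsto (fun N : ℕ => f N / (‖f N‖ : ℂ)) F (𝓝 (-1)) ∧
    Tendsto (fun N : ℕ => Complex.arg (f (N + k) / f N)) F (𝓝 0) ∧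
    (∀ᶠ N in F, Complex.exp (lgp f N) = f N) ∧
    Tendsto (fun N : ℕ => 2 * π / N * lgp f N) F (𝓝 (V : ℂ)) ∧
    Tendsto (fun N : ℕ => (lgp f (N + k) - lgp f N).im) F (𝓝 0) := by
  obtain ⟨h0, h1⟩ := growth_small hF hV h
  have hf' : ∀ᶠ N : ℕ in F, ‖f N + Complex.exp (3 * π * Complex.I / N) * (‖f N‖ : ℂ)‖ ≤
      4 * (N : ℝ) ^ 3 := by
    filter_upwards [hF (eventually_ge_atTop 1)] with N hN using hf N hN
  have h2 := phase_lim hF hf' h1 h0
  exact ⟨h0, h2, quot_arg hs h2 h0, h0.mono fun N hN => lgp_exp hN, lgp_lim hF h2 h0 h,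
    lgp_shift hs h2 h0⟩

/-- the filter of the integers `N → ∞` with a property which is stable under `N ↦ N + 2` -/
lemma shift_two {p : ℕ → Prop} (hp : ∀ N, p N → p (N + 2)) :
    Tendsto (fun N : ℕ => N + 2) (atTop ⊓ 𝓟 {N | p N}) (atTop ⊓ 𝓟 {N | p N}) := by
  refine tendsto_inf.2 ⟨(tendsto_add_atTop_nat 2).mono_left inf_le_left, ?_⟩
  rw [tendsto_principal]
  have h1 : ∀ᶠ N in atTop ⊓ 𝓟 {N | p N}, p N := by
    have : ∀ᶠ N in 𝓟 {N | p N}, p N := by
      rw [eventually_principal]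
      exact fun x hx => hx
    exact this.filter_mono inf_le_right
  filter_upwards [h1] with N hN using hp N hN

end Pool.Agent.X132.AX
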