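import Pool.Agent.X132.AXh

/-!
# Products of two braids `u u*`, `v v*` with their axes: phases and growth
-/

set_option autoImplicit false

namespace Pool.Agent.X132.AX

open Finset Filter Topology
open scoped Real
open Pool.Agent.W715.VC (rt rep3 rep3_append wpow dual axisClosure)

lemma near_of {N : ℕ} (hN : 0 < N) {T J : ℂ} (h1 : -(N : ℝ) ^ 3 ≤ T.re) (h2' : |T.im| ≤ (N : ℝ) ^ 3)
    (hJ : J = rt N ^ (-3 * ((N : ℤ) - 1)) * T) :
    ‖J + Complex.exp (3 * π * Complex.I / N) * (‖J‖ : ℂ)‖ ≤ 4 * (N : ℝ) ^ 3 := by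
  have h2 : rt N ^ (-3 * ((N : ℤ) - 1)) = -Complex.exp (3 * π * Complex.I / N) := by
    have h3 := Pool.Agent.W715.VC.rt_zpow_N (N := N) hN
    have h0 := Pool.Agent.W715.VC.rt_ne N
    rw [show -3 * ((N : ℤ) - 1) = (N : ℤ) * (-3) + 3 by ring, zpow_add₀ h0, _root_.zpow_mul, h3]
    have h4 : ((-1 : ℂ) ^ (-3 : ℤ)) = -1 := by norm_num
    rw [h4, neg_one_mul]
    congr 1
    unfold rt
    rw [← Complex.exp_int_mul]
    congr 1
    push_cast
    ring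
  rw [h2] at hJ
  have h5 : ‖Complex.exp (3 * π * Complex.I / N)‖ = 1 := by
    rw [show (3 * π * Complex.I / N : ℂ) = ((3 * π / N : ℝ) : ℂ) * Complex.I by push_cast; ring,
      Complex.norm_exp_ofReal_mul_I]
  have h6 : ‖J‖ = ‖T‖ := by rw [hJ, norm_mul, norm_neg, h5, one_mul]
  have h7 : J + Complex.exp (3 * π * Complex.I / N) * (‖J‖ : ℂ) =
      -Complex.exp (3 * π * Complex.I / N) * (T - (‖T‖ : ℂ)) := by
    rw [h6, hJ]
    ring
  rw [h7, norm_mul, norm_neg, h5, one_mul]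
  exact near_abs h1 h2'

/-- the trace of `u u* v v*` is that of `t t*`, `t = v* u` -/
lemma trace_prod (N : ℕ) {u v : List (ℕ × Bool)} (hv : ∀ l ∈ v, l.1 < 2) :
    (rep3 N ((u ++ dual u) ++ (v ++ dual v))).trace =
      (rep3 N (wpow ((dual v ++ u) ++ dual (dual v ++ u)) 1)).trace := by
  rw [wpow_one, dual_append, dual_dual hv]
  have h1 : dual v ++ u ++ (dual u ++ v) = dual v ++ ((u ++ dual u) ++ v) := by simp
  rw [h1, rep3_append (dual v), Matrix.trace_mul_comm, ← rep3_append]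
  simp

theorem near_prod {N : ℕ} (hN : 0 < N) {u v : List (ℕ × Bool)} (hu : ∀ l ∈ u, l.1 < 2)
    (hv : ∀ l ∈ v, l.1 < 2) (J : ℂ) (hJ : J = Pool.Agent.H550R3.Jones.cjones N 3
      (axisClosure ((u ++ dual u) ++ (v ++ dual v))) (rt N)) :
    ‖J + Complex.exp (3 * π * Complex.I / N) * (‖J‖ : ℂ)‖ ≤ 4 * (N : ℝ) ^ 3 := by
  rw [Pool.Agent.W715.VC.cjones_axis hN, trace_prod N hv] at hJ
  have h1 := Pool.Agent.X132.FT.trace_sign hN (append_lt (dual_lt v) hu) one_ne_zero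
  exact near_of hN h1.1 h1.2 hJ

/-- powers -/
theorem near_prod_pow {N : ℕ} (hN : 0 < N) {u v : List (ℕ × Bool)} (hu : ∀ l ∈ u, l.1 < 2)
    (hv : ∀ l ∈ v, l.1 < 2) (m n : ℕ) (J : ℂ) (hJ : J = Pool.Agent.H550R3.Jones.cjones N 3
      (axisClosure (wpow (u ++ dual u) m ++ wpow (v ++ dual v) n)) (rt N)) :
    ‖J + Complex.exp (3 * π * Complex.I / N) * (‖J‖ : ℂ)‖ ≤ 4 * (N : ℝ) ^ 3 := by
  obtain ⟨y, hy, hy2⟩ := pow_form hu m
  obtain ⟨z, hz, hz2⟩ := pow_form hv n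
  rw [hy2, hz2] at hJ
  exact near_prod hN hy hz J hJ

/-! ### Phases from lower bounds -/

variable {f : ℕ → ℂ} {F : Filter ℕ}

/-- exponential lower bounds -/
lemma small_of_lower (hF : F ≤ atTop) {c : ℝ} (hc : 0 < c)
    (h : ∀ᶠ N : ℕ in F, Real.exp (c * N) ≤ ‖f N‖ + (N : ℝ) ^ 3) :
    (∀ᶠ N in F, f N ≠ 0) ∧ Tendsto (fun N : ℕ => (N : ℝ) ^ 3 / ‖f N‖) F (𝓝 0) := by
  have h3 : Tendsto (fun N : ℕ => (N : ℝ) ^ 3 * Real.exp (-(c * N))) atTop (𝓝 0) := by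
    have h4 := Real.tendsto_pow_mul_exp_neg_atTop_nhds_zero 3
    have h5 : Tendsto (fun N : ℕ => c * (N : ℝ)) atTop atTop :=
      tendsto_natCast_atTop_atTop.const_mul_atTop hc
    have h6 := (h4.comp h5).const_mul ((c ^ 3)⁻¹)
    rw [mul_zero] at h6
    refine h6.congr fun N => ?_
    simp only [Function.comp]
    rw [mul_pow]
    field_simp
  have h7 : ∀ᶠ N : ℕ in F, Real.exp (c * N) / 2 ≤ ‖f N‖ := by
    filter_upwards [h, hF (h3.eventually_le_const (show (0 : ℝ) < 1 / 2 by norm_num))] with N h8 h9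
    rw [Real.exp_neg, ← div_eq_mul_inv, div_le_iff₀ (Real.exp_pos _)] at h9
    linarith
  refine ⟨?_, ?_⟩
  · filter_upwards [h7] with N h8 h9
    rw [h9, norm_zero] at h8
    have := Real.exp_pos (c * N)
    linarith
  · have h10 := h3.const_mul 2
    rw [mul_zero] at h10
    refine squeeze_zero' (Eventually.of_forall fun N => by positivity) ?_ (h10.mono_left hF)
    filter_upwards [h7] with N h8
    have h11 : 0 < Real.exp (c * N) / 2 := by positivity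
    calc (N : ℝ) ^ 3 / ‖f N‖ ≤ (N : ℝ) ^ 3 / (Real.exp (c * N) / 2) :=
          div_le_div_of_nonneg_left (by positivity) h11 h8
      _ = 2 * ((N : ℝ) ^ 3 * Real.exp (-(c * N))) := by
          rw [Real.exp_neg]
          field_simp

lemma half_of_lower (hF : F ≤ atTop) {c : ℝ} (hc : 0 < c)
    (h : ∀ᶠ N : ℕ in F, Real.exp (c * N) ≤ ‖f N‖ + (N : ℝ) ^ 3) :
    ∀ᶠ N : ℕ in F, Real.exp (c * N) / 2 ≤ ‖f N‖ := by
  have h3 : Tendsto (fun N : ℕ => (N : ℝ) ^ 3 * Real.exp (-(c * N))) atTop (𝓝 0) := by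
    have h4 := Real.tendsto_pow_mul_exp_neg_atTop_nhds_zero 3
    have h5 : Tendsto (fun N : ℕ => c * (N : ℝ)) atTop atTop :=
      tendsto_natCast_atTop_atTop.const_mul_atTop hc
    have h6 := (h4.comp h5).const_mul ((c ^ 3)⁻¹)
    rw [mul_zero] at h6
    refine h6.congr fun N => ?_
    simp only [Function.comp]
    rw [mul_pow]
    field_simp
  filter_upwards [h, hF (h3.eventually_le_const (show (0 : ℝ) < 1 / 2 by norm_num))] with N h8 h9
  rw [Real.exp_neg, ← div_eq_mul_inv, div_le_iff₀ (Real.exp_pos _)] at h9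
  linarith

lemma lower_clean (hF : F ≤ atTop) {c : ℝ} (hc : 0 < c)
    (h : ∀ ε : ℝ, 0 < ε → ∀ᶠ N : ℕ in F, Real.exp ((c - ε) * N) ≤ ‖f N‖ + (N : ℝ) ^ 3) :
    ∀ ε : ℝ, 0 < ε → ∀ᶠ N : ℕ in F, Real.exp ((c - ε) * N) ≤ ‖f N‖ := by
  intro ε hε
  obtain ⟨δ, hδ⟩ : ∃ δ : ℝ, δ = min (ε / 2) (c / 2) := ⟨_, rfl⟩
  have h1 : 0 < δ := by rw [hδ]; exact lt_min (by linarith) (by linarith)
  have h2 : δ ≤ ε / 2 := by rw [hδ]; exact min_le_left _ _
  have h3 : δ ≤ c / 2 := by rw [hδ]; exact min_le_right _ _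
  have h4 := half_of_lower hF (show 0 < c - δ by linarith) (h δ h1)
  have h5 : Tendsto (fun N : ℕ => ε / 2 * (N : ℝ)) atTop atTop :=
    tendsto_natCast_atTop_atTop.const_mul_atTop (half_pos hε)
  filter_upwards [h4, hF (h5.eventually_ge_atTop (Real.log 2))] with N h6 h7
  have hN : (0 : ℝ) ≤ N := Nat.cast_nonneg N
  have h8 : 2 * Real.exp ((c - ε) * N) ≤ Real.exp ((c - δ) * N) := by
    have e1 : (2 : ℝ) = Real.exp (Real.log 2) := (Real.exp_log (by norm_num)).symm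
    rw [e1, ← Real.exp_add]
    refine Real.exp_le_exp.2 ?_
    have := mul_le_mul_of_nonneg_right h2 hN
    linarith
  linarith

theorem phase_lower {k : ℕ} (hF : F ≤ atTop) (hs : Tendsto (fun N : ℕ => N + k) F F)
    {c : ℝ} (hc : 0 < c) (h : ∀ᶠ N : ℕ in F, Real.exp (c * N) ≤ ‖f N‖ + (N : ℝ) ^ 3)
    (hf : ∀ N : ℕ, 1 ≤ N → ‖f N + Complex.exp (3 * π * Complex.I / N) * (‖f N‖ : ℂ)‖ ≤
      4 * (N : ℝ) ^ 3) :
    (∀ᶠ N in F, f N ≠ 0) ∧ Tendsto (fun N : ℕ => f N / (‖f N‖ : ℂ)) F (𝓝 (-1)) ∧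
    Tendsto (fun N : ℕ => Complex.arg (f (N + k) / f N)) F (𝓝 0) ∧
    (∀ᶠ N in F, Complex.exp (lgp f N) = f N) ∧
    Tendsto (fun N : ℕ => (lgp f N).im) F (𝓝 π) := by
  obtain ⟨h0, h1⟩ := small_of_lower hF hc h
  have hf' : ∀ᶠ N : ℕ in F, ‖f N + Complex.exp (3 * π * Complex.I / N) * (‖f N‖ : ℂ)‖ ≤
      4 * (N : ℝ) ^ 3 := by
    filter_upwards [hF (eventually_ge_atTop 1)] with N hN using hf N hN
  have h2 := phase_lim hF hf' h1 h0
  exact ⟨h0, h2, quot_arg hs h2 h0, h0.mono fun N hN => lgp_exp hN, lgp_im h2 h0⟩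

end Pool.Agent.X132.AX
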