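import Pool.Agent.W715.VC.Limit

/-!
A Hölder inequality for the operators of braids on three strands at the root of unity.
-/

set_option autoImplicit false

namespace Pool.Agent.X132.AX

open Matrix Finset Filter Topology Pool.Agent.H550R3.Jones Pool.Agent.W715.VC

variable {N : ℕ}

/-! ### Powers and the spectral radius -/

section radius

attribute [local instance] Matrix.linftyOpNormedRing Matrix.linftyOpNormedAlgebra

/-- The powers of a matrix whose eigenvalues are at most `ρ` in absolute value. -/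
lemma pow_bound {ι : Type} [Fintype ι] [DecidableEq ι] (T : Matrix ι ι ℂ) {ρ : ℝ} (hρ : 0 ≤ ρ)
    (h : ∀ a ∈ T.charpoly.roots, ‖a‖ ≤ ρ) {s : ℝ} (hs : ρ < s) :
    ∀ᶠ n : ℕ in atTop, ‖T ^ n‖ ≤ s ^ n := by
  have hsp : spectralRadius ℂ T ≤ ENNReal.ofReal ρ := by
    unfold spectralRadius
    refine iSup₂_le fun k hk => ?_
    have hk2 : k ∈ T.charpoly.roots := by
      rw [Polynomial.mem_roots T.charpoly_monic.ne_zero]
      exact Matrix.mem_spectrum_iff_isRoot_charpoly.1 hk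
    have h1 := h k hk2
    rw [← ENNReal.ofReal_coe_nnreal]
    exact ENNReal.ofReal_le_ofReal h1
  have hg := spectrum.pow_nnnorm_pow_one_div_tendsto_nhds_spectralRadius T
  have hs2 : spectralRadius ℂ T < ENNReal.ofReal s :=
    hsp.trans_lt ((ENNReal.ofReal_lt_ofReal_iff (by linarith)).2 hs)
  filter_upwards [hg.eventually (gt_mem_nhds hs2), eventually_gt_atTop 0] with n h1 h2
  have h3 : ((‖T ^ n‖₊ : ENNReal) ^ (1 / n : ℝ)) ^ (n : ℝ) ≤ (ENNReal.ofReal s) ^ (n : ℝ) :=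
    ENNReal.rpow_le_rpow h1.le (by positivity)
  rw [← ENNReal.rpow_mul, one_div, inv_mul_cancel₀ (by positivity), ENNReal.rpow_one,
    ENNReal.rpow_natCast, ← ENNReal.ofReal_pow (by linarith)] at h3
  have h4 : ENNReal.ofReal ‖T ^ n‖ ≤ ENNReal.ofReal (s ^ n) := by
    rwa [ofReal_norm]
  exact (ENNReal.ofReal_le_ofReal_iff (pow_nonneg (by linarith) n)).1 h4

/-- Matrix coefficients of the powers. -/
lemma form_bound {ι : Type} [Fintype ι] [DecidableEq ι] (T : Matrix ι ι ℂ) {ρ : ℝ} (hρ : 0 ≤ ρ)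
    (h : ∀ a ∈ T.charpoly.roots, ‖a‖ ≤ ρ) {s : ℝ} (hs : ρ < s) (f : ι → ℂ) (y : ι → ℂ) :
    ∃ C : ℝ, 0 ≤ C ∧ ∀ᶠ n : ℕ in atTop, ‖∑ p, f p * (T ^ n *ᵥ y) p‖ ≤ C * s ^ n := by
  refine ⟨∑ p, ‖f p‖ * ‖y‖, sum_nonneg fun p _ => by positivity, ?_⟩
  filter_upwards [pow_bound T hρ h hs] with n hn
  refine (_root_.norm_sum_le _ _).trans ?_
  rw [sum_mul]
  refine sum_le_sum fun p _ => ?_
  rw [norm_mul, mul_assoc]
  refine mul_le_mul_of_nonneg_left ?_ (norm_nonneg _)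
  have h1 : ‖(T ^ n *ᵥ y) p‖ ≤ ‖T ^ n *ᵥ y‖ := norm_le_pi_norm _ p
  have h2 := Matrix.linfty_opNorm_mulVec (T ^ n) y
  calc ‖(T ^ n *ᵥ y) p‖ ≤ ‖T ^ n‖ * ‖y‖ := h1.trans h2
    _ ≤ s ^ n * ‖y‖ := mul_le_mul_of_nonneg_right hn (norm_nonneg _)
    _ = ‖y‖ * s ^ n := mul_comm _ _

end radius

end Pool.Agent.X132.AX
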