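import Pool.Agent.X132.AXa

/-!
The contraction property of the operators of braid words on the positive part.
-/

set_option autoImplicit false

namespace Pool.Agent.X132.AX

open Matrix Finset Filter Topology Pool.Agent.H550R3.Jones Pool.Agent.W715.VC

variable {N : ℕ}

/-! ### The dual word -/

lemma dl_dl {l : ℕ × Bool} (hl : l.1 < 2) : dl (dl l) = l := by
  obtain ⟨k, b⟩ := l
  have hk : k = 0 ∨ k = 1 := by simp only at hl; omega
  rcases hk with rfl | rfl <;> simp [dl]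

lemma dl_lt (l : ℕ × Bool) : (dl l).1 < 2 := by
  obtain ⟨k, b⟩ := l
  simp only [dl]
  omega

lemma dual_lt (u : List (ℕ × Bool)) : ∀ l ∈ dual u, l.1 < 2 := by
  intro l hl
  unfold dual at hl
  rw [List.mem_reverse, List.mem_map] at hl
  obtain ⟨x, -, rfl⟩ := hl
  exact dl_lt x

lemma dual_dual {u : List (ℕ × Bool)} (hu : ∀ l ∈ u, l.1 < 2) : dual (dual u) = u := by
  unfold dual
  rw [List.map_reverse, List.reverse_reverse, List.map_map]
  conv_rhs => rw [← List.map_id u]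
  exact List.map_congr_left fun l hl => dl_dl (hu l hl)

lemma dual_append (u w : List (ℕ × Bool)) : dual (u ++ w) = dual w ++ dual u := by
  simp [dual]

lemma hadj_hadj (A : M3 N) : hadj (hadj A) = A := by
  ext p q
  simp only [hadj, Complex.conj_conj, rv_rv]

lemma hadj_dual (hN : 0 < N) {u : List (ℕ × Bool)} (hu : ∀ l ∈ u, l.1 < 2) :
    hadj (rep3 N (dual u)) = rep3 N u := by
  rw [← hadj_rep3 hN hu, hadj_hadj]

/-- The factor of a word. -/
noncomputable def RR (N : ℕ) (u : List (ℕ × Bool)) : ℝ :=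
  ‖(rep3 N (u ++ dual u)).trace‖ + (N : ℝ) ^ 3

lemma RR_one (hN : 0 < N) (u : List (ℕ × Bool)) : 1 ≤ RR N u := by
  unfold RR
  have h1 : (1 : ℝ) ≤ N := by exact_mod_cast hN
  have h2 : (1 : ℝ) ≤ (N : ℝ) ^ 3 := one_le_pow₀ h1
  have := norm_nonneg (rep3 N (u ++ dual u)).trace
  linarith

/-- the eigenvalues of the operator of `u* u` -/
lemma roots_dual (hN : 0 < N) {u : List (ℕ × Bool)} (hu : ∀ l ∈ u, l.1 < 2) :
    ∀ a ∈ (rep3 N (dual u ++ u)).charpoly.roots, ‖a‖ ≤ RR N u := by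
  have h1 : dual u ++ u = dual u ++ dual (dual u) := by rw [dual_dual hu]
  have hs : ∀ a ∈ (rep3 N (dual u ++ u)).charpoly.roots, (∃ r : ℝ, 0 < r ∧ a = r) ∨ ‖a‖ = 1 := by
    intro a ha
    obtain ⟨m, hm⟩ := eig_of_root (good_rep3 _) ha
    rw [h1] at hm
    exact eig_main hN (dual_lt u) hm
  have htr : (rep3 N (u ++ dual u)).trace = (rep3 N (dual u ++ u)).trace := by
    rw [rep3_append, rep3_append, Matrix.trace_mul_comm]
  obtain ⟨M, hM1, hM2, hM3⟩ := exists_radius _ hs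
  intro a ha
  refine (hM2 a ha).trans ?_
  have hcard : (rep3 N (dual u ++ u)).charpoly.roots.card = N ^ 3 := by
    rw [card_roots']
    simp only [I3, Fintype.card_prod, Fintype.card_fin]
    ring
  rcases hM3 with h | h
  · rw [h]; exact RR_one hN u
  · unfold RR
    rw [htr, Matrix.trace_eq_sum_roots_charpoly]
    have h4 : ((rep3 N (dual u ++ u)).charpoly.roots.card : ℝ) = (N : ℝ) ^ 3 := by
      rw [hcard]; push_cast; rfl
    obtain ⟨t, ht⟩ := Multiset.exists_cons_of_mem h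
    have h2 := re_sum_ge t (fun a ha => hs a (by rw [ht]; exact Multiset.mem_cons_of_mem ha)) 1
    rw [ht] at h4 ⊢
    simp only [pow_one, Multiset.map_id'] at h2
    rw [Multiset.card_cons] at h4
    push_cast at h4
    have h3 := Complex.re_le_norm (((M : ℂ) ::ₘ t).sum)
    rw [Multiset.sum_cons, Complex.add_re, Complex.ofReal_re] at h3
    rw [Multiset.sum_cons]
    linarith

/-! ### The semidefinite form -/

/-- the semidefinite form on the highest weight vectors -/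
noncomputable def SS (N m : ℕ) (x y : I3 N → ℂ) : ℂ :=
  ∑ i ∈ range (m + 1), ((DD N m i : ℝ) : ℂ) * ((starRingEnd ℂ) (LL N m i x) * LL N m i y)

lemma SS_self (m : ℕ) (x : I3 N → ℂ) :
    SS N m x x = ((∑ i ∈ range (m + 1), DD N m i * ‖LL N m i x‖ ^ 2 : ℝ) : ℂ) := by
  unfold SS
  push_cast
  exact sum_congr rfl fun i _ => by rw [Complex.conj_mul']

lemma SS_self_re (m : ℕ) (x : I3 N → ℂ) : (SS N m x x).re =
    ∑ i ∈ range (m + 1), DD N m i * ‖LL N m i x‖ ^ 2 := by
  rw [SS_self, Complex.ofReal_re]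

lemma SS_self_nonneg {m : ℕ} (hm : m < N) (x : I3 N → ℂ) : 0 ≤ (SS N m x x).re := by
  rw [SS_self_re]
  refine sum_nonneg fun i hi => ?_
  rw [mem_range] at hi
  exact mul_nonneg (DD_nonneg hm (by omega)) (by positivity)

/-- Cauchy-Schwarz -/
lemma SS_cs {m : ℕ} (hm : m < N) (x y : I3 N → ℂ) :
    ‖SS N m x y‖ ^ 2 ≤ (SS N m x x).re * (SS N m y y).re := by
  rw [SS_self_re, SS_self_re]
  have h1 : ‖SS N m x y‖ ≤ ∑ i ∈ range (m + 1),
      (Real.sqrt (DD N m i) * ‖LL N m i x‖) * (Real.sqrt (DD N m i) * ‖LL N m i y‖) := by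
    unfold SS
    refine (_root_.norm_sum_le _ _).trans (le_of_eq (sum_congr rfl fun i hi => ?_))
    rw [mem_range] at hi
    have hD := DD_nonneg (N := N) hm (show i ≤ m by omega)
    rw [norm_mul, norm_mul, Complex.norm_real, Real.norm_of_nonneg hD, RCLike.norm_conj]
    have := Real.mul_self_sqrt hD
    calc DD N m i * (‖LL N m i x‖ * ‖LL N m i y‖)
        = (Real.sqrt (DD N m i) * Real.sqrt (DD N m i)) * (‖LL N m i x‖ * ‖LL N m i y‖) := by
          rw [this]
      _ = _ := by ring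
  have h2 := Finset.sum_mul_sq_le_sq_mul_sq (range (m + 1))
    (fun i => Real.sqrt (DD N m i) * ‖LL N m i x‖) (fun i => Real.sqrt (DD N m i) * ‖LL N m i y‖)
  have h3 : ∀ z : I3 N → ℂ, ∑ i ∈ range (m + 1), (Real.sqrt (DD N m i) * ‖LL N m i z‖) ^ 2 =
      ∑ i ∈ range (m + 1), DD N m i * ‖LL N m i z‖ ^ 2 := by
    intro z
    refine sum_congr rfl fun i hi => ?_
    rw [mem_range] at hi
    rw [mul_pow, Real.sq_sqrt (DD_nonneg hm (by omega))]
  rw [h3, h3] at h2
  exact (pow_le_pow_left₀ (norm_nonneg _) h1 2).trans h2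

lemma LL_add (m i : ℕ) (a b : I3 N → ℂ) : LL N m i (a + b) = LL N m i a + LL N m i b := by
  unfold LL
  rw [← sum_add_distrib]
  exact sum_congr rfl fun j _ => by rw [tt_add]; ring

lemma LL_smul (m i : ℕ) (r : ℂ) (a : I3 N → ℂ) : LL N m i (r • a) = r * LL N m i a := by
  unfold LL
  rw [mul_sum]
  exact sum_congr rfl fun j _ => by rw [tt_smul]; ring

lemma SS_lin (m : ℕ) (y : I3 N → ℂ) : ∃ f : I3 N → ℂ, ∀ z, SS N m y z = ∑ p, f p * z p := by
  let φ : (I3 N → ℂ) →ₗ[ℂ] ℂ :=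
    { toFun := fun z => SS N m y z
      map_add' := by
        intro a b
        unfold SS
        rw [← sum_add_distrib]
        exact sum_congr rfl fun i _ => by rw [LL_add]; ring
      map_smul' := by
        intro r a
        unfold SS
        rw [RingHom.id_apply, smul_eq_mul, mul_sum]
        exact sum_congr rfl fun i _ => by rw [LL_smul]; ring }
  refine ⟨fun p => φ (Pi.single p 1), fun z => ?_⟩
  change φ z = _
  rw [LinearMap.pi_apply_eq_sum_univ φ z]
  refine sum_congr rfl fun p _ => ?_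
  rw [smul_eq_mul, mul_comm]
  congr 2
  funext j
  rw [Pi.single_apply]
  by_cases hj : p = j
  · rw [if_pos hj, if_pos hj.symm]
  · rw [if_neg hj, if_neg (Ne.symm hj)]

/-- the iterated Cauchy-Schwarz inequality: `T` symmetric and of spectral radius at most `ρ` -/
lemma SS_contract {m : ℕ} (hm : m < N) (K : (I3 N → ℂ) → Prop) (T : M3 N)
    (hT : ∀ x, K x → K (T *ᵥ x))
    (hsym : ∀ x y, K x → K y → SS N m (T *ᵥ x) y = SS N m x (T *ᵥ y))
    {ρ : ℝ} (hρ : 0 ≤ ρ) (hr : ∀ a ∈ T.charpoly.roots, ‖a‖ ≤ ρ)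
    {y : I3 N → ℂ} (hy : K y) : ‖SS N m y (T *ᵥ y)‖ ≤ ρ * (SS N m y y).re := by
  have hTn : ∀ n x, K x → K (T ^ n *ᵥ x) := by
    intro n
    induction n with
    | zero => intro x hx; rwa [pow_zero, one_mulVec]
    | succ n ih => intro x hx; rw [pow_succ, ← Matrix.mulVec_mulVec]; exact ih _ (hT x hx)
  have hsymn : ∀ n x y, K x → K y → SS N m (T ^ n *ᵥ x) y = SS N m x (T ^ n *ᵥ y) := by
    intro n
    induction n with
    | zero => intro x y _ _; rw [pow_zero, one_mulVec, one_mulVec]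
    | succ n ih =>
      intro x y hx hy
      have e1 : T ^ (n + 1) *ᵥ x = T ^ n *ᵥ (T *ᵥ x) := by
        rw [Matrix.mulVec_mulVec, ← pow_succ]
      have e2 : T ^ (n + 1) *ᵥ y = T *ᵥ (T ^ n *ᵥ y) := by
        rw [Matrix.mulVec_mulVec, ← pow_succ']
      rw [e1, e2, ih _ _ (hT x hx) hy, hsym _ _ hx (hTn n y hy)]
  set a0 := (SS N m y y).re with ha0
  have ha0n : 0 ≤ a0 := SS_self_nonneg hm y
  set e : ℕ → ℝ := fun j => ‖SS N m y (T ^ 2 ^ j *ᵥ y)‖ with he
  have he0 : e 0 = ‖SS N m y (T *ᵥ y)‖ := by rw [he]; simp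
  have hstep : ∀ j, e j ^ 2 ≤ a0 * e (j + 1) := by
    intro j
    refine (SS_cs hm y (T ^ 2 ^ j *ᵥ y)).trans ?_
    refine mul_le_mul_of_nonneg_left ?_ ha0n
    rw [hsymn _ _ _ hy (hTn _ _ hy), Matrix.mulVec_mulVec, ← pow_add, ← two_mul, ← pow_succ']
    exact Complex.re_le_norm _
  rw [← he0]
  by_cases hzero : a0 = 0
  · have h1 := hstep 0
    rw [hzero, zero_mul] at h1
    have h2 : e 0 = 0 := by
      have : e 0 ^ 2 = 0 := le_antisymm h1 (sq_nonneg _)
      exact pow_eq_zero_iff (two_ne_zero) |>.1 this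
    rw [h2, hzero, mul_zero]
  have ha0p : 0 < a0 := lt_of_le_of_ne ha0n (Ne.symm hzero)
  have hen : ∀ j, 0 ≤ e j := fun j => norm_nonneg _
  -- iterate
  have hit : ∀ j, (e 0 / a0) ^ 2 ^ j ≤ e j / a0 := by
    intro j
    induction j with
    | zero => simp
    | succ j ih =>
      calc (e 0 / a0) ^ 2 ^ (j + 1) = ((e 0 / a0) ^ 2 ^ j) ^ 2 := by rw [← pow_mul, ← pow_succ]
        _ ≤ (e j / a0) ^ 2 := pow_le_pow_left₀ (by positivity) ih 2
        _ = e j ^ 2 / a0 ^ 2 := by rw [div_pow]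
        _ ≤ (a0 * e (j + 1)) / a0 ^ 2 := div_le_div_of_nonneg_right (hstep j) (by positivity)
        _ = e (j + 1) / a0 := by field_simp
  -- the linear form
  obtain ⟨f, hf⟩ := SS_lin m y
  -- compare with the growth of the powers
  refine le_of_forall_pos_le_add fun δ hδ => ?_
  have hs : ρ < ρ + δ / a0 := by
    have := div_pos hδ ha0p
    linarith
  set s := ρ + δ / a0 with hs_def
  have hs0 : 0 < s := by linarith
  obtain ⟨C, hC, hev⟩ := form_bound T hρ hr (show ρ < s from hs) f y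
  have h2pow : Tendsto (fun j : ℕ => 2 ^ j) atTop atTop :=
    tendsto_atTop_mono (fun j => (Nat.lt_two_pow_self (n := j)).le) tendsto_id
  have hgoal : e 0 / a0 ≤ s := by
    by_contra hcon
    push Not at hcon
    have h1 : 1 < (e 0 / a0) / s := (one_lt_div hs0).2 hcon
    have h2 : Tendsto (fun j : ℕ => ((e 0 / a0) / s) ^ 2 ^ j) atTop atTop :=
      (tendsto_pow_atTop_atTop_of_one_lt h1).comp h2pow
    have h3 : ∀ᶠ j : ℕ in atTop, ‖∑ p, f p * (T ^ 2 ^ j *ᵥ y) p‖ ≤ C * s ^ 2 ^ j :=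
      h2pow.eventually hev
    obtain ⟨j, h4, h5⟩ := (h3.and (h2.eventually (eventually_gt_atTop (C / a0)))).exists
    rw [← hf] at h4
    have h6 := hit j
    have h7 : e j / a0 ≤ C * s ^ 2 ^ j / a0 := div_le_div_of_nonneg_right h4 ha0p.le
    have h8 : (e 0 / a0) ^ 2 ^ j ≤ C / a0 * s ^ 2 ^ j := by
      refine (h6.trans h7).trans (le_of_eq (by ring))
    rw [div_pow, lt_div_iff₀ (by positivity)] at h5
    linarith
  rw [div_le_iff₀ ha0p] at hgoal
  refine hgoal.trans (le_of_eq ?_)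
  rw [hs_def]
  field_simp

end Pool.Agent.X132.AX
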