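import Pool.Agent.X132.AXb

/-!
The Hölder inequality: eigenvalues and traces.
-/

set_option autoImplicit false

namespace Pool.Agent.X132.AX

open Matrix Finset Filter Topology Pool.Agent.H550R3.Jones Pool.Agent.W715.VC

variable {N : ℕ}

lemma contract (hN : 0 < N) {m : ℕ} (hm : m < N) {c : ℝ} (hc0 : c ≠ 0)
    (hc : ∀ x y : I3 N → ℂ, InK m x → InK m y → Hf x y = c * SS N m x y)
    {u : List (ℕ × Bool)} (hu : ∀ l ∈ u, l.1 < 2) {x : I3 N → ℂ} (hx : InK m x) :
    (SS N m (rep3 N u *ᵥ x) (rep3 N u *ᵥ x)).re ≤ RR N u * (SS N m x x).re := by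
  have hcc : (c : ℂ) ≠ 0 := by exact_mod_cast hc0
  set T := rep3 N (dual u ++ u) with hT
  have hTg : Good T := good_rep3 _
  have hdl : ∀ l ∈ dual u ++ u, l.1 < 2 := by
    intro l hl
    rcases List.mem_append.1 hl with h | h
    · exact dual_lt u l h
    · exact hu l h
  have hTa : hadj T = T := by
    rw [hT, hadj_rep3 hN hdl, dual_append, dual_dual hu]
  have hsym : ∀ x y : I3 N → ℂ, InK m x → InK m y →
      SS N m (T *ᵥ x) y = SS N m x (T *ᵥ y) := by
    intro x y hx hy
    have h1 := hc _ _ (hTg.InK hx) hy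
    have h2 := hc _ _ hx (hTg.InK hy)
    rw [Hf_adj, hTa, h2] at h1
    exact (mul_left_cancel₀ hcc h1).symm
  have key := SS_contract hm (fun z => InK m z) T (fun z hz => hTg.InK hz) hsym
    (zero_le_one.trans (RR_one hN u)) (roots_dual hN hu) hx
  have hU := good_rep3 (N := N) u
  have h3 : SS N m (rep3 N u *ᵥ x) (rep3 N u *ᵥ x) = SS N m x (T *ᵥ x) := by
    have h4 := hc _ _ (hU.InK hx) (hU.InK hx)
    have h5 := hc _ _ hx (hTg.InK hx)
    rw [Hf_adj, hadj_rep3 hN hu, Matrix.mulVec_mulVec, ← rep3_append, ← hT, h5] at h4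
    exact (mul_left_cancel₀ hcc h4).symm
  rw [h3]
  exact (Complex.re_le_norm _).trans key

lemma contract_list (hN : 0 < N) {m : ℕ} (hm : m < N) {c : ℝ} (hc0 : c ≠ 0)
    (hc : ∀ x y : I3 N → ℂ, InK m x → InK m y → Hf x y = c * SS N m x y)
    {us : List (List (ℕ × Bool))} (hu : ∀ u ∈ us, ∀ l ∈ u, l.1 < 2) {x : I3 N → ℂ}
    (hx : InK m x) :
    (SS N m (rep3 N us.flatten *ᵥ x) (rep3 N us.flatten *ᵥ x)).re ≤
      (us.map (RR N)).prod * (SS N m x x).re := by
  induction us with
  | nil => simp [rep3_nil]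
  | cons u us ih =>
    have h1 := ih fun v hv => hu v (List.mem_cons_of_mem _ hv)
    have h2 := contract hN hm hc0 hc (hu u List.mem_cons_self)
      ((good_rep3 (N := N) us.flatten).InK hx)
    rw [List.flatten_cons, rep3_append, ← Matrix.mulVec_mulVec, List.map_cons, List.prod_cons,
      mul_assoc]
    refine h2.trans (mul_le_mul_of_nonneg_left h1 ?_)
    exact zero_le_one.trans (RR_one hN u)

lemma prod_one (hN : 0 < N) (us : List (List (ℕ × Bool))) : 1 ≤ (us.map (RR N)).prod := by
  induction us with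
  | nil => simp
  | cons u us ih =>
    rw [List.map_cons, List.prod_cons]
    exact one_le_mul_of_one_le_of_one_le (RR_one hN u) ih

/-- **the eigenvalues of a product of words** -/
theorem eig_bound (hN : 0 < N) {us : List (List (ℕ × Bool))} (hu : ∀ u ∈ us, ∀ l ∈ u, l.1 < 2)
    {lam : ℂ} {m0 : ℕ} (h0 : Eig (rep3 N us.flatten) lam m0) :
    ‖lam‖ ^ 2 ≤ (us.map (RR N)).prod := by
  classical
  set B := rep3 N us.flatten with hB
  have hG : Good B := good_rep3 _
  have hex : ∃ m, Eig B lam m := ⟨m0, h0⟩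
  obtain ⟨x, hx0, hxW, hx⟩ := Nat.find_spec hex
  have hmin : ∀ k, k < Nat.find hex → ¬ Eig B lam k := fun k hk => Nat.find_min hex hk
  set m := Nat.find hex with hm
  -- the eigenvector is a highest weight vector
  have hxE : Et N *ᵥ x = 0 := by
    by_contra hE
    have h1 : B *ᵥ (Et N *ᵥ x) = lam • (Et N *ᵥ x) := by
      rw [Matrix.mulVec_mulVec, hG.e, ← Matrix.mulVec_mulVec, hx, Matrix.mulVec_smul]
    cases hmm : m with
    | zero =>
      apply hE
      rw [← wp_of_InW hxW, hmm, lower_zero (Et_wt hN)]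
    | succ k =>
      refine hmin k (by omega) ⟨_, hE, ?_, h1⟩
      have h2 := wp_lower (Et_wt hN) k x
      rw [← hmm, wp_of_InW hxW] at h2
      rw [← h2]
      exact wp_InW _ _
  have hK : InK m x := ⟨hxW, hxE⟩
  -- the weight is less than `N`
  have hmN : m < N := by
    by_contra hge
    obtain ⟨y, hyW, hy⟩ := ker_Et hN hK
    have hcomm : B * Et N ^ (N - 1) = Et N ^ (N - 1) * B :=
      (Commute.pow_right (show Commute B (Et N) from hG.e) (N - 1))
    have h1 := eig_symm hN _ (eig_push hG hcomm hx0 hx hyW hy)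
    exact hmin _ (by omega) h1
  -- the eigenvector is not orthogonal to `K`
  have hnd : ∃ y, InK m y ∧ Hf y x ≠ 0 := by
    by_contra hno
    push Not at hno
    obtain ⟨z, hz⟩ := range_Ft hN hxW hno
    cases hmm : m with
    | zero =>
      apply hx0
      rw [← wp_of_InW hxW, hmm, ← hz, wp_raise_zero (Ft_wt hN)]
    | succ k =>
      have h1 : Ft N *ᵥ wp k z = x := by
        rw [← wp_raise (Ft_wt hN), hz, ← hmm, wp_of_InW hxW]
      exact hmin k (by omega) (eig_push hG hG.f hx0 hx (wp_InW k z) h1)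
  rcases Nat.lt_or_ge (2 * m + 1) N with h2 | h2
  · -- the unitary case
    have h3 := QK_rep3 (by omega) us.flatten hK
    rw [← hB, hx, QK_smul] at h3
    have h4 := QK_pos (by omega) hK hx0
    have h5 : ‖lam‖ ^ 2 = 1 := by
      have h6 : (‖lam‖ ^ 2 - 1) * QK N m x = 0 := by linear_combination h3
      have := (mul_eq_zero.1 h6).resolve_right h4.ne'
      linarith
    rw [h5]
    exact prod_one hN us
  · -- the positive case
    obtain ⟨c, hc⟩ := semi hmN (by omega : N ≤ 2 * m + 1)
    have hc' : ∀ x y : I3 N → ℂ, InK m x → InK m y → Hf x y = c * SS N m x y := hc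
    obtain ⟨y, hyK, hyx⟩ := hnd
    have hc0 : c ≠ 0 := by
      intro h
      apply hyx
      rw [hc y x hyK hK, h]
      simp
    have hSx : 0 < (SS N m x x).re := by
      rcases (SS_self_nonneg hmN x).lt_or_eq with h | h
      · exact h
      · exfalso
        apply hyx
        have h3 := SS_cs hmN y x
        rw [← h, mul_zero] at h3
        have h4 : ‖SS N m y x‖ = 0 := by
          have : ‖SS N m y x‖ ^ 2 = 0 := le_antisymm h3 (sq_nonneg _)
          exact pow_eq_zero_iff (two_ne_zero) |>.1 this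
        rw [hc' y x hyK hK, norm_eq_zero.1 h4, mul_zero]
    have h3 := contract_list hN hmN hc0 hc' hu hK
    rw [← hB, hx] at h3
    have h4 : SS N m (lam • x) (lam • x) = ((‖lam‖ ^ 2 : ℝ) : ℂ) * SS N m x x := by
      unfold SS
      rw [mul_sum]
      refine sum_congr rfl fun i _ => ?_
      rw [LL_smul, map_mul]
      push_cast
      rw [← Complex.conj_mul']
      ring
    rw [h4, Complex.re_ofReal_mul] at h3
    exact le_of_mul_le_mul_right h3 hSx

/-- **the trace of a product of words** -/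
theorem trace_holder (hN : 0 < N) {us : List (List (ℕ × Bool))}
    (hu : ∀ u ∈ us, ∀ l ∈ u, l.1 < 2) :
    ‖(rep3 N us.flatten).trace‖ ^ 2 ≤ (N : ℝ) ^ 6 * (us.map (RR N)).prod := by
  have hP := prod_one (N := N) hN us
  have h1 : ∀ a ∈ (rep3 N us.flatten).charpoly.roots, ‖a‖ ≤ Real.sqrt (us.map (RR N)).prod := by
    intro a ha
    obtain ⟨m, hm⟩ := eig_of_root (good_rep3 _) ha
    exact Real.le_sqrt_of_sq_le (eig_bound hN hu hm)
  have h2 := W715.VC.norm_sum_le (rep3 N us.flatten).charpoly.roots h1 1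
  simp only [pow_one, Multiset.map_id'] at h2
  rw [← Matrix.trace_eq_sum_roots_charpoly] at h2
  have hcard : (rep3 N us.flatten).charpoly.roots.card = N ^ 3 := by
    rw [card_roots']
    simp only [I3, Fintype.card_prod, Fintype.card_fin]
    ring
  rw [hcard] at h2
  push_cast at h2
  calc ‖(rep3 N us.flatten).trace‖ ^ 2 ≤ ((N : ℝ) ^ 3 * Real.sqrt (us.map (RR N)).prod) ^ 2 :=
        pow_le_pow_left₀ (norm_nonneg _) h2 2
    _ = (N : ℝ) ^ 6 * (us.map (RR N)).prod := by
        rw [mul_pow, Real.sq_sqrt (by linarith)]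
        ring

end Pool.Agent.X132.AX
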