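import Pool.Agent.X132.AXc

/-!
The growth form of the Hölder inequality; twist regions and half twists.
-/

set_option autoImplicit false

namespace Pool.Agent.X132.AX

open Matrix Finset Filter Topology Pool.Agent.H550R3.Jones Pool.Agent.W715.VC

variable {N : ℕ}

/-! ### Growth -/

lemma poly_le_exp (k : ℕ) {ε : ℝ} (hε : 0 < ε) :
    ∀ᶠ N : ℕ in atTop, (N : ℝ) ^ k ≤ Real.exp (ε * N) := by
  have h := (isLittleO_pow_exp_pos_mul_atTop k hε).comp_tendsto tendsto_natCast_atTop_atTop
  have h2 := h.bound (zero_lt_one)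
  filter_upwards [h2] with N hN
  simp only [Function.comp_apply, one_mul, Real.norm_eq_abs, abs_of_pos (Real.exp_pos _)] at hN
  exact (le_abs_self _).trans hN

/-- the growth of the factor of a word -/
lemma RR_growth {u : List (ℕ × Bool)} {G : ℝ} (hG0 : 0 ≤ G)
    (hG : ∀ ε : ℝ, 0 < ε → ∀ᶠ N : ℕ in atTop,
      ‖(rep3 N (u ++ dual u)).trace‖ ≤ Real.exp ((G / (2 * Real.pi) + ε) * N))
    {ε : ℝ} (hε : 0 < ε) :
    ∀ᶠ N : ℕ in atTop, RR N u ≤ Real.exp ((G / (2 * Real.pi) + ε) * N) := by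
  have hpi := Real.pi_pos
  filter_upwards [hG (ε / 2) (half_pos hε), poly_le_exp 3 (show 0 < ε / 4 by positivity),
    eventually_ge_atTop (⌈4 / ε⌉₊)] with N h1 h2 h3
  have hG' : 0 ≤ G / (2 * Real.pi) := by positivity
  have h4 : 4 / ε ≤ (N : ℝ) := (Nat.le_ceil _).trans (by exact_mod_cast h3)
  have h5 : 1 ≤ ε / 4 * N := by
    rw [div_le_iff₀ hε] at h4
    linarith
  have hN0 : (0 : ℝ) ≤ N := Nat.cast_nonneg N
  have h6 : (N : ℝ) ^ 3 ≤ Real.exp ((G / (2 * Real.pi) + ε / 2) * N) := by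
    refine h2.trans (Real.exp_le_exp.2 ?_)
    refine mul_le_mul_of_nonneg_right ?_ hN0
    linarith
  unfold RR
  calc ‖(rep3 N (u ++ dual u)).trace‖ + (N : ℝ) ^ 3
      ≤ 2 * Real.exp ((G / (2 * Real.pi) + ε / 2) * N) := by linarith
    _ ≤ Real.exp 1 * Real.exp ((G / (2 * Real.pi) + ε / 2) * N) := by
        refine mul_le_mul_of_nonneg_right ?_ (Real.exp_pos _).le
        have := Real.add_one_le_exp (1 : ℝ)
        linarith
    _ = Real.exp (1 + (G / (2 * Real.pi) + ε / 2) * N) := (Real.exp_add _ _).symm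
    _ ≤ Real.exp ((G / (2 * Real.pi) + ε) * N) := by
        refine Real.exp_le_exp.2 ?_
        have : ε / 4 * N ≤ ε / 2 * N := mul_le_mul_of_nonneg_right (by linarith) hN0
        nlinarith

lemma prod_growth {us : List (List (ℕ × Bool))} (G : List (ℕ × Bool) → ℝ)
    (hG0 : ∀ u ∈ us, 0 ≤ G u)
    (hG : ∀ u ∈ us, ∀ ε : ℝ, 0 < ε → ∀ᶠ N : ℕ in atTop,
      ‖(rep3 N (u ++ dual u)).trace‖ ≤ Real.exp ((G u / (2 * Real.pi) + ε) * N)) :
    ∀ ε : ℝ, 0 < ε → ∀ᶠ N : ℕ in atTop,
      (us.map (RR N)).prod ≤ Real.exp (((us.map G).sum / (2 * Real.pi) + ε) * N) := by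
  induction us with
  | nil =>
    intro ε hε
    refine Eventually.of_forall fun N => ?_
    simp only [List.map_nil, List.prod_nil, List.sum_nil, zero_div, zero_add]
    exact Real.one_le_exp (by positivity)
  | cons u us ih =>
    intro ε hε
    have h1 := ih (fun v hv => hG0 v (List.mem_cons_of_mem _ hv))
      (fun v hv => hG v (List.mem_cons_of_mem _ hv)) (ε / 2) (half_pos hε)
    have h2 := RR_growth (hG0 u List.mem_cons_self) (hG u List.mem_cons_self) (half_pos hε)
    filter_upwards [h1, h2, eventually_gt_atTop 0] with N h3 h4 h5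
    rw [List.map_cons, List.prod_cons, List.map_cons, List.sum_cons]
    calc RR N u * (us.map (RR N)).prod
        ≤ Real.exp ((G u / (2 * Real.pi) + ε / 2) * N) *
          Real.exp (((us.map G).sum / (2 * Real.pi) + ε / 2) * N) :=
          mul_le_mul h4 h3 (zero_le_one.trans (prod_one h5 us)) (Real.exp_pos _).le
      _ = Real.exp (((G u + (us.map G).sum) / (2 * Real.pi) + ε) * N) := by
          rw [← Real.exp_add]
          congr 1
          ring

/-- **the growth form of the Hölder inequality** -/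
theorem growth_list {us : List (List (ℕ × Bool))} (hu : ∀ u ∈ us, ∀ l ∈ u, l.1 < 2)
    (G : List (ℕ × Bool) → ℝ) (hG0 : ∀ u ∈ us, 0 ≤ G u)
    (hG : ∀ u ∈ us, ∀ ε : ℝ, 0 < ε → ∀ᶠ N : ℕ in atTop,
      ‖(rep3 N (u ++ dual u)).trace‖ ≤ Real.exp ((G u / (2 * Real.pi) + ε) * N)) :
    ∀ ε : ℝ, 0 < ε → ∀ᶠ N : ℕ in atTop,
      ‖(rep3 N us.flatten).trace‖ ≤
        Real.exp (((us.map G).sum / 2 / (2 * Real.pi) + ε) * N) := by
  intro ε hε
  filter_upwards [prod_growth G hG0 hG ε hε, poly_le_exp 6 hε, eventually_gt_atTop 0]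
    with N h1 h2 h3
  have h4 := trace_holder h3 hu
  have h5 : ‖(rep3 N us.flatten).trace‖ ^ 2 ≤
      (Real.exp (((us.map G).sum / 2 / (2 * Real.pi) + ε) * N)) ^ 2 := by
    refine h4.trans ?_
    calc (N : ℝ) ^ 6 * (us.map (RR N)).prod
        ≤ Real.exp (ε * N) * Real.exp (((us.map G).sum / (2 * Real.pi) + ε) * N) :=
          mul_le_mul h2 h1 (zero_le_one.trans (prod_one h3 us)) (Real.exp_pos _).le
      _ = _ := by
          rw [← Real.exp_add, ← Real.exp_nat_mul]
          congr 1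
          push_cast
          ring
  exact le_of_sq_le_sq h5 (Real.exp_pos _).le

/-! ### The reflection `s_1 ↔ s_2` -/

/-- interchange `s_1` and `s_2` -/
def flip (w : List (ℕ × Bool)) : List (ℕ × Bool) := w.map fun l => (1 - l.1, l.2)

lemma Dl_g3 {l : ℕ × Bool} (hl : l.1 < 2) : Dl N * g3 N l = g3 N (1 - l.1, l.2) * Dl N := by
  obtain ⟨k, b⟩ := l
  have hk : k = 0 ∨ k = 1 := by simp only at hl; omega
  rcases hk with rfl | rfl <;> cases b <;>
    simp [g3, Dl_P12, Dl_P23, Dl_Q12, Dl_Q23]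

lemma Dl_rep3 {w : List (ℕ × Bool)} (hw : ∀ l ∈ w, l.1 < 2) :
    Dl N * rep3 N w = rep3 N (flip w) * Dl N := by
  induction w with
  | nil => rw [flip, List.map_nil, rep3_nil, mul_one, one_mul]
  | cons l w ih =>
    have h1 : flip (l :: w) = (1 - l.1, l.2) :: flip w := rfl
    rw [h1, rep3_cons, rep3_cons, ← mul_assoc, Dl_g3 (hw l List.mem_cons_self), mul_assoc,
      ih (fun l hl => hw l (List.mem_cons_of_mem _ hl)), mul_assoc]

/-- the word of the half twist or its inverse -/
def hw (b : Bool) : List (ℕ × Bool) := [(0, b), (1, b), (0, b)]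

lemma rep3_hw_true : rep3 N (hw true) = Dl N := by
  simp [hw, rep3, g3, Dl, mul_assoc]

lemma hw_dual (b : Bool) : rep3 N (hw b) * rep3 N (dual (hw b)) = 1 := by
  have h1 : dual (hw b) = [(1, !b), (0, !b), (1, !b)] := rfl
  have q1 : on12 (QQ N) * on12 (PP N) = 1 := by rw [on12_mul, QQ_PP, on12_one]
  have q2 : on23 (QQ N) * on23 (PP N) = 1 := by rw [on23_mul, QQ_PP, on23_one]
  have q3 : on12 (PP N) * on12 (QQ N) = 1 := by rw [on12_mul, PP_QQ, on12_one]
  have q4 : on23 (PP N) * on23 (QQ N) = 1 := by rw [on23_mul, PP_QQ, on23_one]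
  cases b
  · have h2 : rep3 N (hw false) = on12 (QQ N) * on23 (QQ N) * on12 (QQ N) := by
      simp [hw, rep3, g3, mul_assoc]
    have h3 : rep3 N (dual (hw false)) = on12 (PP N) * on23 (PP N) * on12 (PP N) := by
      rw [h1, YB3]
      simp [rep3, g3, mul_assoc]
    rw [h2, h3]
    calc on12 (QQ N) * on23 (QQ N) * on12 (QQ N) * (on12 (PP N) * on23 (PP N) * on12 (PP N))
        = on12 (QQ N) * (on23 (QQ N) * (on12 (QQ N) * on12 (PP N)) * on23 (PP N)) *
          on12 (PP N) := by noncomm_ring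
      _ = 1 := by rw [q1, mul_one, q2, mul_one, q1]
  · have h2 : rep3 N (hw true) = on23 (PP N) * on12 (PP N) * on23 (PP N) := by
      rw [rep3_hw_true, Dl, YB3]
    have h3 : rep3 N (dual (hw true)) = on23 (QQ N) * on12 (QQ N) * on23 (QQ N) := by
      rw [h1]
      simp [rep3, g3, mul_assoc]
    rw [h2, h3]
    calc on23 (PP N) * on12 (PP N) * on23 (PP N) * (on23 (QQ N) * on12 (QQ N) * on23 (QQ N))
        = on23 (PP N) * (on12 (PP N) * (on23 (PP N) * on23 (QQ N)) * on12 (QQ N)) *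
          on23 (QQ N) := by noncomm_ring
      _ = 1 := by rw [q4, mul_one, q3, mul_one, q4]

lemma Dl_inv : Dl N * rep3 N (dual (hw true)) = 1 := by
  rw [← rep3_hw_true]; exact hw_dual true

lemma trace_flip {w : List (ℕ × Bool)} (hw' : ∀ l ∈ w, l.1 < 2) :
    (rep3 N (flip w)).trace = (rep3 N w).trace := by
  have h1 : rep3 N (flip w) = Dl N * rep3 N w * rep3 N (dual (hw true)) := by
    rw [Dl_rep3 hw', mul_assoc, Dl_inv, mul_one]
  have h2 : rep3 N (dual (hw true)) * Dl N = 1 := mul_eq_one_comm.1 Dl_inv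
  rw [h1, Matrix.trace_mul_comm, ← mul_assoc, h2, one_mul]

/-! ### Twist regions -/

/-- `|a|` letters `s_{g+1}^{±1}` -/
def reg (g : ℕ) (a : ℤ) : List (ℕ × Bool) := List.replicate a.natAbs (g, decide (0 ≤ a))

/-- `s_1^A s_2^{-A}` -/
def bl (A : ℕ) (b : Bool) : List (ℕ × Bool) :=
  List.replicate A (0, b) ++ List.replicate A (1, !b)

lemma bl_lt (A : ℕ) (b : Bool) : ∀ l ∈ bl A b, l.1 < 2 := by
  intro l hl
  rcases List.mem_append.1 hl with h | h <;> rw [List.eq_of_mem_replicate h] <;> norm_num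

lemma trace_bl (A : ℕ) (b : Bool) : (rep3 N (bl A b)).trace = (rep3 N (bl A true)).trace := by
  have h1 : (rep3 N (flip (bl A false))).trace = (rep3 N (bl A true)).trace := by
    have h2 : flip (bl A false) = List.replicate A (1, false) ++ List.replicate A (0, true) := by
      simp [flip, bl]
    rw [h2, bl, rep3_append, rep3_append, Matrix.trace_mul_comm]
    rfl
  cases b
  · rw [← h1, trace_flip (bl_lt A false)]
  · rfl

lemma dual_replicate (n : ℕ) (l : ℕ × Bool) : dual (List.replicate n l) = List.replicate n (dl l) := by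
  simp [dual]

lemma trace_reg {g : ℕ} (hg : g < 2) (a : ℤ) :
    (rep3 N (reg g a ++ dual (reg g a))).trace = (rep3 N (bl a.natAbs true)).trace := by
  unfold reg
  rw [dual_replicate]
  have h : g = 0 ∨ g = 1 := by omega
  rcases h with rfl | rfl
  · exact trace_bl a.natAbs (decide (0 ≤ a))
  · rw [← trace_bl a.natAbs (decide (0 ≤ a)), ← trace_flip (bl_lt _ _)]
    congr 2
    simp [flip, bl, dl]

/-! ### Half twists -/

/-- `k` half twists -/
def half (k : ℤ) : List (ℕ × Bool) := (List.replicate k.natAbs (hw (decide (0 ≤ k)))).flatten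

lemma half_lt (k : ℤ) : ∀ l ∈ half k, l.1 < 2 := by
  intro l hl
  unfold half at hl
  rw [List.mem_flatten] at hl
  obtain ⟨x, hx, hx2⟩ := hl
  rw [List.eq_of_mem_replicate hx] at hx2
  simp only [hw, List.mem_cons, List.not_mem_nil, or_false] at hx2
  rcases hx2 with rfl | rfl | rfl <;> norm_num

lemma rep3_flat (n : ℕ) (w : List (ℕ × Bool)) :
    rep3 N (List.replicate n w).flatten = rep3 N w ^ n := rep3_wpow w n

lemma dual_flat (n : ℕ) (w : List (ℕ × Bool)) :
    dual (List.replicate n w).flatten = (List.replicate n (dual w)).flatten := by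
  induction n with
  | zero => rfl
  | succ n ih =>
    have h1 : (List.replicate (n + 1) w).flatten = w ++ (List.replicate n w).flatten := by
      simp [List.replicate_succ]
    have h2 : (List.replicate (n + 1) (dual w)).flatten =
        (List.replicate n (dual w)).flatten ++ dual w := by
      rw [List.replicate_succ']
      simp
    rw [h1, dual_append, ih, h2]

lemma half_dual (k : ℤ) : rep3 N (half k ++ dual (half k)) = 1 := by
  unfold half
  rw [dual_flat, rep3_append, rep3_flat, rep3_flat]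
  have h1 := hw_dual (N := N) (decide (0 ≤ k))
  have h2 : Commute (rep3 N (hw (decide (0 ≤ k)))) (rep3 N (dual (hw (decide (0 ≤ k))))) := by
    unfold Commute SemiconjBy
    rw [h1, mul_eq_one_comm.1 h1]
  rw [← h2.mul_pow, h1, one_pow]

lemma RR_half (k : ℤ) : RR N (half k) = 2 * (N : ℝ) ^ 3 := by
  unfold RR
  rw [half_dual, Matrix.trace_one]
  simp only [I3, Fintype.card_prod, Fintype.card_fin]
  push_cast
  rw [show ((N : ℂ) * ((N : ℂ) * N)) = (((N : ℝ) ^ 3 : ℝ) : ℂ) by push_cast; ring,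
    Complex.norm_real, Real.norm_of_nonneg (by positivity)]
  ring

end Pool.Agent.X132.AX
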