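import Pool.Agent.X132.AXd
import Pool.Agent.W719.BX.GeoN
import Pool.Agent.W715.VC.Axis
import Pool.Agent.W715.VC.Base
import Pool.Agent.W715.VC.Base2
import Pool.Agent.H112R4.VL.B
import Pool.Agent.H112R4.VL.D
import Pool.Agent.H8R3.VL.TaskC
import Pool.Agent.H180R3.EV.Quant

/-!
The growth of the traces of `(s_1^A s_2^{-A})^n`.
-/

set_option autoImplicit false

namespace Pool.Agent.X132.AX

open Matrix Finset Filter Topology Pool.Agent.H550R3.Jones Pool.Agent.W715.VC
open scoped Real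

/-- upper bounds from limits -/
lemma le_exp_of_lim {T : ℕ → ℝ} (hT : ∀ N, 0 ≤ T N) {L : ℝ}
    (h : Tendsto (fun N : ℕ => 2 * π / N * Real.log (T N)) atTop (𝓝 L)) {ε : ℝ} (hε : 0 < ε) :
    ∀ᶠ N : ℕ in atTop, T N ≤ Real.exp ((L / (2 * π) + ε) * N) := by
  have hpi := Real.pi_pos
  have h1 := h.eventually (gt_mem_nhds (show L < L + 2 * π * ε by
    have : 0 < 2 * π * ε := by positivity
    linarith))
  filter_upwards [h1, eventually_gt_atTop 0] with N h2 h3
  have hN : (0 : ℝ) < N := by exact_mod_cast h3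
  rcases (hT N).eq_or_lt with h0 | h0
  · rw [← h0]; exact (Real.exp_pos _).le
  · rw [← Real.log_le_iff_le_exp h0]
    have h4 : Real.log (T N) = (2 * π / N * Real.log (T N)) * (N / (2 * π)) := by
      field_simp
    rw [h4]
    calc (2 * π / N * Real.log (T N)) * (N / (2 * π))
        ≤ (L + 2 * π * ε) * (N / (2 * π)) :=
          mul_le_mul_of_nonneg_right h2.le (by positivity)
      _ = (L / (2 * π) + ε) * N := by field_simp

lemma bl_eq (A : ℕ) : bl A true = Pool.Agent.W719.BX.uA A ++ dual (Pool.Agent.W719.BX.uA A) := by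
  unfold bl Pool.Agent.W719.BX.uA
  rw [dual_replicate]
  rfl

lemma wpow_one (w : List (ℕ × Bool)) : wpow w 1 = w := by simp [wpow]

lemma uA_lt (A : ℕ) : ∀ l ∈ Pool.Agent.W719.BX.uA A, l.1 < 2 := by
  intro l hl
  unfold Pool.Agent.W719.BX.uA at hl
  rw [List.eq_of_mem_replicate hl]
  norm_num

/-- `A = 1` -/
lemma base1 : Tendsto (fun N : ℕ => 2 * π / N * Real.log ‖(rep3 N (bl 1 true)).trace‖) atTop
    (𝓝 (8 * GapVol.lob (π / 6))) := by
  refine (Pool.Agent.H112R4.VL.taskD Pool.Agent.H112R4.VL.taskB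
    Pool.Agent.H8R3.VL.taskC).congr' ?_
  filter_upwards [eventually_gt_atTop 0] with N hN
  have h4 : bl 1 true = [(0, true), (1, false)] := rfl
  rw [h4, trace_base hN, Complex.norm_real, Real.norm_eq_abs, abs_of_nonneg]
  exact Finset.sum_nonneg (fun n _ => by positivity)

/-- `A = 2` -/
lemma base2 : Tendsto (fun N : ℕ => 2 * π / N * Real.log ‖(rep3 N (bl 2 true)).trace‖) atTop
    (𝓝 (16 * GapVol.lob (π / 4))) := by
  refine tr2_growth.congr' ?_
  filter_upwards [eventually_gt_atTop 0] with N hN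
  have h4 : bl 2 true = [(0, true), (0, true)] ++ dual [(0, true), (0, true)] := rfl
  rw [h4, trace_two hN, Complex.norm_real, Real.norm_eq_abs, abs_of_nonneg]
  · rfl
  · exact Finset.sum_nonneg (fun n _ => by positivity)

lemma lob6_pos : 0 < GapVol.lob (π / 6) := by
  have h1 : 0 < 2 / π * GapVol.lob (π / 6) := Pool.Agent.H180R3.EV.V4_pos
  exact (mul_pos_iff_of_pos_left (div_pos two_pos Real.pi_pos)).1 h1

lemma lob4_pos : 0 < GapVol.lob (π / 4) := EvenVol.LobIneq.lob_four_pos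

/-- the growth rates of the traces of `s_1^A s_2^{-A}` -/
theorem base : ∃ U : ℕ → ℝ, U 0 = 0 ∧ U 1 = 8 * GapVol.lob (π / 6) ∧
    U 2 = 16 * GapVol.lob (π / 4) ∧ U 3 = U 1 + U 2 ∧ (∀ A, 4 ≤ A →
      IsGreatest {W : ℝ | ∃ w, Pool.Agent.W719.BX.bAngleN A 1 w ∧
        Pool.Agent.W719.BX.bvolN A 1 w = W} (U A)) ∧
    (∀ A, 0 ≤ U A) ∧
    (∀ A, ∀ ε : ℝ, 0 < ε → ∀ᶠ N : ℕ in atTop,
      ‖(rep3 N (bl A true)).trace‖ ≤ Real.exp ((U A / (2 * π) + ε) * N)) ∧
    ∀ A n : ℕ, 1 ≤ A → A ≠ 3 → 1 ≤ n → Tendsto (fun N : ℕ => 2 * π / N *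
      Real.log ‖(rep3 N (wpow (bl A true) n)).trace‖) atTop (𝓝 (n * U A)) := by
  classical
  have h4 : ∀ A : ℕ, ∃ V : ℝ, 4 ≤ A → (IsGreatest {W : ℝ | ∃ w, Pool.Agent.W719.BX.bAngleN A 1 w ∧
        Pool.Agent.W719.BX.bvolN A 1 w = W} V ∧ 0 < V ∧
      Tendsto (fun N : ℕ => 2 * π / N * Real.log ‖(rep3 N (bl A true)).trace‖) atTop (𝓝 V)) := by
    intro A
    by_cases hA : 4 ≤ A
    · obtain ⟨V, h1, h2, h3⟩ := Pool.Agent.W719.BX.mainN hA (le_refl 1)
      refine ⟨V, fun _ => ⟨h1, ?_, ?_⟩⟩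
      · have := lob6_pos
        push_cast at h2
        linarith
      · rw [wpow_one] at h3
        rw [bl_eq]
        exact h3
    · exact ⟨0, fun h => absurd h hA⟩
  choose V hV using h4
  set U : ℕ → ℝ := fun A => if A = 0 then 0 else if A = 1 then 8 * GapVol.lob (π / 6) else
    if A = 2 then 16 * GapVol.lob (π / 4) else
    if A = 3 then 8 * GapVol.lob (π / 6) + 16 * GapVol.lob (π / 4) else V A with hU
  have hU0 : U 0 = 0 := by rw [hU]; simp
  have hU1 : U 1 = 8 * GapVol.lob (π / 6) := by rw [hU]; simp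
  have hU2 : U 2 = 16 * GapVol.lob (π / 4) := by rw [hU]; simp
  have hU3 : U 3 = U 1 + U 2 := by rw [hU1, hU2, hU]; simp
  have hU4 : ∀ A, 4 ≤ A → U A = V A := by
    intro A hA
    simp only [hU]
    rw [if_neg (by omega), if_neg (by omega), if_neg (by omega), if_neg (by omega)]
  have hp1 := lob6_pos
  have hp2 := lob4_pos
  have hlim : ∀ A : ℕ, 1 ≤ A → A ≠ 3 → 0 < U A ∧ Tendsto (fun N : ℕ => 2 * π / N *
      Real.log ‖(rep3 N (bl A true)).trace‖) atTop (𝓝 (U A)) := by
    intro A h1 h3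
    by_cases hA : 4 ≤ A
    · rw [hU4 A hA]
      exact (hV A hA).2
    · have : A = 1 ∨ A = 2 := by omega
      rcases this with rfl | rfl
      · rw [hU1]; exact ⟨by linarith, base1⟩
      · rw [hU2]; exact ⟨by linarith, base2⟩
  have hnn : ∀ A, 0 ≤ U A := by
    intro A
    by_cases h0 : A = 0
    · rw [h0, hU0]
    · by_cases h3 : A = 3
      · rw [h3, hU3, hU1, hU2]; linarith
      · exact (hlim A (by omega) h3).1.le
  have hup : ∀ A, A ≠ 3 → ∀ ε : ℝ, 0 < ε → ∀ᶠ N : ℕ in atTop,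
      ‖(rep3 N (bl A true)).trace‖ ≤ Real.exp ((U A / (2 * π) + ε) * N) := by
    intro A h3 ε hε
    by_cases h0 : A = 0
    · subst h0
      have h1 : bl 0 true = [] := rfl
      filter_upwards [poly_le_exp 3 hε] with N hN
      rw [h1, rep3_nil, Matrix.trace_one, hU0, zero_div, zero_add]
      simp only [I3, Fintype.card_prod, Fintype.card_fin]
      push_cast
      rw [show ((N : ℂ) * ((N : ℂ) * N)) = (((N : ℝ) ^ 3 : ℝ) : ℂ) by push_cast; ring,
        Complex.norm_real, Real.norm_of_nonneg (by positivity)]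
      exact hN
    · exact le_exp_of_lim (fun _ => norm_nonneg _) (hlim A (by omega) h3).2 hε
  refine ⟨U, hU0, hU1, hU2, hU3, fun A hA => ?_, hnn, fun A ε hε => ?_, fun A n h1 h3 hn => ?_⟩
  · rw [hU4 A hA]
    exact (hV A hA).1
  · by_cases h3 : A = 3
    · subst h3
      -- `s_1^3 s_2^{-3} = s_1 · s_1^2 · s_2^{-1} · s_2^{-2}`
      have hus : bl 3 true = [reg 0 1, reg 0 2, reg 1 (-1), reg 1 (-2)].flatten := by decide
      have hlt : ∀ u ∈ [reg 0 1, reg 0 2, reg 1 (-1), reg 1 (-2)], ∀ l ∈ u, l.1 < 2 := by decide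
      set G : List (ℕ × Bool) → ℝ := fun u => U u.length with hG
      have hcase : ∀ u ∈ [reg 0 1, reg 0 2, reg 1 (-1), reg 1 (-2)],
          ∀ ε : ℝ, 0 < ε → ∀ᶠ N : ℕ in atTop,
            ‖(rep3 N (u ++ dual u)).trace‖ ≤ Real.exp ((G u / (2 * π) + ε) * N) := by
        intro u hu ε hε
        simp only [List.mem_cons, List.not_mem_nil, or_false] at hu
        rcases hu with rfl | rfl | rfl | rfl
        · filter_upwards [hup 1 (by norm_num) ε hε] with N hN
          rw [trace_reg (by norm_num)]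
          exact hN
        · filter_upwards [hup 2 (by norm_num) ε hε] with N hN
          rw [trace_reg (by norm_num)]
          exact hN
        · filter_upwards [hup 1 (by norm_num) ε hε] with N hN
          rw [trace_reg (by norm_num)]
          exact hN
        · filter_upwards [hup 2 (by norm_num) ε hε] with N hN
          rw [trace_reg (by norm_num)]
          exact hN
      have h := growth_list hlt G (fun u _ => hnn _) hcase ε hε
      filter_upwards [h] with N hN
      rw [hus]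
      refine hN.trans (le_of_eq ?_)
      have hs : (List.map G [reg 0 1, reg 0 2, reg 1 (-1), reg 1 (-2)]).sum = 2 * U 3 := by
        rw [hU3]
        simp only [hG, List.map_cons, List.map_nil, List.sum_cons, List.sum_nil]
        have e1 : (reg 0 1).length = 1 := by decide
        have e2 : (reg 0 2).length = 2 := by decide
        have e3 : (reg 1 (-1)).length = 1 := by decide
        have e4 : (reg 1 (-2)).length = 2 := by decide
        rw [e1, e2, e3, e4]
        ring
      rw [hs]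
      congr 2
      ring
    · exact hup A h3 ε hε
  · obtain ⟨h5, h6⟩ := hlim A h1 h3
    rw [bl_eq] at h6 ⊢
    exact growth_pow (uA_lt A) (by omega) h5 h6

end Pool.Agent.X132.AX
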