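import Pool.Agent.X132.AXe

/-!
Powers and products of the braids `u u*`.
-/

set_option autoImplicit false

namespace Pool.Agent.X132.AX

open Matrix Finset Filter Topology Pool.Agent.H550R3.Jones Pool.Agent.W715.VC
open scoped Real

variable {N : ℕ}

/-- the radius and the traces of the powers -/
theorem exists_rho (hN : 0 < N) {u : List (ℕ × Bool)} (hu : ∀ l ∈ u, l.1 < 2) :
    ∃ ρ : ℝ, 1 ≤ ρ ∧ ∀ n : ℕ, n ≠ 0 →
      ρ ^ n ≤ ‖(rep3 N (wpow (u ++ dual u) n)).trace‖ + (N : ℝ) ^ 3 ∧
      ‖(rep3 N (wpow (u ++ dual u) n)).trace‖ ≤ (N : ℝ) ^ 3 * ρ ^ n := by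
  set B := rep3 N (u ++ dual u) with hB
  set s := B.charpoly.roots with hs_def
  have hs : ∀ a ∈ s, (∃ r : ℝ, 0 < r ∧ a = r) ∨ ‖a‖ = 1 := by
    intro a ha
    obtain ⟨m, hm⟩ := eig_of_root (good_rep3 _) ha
    exact eig_main hN hu hm
  have hcard : s.card = N ^ 3 := by
    rw [hs_def, card_roots' B]
    simp only [I3, Fintype.card_prod, Fintype.card_fin]
    ring
  obtain ⟨M, hM1, hM2, hM3⟩ := exists_radius s hs
  refine ⟨M, hM1, fun n hn => ?_⟩
  rw [rep3_wpow, ← hB, trace_pow B hn, ← hs_def]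
  constructor
  · have hc : (s.card : ℝ) = (N : ℝ) ^ 3 := by rw [hcard]; push_cast; rfl
    rw [← hc]
    rcases hM3 with h | h
    · rw [h, one_pow]
      have h1 : (1 : ℝ) ≤ s.card := by
        rw [hcard]
        exact_mod_cast Nat.one_le_pow _ _ hN
      have := norm_nonneg ((s.map fun a => a ^ n).sum)
      linarith
    · obtain ⟨t, ht⟩ := Multiset.exists_cons_of_mem h
      have h1 := re_sum_ge t (fun a ha => hs a (by rw [ht]; exact Multiset.mem_cons_of_mem ha)) n
      rw [ht]
      have h2 := Complex.re_le_norm ((((M : ℂ) ::ₘ t).map fun a => a ^ n).sum)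
      rw [Multiset.map_cons, Multiset.sum_cons, Complex.add_re, ← Complex.ofReal_pow,
        Complex.ofReal_re] at h2
      rw [Multiset.map_cons, Multiset.sum_cons, Multiset.card_cons, ← Complex.ofReal_pow]
      push_cast at h2 ⊢
      linarith
  · have h1 := W715.VC.norm_sum_le s hM2 n
    rw [hcard] at h1
    push_cast at h1
    exact h1

/-! ### Comparison of growth rates -/

lemma lim_log2 (c : ℝ) : Tendsto (fun N : ℕ => 2 * π * c * (1 / (N : ℝ))) atTop (𝓝 0) := by
  have := (tendsto_one_div_atTop_nhds_zero_nat (𝕜 := ℝ)).const_mul (2 * π * c)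
  rwa [mul_zero] at this

lemma lim_logN (c : ℝ) : Tendsto (fun N : ℕ => 2 * π * c * (Real.log N / (N : ℝ))) atTop (𝓝 0) := by
  have := log_div_tendsto.const_mul (2 * π * c)
  rwa [mul_zero] at this

/-- exponential growth beats powers -/
lemma ev_big {R : ℕ → ℝ} {L : ℝ} (hL : 0 < L)
    (h : Tendsto (fun N : ℕ => 2 * π / N * Real.log (R N)) atTop (𝓝 L)) (c : ℝ) (k : ℕ) :
    ∀ᶠ N : ℕ in atTop, c + k * Real.log N ≤ Real.log (R N) := by
  have hpi := Real.pi_pos
  have h1 : Tendsto (fun N : ℕ => 2 * π * c * (1 / (N : ℝ)) +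
      2 * π * k * (Real.log N / (N : ℝ))) atTop (𝓝 (0 + 0)) := (lim_log2 c).add (lim_logN k)
  rw [add_zero] at h1
  filter_upwards [h.eventually (lt_mem_nhds (show L / 2 < L by linarith)),
    h1.eventually (gt_mem_nhds (show (0 : ℝ) < L / 2 by linarith)), eventually_gt_atTop 0]
    with N h2 h3 h4
  have hN : (0 : ℝ) < N := by exact_mod_cast h4
  have h5 : 2 * π / N * (c + k * Real.log N) < 2 * π / N * Real.log (R N) := by
    refine lt_of_eq_of_lt ?_ (h3.trans h2)
    field_simp
  exact (lt_of_mul_lt_mul_left h5 (by positivity)).le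

lemma transfer {ρ T : ℕ → ℝ} {n : ℕ} (hn : n ≠ 0) (hρ : ∀ N, 0 < N → 1 ≤ ρ N)
    (hT : ∀ N, 0 ≤ T N)
    (h1 : ∀ N : ℕ, 0 < N → ρ N ^ n ≤ T N + (N : ℝ) ^ 3)
    (h2 : ∀ N : ℕ, 0 < N → T N ≤ (N : ℝ) ^ 3 * ρ N ^ n) {V : ℝ} (hV : 0 < V) :
    Tendsto (fun N : ℕ => 2 * π / N * Real.log (ρ N)) atTop (𝓝 V) ↔
      Tendsto (fun N : ℕ => 2 * π / N * Real.log (T N)) atTop (𝓝 (n * V)) := by
  have hpi := Real.pi_pos
  have hn0 : (0 : ℝ) < n := by exact_mod_cast Nat.pos_of_ne_zero hn
  -- a common two-sided estimate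
  have key : (∀ᶠ N : ℕ in atTop, 0 < T N ∧
      n * Real.log (ρ N) - Real.log 2 ≤ Real.log (T N) ∧
      Real.log (T N) ≤ 3 * Real.log N + n * Real.log (ρ N)) →
      (Tendsto (fun N : ℕ => 2 * π / N * Real.log (ρ N)) atTop (𝓝 V) ↔
      Tendsto (fun N : ℕ => 2 * π / N * Real.log (T N)) atTop (𝓝 (n * V))) := by
    intro hev
    constructor
    · intro h
      have l1 : Tendsto (fun N : ℕ => n * (2 * π / N * Real.log (ρ N)) -
          2 * π * Real.log 2 * (1 / (N : ℝ))) atTop (𝓝 (n * V - 0)) :=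
        (h.const_mul _).sub (lim_log2 _)
      have l2 : Tendsto (fun N : ℕ => n * (2 * π / N * Real.log (ρ N)) +
          2 * π * 3 * (Real.log N / (N : ℝ))) atTop (𝓝 (n * V + 0)) :=
        (h.const_mul _).add (lim_logN _)
      rw [sub_zero] at l1
      rw [add_zero] at l2
      refine tendsto_of_tendsto_of_tendsto_of_le_of_le' l1 l2 ?_ ?_
      · filter_upwards [hev, eventually_gt_atTop 0] with N ⟨_, e1, _⟩ e2
        have hN : (0 : ℝ) < N := by exact_mod_cast e2
        have := mul_le_mul_of_nonneg_left e1 (show 0 ≤ 2 * π / (N : ℝ) by positivity)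
        refine le_trans (le_of_eq ?_) this
        field_simp
      · filter_upwards [hev, eventually_gt_atTop 0] with N ⟨_, _, e1⟩ e2
        have hN : (0 : ℝ) < N := by exact_mod_cast e2
        have := mul_le_mul_of_nonneg_left e1 (show 0 ≤ 2 * π / (N : ℝ) by positivity)
        refine le_trans this (le_of_eq ?_)
        field_simp
        ring
    · intro h
      have l1 : Tendsto (fun N : ℕ => (2 * π / N * Real.log (T N) -
          2 * π * 3 * (Real.log N / (N : ℝ))) / n) atTop (𝓝 ((n * V - 0) / n)) :=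
        (h.sub (lim_logN _)).div_const _
      have l2 : Tendsto (fun N : ℕ => (2 * π / N * Real.log (T N) +
          2 * π * Real.log 2 * (1 / (N : ℝ))) / n) atTop (𝓝 ((n * V + 0) / n)) :=
        (h.add (lim_log2 _)).div_const _
      have e0 : (n * V - 0) / n = V := by rw [sub_zero]; field_simp
      have e0' : (n * V + 0) / n = V := by rw [add_zero]; field_simp
      rw [e0] at l1
      rw [e0'] at l2
      refine tendsto_of_tendsto_of_tendsto_of_le_of_le' l1 l2 ?_ ?_
      · filter_upwards [hev, eventually_gt_atTop 0] with N ⟨_, _, e1⟩ e2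
        have hN : (0 : ℝ) < N := by exact_mod_cast e2
        rw [div_le_iff₀ hn0]
        have := mul_le_mul_of_nonneg_left e1 (show 0 ≤ 2 * π / (N : ℝ) by positivity)
        have e3 : 2 * π / N * (3 * Real.log N + n * Real.log (ρ N)) =
            2 * π * 3 * (Real.log N / (N : ℝ)) + 2 * π / N * Real.log (ρ N) * n := by
          field_simp
        linarith
      · filter_upwards [hev, eventually_gt_atTop 0] with N ⟨_, e1, _⟩ e2
        have hN : (0 : ℝ) < N := by exact_mod_cast e2
        rw [le_div_iff₀ hn0]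
        have := mul_le_mul_of_nonneg_left e1 (show 0 ≤ 2 * π / (N : ℝ) by positivity)
        have e3 : 2 * π / N * (n * Real.log (ρ N) - Real.log 2) =
            2 * π / N * Real.log (ρ N) * n - 2 * π * Real.log 2 * (1 / (N : ℝ)) := by
          field_simp
        linarith
  have up : ∀ N : ℕ, 0 < N → 0 < T N → Real.log (T N) ≤ 3 * Real.log N + n * Real.log (ρ N) := by
    intro N hN hTN
    have hNr : (0 : ℝ) < N := by exact_mod_cast hN
    have hr := hρ N hN
    have h3 := Real.log_le_log hTN (h2 N hN)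
    rw [Real.log_mul (by positivity) (by positivity), Real.log_pow, Real.log_pow] at h3
    push_cast at h3
    exact h3
  constructor
  · intro h
    refine (key ?_).1 h
    have hb := ev_big hV h (Real.log 2) 3
    filter_upwards [hb, eventually_gt_atTop 0] with N e1 e2
    have hNr : (0 : ℝ) < N := by exact_mod_cast e2
    have hr := hρ N e2
    have e3 : 2 * (N : ℝ) ^ 3 ≤ ρ N := by
      rw [← Real.log_le_log_iff (by positivity) (by linarith), Real.log_mul (by norm_num)
        (by positivity), Real.log_pow]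
      push_cast at e1 ⊢
      exact e1
    have e4 : 2 * (N : ℝ) ^ 3 ≤ ρ N ^ n := e3.trans (le_self_pow₀ hr hn)
    have e5 := h1 N e2
    have e6 : ρ N ^ n / 2 ≤ T N := by linarith
    have e7 : 0 < ρ N ^ n := by positivity
    have e8 : 0 < T N := by linarith
    refine ⟨e8, ?_, up N e2 e8⟩
    have e9 := Real.log_le_log (by positivity) e6
    rw [Real.log_div (by positivity) (by norm_num), Real.log_pow] at e9
    exact e9
  · intro h
    refine (key ?_).2 h
    have hb := ev_big (show 0 < n * V by positivity) h 0 3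
    have hb2 := ev_big (show 0 < n * V by positivity) h 1 0
    filter_upwards [hb, hb2, eventually_gt_atTop 0] with N e1 e1' e2
    have hNr : (0 : ℝ) < N := by exact_mod_cast e2
    have hr := hρ N e2
    have e3 : 0 < T N := by
      rcases (hT N).lt_or_eq with h | h
      · exact h
      · rw [← h, Real.log_zero] at e1'
        push_cast at e1'
        linarith
    have e4 : (N : ℝ) ^ 3 ≤ T N := by
      rw [← Real.log_le_log_iff (by positivity) e3, Real.log_pow]
      push_cast at e1 ⊢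
      linarith
    have e5 := h1 N e2
    have e6 : ρ N ^ n ≤ 2 * T N := by linarith
    refine ⟨e3, ?_, up N e2 e3⟩
    have e9 := Real.log_le_log (by positivity) e6
    rw [Real.log_mul (by norm_num) e3.ne', Real.log_pow] at e9
    linarith

/-- **the growth rates of the powers** -/
theorem power_iff {u : List (ℕ × Bool)} (hu : ∀ l ∈ u, l.1 < 2) {m n : ℕ} (hm : m ≠ 0)
    (hn : n ≠ 0) {V : ℝ} (hV : 0 < V)
    (h : Tendsto (fun N : ℕ => 2 * π / N * Real.log ‖(rep3 N (wpow (u ++ dual u) m)).trace‖) atTop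
      (𝓝 (m * V))) :
    Tendsto (fun N : ℕ => 2 * π / N * Real.log ‖(rep3 N (wpow (u ++ dual u) n)).trace‖) atTop
      (𝓝 (n * V)) := by
  classical
  have hex : ∀ N : ℕ, ∃ ρ : ℝ, 0 < N → (1 ≤ ρ ∧ ∀ n : ℕ, n ≠ 0 →
      ρ ^ n ≤ ‖(rep3 N (wpow (u ++ dual u) n)).trace‖ + (N : ℝ) ^ 3 ∧
      ‖(rep3 N (wpow (u ++ dual u) n)).trace‖ ≤ (N : ℝ) ^ 3 * ρ ^ n) := by
    intro N
    by_cases hN : 0 < N
    · obtain ⟨ρ, h⟩ := exists_rho hN hu
      exact ⟨ρ, fun _ => h⟩
    · exact ⟨0, fun h => absurd h hN⟩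
  choose ρ hρ using hex
  have ht : ∀ n : ℕ, n ≠ 0 → _ := fun n hn => transfer (ρ := ρ)
    (T := fun N => ‖(rep3 N (wpow (u ++ dual u) n)).trace‖) hn (fun N hN => (hρ N hN).1)
    (fun _ => norm_nonneg _) (fun N hN => ((hρ N hN).2 n hn).1)
    (fun N hN => ((hρ N hN).2 n hn).2) hV
  exact (ht n hn).1 ((ht m hm).2 h)

end Pool.Agent.X132.AX
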