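import Pool.Agent.X132.AXf

/-!
Products of powers of the braids `u u*`.
-/

set_option autoImplicit false

namespace Pool.Agent.X132.AX

open Matrix Finset Filter Topology Pool.Agent.H550R3.Jones Pool.Agent.W715.VC
open scoped Real

variable {N : ℕ}

lemma append_lt {u w : List (ℕ × Bool)} (hu : ∀ l ∈ u, l.1 < 2) (hw : ∀ l ∈ w, l.1 < 2) :
    ∀ l ∈ u ++ w, l.1 < 2 := by
  intro l hl
  rcases List.mem_append.1 hl with h | h
  · exact hu l h
  · exact hw l h

lemma winv_lt {u : List (ℕ × Bool)} (hu : ∀ l ∈ u, l.1 < 2) : ∀ l ∈ winv u, l.1 < 2 := by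
  intro l hl
  unfold winv at hl
  rw [List.mem_reverse, List.mem_map] at hl
  obtain ⟨x, hx, rfl⟩ := hl
  exact hu x hx

lemma wpow_lt {u : List (ℕ × Bool)} (hu : ∀ l ∈ u, l.1 < 2) (n : ℕ) : ∀ l ∈ wpow u n, l.1 < 2 := by
  intro l hl
  unfold wpow at hl
  rw [List.mem_flatten] at hl
  obtain ⟨x, hx, hx2⟩ := hl
  rw [List.eq_of_mem_replicate hx] at hx2
  exact hu l hx2

lemma RR_dual {u : List (ℕ × Bool)} (hu : ∀ l ∈ u, l.1 < 2) : RR N (dual u) = RR N u := by
  unfold RR
  rw [dual_dual hu, rep3_append, rep3_append, Matrix.trace_mul_comm]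

lemma dual_winv (u : List (ℕ × Bool)) : dual (winv u) = flip u := by
  unfold dual winv flip
  rw [List.map_reverse, List.reverse_reverse, List.map_map]
  refine List.map_congr_left fun l _ => ?_
  simp [dl]

lemma flip_dual {u : List (ℕ × Bool)} (hu : ∀ l ∈ u, l.1 < 2) : flip (dual u) = winv u := by
  unfold dual winv flip
  rw [List.map_reverse, List.map_map]
  congr 1
  refine List.map_congr_left fun l hl => ?_
  have := hu l hl
  simp only [Function.comp_apply, dl]
  congr 1
  omega

lemma RR_winv {u : List (ℕ × Bool)} (hu : ∀ l ∈ u, l.1 < 2) : RR N (winv u) = RR N u := by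
  rw [← RR_dual hu]
  unfold RR
  have h1 : winv u ++ dual (winv u) = flip (dual u ++ dual (dual u)) := by
    rw [dual_winv, dual_dual hu]
    have : flip (dual u ++ u) = flip (dual u) ++ flip u := by simp [flip]
    rw [this, flip_dual hu]
  rw [h1, trace_flip (append_lt (dual_lt u) (dual_lt _))]

lemma rep3_dual_one (hN : 0 < N) {u w : List (ℕ × Bool)} (hu : ∀ l ∈ u, l.1 < 2)
    (hw : ∀ l ∈ w, l.1 < 2) (h : rep3 N u * rep3 N w = 1) :
    rep3 N (dual w) * rep3 N (dual u) = 1 := by
  rw [← rep3_append, ← dual_append, ← hadj_rep3 hN (append_lt hu hw), rep3_append, h, hadj_one]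

/-- **the lower bound for products** -/
theorem prod_lower (hN : 0 < N) {u v : List (ℕ × Bool)} (hu : ∀ l ∈ u, l.1 < 2)
    (hv : ∀ l ∈ v, l.1 < 2) :
    ‖(rep3 N (v ++ dual v)).trace‖ ≤ (N : ℝ) ^ 3 *
      (‖(rep3 N ((u ++ dual u) ++ (v ++ dual v))).trace‖ + (N : ℝ) ^ 3) * RR N u := by
  set t := dual v ++ u with ht
  have htl : ∀ l ∈ t, l.1 < 2 := append_lt (dual_lt v) hu
  have htr : RR N t = ‖(rep3 N ((u ++ dual u) ++ (v ++ dual v))).trace‖ + (N : ℝ) ^ 3 := by
    unfold RR
    congr 2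
    have h1 : t ++ dual t = dual v ++ ((u ++ dual u) ++ v) := by
      rw [ht, dual_append, dual_dual hv]
      simp
    rw [h1, rep3_append, Matrix.trace_mul_comm, ← rep3_append]
    simp
  have hinv : rep3 N u * rep3 N (winv u) = 1 := mul_eq_one_comm.1 (rep3_winv u)
  have hlist : ∀ x ∈ [t, winv u, dual (winv u), dual t], ∀ l ∈ x, l.1 < 2 := by
    intro x hx
    simp only [List.mem_cons, List.not_mem_nil, or_false] at hx
    rcases hx with rfl | rfl | rfl | rfl
    · exact htl
    · exact winv_lt hu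
    · exact dual_lt _
    · exact dual_lt _
  have h2 := trace_holder hN hlist
  have h3 : rep3 N ([t, winv u, dual (winv u), dual t].flatten) =
      rep3 N (dual v) * rep3 N v := by
    have e1 : [t, winv u, dual (winv u), dual t].flatten =
        dual v ++ (u ++ (winv u ++ (dual (winv u) ++ (dual u ++ v)))) := by
      rw [ht, dual_append, dual_dual hv]
      simp
    have e2 := rep3_dual_one hN hu (winv_lt hu) hinv
    rw [e1, rep3_append, rep3_append, rep3_append, rep3_append, rep3_append]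
    calc rep3 N (dual v) * (rep3 N u * (rep3 N (winv u) * (rep3 N (dual (winv u)) *
          (rep3 N (dual u) * rep3 N v))))
        = rep3 N (dual v) * ((rep3 N u * rep3 N (winv u)) * ((rep3 N (dual (winv u)) *
          rep3 N (dual u)) * rep3 N v)) := by noncomm_ring
      _ = rep3 N (dual v) * rep3 N v := by rw [hinv, e2, one_mul, one_mul]
  rw [h3, Matrix.trace_mul_comm, ← rep3_append] at h2
  have h4 : ([t, winv u, dual (winv u), dual t].map (RR N)).prod = (RR N t * RR N u) ^ 2 := by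
    simp only [List.map_cons, List.map_nil, List.prod_cons, List.prod_nil]
    rw [RR_dual (winv_lt hu), RR_winv hu, RR_dual htl]
    ring
  rw [h4] at h2
  have hRt : 0 ≤ RR N t := zero_le_one.trans (RR_one hN t)
  have hRu : 0 ≤ RR N u := zero_le_one.trans (RR_one hN u)
  have h5 : ‖(rep3 N (v ++ dual v)).trace‖ ^ 2 ≤ ((N : ℝ) ^ 3 * RR N t * RR N u) ^ 2 := by
    refine h2.trans (le_of_eq ?_)
    ring
  rw [← htr]
  exact le_of_sq_le_sq h5 (by positivity)

/-- the upper bound for products -/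
theorem prod_upper (hN : 0 < N) {u v : List (ℕ × Bool)} (hu : ∀ l ∈ u, l.1 < 2)
    (hv : ∀ l ∈ v, l.1 < 2) :
    ‖(rep3 N ((u ++ dual u) ++ (v ++ dual v))).trace‖ ≤ (N : ℝ) ^ 3 * RR N u * RR N v := by
  have hlist : ∀ x ∈ [u, dual u, v, dual v], ∀ l ∈ x, l.1 < 2 := by
    intro x hx
    simp only [List.mem_cons, List.not_mem_nil, or_false] at hx
    rcases hx with rfl | rfl | rfl | rfl
    · exact hu
    · exact dual_lt _
    · exact hv
    · exact dual_lt _
  have h2 := trace_holder hN hlist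
  have e1 : [u, dual u, v, dual v].flatten = (u ++ dual u) ++ (v ++ dual v) := by simp
  have h4 : ([u, dual u, v, dual v].map (RR N)).prod = (RR N u * RR N v) ^ 2 := by
    simp only [List.map_cons, List.map_nil, List.prod_cons, List.prod_nil]
    rw [RR_dual hu, RR_dual hv]
    ring
  rw [e1, h4] at h2
  have hRt : 0 ≤ RR N v := zero_le_one.trans (RR_one hN v)
  have hRu : 0 ≤ RR N u := zero_le_one.trans (RR_one hN u)
  have h5 : ‖(rep3 N ((u ++ dual u) ++ (v ++ dual v))).trace‖ ^ 2 ≤
      ((N : ℝ) ^ 3 * RR N u * RR N v) ^ 2 := by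
    refine h2.trans (le_of_eq ?_)
    ring
  exact le_of_sq_le_sq h5 (by positivity)

/-- the powers of `u u*` are of the same form -/
lemma pow_form {u : List (ℕ × Bool)} (hu : ∀ l ∈ u, l.1 < 2) (n : ℕ) :
    ∃ y : List (ℕ × Bool), (∀ l ∈ y, l.1 < 2) ∧ wpow (u ++ dual u) n = y ++ dual y := by
  set b := u ++ dual u with hb
  have hbl : ∀ l ∈ b, l.1 < 2 := append_lt hu (dual_lt u)
  have hbd : dual b = b := by rw [hb, dual_append, dual_dual hu]
  have hwd : ∀ k, dual (wpow b k) = wpow b k := by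
    intro k
    unfold wpow
    rw [dual_flat, hbd]
  have hadd : ∀ j k, wpow b j ++ wpow b k = wpow b (j + k) := by
    intro j k
    unfold wpow
    rw [← List.flatten_append, List.replicate_append_replicate]
  rcases Nat.even_or_odd n with ⟨k, hk⟩ | ⟨k, hk⟩
  · refine ⟨wpow b k, wpow_lt hbl k, ?_⟩
    rw [hwd, hadd, hk]
  · refine ⟨wpow b k ++ u, append_lt (wpow_lt hbl k) hu, ?_⟩
    rw [dual_append, hwd]
    have h1 : wpow b k ++ u ++ (dual u ++ wpow b k) = wpow b k ++ (b ++ wpow b k) := by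
      rw [hb]; simp
    have h2 : b ++ wpow b k = wpow b (k + 1) := by
      unfold wpow
      rw [List.replicate_succ, List.flatten_cons]
    rw [h1, h2, hadd, hk]
    congr 1
    omega

/-- lower bounds from limits -/
lemma ge_exp_of_lim {T : ℕ → ℝ} (hT : ∀ N, 0 ≤ T N) {L : ℝ} (hL : 0 < L)
    (h : Tendsto (fun N : ℕ => 2 * π / N * Real.log (T N)) atTop (𝓝 L)) {ε : ℝ} (hε : 0 < ε) :
    ∀ᶠ N : ℕ in atTop, Real.exp ((L / (2 * π) - ε) * N) ≤ T N := by
  have hpi := Real.pi_pos
  have h1 := h.eventually (lt_mem_nhds (show L - 2 * π * ε < L by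
    have : 0 < 2 * π * ε := by positivity
    linarith))
  filter_upwards [h1, h.eventually (lt_mem_nhds hL), eventually_gt_atTop 0] with N h2 h2' h3
  have hN : (0 : ℝ) < N := by exact_mod_cast h3
  have h0 : 0 < T N := by
    rcases (hT N).lt_or_eq with h | h
    · exact h
    · rw [← h, Real.log_zero, mul_zero] at h2'
      exact absurd h2' (lt_irrefl _)
  rw [← Real.le_log_iff_exp_le h0]
  have h4 : Real.log (T N) = (2 * π / N * Real.log (T N)) * (N / (2 * π)) := by
    field_simp
  rw [h4]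
  calc (L / (2 * π) - ε) * N = (L - 2 * π * ε) * (N / (2 * π)) := by field_simp
    _ ≤ (2 * π / N * Real.log (T N)) * (N / (2 * π)) :=
        mul_le_mul_of_nonneg_right h2.le (by positivity)

/-- **growth of the products of powers** -/
theorem prod_growth2 {u v : List (ℕ × Bool)} (hu : ∀ l ∈ u, l.1 < 2) (hv : ∀ l ∈ v, l.1 < 2)
    {a b : ℝ} (ha : 0 < a) (hb : 0 < b) {m n : ℕ} (hm : m ≠ 0) (hn : n ≠ 0)
    (h1 : Tendsto (fun N : ℕ => 2 * π / N * Real.log ‖(rep3 N (wpow (u ++ dual u) m)).trace‖) atTop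
      (𝓝 (m * a)))
    (h2 : Tendsto (fun N : ℕ => 2 * π / N * Real.log ‖(rep3 N (wpow (v ++ dual v) n)).trace‖) atTop
      (𝓝 (n * b))) {ε : ℝ} (hε : 0 < ε) :
    ∀ᶠ N : ℕ in atTop,
      Real.exp ((|m * a - n * b| / (2 * π) - ε) * N) ≤
        ‖(rep3 N (wpow (u ++ dual u) m ++ wpow (v ++ dual v) n)).trace‖ + (N : ℝ) ^ 3 ∧
      ‖(rep3 N (wpow (u ++ dual u) m ++ wpow (v ++ dual v) n)).trace‖ ≤
        Real.exp (((m * a + n * b) / (2 * π) + ε) * N) := by
  have hpi := Real.pi_pos
  obtain ⟨y, hy, hy2⟩ := pow_form hu m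
  obtain ⟨z, hz, hz2⟩ := pow_form hv n
  have hm0 : (0 : ℝ) < m := by exact_mod_cast Nat.pos_of_ne_zero hm
  have hn0 : (0 : ℝ) < n := by exact_mod_cast Nat.pos_of_ne_zero hn
  have hma : 0 < m * a := by positivity
  have hnb : 0 < n * b := by positivity
  rw [hy2] at h1 ⊢
  rw [hz2] at h2 ⊢
  have e3 : 0 < ε / 3 := by positivity
  filter_upwards [RR_growth hma.le (fun ε hε => le_exp_of_lim (fun _ => norm_nonneg _) h1 hε) e3,
    RR_growth hnb.le (fun ε hε => le_exp_of_lim (fun _ => norm_nonneg _) h2 hε) e3,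
    ge_exp_of_lim (fun _ => norm_nonneg _) hma h1 e3,
    ge_exp_of_lim (fun _ => norm_nonneg _) hnb h2 e3, poly_le_exp 3 e3, eventually_gt_atTop 0]
    with N k1 k2 k3 k4 k5 hN
  have hNr : (0 : ℝ) < N := by exact_mod_cast hN
  have l1 := prod_lower hN hy hz
  have l2 := prod_lower hN hz hy
  have l3 := prod_upper hN hy hz
  have hcomm : (rep3 N ((z ++ dual z) ++ (y ++ dual y))).trace =
      (rep3 N ((y ++ dual y) ++ (z ++ dual z))).trace := by
    rw [rep3_append, Matrix.trace_mul_comm, ← rep3_append]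
  rw [hcomm] at l2
  set X := ‖(rep3 N ((y ++ dual y) ++ (z ++ dual z))).trace‖ + (N : ℝ) ^ 3 with hX
  have hX0 : 0 ≤ X := by positivity
  have hRy := RR_one hN y
  have hRz := RR_one hN z
  constructor
  · have g1 : Real.exp (((n * b) / (2 * π) - ε / 3) * N) ≤
        Real.exp (ε / 3 * N) * X * Real.exp ((m * a / (2 * π) + ε / 3) * N) :=
      k4.trans (l1.trans (mul_le_mul (mul_le_mul_of_nonneg_right k5 hX0) k1 (by linarith)
        (by positivity)))
    have g2 : Real.exp (((m * a) / (2 * π) - ε / 3) * N) ≤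
        Real.exp (ε / 3 * N) * X * Real.exp ((n * b / (2 * π) + ε / 3) * N) :=
      k3.trans (l2.trans (mul_le_mul (mul_le_mul_of_nonneg_right k5 hX0) k2 (by linarith)
        (by positivity)))
    rcases le_total (m * a) (n * b) with h | h
    · rw [abs_of_nonpos (by linarith)]
      have e1 : Real.exp (((n * b) / (2 * π) - ε / 3) * N) =
          Real.exp ((-(m * a - n * b) / (2 * π) - ε) * N) *
            (Real.exp (ε / 3 * N) * Real.exp ((m * a / (2 * π) + ε / 3) * N)) := by
        rw [← Real.exp_add, ← Real.exp_add]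
        congr 1
        ring
      have e2 : Real.exp (ε / 3 * N) * X * Real.exp ((m * a / (2 * π) + ε / 3) * N) =
          X * (Real.exp (ε / 3 * N) * Real.exp ((m * a / (2 * π) + ε / 3) * N)) := by ring
      rw [e1, e2] at g1
      exact le_of_mul_le_mul_right g1 (by positivity)
    · rw [abs_of_nonneg (by linarith)]
      have e1 : Real.exp (((m * a) / (2 * π) - ε / 3) * N) =
          Real.exp (((m * a - n * b) / (2 * π) - ε) * N) *
            (Real.exp (ε / 3 * N) * Real.exp ((n * b / (2 * π) + ε / 3) * N)) := by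
        rw [← Real.exp_add, ← Real.exp_add]
        congr 1
        ring
      have e2 : Real.exp (ε / 3 * N) * X * Real.exp ((n * b / (2 * π) + ε / 3) * N) =
          X * (Real.exp (ε / 3 * N) * Real.exp ((n * b / (2 * π) + ε / 3) * N)) := by ring
      rw [e1, e2] at g2
      exact le_of_mul_le_mul_right g2 (by positivity)
  · refine l3.trans ?_
    calc (N : ℝ) ^ 3 * RR N y * RR N z
        ≤ Real.exp (ε / 3 * N) * Real.exp ((m * a / (2 * π) + ε / 3) * N) *
          Real.exp ((n * b / (2 * π) + ε / 3) * N) := by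
          refine mul_le_mul (mul_le_mul k5 k1 (by linarith) (by positivity)) k2 (by linarith)
            (by positivity)
      _ = Real.exp (((m * a + n * b) / (2 * π) + ε) * N) := by
          rw [← Real.exp_add, ← Real.exp_add]
          congr 1
          ring

end Pool.Agent.X132.AX
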