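import Pool.Agent.Y988.TK.Vol

/-!
# Rate functions for 3-braids with their axis: inequalities for Lobachevsky's function

`Lc δ = -∫_0^δ log (2 sin π t) dt`.
-/

set_option autoImplicit false

namespace Pool.Agent.X132.FT

open Set Filter Topology MeasureTheory
open scoped Real
open Pool.Agent.Y472.K (Lc)
open Pool.Agent.Y988.TK (Lc_cont Lc_deriv Lc_sub Lc_half Lc_refl)

lemma Lc_zero : Lc 0 = 0 := by simp [Lc]

lemma Lc_neg (x : ℝ) : Lc (-x) = -Lc x := by
  have h1 := intervalIntegral.integral_comp_neg (a := 0) (b := x)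
    (fun t => Real.log (2 * Real.sin (π * t)))
  have h2 : ∀ t : ℝ, Real.log (2 * Real.sin (π * -t)) = Real.log (2 * Real.sin (π * t)) := by
    intro t
    have : 2 * Real.sin (π * -t) = -(2 * Real.sin (π * t)) := by
      rw [mul_neg, Real.sin_neg]; ring
    rw [this, Real.log_neg_eq_log]
  simp only [h2] at h1
  rw [Lc_sub, Lc_sub, neg_zero, Lc_zero] at h1
  linarith

lemma Lc_add_one (x : ℝ) : Lc (x + 1) = Lc x := by
  have h := Lc_refl (-x)
  rw [Lc_neg, neg_neg] at h
  rw [← h]
  congr 1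
  ring

lemma Lc_sub_one (x : ℝ) : Lc (x - 1) = Lc x := by
  have h := Lc_add_one (x - 1)
  rw [sub_add_cancel] at h
  exact h.symm

lemma sin_pi_pos {t : ℝ} (h0 : 0 < t) (h1 : t < 1) : 0 < Real.sin (π * t) :=
  Real.sin_pos_of_pos_of_lt_pi (by positivity) (by nlinarith [Real.pi_pos])

lemma sin_ge {h : ℝ} (h0 : 0 ≤ h) (h1 : h ≤ 1 / 2) : 2 * h ≤ Real.sin (π * h) := by
  have hp := Real.pi_pos
  have := Real.mul_le_sin (x := π * h) (by positivity) (by nlinarith)
  calc 2 * h = 2 / π * (π * h) := by field_simp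
    _ ≤ _ := this

lemma cos_ge {y : ℝ} (h0 : 0 ≤ y) (h1 : y ≤ 1 / 2) : 1 - 2 * y ≤ Real.cos (π * y) := by
  have hp := Real.pi_pos
  have := Real.one_sub_mul_le_cos (x := π * y) (by positivity) (by nlinarith)
  calc 1 - 2 * y = 1 - 2 / π * (π * y) := by field_simp
    _ ≤ _ := this

/-- the derivative of the sum over a symmetric pair -/
lemma pair_deriv {y h : ℝ} (hy : y ≤ 1 / 2) (h0 : 0 < h) (h1 : h < y) :
    HasDerivAt (fun h => Lc (y + h) + Lc (y - h))
      (-Real.log (2 * Real.sin (π * (y + h))) + Real.log (2 * Real.sin (π * (y - h)))) h := by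
  have d1 := (Lc_deriv (δ := y + h) (by linarith) (by linarith)).comp h
    ((hasDerivAt_id h).const_add y)
  have d2 := (Lc_deriv (δ := y - h) (by linarith) (by linarith)).comp h
    ((hasDerivAt_id h).const_sub y)
  refine (d1.add d2).congr_deriv ?_
  ring

lemma pair_le {y h : ℝ} (hy : y ≤ 1 / 2) (h0 : 0 < h) (h1 : h < y) :
    -Real.log (2 * Real.sin (π * (y + h))) + Real.log (2 * Real.sin (π * (y - h))) +
      4 * (1 - 2 * y) * h ≤ 0 := by
  have hP := sin_pi_pos (t := y + h) (by linarith) (by linarith)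
  have hM := sin_pi_pos (t := y - h) (by linarith) (by linarith)
  have e1 : Real.sin (π * (y + h)) - Real.sin (π * (y - h)) =
      2 * Real.cos (π * y) * Real.sin (π * h) := by
    rw [mul_add, mul_sub, Real.sin_add, Real.sin_sub]
    ring
  have hc := cos_ge (y := y) (by linarith) hy
  have hs := sin_ge (h := h) h0.le (by linarith)
  have hc0 : 0 ≤ 1 - 2 * y := by linarith
  have hprod : (1 - 2 * y) * (2 * h) ≤ Real.cos (π * y) * Real.sin (π * h) :=
    mul_le_mul hc hs (by linarith) (hc0.trans hc)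
  have hdiff : 4 * (1 - 2 * y) * h ≤ Real.sin (π * (y + h)) - Real.sin (π * (y - h)) := by
    rw [e1]; linarith
  have hnn : 0 ≤ Real.sin (π * (y + h)) - Real.sin (π * (y - h)) :=
    (by positivity : 0 ≤ 4 * (1 - 2 * y) * h).trans hdiff
  have hl : Real.log (2 * Real.sin (π * (y - h))) - Real.log (2 * Real.sin (π * (y + h))) ≤
      -(Real.sin (π * (y + h)) - Real.sin (π * (y - h))) := by
    rw [← Real.log_div (by positivity) (by positivity)]
    have h2 := Real.log_le_sub_one_of_pos
      (x := 2 * Real.sin (π * (y - h)) / (2 * Real.sin (π * (y + h)))) (by positivity)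
    refine h2.trans ?_
    have h3 : 2 * Real.sin (π * (y - h)) / (2 * Real.sin (π * (y + h))) - 1 =
        -((Real.sin (π * (y + h)) - Real.sin (π * (y - h))) / Real.sin (π * (y + h))) := by
      field_simp
      ring
    rw [h3]
    refine neg_le_neg ?_
    rw [le_div_iff₀ hP]
    exact mul_le_of_le_one_right hnn (Real.sin_le_one _)
  linarith

lemma pair_anti {y : ℝ} (hy : y ≤ 1 / 2) :
    AntitoneOn (fun h => Lc (y + h) + Lc (y - h) + 2 * (1 - 2 * y) * h ^ 2) (Icc 0 y) := by
  have hc := Lc_cont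
  refine antitoneOn_of_deriv_nonpos (convex_Icc _ _) (by fun_prop) ?_ ?_
  · intro h hh
    rw [interior_Icc] at hh
    have d := (pair_deriv hy hh.1 hh.2).add (((hasDerivAt_id h).pow 2).const_mul (2 * (1 - 2 * y)))
    exact d.differentiableAt.differentiableWithinAt
  · intro h hh
    rw [interior_Icc] at hh
    have d := (pair_deriv hy hh.1 hh.2).add (((hasDerivAt_id h).pow 2).const_mul (2 * (1 - 2 * y)))
    have e : deriv (fun h => Lc (y + h) + Lc (y - h) + 2 * (1 - 2 * y) * h ^ 2) h =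
        -Real.log (2 * Real.sin (π * (y + h))) + Real.log (2 * Real.sin (π * (y - h))) +
        4 * (1 - 2 * y) * h := by
      have := d.deriv
      simp only [id] at this
      refine Eq.trans ?_ (this.trans ?_)
      · rfl
      · push_cast
        ring
    rw [e]
    exact pair_le hy hh.1 hh.2

/-- the sum over a pair is at most the sum over the symmetric pair -/
lemma pair_bound {p q : ℝ} (hp : 0 ≤ p) (hq : 0 ≤ q) (h : p + q ≤ 1) :
    Lc p + Lc q ≤ 2 * Lc ((p + q) / 2) - 1 / 2 * (1 - p - q) * (p - q) ^ 2 := by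
  wlog hpq : q ≤ p with H
  · have := H hq hp (by linarith) (le_of_not_ge hpq)
    rw [add_comm q p] at this
    nlinarith [this]
  have h1 := pair_anti (y := (p + q) / 2) (by linarith) (a := 0) (b := (p - q) / 2)
    ⟨le_refl _, by linarith⟩ ⟨by linarith, by linarith⟩ (by linarith)
  simp only at h1
  rw [show (p + q) / 2 + (p - q) / 2 = p by ring, show (p + q) / 2 - (p - q) / 2 = q by ring,
    add_zero, sub_zero] at h1
  nlinarith [h1]

/-- lower bound for the symmetric pair -/
lemma pair_low {y : ℝ} (h0 : 0 ≤ y) (h1 : y ≤ 1 / 2) : Lc (2 * y) + 2 * (1 - 2 * y) * y ^ 2 ≤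
    2 * Lc y := by
  have h2 := pair_anti h1 (a := 0) (b := y) ⟨le_refl _, h0⟩ ⟨h0, le_refl _⟩ h0
  simp only at h2
  rw [add_zero, sub_zero, sub_self, Lc_zero, ← two_mul] at h2
  nlinarith [h2]

/-- the volume of an ideal tetrahedron is nonnegative -/
lemma tet_nonneg {p q r : ℝ} (hp : 0 ≤ p) (hq : 0 ≤ q) (hr : 0 ≤ r) (h : p + q + r = 1) :
    0 ≤ Lc p + Lc q + Lc r := by
  wlog hqr : r ≤ q with H
  · have := H hp hr hq (by linarith) (le_of_not_ge hqr)
    linarith
  have h1 := pair_anti (y := (q + r) / 2) (by linarith) (a := (q - r) / 2) (b := (q + r) / 2)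
    ⟨by linarith, by linarith⟩ ⟨by linarith, by linarith⟩ (by linarith)
  simp only at h1
  rw [show (q + r) / 2 + (q - r) / 2 = q by ring, show (q + r) / 2 - (q - r) / 2 = r by ring,
    show (q + r) / 2 + (q + r) / 2 = 1 - p by linarith, sub_self, Lc_zero, Lc_refl] at h1
  have h2 : 0 ≤ 2 * (1 - 2 * ((q + r) / 2)) * (((q + r) / 2) ^ 2 - ((q - r) / 2) ^ 2) := by
    have e : 2 * (1 - 2 * ((q + r) / 2)) * (((q + r) / 2) ^ 2 - ((q - r) / 2) ^ 2) =
        2 * p * (q * r) := by
      have : p = 1 - q - r := by linarith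
      rw [this]; ring
    rw [e]
    positivity
  nlinarith [h1, h2]

/-! ### The rate of the symmetric pairs -/

/-- rate of the symmetric pair with difference `δ` -/
noncomputable def he (e δ : ℝ) : ℝ := Lc δ + (2 + 2 * e) * Lc ((1 - δ) / 2)

lemma he_cont (e : ℝ) : Continuous (he e) := by
  have hc := Lc_cont
  unfold he
  fun_prop

lemma he_deriv (e : ℝ) {δ : ℝ} (h0 : 0 < δ) (h1 : δ < 1) :
    HasDerivAt (he e) (-Real.log (2 * Real.sin (π * δ)) +
      (1 + e) * Real.log (2 * Real.cos (π * δ / 2))) δ := by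
  have d1 := Lc_deriv h0 h1
  have d2 := (Lc_deriv (δ := (1 - δ) / 2) (by linarith) (by linarith)).comp δ
    (((hasDerivAt_id δ).const_sub 1).div_const 2)
  refine (d1.add (d2.const_mul (2 + 2 * e))).congr_deriv ?_
  have e1 : Real.sin (π * ((1 - δ) / 2)) = Real.cos (π * δ / 2) := by
    rw [← Real.sin_pi_div_two_sub]
    congr 1
    ring
  rw [e1]
  ring

lemma he_quad {e d c : ℝ} (hd0 : 0 ≤ d) (hd1 : d ≤ 1)
    (H1 : ∀ δ, 0 < δ → δ < d → 0 ≤ -Real.log (2 * Real.sin (π * δ)) +
      (1 + e) * Real.log (2 * Real.cos (π * δ / 2)) + 2 * c * (δ - d))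
    (H2 : ∀ δ, d < δ → δ < 1 → -Real.log (2 * Real.sin (π * δ)) +
      (1 + e) * Real.log (2 * Real.cos (π * δ / 2)) + 2 * c * (δ - d) ≤ 0)
    {δ : ℝ} (h0 : 0 ≤ δ) (h1 : δ ≤ 1) : he e δ ≤ he e d - c * (δ - d) ^ 2 := by
  have hc := he_cont e
  have hF : ∀ δ, 0 < δ → δ < 1 → HasDerivAt (fun δ => he e δ + c * (δ - d) ^ 2)
      (-Real.log (2 * Real.sin (π * δ)) + (1 + e) * Real.log (2 * Real.cos (π * δ / 2)) +
        2 * c * (δ - d)) δ := by
    intro δ h0 h1
    have d2 := (((hasDerivAt_id δ).sub_const d).pow 2).const_mul c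
    refine ((he_deriv e h0 h1).add d2).congr_deriv ?_
    simp only [id]
    push_cast
    ring
  rcases le_total δ d with hδ | hδ
  · have hm : MonotoneOn (fun δ => he e δ + c * (δ - d) ^ 2) (Icc 0 d) := by
      refine monotoneOn_of_deriv_nonneg (convex_Icc _ _) (by fun_prop) ?_ ?_
      · intro t ht
        rw [interior_Icc] at ht
        exact (hF t ht.1 (by linarith [ht.2])).differentiableAt.differentiableWithinAt
      · intro t ht
        rw [interior_Icc] at ht
        rw [(hF t ht.1 (by linarith [ht.2])).deriv]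
        exact H1 t ht.1 ht.2
    have := hm ⟨h0, hδ⟩ ⟨hd0, le_refl _⟩ hδ
    simp only [sub_self] at this
    linarith
  · have hm : AntitoneOn (fun δ => he e δ + c * (δ - d) ^ 2) (Icc d 1) := by
      refine antitoneOn_of_deriv_nonpos (convex_Icc _ _) (by fun_prop) ?_ ?_
      · intro t ht
        rw [interior_Icc] at ht
        exact (hF t (by linarith [ht.1]) ht.2).differentiableAt.differentiableWithinAt
      · intro t ht
        rw [interior_Icc] at ht
        rw [(hF t (by linarith [ht.1]) ht.2).deriv]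
        exact H2 t ht.1 ht.2
    have := hm ⟨le_refl _, hd1⟩ ⟨hδ, h1⟩ hδ
    simp only [sub_self] at this
    linarith

lemma sin_cos_half {δ : ℝ} : Real.sin (π * δ) = 2 * Real.sin (π * δ / 2) * Real.cos (π * δ / 2) := by
  rw [← Real.sin_two_mul]
  congr 1
  ring

lemma cos_half_pos {δ : ℝ} (h0 : 0 < δ) (h1 : δ < 1) : 0 < Real.cos (π * δ / 2) := by
  have := Real.pi_pos
  refine Real.cos_pos_of_mem_Ioo ⟨?_, ?_⟩ <;> nlinarith

lemma sin_half_pos {δ : ℝ} (h0 : 0 < δ) (h1 : δ < 1) : 0 < Real.sin (π * δ / 2) := by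
  have := Real.pi_pos
  refine Real.sin_pos_of_pos_of_lt_pi (by positivity) ?_
  nlinarith

lemma d0_eq {δ : ℝ} (h0 : 0 < δ) (h1 : δ < 1) : -Real.log (2 * Real.sin (π * δ)) +
      (1 + 0) * Real.log (2 * Real.cos (π * δ / 2)) = -Real.log (2 * Real.sin (π * δ / 2)) := by
  have hs := sin_half_pos h0 h1
  have hc := cos_half_pos h0 h1
  rw [sin_cos_half, show 2 * (2 * Real.sin (π * δ / 2) * Real.cos (π * δ / 2)) =
    (2 * Real.sin (π * δ / 2)) * (2 * Real.cos (π * δ / 2)) by ring,
    Real.log_mul (by positivity) (by positivity)]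
  ring

lemma d1_eq {δ : ℝ} (h0 : 0 < δ) (h1 : δ < 1) : -Real.log (2 * Real.sin (π * δ)) +
      (1 + 1) * Real.log (2 * Real.cos (π * δ / 2)) =
      Real.log (Real.cos (π * δ / 2)) - Real.log (Real.sin (π * δ / 2)) := by
  have hs := sin_half_pos h0 h1
  have hc := cos_half_pos h0 h1
  rw [sin_cos_half, show 2 * (2 * Real.sin (π * δ / 2) * Real.cos (π * δ / 2)) =
    (2 * 2) * (Real.sin (π * δ / 2) * Real.cos (π * δ / 2)) by ring,
    Real.log_mul (by positivity) (by positivity), Real.log_mul two_ne_zero two_ne_zero,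
    Real.log_mul hs.ne' hc.ne', Real.log_mul two_ne_zero hc.ne']
  ring

lemma he0 {δ : ℝ} (h0 : 0 ≤ δ) (h1 : δ ≤ 1) : he 0 δ ≤ he 0 (1 / 3) - 1 / 4 * (δ - 1 / 3) ^ 2 := by
  have hpi := Real.pi_pos
  have h6 : Real.sin (π / 6) = 1 / 2 := Real.sin_pi_div_six
  refine he_quad (by norm_num) (by norm_num) ?_ ?_ h0 h1
  · intro t ht0 ht1
    rw [d0_eq ht0 (by linarith)]
    have hs := sin_half_pos ht0 (by linarith)
    have h2 := Real.log_le_sub_one_of_pos (x := 2 * Real.sin (π * t / 2)) (by positivity)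
    have h3 : Real.sin (π / 6) - Real.sin (π * t / 2) =
        2 * Real.sin ((π / 6 - π * t / 2) / 2) * Real.cos ((π / 6 + π * t / 2) / 2) :=
      Real.sin_sub_sin _ _
    have h4 := sin_ge (h := (1 / 3 - t) / 4) (by linarith) (by linarith)
    rw [show π * ((1 / 3 - t) / 4) = (π / 6 - π * t / 2) / 2 by ring] at h4
    have h5 : 1 / 2 ≤ Real.cos ((π / 6 + π * t / 2) / 2) := by
      rw [← Real.cos_pi_div_three]
      exact Real.cos_le_cos_of_nonneg_of_le_pi (by positivity) (by linarith) (by nlinarith)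
    have h7 : (2 * ((1 / 3 - t) / 4)) * (1 / 2) ≤
        Real.sin ((π / 6 - π * t / 2) / 2) * Real.cos ((π / 6 + π * t / 2) / 2) :=
      mul_le_mul h4 h5 (by norm_num) (le_trans (by linarith) h4)
    linarith
  · intro t ht0 ht1
    rw [d0_eq (by linarith) ht1]
    have hs := sin_half_pos (by linarith) ht1
    have h2 := Real.one_sub_inv_le_log_of_pos (x := 2 * Real.sin (π * t / 2)) (by positivity)
    have h3 : Real.sin (π * t / 2) - Real.sin (π / 6) =
        2 * Real.sin ((π * t / 2 - π / 6) / 2) * Real.cos ((π * t / 2 + π / 6) / 2) :=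
      Real.sin_sub_sin _ _
    have h4 := sin_ge (h := (t - 1 / 3) / 4) (by linarith) (by linarith)
    rw [show π * ((t - 1 / 3) / 4) = (π * t / 2 - π / 6) / 2 by ring] at h4
    have h5 : 1 / 2 ≤ Real.cos ((π * t / 2 + π / 6) / 2) := by
      rw [← Real.cos_pi_div_three]
      exact Real.cos_le_cos_of_nonneg_of_le_pi (by positivity) (by linarith) (by nlinarith)
    have h7 : (2 * ((t - 1 / 3) / 4)) * (1 / 2) ≤
        Real.sin ((π * t / 2 - π / 6) / 2) * Real.cos ((π * t / 2 + π / 6) / 2) :=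
      mul_le_mul h4 h5 (by norm_num) (le_trans (by linarith) h4)
    have h8 : t - 1 / 3 ≤ 2 * Real.sin (π * t / 2) - 1 := by linarith
    have h9 : (2 * Real.sin (π * t / 2) - 1) / 2 ≤ 1 - (2 * Real.sin (π * t / 2))⁻¹ := by
      have h10 : 1 - (2 * Real.sin (π * t / 2))⁻¹ =
          (2 * Real.sin (π * t / 2) - 1) / (2 * Real.sin (π * t / 2)) := by
        field_simp
      rw [h10]
      refine div_le_div_of_nonneg_left (by linarith) (by positivity) ?_
      linarith [Real.sin_le_one (π * t / 2)]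
    linarith

lemma he1 {δ : ℝ} (h0 : 0 ≤ δ) (h1 : δ ≤ 1) : he 1 δ ≤ he 1 (1 / 2) - 1 / 4 * (δ - 1 / 2) ^ 2 := by
  have hpi := Real.pi_pos
  have key : ∀ t, Real.cos (π * t / 2) - Real.sin (π * t / 2) =
      2 * Real.cos (π / 4) * Real.sin (π * ((1 / 2 - t) / 2)) := by
    intro t
    rw [← Real.sin_pi_div_two_sub, Real.sin_sub_sin]
    have e1 : (π / 2 - π * t / 2 - π * t / 2) / 2 = π * ((1 / 2 - t) / 2) := by ring
    have e2 : (π / 2 - π * t / 2 + π * t / 2) / 2 = π / 4 := by ring
    rw [e1, e2]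
    ring
  have h4 : 1 / 2 ≤ Real.cos (π / 4) := by
    rw [← Real.cos_pi_div_three]
    exact Real.cos_le_cos_of_nonneg_of_le_pi (by positivity) (by linarith) (by linarith)
  refine he_quad (by norm_num) (by norm_num) ?_ ?_ h0 h1
  · intro t ht0 ht1
    rw [d1_eq ht0 (by linarith)]
    have hs := sin_half_pos ht0 (by linarith)
    have hc := cos_half_pos ht0 (by linarith)
    have h2 := sin_ge (h := (1 / 2 - t) / 2) (by linarith) (by linarith)
    have h3 := key t
    have h5 : (1 / 2) * (2 * ((1 / 2 - t) / 2)) ≤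
        Real.cos (π / 4) * Real.sin (π * ((1 / 2 - t) / 2)) :=
      mul_le_mul h4 h2 (by linarith) (by linarith)
    have h6 := Real.log_le_sub_one_of_pos (x := Real.sin (π * t / 2) / Real.cos (π * t / 2))
      (by positivity)
    rw [Real.log_div hs.ne' hc.ne'] at h6
    have h7 : Real.sin (π * t / 2) / Real.cos (π * t / 2) - 1 =
        -((Real.cos (π * t / 2) - Real.sin (π * t / 2)) / Real.cos (π * t / 2)) := by
      field_simp
      ring
    have h8 : Real.cos (π * t / 2) - Real.sin (π * t / 2) ≤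
        (Real.cos (π * t / 2) - Real.sin (π * t / 2)) / Real.cos (π * t / 2) := by
      rw [le_div_iff₀ hc]
      exact mul_le_of_le_one_right (by linarith) (Real.cos_le_one _)
    linarith
  · intro t ht0 ht1
    rw [d1_eq (by linarith) ht1]
    have hs := sin_half_pos (by linarith) ht1
    have hc := cos_half_pos (by linarith) ht1
    have h2 := sin_ge (h := (t - 1 / 2) / 2) (by linarith) (by linarith)
    have h3 := key t
    rw [show π * ((1 / 2 - t) / 2) = -(π * ((t - 1 / 2) / 2)) by ring, Real.sin_neg] at h3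
    have h5 : (1 / 2) * (2 * ((t - 1 / 2) / 2)) ≤
        Real.cos (π / 4) * Real.sin (π * ((t - 1 / 2) / 2)) :=
      mul_le_mul h4 h2 (by linarith) (by linarith)
    have h6 := Real.log_le_sub_one_of_pos (x := Real.cos (π * t / 2) / Real.sin (π * t / 2))
      (by positivity)
    rw [Real.log_div hc.ne' hs.ne'] at h6
    have h7 : Real.cos (π * t / 2) / Real.sin (π * t / 2) - 1 =
        -((Real.sin (π * t / 2) - Real.cos (π * t / 2)) / Real.sin (π * t / 2)) := by
      field_simp
      ring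
    have h8 : Real.sin (π * t / 2) - Real.cos (π * t / 2) ≤
        (Real.sin (π * t / 2) - Real.cos (π * t / 2)) / Real.sin (π * t / 2) := by
      rw [le_div_iff₀ hs]
      exact mul_le_of_le_one_right (by linarith) (Real.sin_le_one _)
    linarith

end Pool.Agent.X132.FT
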