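import Pool.Agent.X132.FTa

/-!
# Rate functions for 3-braids with their axis: the rate of a pair of neighbouring indices
-/

set_option autoImplicit false

namespace Pool.Agent.X132.FT

open Set Filter Topology MeasureTheory
open scoped Real
open Pool.Agent.Y472.K (Lc)
open Pool.Agent.Y988.TK (Lc_cont Lc_deriv Lc_sub Lc_half Lc_refl)

/-- the two families: `e = 0`, `d = 1 / 3` and `e = 1`, `d = 1 / 2` -/
structure Par (e : ℕ) (d : ℝ) : Prop where
  e1 : e ≤ 1
  d1 : 1 / 3 ≤ d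
  d2 : d ≤ 1 / 2
  quad : ∀ δ, 0 ≤ δ → δ ≤ 1 → he e δ ≤ he e d - 1 / 4 * (δ - d) ^ 2
  gap : ∀ δ, 0 ≤ δ → δ ≤ 1 → e * (2 * Lc ((1 - δ) / 2)) ≤ he e d - 1 / 128
  crit : Real.log (2 * Real.sin (π * d)) = (1 + e) * Real.log (2 * Real.sin (π * ((1 - d) / 2)))

lemma par0 : Par 0 (1 / 3) where
  e1 := by norm_num
  d1 := le_refl _
  d2 := by norm_num
  quad δ h0 h1 := by
    rw [Nat.cast_zero]
    exact he0 h0 h1
  gap δ h0 h1 := by
    have h := pair_low (y := 1 / 3) (by norm_num) (by norm_num)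
    have h2 := Lc_refl (1 / 3)
    rw [show (1 : ℝ) - 1 / 3 = 2 * (1 / 3) by norm_num] at h2
    unfold he
    rw [Nat.cast_zero, show (1 - (1 : ℝ) / 3) / 2 = 1 / 3 by norm_num]
    rw [h2] at h
    norm_num at h ⊢
    linarith
  crit := by
    rw [show (1 - (1 : ℝ) / 3) / 2 = 1 / 3 by norm_num, Nat.cast_zero]
    ring

lemma par1 : Par 1 (1 / 2) where
  e1 := le_refl _
  d1 := by norm_num
  d2 := le_refl _
  quad δ h0 h1 := by
    rw [Nat.cast_one]
    exact he1 h0 h1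
  gap δ h0 h1 := by
    have h := pair_low (y := (1 - δ) / 2) (by linarith) (by linarith)
    have h2 := he1 h0 h1
    rw [show 2 * ((1 - δ) / 2) = 1 - δ by ring, Lc_refl] at h
    unfold he at h2 ⊢
    rw [Nat.cast_one]
    have h3 : 1 / 128 ≤ 1 / 4 * (δ - 1 / 2) ^ 2 + 2 * (1 - (1 - δ)) * ((1 - δ) / 2) ^ 2 := by
      by_cases h4 : 1 / 4 ≤ δ
      · by_cases h5 : δ ≤ 3 / 4
        · nlinarith [mul_nonneg (sub_nonneg.2 h4) (sub_nonneg.2 h5), sq_nonneg (δ - 1 / 2),
            mul_nonneg (sub_nonneg.2 h5) (sub_nonneg.2 h1), mul_nonneg h0 (sq_nonneg (1 - δ)),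
            mul_nonneg (sub_nonneg.2 h4) (sq_nonneg (1 - δ))]
        · push Not at h5
          have : (1 / 4 : ℝ) ^ 2 ≤ (δ - 1 / 2) ^ 2 := pow_le_pow_left₀ (by norm_num) (by linarith) 2
          have h6 : 0 ≤ δ * (1 - δ) ^ 2 := by positivity
          nlinarith
      · push Not at h4
        have : (1 / 4 : ℝ) ^ 2 ≤ (1 / 2 - δ) ^ 2 := pow_le_pow_left₀ (by norm_num) (by linarith) 2
        have h6 : 0 ≤ δ * (1 - δ) ^ 2 := by positivity
        nlinarith
    linarith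
  crit := by
    rw [show (1 - (1 : ℝ) / 2) / 2 = 1 / 4 by norm_num, Nat.cast_one]
    rw [show π * (1 / 2) = π / 2 by ring, show π * (1 / 4) = π / 4 by ring, Real.sin_pi_div_two,
      Real.sin_pi_div_four, show (2 : ℝ) * (√2 / 2) = √2 by ring, Real.log_sqrt (by norm_num)]
    rw [mul_one]
    ring

/-- one half of the rate of a pair -/
noncomputable def Wr (e : ℕ) (x a b : ℝ) : ℝ :=
  Lc (a - b) + Lc (b + x) - Lc (a + x) + e * (Lc b - Lc a)

/-- the rate of a pair -/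
noncomputable def Er (e : ℕ) (x a b : ℝ) : ℝ :=
  Lc (a - b) + 1 / 2 * (Lc (b + x) + Lc (b - x) - (Lc (a + x) + Lc (a - x))) + e * (Lc b - Lc a)

lemma Er_eq (e : ℕ) (x a b : ℝ) : Er e x a b = 1 / 2 * (Wr e x a b + Wr e (-x) a b) := by
  unfold Er Wr
  rw [← sub_eq_add_neg, ← sub_eq_add_neg]
  ring

/-- the part with the coefficient `e` -/
lemma e_part {e : ℕ} {a b : ℝ} (hb : 0 ≤ b) (hab : b ≤ a) (ha : a ≤ 1) :
    (e : ℝ) * (Lc b - Lc a) ≤ e * (2 * Lc ((1 - (a - b)) / 2)) := by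
  have h1 := pair_bound (p := b) (q := 1 - a) hb (by linarith) (by linarith)
  rw [Lc_refl, show (b + (1 - a)) / 2 = (1 - (a - b)) / 2 by ring] at h1
  refine mul_le_mul_of_nonneg_left ?_ (Nat.cast_nonneg _)
  have h2 : 0 ≤ 1 / 2 * (1 - b - (1 - a)) * (b - (1 - a)) ^ 2 := by
    have : 0 ≤ 1 - b - (1 - a) := by linarith
    positivity
  linarith

/-- the nonwrapped cases -/
lemma main_part {e : ℕ} {a b p q : ℝ} (hb : 0 ≤ b) (hab : b ≤ a) (ha : a ≤ 1) (hp : 0 ≤ p)
    (hq : 0 ≤ q) (hpq : a - b + p + q = 1) : Lc (a - b) + Lc p + Lc q + e * (Lc b - Lc a) ≤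
      he e (a - b) - 1 / 2 * (a - b) * (p - q) ^ 2 := by
  have h1 := pair_bound hp hq (by linarith)
  have h2 := e_part (e := e) hb hab ha
  rw [show (p + q) / 2 = (1 - (a - b)) / 2 by linarith, show 1 - p - q = a - b by linarith] at h1
  unfold he
  nlinarith

lemma Wr_bound {e : ℕ} {d : ℝ} (P : Par e d) {x a b : ℝ} (hb : 0 ≤ b) (hab : b ≤ a) (ha : a ≤ 1)
    (hx : |x| ≤ 1 / 2) : Wr e x a b ≤ he e d -
      1 / 10000 * ((a - b - d) ^ 2 + (a + b + 2 * x - 1) ^ 2) := by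
  obtain ⟨hx1, hx2⟩ := abs_le.1 hx
  have hd1 := P.d1
  have hd2 := P.d2
  have hδ0 : 0 ≤ a - b := by linarith
  have hδ1 : a - b ≤ 1 := by linarith
  have hq := P.quad (a - b) hδ0 hδ1
  have hg := P.gap (a - b) hδ0 hδ1
  have hep := e_part (e := e) hb hab ha
  -- crude bounds
  have c1 : (a - b - d) ^ 2 ≤ 1 := by nlinarith
  have c2 : (a + b + 2 * x - 1) ^ 2 ≤ 4 := by nlinarith
  have crude : ∀ V : ℝ, V ≤ 0 → V + e * (Lc b - Lc a) ≤ he e d -
      1 / 10000 * ((a - b - d) ^ 2 + (a + b + 2 * x - 1) ^ 2) := by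
    intro V hV
    linarith
  -- the gap in the shifted cases
  have shifted : ∀ Q : ℝ, a - b ≤ Q → he e (a - b) - 1 / 2 * (a - b) * Q ^ 2 ≤ he e d -
      1 / 10000 * ((a - b - d) ^ 2 + (a + b + 2 * x - 1) ^ 2) := by
    intro Q hQ
    have h1 : (a - b) ^ 2 ≤ Q ^ 2 := pow_le_pow_left₀ hδ0 hQ 2
    have h2 : (a - b) * (a - b) ^ 2 ≤ (a - b) * Q ^ 2 := mul_le_mul_of_nonneg_left h1 hδ0
    have h3 : 1 / 1000 ≤ 1 / 4 * (a - b - d) ^ 2 + 1 / 2 * ((a - b) * (a - b) ^ 2) := by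
      by_cases h4 : 1 / 6 ≤ a - b
      · have h5 : (1 / 6 : ℝ) ^ 3 ≤ (a - b) ^ 3 := pow_le_pow_left₀ (by norm_num) h4 3
        nlinarith [sq_nonneg (a - b - d)]
      · push Not at h4
        have h5 : (1 / 6 : ℝ) ^ 2 ≤ (d - (a - b)) ^ 2 :=
          pow_le_pow_left₀ (by norm_num) (by linarith) 2
        have h6 : 0 ≤ (a - b) * (a - b) ^ 2 := by positivity
        nlinarith
    nlinarith
  unfold Wr
  rcases lt_or_ge (b + x) 0 with h1 | h1
  · rcases lt_or_ge 0 (a + x) with h2 | h2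
    · -- wrapped: `b + x < 0 < a + x`
      have h3 := tet_nonneg (p := 1 - (a - b)) (q := -(b + x)) (r := a + x) (by linarith)
        (by linarith) h2.le (by ring)
      rw [Lc_refl, Lc_neg] at h3
      have := crude (Lc (a - b) + Lc (b + x) - Lc (a + x)) (by linarith)
      exact this
    · -- shifted
      have h3 := main_part (e := e) (p := b + x + 1) (q := -(a + x)) hb hab ha (by linarith)
        (by linarith) (by ring)
      rw [Lc_add_one, Lc_neg] at h3
      have h4 := shifted (b + x + 1 - -(a + x)) (by linarith)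
      linarith
  · rcases lt_or_ge 1 (b + x) with h2 | h2
    · have h3 := main_part (e := e) (p := b + x - 1) (q := 1 - (a + x - 1)) hb hab ha (by linarith)
        (by linarith) (by ring)
      rw [Lc_sub_one, Lc_refl, Lc_sub_one] at h3
      have h4 := shifted (-(b + x - 1 - (1 - (a + x - 1)))) (by linarith)
      rw [neg_sq] at h4
      linarith
    · rcases lt_or_ge 1 (a + x) with h4 | h4
      · have h3 := tet_nonneg (p := 1 - (a - b)) (q := 1 - (b + x)) (r := a + x - 1) (by linarith)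
          (by linarith) (by linarith) (by ring)
        rw [Lc_refl, Lc_refl, Lc_sub_one] at h3
        exact crude (Lc (a - b) + Lc (b + x) - Lc (a + x)) (by linarith)
      · have h3 := main_part (e := e) (p := b + x) (q := 1 - (a + x)) hb hab ha h1
          (by linarith) (by ring)
        rw [Lc_refl, show b + x - (1 - (a + x)) = a + b + 2 * x - 1 by ring] at h3
        have h5 : (a + b + 2 * x - 1) ^ 2 ≤ 1 := by nlinarith
        have h6 : 1 / 10000 * ((a - b - d) ^ 2 + (a + b + 2 * x - 1) ^ 2) ≤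
            1 / 4 * (a - b - d) ^ 2 + 1 / 2 * (a - b) * (a + b + 2 * x - 1) ^ 2 := by
          by_cases h7 : 1 / 6 ≤ a - b
          · nlinarith [sq_nonneg (a - b - d), mul_nonneg (sub_nonneg.2 h7)
              (sq_nonneg (a + b + 2 * x - 1)), sq_nonneg (a + b + 2 * x - 1)]
          · push Not at h7
            have h8 : (1 / 6 : ℝ) ^ 2 ≤ (d - (a - b)) ^ 2 :=
              pow_le_pow_left₀ (by norm_num) (by linarith) 2
            have h9 : 0 ≤ 1 / 2 * (a - b) * (a + b + 2 * x - 1) ^ 2 := by positivity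
            nlinarith
        linarith

/-- the rate of a pair: quadratic bound on the whole polytope -/
theorem Er_bound {e : ℕ} {d : ℝ} (P : Par e d) {x a b : ℝ} (hb : 0 ≤ b) (hab : b ≤ a) (ha : a ≤ 1)
    (hx : |x| ≤ 1 / 2) : Er e x a b ≤ he e d -
      1 / 10000 * (x ^ 2 + (a - (1 + d) / 2) ^ 2 + (b - (1 - d) / 2) ^ 2) := by
  have h1 := Wr_bound P hb hab ha hx
  have h2 := Wr_bound P (x := -x) hb hab ha (by rwa [abs_neg])
  rw [Er_eq]
  have h3 : (a - b - d) ^ 2 + (a + b + 2 * x - 1) ^ 2 + ((a - b - d) ^ 2 +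
      (a + b + 2 * -x - 1) ^ 2) = 4 * ((a - (1 + d) / 2) ^ 2 + (b - (1 - d) / 2) ^ 2) +
      8 * x ^ 2 := by ring
  nlinarith [sq_nonneg x, sq_nonneg (a - (1 + d) / 2), sq_nonneg (b - (1 - d) / 2)]

/-- the value at the centre -/
lemma Er_centre (e : ℕ) (d : ℝ) : Er e 0 ((1 + d) / 2) ((1 - d) / 2) = he e d := by
  unfold Er he
  have h := Lc_refl ((1 - d) / 2)
  rw [show 1 - (1 - d) / 2 = (1 + d) / 2 by ring] at h
  rw [add_zero, sub_zero, add_zero, sub_zero, h, show (1 + d) / 2 - (1 - d) / 2 = d by ring]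
  ring

end Pool.Agent.X132.FT
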