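import Pool.Agent.X132.FTb
import Pool.Agent.Y681.TK.Fin

/-!
# Rate functions for 3-braids with their axis: bounds for products of sines
-/

set_option autoImplicit false

namespace Pool.Agent.X132.FT

open Finset Filter Topology MeasureTheory
open scoped Real
open Pool.Agent.W711.HT (Sd)
open Pool.Agent.Y472.K (Lc Pq)
open Pool.Agent.Y988.TK (Lc_cont Lc_deriv Lc_sub Lc_half Lc_refl)

lemma Sd_zero (N : ℕ) : Sd N 0 = 1 := by simp [Sd]

lemma Sd_succ (N m : ℕ) : Sd N (m + 1) = Sd N m * (2 * Real.sin (π * (m + 1) / N)) := by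
  unfold Sd
  rw [prod_range_succ]

lemma Sd_pos {N m : ℕ} (h : m < N) : 0 < Sd N m := Pool.Agent.Y681.TK.Sd_pos h

/-- upper bound for the product of sines -/
lemma Sd_le {N m : ℕ} (h : m < N) : Sd N m ≤ 2 * √N * Real.exp (-(N * Lc (m / N))) := by
  have hN : (1 : ℝ) ≤ N := by exact_mod_cast (by omega : 1 ≤ N)
  have hs1 : 1 ≤ √(N : ℝ) := by rw [← Real.sqrt_one]; exact Real.sqrt_le_sqrt hN
  rcases Nat.eq_zero_or_pos m with h0 | h0
  · subst h0
    rw [Sd_zero, Nat.cast_zero, zero_div, Lc_zero, mul_zero, neg_zero, Real.exp_zero]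
    linarith
  · have h1 := Pool.Agent.Y681.TK.main_eq h0 h
    have h2 : Stirling.stirlingSeq m ≤ 2 := by
      obtain ⟨k, rfl⟩ : ∃ k, m = k + 1 := ⟨m - 1, by omega⟩
      have h3 := Stirling.stirlingSeq'_antitone (Nat.zero_le k)
      simp only [Function.comp] at h3
      refine h3.trans ?_
      show Stirling.stirlingSeq 1 ≤ 2
      rw [Stirling.stirlingSeq_one]
      have h4 := Real.exp_one_lt_d9
      have h5 : (1.4 : ℝ) ≤ √2 := by
        rw [show (1.4 : ℝ) = √(1.4 ^ 2) by rw [Real.sqrt_sq (by norm_num)]]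
        exact Real.sqrt_le_sqrt (by norm_num)
      rw [div_le_iff₀ (by positivity)]
      linarith
    have h3 : √(2 * N * Real.sin (π * (m / N)) / π) ≤ √N := by
      refine Real.sqrt_le_sqrt ?_
      rw [div_le_iff₀ Real.pi_pos]
      have := Real.sin_le_one (π * (m / N))
      have := Real.pi_gt_three
      nlinarith
    have h4 : Real.exp (Pool.Agent.Y681.TK.TT N m) ≤ 1 := by
      rw [Real.exp_le_one_iff]
      exact (Pool.Agent.Y681.TK.TT_bound (by omega) m h).1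
    have h5 : 0 ≤ Stirling.stirlingSeq m := by
      obtain ⟨k, rfl⟩ : ∃ k, m = k + 1 := ⟨m - 1, by omega⟩
      exact (Stirling.stirlingSeq'_pos k).le
    have h6 : Sd N m * Real.exp (N * Lc (m / N)) ≤ 2 * √N := by
      have e : Sd N m * Real.exp (N * Lc (m / N)) =
        Pool.Agent.Y681.TK.Sd N m * Real.exp (N * Pool.Agent.Y681.TK.Lc (m / N)) := rfl
      rw [e, h1]
      calc Stirling.stirlingSeq m * √(2 * N * Real.sin (π * (m / N)) / π) *
            Real.exp (Pool.Agent.Y681.TK.TT N m)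
          ≤ 2 * √N * 1 := mul_le_mul (mul_le_mul h2 h3 (Real.sqrt_nonneg _) (by norm_num)) h4
            (Real.exp_pos _).le (by positivity)
        _ = 2 * √N := by ring
    rw [Real.exp_neg, ← div_eq_mul_inv, le_div_iff₀ (Real.exp_pos _)]
    exact h6

/-- shifted products of sines -/
noncomputable def Ts (N j i : ℕ) (p : ℤ) : ℝ := ∏ s ∈ Ioc j i, |2 * Real.sin (π * (s + p) / N)|

lemma Ts_nonneg (N j i : ℕ) (p : ℤ) : 0 ≤ Ts N j i p := prod_nonneg fun _ _ => abs_nonneg _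

lemma norm_Pq {N : ℕ} (hN : 0 < N) (j i : ℕ) (p : ℤ) :
    ‖Pq N j i (2 * π * p / N)‖ = Ts N j i p * Ts N j i (-p) := by
  have hN' : (N : ℝ) ≠ 0 := by positivity
  unfold Pq Ts
  rw [norm_prod, ← prod_mul_distrib]
  refine prod_congr rfl fun s _ => ?_
  rw [← abs_mul]
  have e : (2 * Complex.cos (2 * π * p / N) - 2 * (Real.cos (2 * π * s / N) : ℂ)) =
      (((2 * Real.sin (π * (s + p) / N)) * (2 * Real.sin (π * (s + ((-p : ℤ) : ℝ)) / N)) : ℝ) : ℂ) := by
    have h1 : (2 * π * p / N : ℂ) = ((2 * π * p / N : ℝ) : ℂ) := by push_cast; rfl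
    rw [h1, ← Complex.ofReal_cos]
    have h2 := Real.cos_sub_cos (2 * π * p / N) (2 * π * s / N)
    have h3 : (2 * π * p / N + 2 * π * s / N) / 2 = π * (s + p) / N := by field_simp; ring
    have h4 : (2 * π * p / N - 2 * π * s / N) / 2 = -(π * (s + ((-p : ℤ) : ℝ)) / N) := by
      push_cast
      field_simp
      ring
    rw [h3, h4, Real.sin_neg] at h2
    have h5 : (2 * Real.sin (π * (s + p) / N)) * (2 * Real.sin (π * (s + ((-p : ℤ) : ℝ)) / N)) =
        2 * Real.cos (2 * π * p / N) - 2 * Real.cos (2 * π * s / N) := by linarith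
    rw [h5]
    push_cast
    rfl
  rw [e, Complex.norm_real, Real.norm_eq_abs]

lemma Ts_add {N : ℕ} (hN : 0 < N) (j i : ℕ) (p k : ℤ) : Ts N j i (p + k * N) = Ts N j i p := by
  have hN' : (N : ℝ) ≠ 0 := by positivity
  unfold Ts
  refine prod_congr rfl fun s _ => ?_
  have e : π * (s + ((p + k * N : ℤ) : ℝ)) / N = π * (s + p) / N + k * π := by
    push_cast
    field_simp
    ring
  rw [e, Real.sin_add_int_mul_pi, ← mul_assoc, mul_comm 2, mul_assoc, abs_mul]
  rcases Int.even_or_odd k with h | h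
  · rw [h.neg_one_zpow]; simp
  · rw [h.neg_one_zpow]; simp

lemma Lc_add_int (x : ℝ) (k : ℤ) : Lc (x + k) = Lc x := by
  have hp : Function.Periodic Lc 1 := fun x => Lc_add_one x
  have := hp.int_mul k x
  rwa [mul_one] at this

lemma Ts_zero {N j i : ℕ} {p : ℤ} (hN : 0 < N) (h1 : (j : ℤ) + p < N) (h2 : (N : ℤ) ≤ i + p) :
    Ts N j i p = 0 := by
  have hN' : (N : ℝ) ≠ 0 := by positivity
  unfold Ts
  refine prod_eq_zero (i := ((N : ℤ) - p).toNat) (mem_Ioc.2 ⟨by omega, by omega⟩) ?_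
  have e : ((((N : ℤ) - p).toNat : ℕ) : ℝ) = N - p := by
    have : ((((N : ℤ) - p).toNat : ℕ) : ℤ) = N - p := Int.toNat_of_nonneg (by omega)
    exact_mod_cast this
  rw [e, show π * ((N : ℝ) - p + p) / N = π by field_simp; ring, Real.sin_pi]
  simp

lemma Ts_eq {N j i : ℕ} {p : ℤ} (hji : j ≤ i) (h0 : 0 ≤ (j : ℤ) + p) (h1 : (i : ℤ) + p < N) :
    Ts N j i p = Sd N ((i : ℤ) + p).toNat / Sd N ((j : ℤ) + p).toNat := by
  induction i, hji using Nat.le_induction with
  | base =>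
    have := Sd_pos (N := N) (m := ((j : ℤ) + p).toNat) (by omega)
    unfold Ts
    rw [Ioc_self, prod_empty, div_self this.ne']
  | succ i hji ih =>
    have h2 := ih (by push_cast at h1; omega)
    have h3 : Ts N j (i + 1) p = Ts N j i p * |2 * Real.sin (π * (((i + 1 : ℕ) : ℝ) + p) / N)| := by
      unfold Ts
      rw [Finset.prod_Ioc_succ_top hji]
    have hN : (0 : ℝ) < N := by exact_mod_cast (by omega : 0 < N)
    have e1 : ((((i : ℤ) + p).toNat : ℕ) : ℝ) = i + p := by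
      have : ((((i : ℤ) + p).toNat : ℕ) : ℤ) = i + p := Int.toNat_of_nonneg (by omega)
      exact_mod_cast this
    have e2 : (((i + 1 : ℕ) : ℤ) + p).toNat = ((i : ℤ) + p).toNat + 1 := by omega
    rw [h3, h2, e2, Sd_succ, e1]
    have h4 : 0 < 2 * Real.sin (π * (((i + 1 : ℕ) : ℝ) + p) / N) := by
      have h5 : (0 : ℝ) ≤ (i : ℝ) + p := by exact_mod_cast (by omega : (0 : ℤ) ≤ i + p)
      have h6 : (((i + 1 : ℕ) : ℝ) + p) < N := by exact_mod_cast h1
      have h7 := sin_pi_pos (t := (((i + 1 : ℕ) : ℝ) + p) / N) (div_pos (by push_cast; linarith) hN)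
        (by rw [div_lt_one hN]; exact h6)
      rw [← mul_div_assoc] at h7
      linarith
    rw [abs_of_pos h4]
    push_cast
    rw [show π * ((i : ℝ) + 1 + p) / N = π * (i + p + 1) / N by ring]
    ring

/-- crude bound -/
lemma Ts_crude {ε : ℝ} (hε : 0 < ε) : ∀ᶠ N : ℕ in atTop, ∀ (p : ℤ) (j i : ℕ), j ≤ i → i < N →
    Ts N j i p ≤ Real.exp (N * (Lc ((j : ℝ) / N + p / N) - Lc ((i : ℝ) / N + p / N) + ε)) := by
  have hsb := Pool.Agent.Y681.TK.t_SB (ε / 2) (half_pos hε)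
  have hpoly : ∀ᶠ N : ℕ in atTop, 2 * √(N : ℝ) ≤ Real.exp (N * (ε / 2)) := by
    have h1 : Tendsto (fun x : ℝ => x / Real.exp (x * (ε / 2))) atTop (𝓝 0) := by
      have h2 := (Real.tendsto_pow_mul_exp_neg_atTop_nhds_zero 1)
      have h3 : Tendsto (fun x : ℝ => x * (ε / 2)) atTop atTop :=
        tendsto_id.atTop_mul_const (half_pos hε)
      have h4 := (h2.comp h3).const_mul (ε / 2)⁻¹
      rw [mul_zero] at h4
      refine h4.congr fun x => ?_
      simp only [Function.comp, pow_one, Real.exp_neg]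
      field_simp
    have h2 := h1.comp tendsto_natCast_atTop_atTop
    filter_upwards [h2.eventually_le_const (by norm_num : (0 : ℝ) < 1 / 2),
      eventually_ge_atTop 1] with N h3 hN
    simp only [Function.comp] at h3
    rw [div_le_iff₀ (Real.exp_pos _)] at h3
    have hN1 : (1 : ℝ) ≤ N := by exact_mod_cast hN
    have h4 : √(N : ℝ) ≤ N := by
      rw [Real.sqrt_le_left (by linarith)]
      nlinarith
    linarith
  filter_upwards [hsb, hpoly, eventually_gt_atTop 0] with N h1 h2 hN p j i hji hiN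
  have hN' : (0 : ℝ) < N := by exact_mod_cast hN
  obtain ⟨k, q, hq, hq0, hq1⟩ : ∃ (k q : ℤ), p = q + k * N ∧ 0 ≤ (j : ℤ) + q ∧ (j : ℤ) + q < N := by
    refine ⟨((j : ℤ) + p) / N, p - (((j : ℤ) + p) / N) * N, by ring, ?_, ?_⟩
    · have := Int.emod_nonneg ((j : ℤ) + p) (by omega : (N : ℤ) ≠ 0)
      rw [Int.emod_def] at this
      linarith [mul_comm (N : ℤ) (((j : ℤ) + p) / N)]
    · have := Int.emod_lt_of_pos ((j : ℤ) + p) (by omega : (0 : ℤ) < N)
      rw [Int.emod_def] at this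
      linarith [mul_comm (N : ℤ) (((j : ℤ) + p) / N)]
  have hL : ∀ m : ℕ, Lc ((m : ℝ) / N + p / N) = Lc (((m : ℝ) + q) / N) := by
    intro m
    rw [← Lc_add_int (((m : ℝ) + q) / N) k]
    congr 1
    rw [hq]
    push_cast
    field_simp
    ring
  rw [hL, hL, hq, Ts_add hN]
  rcases lt_or_ge ((i : ℤ) + q) N with h3 | h3
  · rw [Ts_eq hji hq0 h3]
    have e1 : ∀ m : ℕ, 0 ≤ (m : ℤ) + q → ((((m : ℤ) + q).toNat : ℕ) : ℝ) = m + q := by
      intro m hm
      have : ((((m : ℤ) + q).toNat : ℕ) : ℤ) = m + q := Int.toNat_of_nonneg hm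
      exact_mod_cast this
    have h4 := Sd_le (N := N) (m := ((i : ℤ) + q).toNat) (by omega)
    have h5 := h1 ((j : ℤ) + q).toNat (by omega)
    rw [e1 i (by omega)] at h4
    rw [e1 j hq0] at h5
    have h6 : 0 < Sd N ((j : ℤ) + q).toNat := Sd_pos (by omega)
    rw [div_eq_mul_inv]
    calc Sd N ((i : ℤ) + q).toNat * (Sd N ((j : ℤ) + q).toNat)⁻¹
        ≤ (2 * √N * Real.exp (-(N * Lc (((i : ℝ) + q) / N)))) *
          Real.exp (N * (Lc (((j : ℝ) + q) / N) + ε / 2)) :=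
          mul_le_mul h4 h5 (inv_nonneg.2 h6.le) (by positivity)
      _ ≤ (Real.exp (N * (ε / 2)) * Real.exp (-(N * Lc (((i : ℝ) + q) / N)))) *
          Real.exp (N * (Lc (((j : ℝ) + q) / N) + ε / 2)) := by gcongr
      _ = _ := by
          rw [← Real.exp_add, ← Real.exp_add]
          congr 1
          ring
  · rw [Ts_zero hN hq1 h3]
    positivity

/-- sharp bound -/
lemma Ts_near {δ₀ : ℝ} (h0 : 0 < δ₀) (h1 : δ₀ < 1 / 2) : ∃ C : ℝ, 0 < C ∧ ∀ᶠ N : ℕ in atTop,
    ∀ (p : ℤ) (j i : ℕ), j ≤ i → δ₀ * N ≤ j + p → (i : ℝ) + p ≤ (1 - δ₀) * N →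
    Ts N j i p ≤ C * Real.exp (N * (Lc ((j : ℝ) / N + p / N) - Lc ((i : ℝ) / N + p / N))) := by
  obtain ⟨C, hC, hS⟩ := Pool.Agent.Y681.TK.t_SDA.1 δ₀ h0 h1
  refine ⟨2 * C, by positivity, ?_⟩
  filter_upwards [hS, eventually_gt_atTop 0] with N h1' hN p j i hji hj hi
  have hN' : (0 : ℝ) < N := by exact_mod_cast hN
  have hj0 : 0 ≤ (j : ℤ) + p := by
    have : (0 : ℝ) < j + p := lt_of_lt_of_le (by positivity) hj
    exact_mod_cast this.le
  have hi0 : (i : ℤ) + p < N := by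
    have : (i : ℝ) + p < N := by nlinarith
    exact_mod_cast this
  have e1 : ∀ m : ℕ, 0 ≤ (m : ℤ) + p → ((((m : ℤ) + p).toNat : ℕ) : ℝ) = m + p := by
    intro m hm
    have : ((((m : ℤ) + p).toNat : ℕ) : ℤ) = m + p := Int.toNat_of_nonneg hm
    exact_mod_cast this
  have hji' : (j : ℝ) ≤ i := by exact_mod_cast hji
  rw [Ts_eq hji hj0 hi0]
  have h4 := Sd_le (N := N) (m := ((i : ℤ) + p).toNat) (by omega)
  have h5 := h1' ((j : ℤ) + p).toNat (by rw [e1 j hj0]; exact hj)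
    (by rw [e1 j hj0]; linarith)
  rw [e1 i (by omega)] at h4
  rw [e1 j hj0] at h5
  have h6 : 0 < Sd N ((j : ℤ) + p).toNat := Sd_pos (by omega)
  have hs : 0 < √(N : ℝ) := Real.sqrt_pos.2 hN'
  rw [div_eq_mul_inv]
  calc Sd N ((i : ℤ) + p).toNat * (Sd N ((j : ℤ) + p).toNat)⁻¹
      ≤ (2 * √N * Real.exp (-(N * Lc (((i : ℝ) + p) / N)))) *
        (C / √N * Real.exp (N * Lc (((j : ℝ) + p) / N))) :=
        mul_le_mul h4 h5 (inv_nonneg.2 h6.le) (by positivity)
    _ = 2 * C * Real.exp (N * (Lc ((j : ℝ) / N + p / N) - Lc ((i : ℝ) / N + p / N))) := by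
        rw [← add_div, ← add_div, mul_sub, sub_eq_add_neg, Real.exp_add]
        field_simp

end Pool.Agent.X132.FT
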