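import Pool.Agent.X132.FTc

/-!
# 3-braids with their axis: domination of the terms of the exact formula
-/

set_option autoImplicit false

namespace Pool.Agent.X132.FT

open Finset Filter Topology MeasureTheory
open scoped Real
open Pool.Agent.W711.HT (Sd vN)
open Pool.Agent.Y472.K (Lc Pq Ok co Qc cfg)
open Pool.Agent.Y988.TK (Lc_cont Lc_deriv Lc_sub Lc_half Lc_refl)

/-- the contribution of a configuration and of a residue `p` -/
noncomputable def tm (e n N : ℕ) [NeZero n] (m p : ℤ) (i j : Fin n → ℕ) : ℂ :=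
  Complex.exp (2 * π * Complex.I * m * p ^ 2 / N) * co n N i j * Qc n N i j (2 * π * p / N) *
    ∏ r, ((Sd N (i (r + 1)) / Sd N (j r) : ℝ) : ℂ) ^ (2 * e)

/-- the rate of a term -/
noncomputable def gr (e : ℕ) (x a a' b : ℝ) : ℝ :=
  Lc (a - b) + Lc (a' - b) + (Lc (b + x) - Lc (a' + x)) + (Lc (b - x) - Lc (a' - x)) +
    2 * e * (Lc b - Lc a')

lemma rate_sum {n : ℕ} [NeZero n] (e : ℕ) (x : ℝ) (a b : Fin n → ℝ) :
    ∑ r, gr e x (a r) (a (r + 1)) (b r) =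
      ∑ r, (Er e x (a r) (b r) + Er e x (a (r + 1)) (b r)) := by
  have key : ∀ f : ℝ → ℝ, ∑ r, f (a (r + 1)) = ∑ r, f (a r) := fun f =>
    Equiv.sum_comp (Equiv.addRight (1 : Fin n)) fun r => f (a r)
  have h1 : ∀ r, gr e x (a r) (a (r + 1)) (b r) =
      Er e x (a r) (b r) + Er e x (a (r + 1)) (b r) +
      ((1 / 2 * (Lc (a r + x) + Lc (a r - x)) + e * Lc (a r)) -
        (1 / 2 * (Lc (a (r + 1) + x) + Lc (a (r + 1) - x)) + e * Lc (a (r + 1)))) := by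
    intro r
    unfold gr Er
    ring
  rw [sum_congr rfl fun r _ => h1 r, sum_add_distrib, sum_sub_distrib,
    key fun t => 1 / 2 * (Lc (t + x) + Lc (t - x)) + e * Lc t, sub_self, add_zero]

/-- the size of a configuration -/
noncomputable def dst (d : ℝ) {n : ℕ} (x : ℝ) (a b : Fin n → ℝ) : ℝ :=
  x ^ 2 + (∑ r, (a r - (1 + d) / 2) ^ 2 + ∑ r, (b r - (1 - d) / 2) ^ 2)

lemma dst_nonneg (d : ℝ) {n : ℕ} (x : ℝ) (a b : Fin n → ℝ) : 0 ≤ dst d x a b := by
  unfold dst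
  positivity

lemma rate_le {n : ℕ} [NeZero n] {e : ℕ} {d : ℝ} (P : Par e d) {x : ℝ} (hx : |x| ≤ 1 / 2)
    (a b : Fin n → ℝ) (ha : ∀ r, a r ≤ 1) (hb : ∀ r, 0 ≤ b r) (h1 : ∀ r, b r ≤ a r)
    (h2 : ∀ r, b r ≤ a (r + 1)) :
    ∑ r, gr e x (a r) (a (r + 1)) (b r) ≤ 2 * n * he e d - 1 / 5000 * dst d x a b := by
  rw [rate_sum]
  have h3 : ∀ r, Er e x (a r) (b r) + Er e x (a (r + 1)) (b r) ≤
      2 * he e d - 1 / 10000 * (2 * x ^ 2 + ((a r - (1 + d) / 2) ^ 2 +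
        (a (r + 1) - (1 + d) / 2) ^ 2 + 2 * (b r - (1 - d) / 2) ^ 2)) := by
    intro r
    have := Er_bound P (hb r) (h1 r) (ha r) hx
    have := Er_bound P (hb r) (h2 r) (ha (r + 1)) hx
    linarith
  refine (sum_le_sum fun r _ => h3 r).trans ?_
  have key : ∑ r, (a (r + 1) - (1 + d) / 2) ^ 2 = ∑ r, (a r - (1 + d) / 2) ^ 2 :=
    Equiv.sum_comp (Equiv.addRight (1 : Fin n)) fun r => (a r - (1 + d) / 2) ^ 2
  simp only [sum_sub_distrib, sum_add_distrib, ← mul_sum, sum_const, card_univ,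
    Fintype.card_fin, nsmul_eq_mul]
  rw [key]
  unfold dst
  have hn : (1 : ℝ) ≤ n := by exact_mod_cast (Nat.one_le_iff_ne_zero.2 (NeZero.ne n))
  nlinarith [sq_nonneg x]

lemma norm_tm {e n N : ℕ} [NeZero n] (hN : 0 < N) (m p : ℤ) (i j : Fin n → ℕ)
    (hOk : Ok n N i j) : (N : ℝ) ^ n * ‖tm e n N m p i j‖ =
    ∏ r, (N * ((Sd N (i r - j r))⁻¹ * (Sd N (i (r + 1) - j r))⁻¹) *
      (Ts N (j r) (i (r + 1)) p * Ts N (j r) (i (r + 1)) (-p)) *
      Ts N (j r) (i (r + 1)) 0 ^ (2 * e)) := by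
  have h1 : ‖Complex.exp (2 * π * Complex.I * m * p ^ 2 / N)‖ = 1 := by
    rw [show (2 * π * Complex.I * m * p ^ 2 / N : ℂ) =
      ((2 * π * m * p ^ 2 / N : ℝ) : ℂ) * Complex.I by push_cast; ring,
      Complex.norm_exp_ofReal_mul_I]
  have h2 : ‖co n N i j‖ = ∏ r, ((Sd N (i r - j r))⁻¹ * (Sd N (i (r + 1) - j r))⁻¹) := by
    unfold co
    rw [norm_prod]
    refine prod_congr rfl fun r _ => ?_
    have p1 : 0 < Sd N (i r - j r) := Sd_pos (by have := hOk.lt r; omega)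
    have p2 : 0 < Sd N (i (r + 1) - j r) := Sd_pos (by have := hOk.lt (r + 1); omega)
    have hv : ∀ k : ℤ, ‖vN N ^ k‖ = 1 := by
      intro k
      have h : ‖vN N‖ = 1 := by
        unfold vN
        rw [Complex.norm_exp]
        simp
      rw [norm_zpow, h, one_zpow]
    rw [norm_div, hv, norm_mul, Complex.norm_real, Complex.norm_real, Real.norm_eq_abs,
      Real.norm_eq_abs, abs_of_pos p1, abs_of_pos p2, one_div, mul_inv]
  have h3 : ‖Qc n N i j (2 * π * p / N)‖ =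
      ∏ r, (Ts N (j r) (i (r + 1)) p * Ts N (j r) (i (r + 1)) (-p)) := by
    unfold Qc
    rw [norm_prod]
    exact prod_congr rfl fun r _ => norm_Pq hN _ _ _
  have h4 : ‖∏ r, ((Sd N (i (r + 1)) / Sd N (j r) : ℝ) : ℂ) ^ (2 * e)‖ =
      ∏ r, Ts N (j r) (i (r + 1)) 0 ^ (2 * e) := by
    rw [norm_prod]
    refine prod_congr rfl fun r _ => ?_
    have p1 : 0 < Sd N (i (r + 1)) := Sd_pos (hOk.lt (r + 1))
    have p2 : 0 < Sd N (j r) := Sd_pos ((hOk.le r).trans_lt (hOk.lt r))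
    have h5 := Ts_eq (N := N) (j := j r) (i := i (r + 1)) (p := 0) (hOk.le' r) (by omega)
      (by have := hOk.lt (r + 1); omega)
    simp only [add_zero, Int.toNat_natCast] at h5
    rw [norm_pow, Complex.norm_real, Real.norm_eq_abs, abs_of_pos (div_pos p1 p2), h5]
  unfold tm
  rw [norm_mul, norm_mul, norm_mul, h1, h2, h3, h4, one_mul]
  have h5 : (N : ℝ) ^ n = ∏ _r : Fin n, (N : ℝ) := by simp
  rw [h5, ← prod_mul_distrib, ← prod_mul_distrib, ← prod_mul_distrib]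
  refine prod_congr rfl fun r _ => ?_
  ring

lemma cast_sub_div {N i j : ℕ} (h : j ≤ i) : (((i - j : ℕ) : ℝ)) / N = (i : ℝ) / N - (j : ℝ) / N := by
  rw [Nat.cast_sub h, sub_div]

/-- the bound for a factor far from the centre -/
lemma factor_far (e : ℕ) (he1 : e ≤ 1) {ε : ℝ} (hε : 0 < ε) : ∀ᶠ N : ℕ in atTop,
    ∀ (p : ℤ) (i i' j : ℕ), i < N → i' < N → j ≤ i → j ≤ i' →
    N * ((Sd N (i - j))⁻¹ * (Sd N (i' - j))⁻¹) * (Ts N j i' p * Ts N j i' (-p)) *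
      Ts N j i' 0 ^ (2 * e) ≤
    Real.exp (N * (gr e ((p : ℝ) / N) ((i : ℝ) / N) ((i' : ℝ) / N) ((j : ℝ) / N) + 7 * ε)) := by
  have hpoly : ∀ᶠ N : ℕ in atTop, (N : ℝ) ≤ Real.exp (N * ε) := by
    have h1 : Tendsto (fun x : ℝ => x / Real.exp (x * ε)) atTop (𝓝 0) := by
      have h2 := (Real.tendsto_pow_mul_exp_neg_atTop_nhds_zero 1)
      have h3 : Tendsto (fun x : ℝ => x * ε) atTop atTop :=
        tendsto_id.atTop_mul_const hε
      have h4 := (h2.comp h3).const_mul ε⁻¹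
      rw [mul_zero] at h4
      refine h4.congr fun x => ?_
      simp only [Function.comp, pow_one, Real.exp_neg]
      field_simp
    have h2 := h1.comp tendsto_natCast_atTop_atTop
    filter_upwards [h2.eventually_le_const (by norm_num : (0 : ℝ) < 1)] with N h3
    simp only [Function.comp] at h3
    rw [div_le_iff₀ (Real.exp_pos _)] at h3
    linarith
  filter_upwards [Pool.Agent.Y681.TK.t_SB ε hε, Ts_crude hε, hpoly] with N h1 h2 h3 p i i' j hi hi'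
    hji hji'
  have a1 := h1 (i - j) (by omega)
  have a2 := h1 (i' - j) (by omega)
  have a3 := h2 p j i' hji' hi'
  have a4 := h2 (-p) j i' hji' hi'
  have a5 := h2 0 j i' hji' hi'
  rw [cast_sub_div hji] at a1
  rw [cast_sub_div hji'] at a2
  have p1 : 0 < Sd N (i - j) := Sd_pos (by omega)
  have p2 : 0 < Sd N (i' - j) := Sd_pos (by omega)
  have t1 := Ts_nonneg N j i' p
  have t2 := Ts_nonneg N j i' (-p)
  have t3 := Ts_nonneg N j i' 0
  rw [Int.cast_neg, neg_div, ← sub_eq_add_neg, ← sub_eq_add_neg] at a4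
  rw [Int.cast_zero, zero_div, add_zero, add_zero] at a5
  have a6 := pow_le_pow_left₀ t3 a5 (2 * e)
  rw [← Real.exp_nat_mul] at a6
  have b1 := mul_le_mul h3 (mul_le_mul a1 a2 (inv_nonneg.2 p2.le) (Real.exp_pos _).le)
    (mul_nonneg (inv_nonneg.2 p1.le) (inv_nonneg.2 p2.le)) (Real.exp_pos _).le
  have b2 := mul_le_mul b1 (mul_le_mul a3 a4 t2 (Real.exp_pos _).le) (mul_nonneg t1 t2)
    (by positivity)
  have b3 := mul_le_mul b2 a6 (by positivity) (by positivity)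
  refine b3.trans ?_
  rw [← Real.exp_add, ← Real.exp_add, ← Real.exp_add, ← Real.exp_add, ← Real.exp_add]
  refine Real.exp_le_exp.2 ?_
  have he : (e : ℝ) ≤ 1 := by exact_mod_cast he1
  have hNε : 0 ≤ (N : ℝ) * ε := by positivity
  unfold gr
  push_cast
  nlinarith

/-- the bound for a factor near the centre -/
lemma factor_near (e : ℕ) {d : ℝ} (hd1 : 1 / 3 ≤ d) (hd2 : d ≤ 1 / 2) : ∃ K : ℝ, 0 < K ∧
    ∀ᶠ N : ℕ in atTop, ∀ (p : ℤ) (i i' j : ℕ), j ≤ i → j ≤ i' →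
    |(i : ℝ) / N - (1 + d) / 2| ≤ 1 / 16 → |(i' : ℝ) / N - (1 + d) / 2| ≤ 1 / 16 →
    |(j : ℝ) / N - (1 - d) / 2| ≤ 1 / 16 → |(p : ℝ) / N| ≤ 1 / 16 →
    N * ((Sd N (i - j))⁻¹ * (Sd N (i' - j))⁻¹) * (Ts N j i' p * Ts N j i' (-p)) *
      Ts N j i' 0 ^ (2 * e) ≤
    K * Real.exp (N * gr e ((p : ℝ) / N) ((i : ℝ) / N) ((i' : ℝ) / N) ((j : ℝ) / N)) := by
  obtain ⟨C₁, hC₁, HS⟩ := Pool.Agent.Y681.TK.t_SDA.1 (1 / 8) (by norm_num) (by norm_num)
  obtain ⟨C₂, hC₂, HT⟩ := Ts_near (δ₀ := 1 / 8) (by norm_num) (by norm_num)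
  refine ⟨C₁ * C₁ * (C₂ * C₂) * C₂ ^ (2 * e), by positivity, ?_⟩
  filter_upwards [HS, HT, eventually_gt_atTop 0] with N h1 h2 hN p i i' j hji hji' ki ki' kj kp
  have hN' : (0 : ℝ) < N := by exact_mod_cast hN
  have hs : 0 < √(N : ℝ) := Real.sqrt_pos.2 hN'
  obtain ⟨ki1, ki2⟩ := abs_le.1 ki
  obtain ⟨ki1', ki2'⟩ := abs_le.1 ki'
  obtain ⟨kj1, kj2⟩ := abs_le.1 kj
  obtain ⟨kp1, kp2⟩ := abs_le.1 kp
  have lo : ∀ t : ℝ, 1 / 8 ≤ t / N → 1 / 8 * N ≤ t := fun t ht => by rwa [le_div_iff₀ hN'] at ht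
  have hi : ∀ t : ℝ, t / N ≤ 1 - 1 / 8 → t ≤ (1 - 1 / 8) * N := fun t ht => by
    rwa [div_le_iff₀ hN'] at ht
  have hsub : ∀ k, j ≤ k → |(k : ℝ) / N - (1 + d) / 2| ≤ 1 / 16 →
      (Sd N (k - j))⁻¹ ≤ C₁ / √N * Real.exp (N * Lc ((k : ℝ) / N - (j : ℝ) / N)) := by
    intro k hk hk'
    obtain ⟨k1, k2⟩ := abs_le.1 hk'
    have := h1 (k - j) (lo _ (by rw [cast_sub_div hk]; linarith))
      (hi _ (by rw [cast_sub_div hk]; linarith))
    rwa [cast_sub_div hk] at this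
  have hT : ∀ q : ℤ, |(q : ℝ) / N| ≤ 1 / 16 → Ts N j i' q ≤
      C₂ * Real.exp (N * (Lc ((j : ℝ) / N + q / N) - Lc ((i' : ℝ) / N + q / N))) := by
    intro q hq
    obtain ⟨q1, q2⟩ := abs_le.1 hq
    exact h2 q j i' hji' (lo _ (by rw [add_div]; linarith)) (hi _ (by rw [add_div]; linarith))
  have a1 := hsub i hji ki
  have a2 := hsub i' hji' ki'
  have a3 := hT p kp
  have a4 := hT (-p) (by rw [Int.cast_neg, neg_div, abs_neg]; exact kp)
  have a5 := hT 0 (by simp)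
  have p1 : 0 ≤ (Sd N (i - j))⁻¹ := by
    refine inv_nonneg.2 (Sd_pos ?_).le
    have : (((i - j : ℕ) : ℝ)) / N < 1 := by rw [cast_sub_div hji]; linarith
    rw [div_lt_one hN'] at this
    exact_mod_cast this
  have p2 : 0 ≤ (Sd N (i' - j))⁻¹ := by
    refine inv_nonneg.2 (Sd_pos ?_).le
    have : (((i' - j : ℕ) : ℝ)) / N < 1 := by rw [cast_sub_div hji']; linarith
    rw [div_lt_one hN'] at this
    exact_mod_cast this
  have t1 := Ts_nonneg N j i' p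
  have t2 := Ts_nonneg N j i' (-p)
  have t3 := Ts_nonneg N j i' 0
  rw [Int.cast_neg, neg_div, ← sub_eq_add_neg, ← sub_eq_add_neg] at a4
  rw [Int.cast_zero, zero_div, add_zero, add_zero] at a5
  have a6 := pow_le_pow_left₀ t3 a5 (2 * e)
  rw [mul_pow, ← Real.exp_nat_mul] at a6
  have b1 := mul_le_mul_of_nonneg_left (mul_le_mul a1 a2 p2 (by positivity)) hN'.le
  have b2 := mul_le_mul b1 (mul_le_mul a3 a4 t2 (by positivity)) (mul_nonneg t1 t2)
    (by positivity)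
  have b3 := mul_le_mul b2 a6 (by positivity) (by positivity)
  refine b3.trans (le_of_eq ?_)
  have hss : √(N : ℝ) * √N = N := Real.mul_self_sqrt hN'.le
  set E1 := Real.exp (N * Lc ((i : ℝ) / N - (j : ℝ) / N)) with hE1
  set E2 := Real.exp (N * Lc ((i' : ℝ) / N - (j : ℝ) / N)) with hE2
  set E3 := Real.exp (N * (Lc ((j : ℝ) / N + p / N) - Lc ((i' : ℝ) / N + p / N))) with hE3
  set E4 := Real.exp (N * (Lc ((j : ℝ) / N - p / N) - Lc ((i' : ℝ) / N - p / N))) with hE4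
  set E5 := Real.exp (((2 * e : ℕ) : ℝ) * (N * (Lc ((j : ℝ) / N) - Lc ((i' : ℝ) / N)))) with hE5
  have hE : Real.exp (N * gr e ((p : ℝ) / N) ((i : ℝ) / N) ((i' : ℝ) / N) ((j : ℝ) / N)) =
      E1 * E2 * E3 * E4 * E5 := by
    rw [hE1, hE2, hE3, hE4, hE5, ← Real.exp_add, ← Real.exp_add, ← Real.exp_add, ← Real.exp_add]
    congr 1
    unfold gr
    push_cast
    ring
  rw [hE]
  have h6 : (N : ℝ) * (C₁ / √N * E1 * (C₁ / √N * E2)) = C₁ * C₁ * (E1 * E2) := by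
    field_simp
    rw [Real.sq_sqrt hN'.le]
  rw [h6]
  ring

theorem dom {e : ℕ} {d : ℝ} (P : Par e d) (n : ℕ) [NeZero n] : ∃ C : ℝ, 0 < C ∧
    ∀ᶠ N : ℕ in atTop, ∀ (m p : ℤ) (i j : Fin n → ℕ), Ok n N i j → |(p : ℝ) / N| ≤ 1 / 2 →
    (N : ℝ) ^ n * ‖tm e n N m p i j‖ * Real.exp (-(N * (2 * n * he e d))) ≤
      C * Real.exp (-(1 / 10000 * (N * dst d ((p : ℝ) / N) (fun r => (i r : ℝ) / N)
        (fun r => (j r : ℝ) / N)))) := by
  obtain ⟨K, hK, HK⟩ := factor_near e P.d1 P.d2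
  have hn : (0 : ℝ) < n := by exact_mod_cast Nat.pos_of_ne_zero (NeZero.ne n)
  obtain ⟨ε, hε⟩ : ∃ ε : ℝ, ε = 1 / 10000 * (1 / 16) ^ 2 / (7 * n) := ⟨_, rfl⟩
  have hε0 : 0 < ε := by rw [hε]; positivity
  have hεn : n * (7 * ε) = 1 / 10000 * (1 / 16) ^ 2 := by rw [hε]; field_simp
  refine ⟨max (K ^ n) 1, lt_max_of_lt_right one_pos, ?_⟩
  filter_upwards [HK, factor_far e P.e1 hε0, eventually_gt_atTop 0] with N h1 h2 hN m p i j hOk hp
  have hN' : (0 : ℝ) < N := by exact_mod_cast hN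
  have hle : ∀ a b : ℕ, a ≤ b → (a : ℝ) / N ≤ (b : ℝ) / N := fun a b h => by
    refine div_le_div_of_nonneg_right ?_ hN'.le
    exact_mod_cast h
  have hr := rate_le P hp (fun r => (i r : ℝ) / N) (fun r => (j r : ℝ) / N)
    (fun r => by
      rw [div_le_one hN']
      exact_mod_cast (hOk.lt r).le) (fun r => by positivity) (fun r => hle _ _ (hOk.le r))
    (fun r => hle _ _ (hOk.le' r))
  have hd0 := dst_nonneg d ((p : ℝ) / N) (fun r => (i r : ℝ) / N) (fun r => (j r : ℝ) / N)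
  set D := dst d ((p : ℝ) / N) (fun r => (i r : ℝ) / N) (fun r => (j r : ℝ) / N) with hD
  have fac_nn : ∀ r, 0 ≤ N * ((Sd N (i r - j r))⁻¹ * (Sd N (i (r + 1) - j r))⁻¹) *
      (Ts N (j r) (i (r + 1)) p * Ts N (j r) (i (r + 1)) (-p)) *
      Ts N (j r) (i (r + 1)) 0 ^ (2 * e) := by
    intro r
    have p1 : 0 < Sd N (i r - j r) := Sd_pos (by have := hOk.lt r; omega)
    have p2 : 0 < Sd N (i (r + 1) - j r) := Sd_pos (by have := hOk.lt (r + 1); omega)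
    have t1 := Ts_nonneg N (j r) (i (r + 1)) p
    have t2 := Ts_nonneg N (j r) (i (r + 1)) (-p)
    have t3 := Ts_nonneg N (j r) (i (r + 1)) 0
    positivity
  rw [norm_tm hN m p i j hOk]
  by_cases hnear : |(p : ℝ) / N| ≤ 1 / 16 ∧ ∀ r, |(i r : ℝ) / N - (1 + d) / 2| ≤ 1 / 16 ∧
      |(j r : ℝ) / N - (1 - d) / 2| ≤ 1 / 16
  · obtain ⟨kp, kr⟩ := hnear
    have h3 := prod_le_prod (s := (univ : Finset (Fin n))) (fun r _ => fac_nn r) (fun r _ =>
      h1 p (i r) (i (r + 1)) (j r) (hOk.le r) (hOk.le' r) (kr r).1 (kr (r + 1)).1 (kr r).2 kp)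
    have h3' : ∏ r : Fin n, (K * Real.exp (N * gr e ((p : ℝ) / N) ((i r : ℝ) / N)
        ((i (r + 1) : ℝ) / N) ((j r : ℝ) / N))) = K ^ n * Real.exp (N * ∑ r, gr e ((p : ℝ) / N)
        ((i r : ℝ) / N) ((i (r + 1) : ℝ) / N) ((j r : ℝ) / N)) := by
      rw [prod_mul_distrib, prod_const, card_univ, Fintype.card_fin, ← Real.exp_sum, ← mul_sum]
    rw [h3'] at h3
    calc _ ≤ K ^ n * Real.exp (N * ∑ r, gr e ((p : ℝ) / N) ((i r : ℝ) / N) ((i (r + 1) : ℝ) / N)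
          ((j r : ℝ) / N)) * Real.exp (-(N * (2 * n * he e d))) :=
          mul_le_mul_of_nonneg_right h3 (Real.exp_pos _).le
      _ = K ^ n * Real.exp (N * (∑ r, gr e ((p : ℝ) / N) ((i r : ℝ) / N) ((i (r + 1) : ℝ) / N)
          ((j r : ℝ) / N) - 2 * n * he e d)) := by
          rw [mul_assoc, ← Real.exp_add]
          congr 2
          ring
      _ ≤ max (K ^ n) 1 * Real.exp (-(1 / 10000 * (N * D))) := by
          refine mul_le_mul (le_max_left _ _) (Real.exp_le_exp.2 ?_) (Real.exp_pos _).le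
            (by positivity)
          have h4 := mul_le_mul_of_nonneg_left hr hN'.le
          have h5 : 0 ≤ (N : ℝ) * D := mul_nonneg hN'.le hd0
          linarith
  · have h3 := prod_le_prod (s := (univ : Finset (Fin n))) (fun r _ => fac_nn r) (fun r _ =>
      h2 p (i r) (i (r + 1)) (j r) (hOk.lt r) (hOk.lt (r + 1)) (hOk.le r) (hOk.le' r))
    rw [← Real.exp_sum, ← mul_sum, sum_add_distrib, sum_const, card_univ, Fintype.card_fin,
      nsmul_eq_mul, hεn] at h3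
    have hfar : (1 / 16 : ℝ) ^ 2 ≤ D := by
      have hsq : ∀ t : ℝ, ¬ |t| ≤ 1 / 16 → (1 / 16 : ℝ) ^ 2 ≤ t ^ 2 := by
        intro t ht
        rw [← sq_abs t]
        exact pow_le_pow_left₀ (by norm_num) (not_le.1 ht).le 2
      have s1 : ∀ r, ((i r : ℝ) / N - (1 + d) / 2) ^ 2 ≤
          ∑ r, ((i r : ℝ) / N - (1 + d) / 2) ^ 2 := fun r =>
        single_le_sum (f := fun r => ((i r : ℝ) / N - (1 + d) / 2) ^ 2)
          (fun r _ => sq_nonneg _) (mem_univ r)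
      have s2 : ∀ r, ((j r : ℝ) / N - (1 - d) / 2) ^ 2 ≤
          ∑ r, ((j r : ℝ) / N - (1 - d) / 2) ^ 2 := fun r =>
        single_le_sum (f := fun r => ((j r : ℝ) / N - (1 - d) / 2) ^ 2)
          (fun r _ => sq_nonneg _) (mem_univ r)
      have s3 : 0 ≤ ∑ r, ((i r : ℝ) / N - (1 + d) / 2) ^ 2 := sum_nonneg fun r _ => sq_nonneg _
      have s4 : 0 ≤ ∑ r, ((j r : ℝ) / N - (1 - d) / 2) ^ 2 := sum_nonneg fun r _ => sq_nonneg _
      have s5 := sq_nonneg ((p : ℝ) / N)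
      rw [hD]
      unfold dst
      rw [not_and_or] at hnear
      rcases hnear with h | h
      · have := hsq _ h
        linarith
      · push Not at h
        obtain ⟨r, hr'⟩ := h
        by_cases h7 : |(i r : ℝ) / N - (1 + d) / 2| ≤ 1 / 16
        · have := hsq _ (not_le.2 (hr' h7))
          have := s2 r
          linarith
        · have := hsq _ h7
          have := s1 r
          linarith
    calc _ ≤ Real.exp (N * (∑ r, gr e ((p : ℝ) / N) ((i r : ℝ) / N) ((i (r + 1) : ℝ) / N)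
          ((j r : ℝ) / N) + 1 / 10000 * (1 / 16) ^ 2)) * Real.exp (-(N * (2 * n * he e d))) :=
          mul_le_mul_of_nonneg_right h3 (Real.exp_pos _).le
      _ = 1 * Real.exp (N * (∑ r, gr e ((p : ℝ) / N) ((i r : ℝ) / N) ((i (r + 1) : ℝ) / N)
          ((j r : ℝ) / N) - 2 * n * he e d + 1 / 10000 * (1 / 16) ^ 2)) := by
          rw [one_mul, ← Real.exp_add]
          congr 1
          ring
      _ ≤ max (K ^ n) 1 * Real.exp (-(1 / 10000 * (N * D))) := by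
          refine mul_le_mul (le_max_right _ _) (Real.exp_le_exp.2 ?_) (Real.exp_pos _).le
            (by positivity)
          have h4 := mul_le_mul_of_nonneg_left hr hN'.le
          have h5 := mul_le_mul_of_nonneg_left hfar hN'.le
          nlinarith

end Pool.Agent.X132.FT
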