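import Pool.Agent.X132.FTd
import Pool.Agent.Y180.TK.Pt

/-!
# 3-braids with their axis: the limit of the terms near the maximum
-/

set_option autoImplicit false

namespace Pool.Agent.X132.FT

open Finset Filter Topology MeasureTheory
open scoped Real
open Pool.Agent.W711.HT (Sd vN)
open Pool.Agent.Y472.K (Lc Pq Ok co Qc cfg)
open Pool.Agent.Y988.TK (Lc_cont Lc_deriv Lc_sub Lc_half Lc_refl)
open Pool.Agent.Y180.TK (Rt tc Lc_exp)

lemma Rt_add {h g : ℕ → ℝ} {α β : ℝ} (hh : Rt h α) (hg : Rt g β) :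
    Rt (fun N => h N + g N) (α + β) := by
  refine (Tendsto.add hh hg).congr fun N => ?_
  ring

/-- `π cot π t` -/
noncomputable def ct (t : ℝ) : ℝ := π * Real.cos (π * t) / Real.sin (π * t)

lemma ct_refl (t : ℝ) : ct (1 - t) = -ct t := by
  unfold ct
  rw [show π * (1 - t) = π - π * t by ring, Real.sin_pi_sub, Real.cos_pi_sub]
  ring

lemma ct_nonneg {t : ℝ} (h0 : 0 < t) (h1 : t ≤ 1 / 2) : 0 ≤ ct t := by
  have hp := Real.pi_pos
  have h2 : 0 ≤ Real.cos (π * t) := Real.cos_nonneg_of_mem_Icc ⟨by nlinarith, by nlinarith⟩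
  have h3 := sin_pi_pos h0 (by linarith)
  unfold ct
  positivity

lemma ct_pos {t : ℝ} (h0 : 0 < t) (h1 : t < 1 / 2) : 0 < ct t := by
  have hp := Real.pi_pos
  have h2 : 0 < Real.cos (π * t) := Real.cos_pos_of_mem_Ioo ⟨by nlinarith, by nlinarith⟩
  have h3 := sin_pi_pos h0 (by linarith)
  unfold ct
  positivity

/-- the quadratic form of a pair -/
noncomputable def qf (e : ℕ) (d X A B : ℝ) : ℝ :=
  ct d * (A - B) ^ 2 / 2 + 1 / 2 * ct ((1 - d) / 2) * ((1 + e) * (A ^ 2 + B ^ 2) + 2 * X ^ 2)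

lemma Er_exp {e : ℕ} {d : ℝ} (P : Par e d) {x a b : ℕ → ℝ} {X A B : ℝ} (hx : Rt x X)
    (ha : Rt (fun N => a N - (1 + d) / 2) A) (hb : Rt (fun N => b N - (1 - d) / 2) B) :
    Tendsto (fun N : ℕ => (N : ℝ) * (Er e (x N) (a N) (b N) - he e d)) atTop
      (𝓝 (-(qf e d X A B))) := by
  have hd1 := P.d1
  have hd2 := P.d2
  have l1 := Lc_exp (d := d) (by linarith) (by linarith) (ha.sub hb)
  have l2 := Lc_exp (d := (1 - d) / 2) (by linarith) (by linarith) (Rt_add hb hx)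
  have l3 := Lc_exp (d := (1 - d) / 2) (by linarith) (by linarith) (hb.sub hx)
  have l4 := Lc_exp (d := (1 + d) / 2) (by linarith) (by linarith) (Rt_add ha hx)
  have l5 := Lc_exp (d := (1 + d) / 2) (by linarith) (by linarith) (ha.sub hx)
  have l6 := Lc_exp (d := (1 - d) / 2) (by linarith) (by linarith) hb
  have l7 := Lc_exp (d := (1 + d) / 2) (by linarith) (by linarith) ha
  have hs : Real.sin (π * ((1 + d) / 2)) = Real.sin (π * ((1 - d) / 2)) := by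
    rw [← Real.sin_pi_sub]
    congr 1
    ring
  have hc := Er_centre e d
  have h := ((((l1.add (l2.const_mul (1 / 2))).add (l3.const_mul (1 / 2))).sub
    (l4.const_mul (1 / 2))).sub (l5.const_mul (1 / 2))).add
    ((l6.const_mul (e : ℝ)).sub (l7.const_mul (e : ℝ)))
  have elim : (-(π * Real.cos (π * d) / Real.sin (π * d) * (A - B) ^ 2 / 2) +
      1 / 2 * -(π * Real.cos (π * ((1 - d) / 2)) / Real.sin (π * ((1 - d) / 2)) * (B + X) ^ 2 / 2) +
      1 / 2 * -(π * Real.cos (π * ((1 - d) / 2)) / Real.sin (π * ((1 - d) / 2)) * (B - X) ^ 2 / 2) -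
      1 / 2 * -(π * Real.cos (π * ((1 + d) / 2)) / Real.sin (π * ((1 + d) / 2)) * (A + X) ^ 2 / 2) -
      1 / 2 * -(π * Real.cos (π * ((1 + d) / 2)) / Real.sin (π * ((1 + d) / 2)) * (A - X) ^ 2 / 2) +
      (e * -(π * Real.cos (π * ((1 - d) / 2)) / Real.sin (π * ((1 - d) / 2)) * B ^ 2 / 2) -
      e * -(π * Real.cos (π * ((1 + d) / 2)) / Real.sin (π * ((1 + d) / 2)) * A ^ 2 / 2))) =
      -(qf e d X A B) := by
    have h1 : π * Real.cos (π * ((1 + d) / 2)) / Real.sin (π * ((1 + d) / 2)) =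
        -(π * Real.cos (π * ((1 - d) / 2)) / Real.sin (π * ((1 - d) / 2))) := by
      have := ct_refl ((1 - d) / 2)
      rw [show 1 - (1 - d) / 2 = (1 + d) / 2 by ring] at this
      exact this
    rw [h1]
    unfold qf ct
    ring
  rw [elim] at h
  refine h.congr fun N => ?_
  rw [← hc]
  unfold Er
  rw [show d + (a N - (1 + d) / 2 - (b N - (1 - d) / 2)) = a N - b N by ring,
    show (1 - d) / 2 + (b N - (1 - d) / 2 + x N) = b N + x N by ring,
    show (1 - d) / 2 + (b N - (1 - d) / 2 - x N) = b N - x N by ring,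
    show (1 + d) / 2 + (a N - (1 + d) / 2 + x N) = a N + x N by ring,
    show (1 + d) / 2 + (a N - (1 + d) / 2 - x N) = a N - x N by ring,
    show (1 - d) / 2 + (b N - (1 - d) / 2) = b N by ring,
    show (1 + d) / 2 + (a N - (1 + d) / 2) = a N by ring,
    show (1 + d) / 2 - (1 - d) / 2 = d by ring, add_zero, sub_zero, add_zero, sub_zero, hs]
  linear_combination ((N : ℝ) * ((a N - (1 + d) / 2) - (b N - (1 - d) / 2))) * P.crit

/-! ### Normalised products of sines -/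

/-- the normalised product of sines -/
noncomputable def An (N m : ℕ) : ℝ := Sd N m * Real.exp (N * Lc (m / N)) / √N

lemma An_pos {N m : ℕ} (h : m < N) : 0 < An N m := by
  have h1 := Sd_pos h
  have h2 : (0 : ℝ) < N := by exact_mod_cast (by omega : 0 < N)
  unfold An
  positivity

lemma Sd_An {N m : ℕ} (hN : 0 < N) : Sd N m = An N m * √N * Real.exp (-(N * Lc (m / N))) := by
  have h2 : (0 : ℝ) < N := by exact_mod_cast hN
  have h3 := Real.sqrt_pos.2 h2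
  unfold An
  rw [Real.exp_neg]
  field_simp

lemma Ts_An {N j i : ℕ} {p : ℤ} (hji : j ≤ i) (h0 : 0 ≤ (j : ℤ) + p) (h1 : (i : ℤ) + p < N) :
    Ts N j i p = An N ((i : ℤ) + p).toNat / An N ((j : ℤ) + p).toNat *
      Real.exp (N * (Lc ((j : ℝ) / N + p / N) - Lc ((i : ℝ) / N + p / N))) := by
  have hN : 0 < N := by omega
  have hN' : (0 : ℝ) < N := by exact_mod_cast hN
  have hs := Real.sqrt_pos.2 hN'
  have e1 : ∀ m : ℕ, 0 ≤ (m : ℤ) + p → ((((m : ℤ) + p).toNat : ℕ) : ℝ) = m + p := by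
    intro m hm
    have : ((((m : ℤ) + p).toNat : ℕ) : ℤ) = m + p := Int.toNat_of_nonneg hm
    exact_mod_cast this
  have h2 := An_pos (N := N) (m := ((j : ℤ) + p).toNat) (by omega)
  rw [Ts_eq hji h0 h1, Sd_An hN, Sd_An hN, e1 i (by omega), e1 j h0, ← add_div, ← add_div,
    mul_sub, sub_eq_add_neg, Real.exp_add, Real.exp_neg (N * Lc (((j : ℝ) + p) / N))]
  field_simp

/-- a factor, normalised -/
noncomputable def Bn (e N : ℕ) (p : ℤ) (i i' j : ℕ) : ℝ :=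
  (An N (i - j))⁻¹ * (An N (i' - j))⁻¹ *
    (An N ((i' : ℤ) + p).toNat / An N ((j : ℤ) + p).toNat *
      (An N ((i' : ℤ) + (-p)).toNat / An N ((j : ℤ) + (-p)).toNat)) *
    (An N i' / An N j) ^ (2 * e)

lemma factor_eq (e : ℕ) {N i i' j : ℕ} {p : ℤ} (hi : i < N) (hi' : i' < N) (hji : j ≤ i)
    (hji' : j ≤ i') (h1 : 0 ≤ (j : ℤ) + p) (h2 : 0 ≤ (j : ℤ) + (-p)) (h3 : (i' : ℤ) + p < N)
    (h4 : (i' : ℤ) + (-p) < N) :
    N * ((Sd N (i - j))⁻¹ * (Sd N (i' - j))⁻¹) * (Ts N j i' p * Ts N j i' (-p)) *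
      Ts N j i' 0 ^ (2 * e) =
    Bn e N p i i' j *
      Real.exp (N * gr e ((p : ℝ) / N) ((i : ℝ) / N) ((i' : ℝ) / N) ((j : ℝ) / N)) := by
  have hN : 0 < N := by omega
  have hN' : (0 : ℝ) < N := by exact_mod_cast hN
  have hs := Real.sqrt_pos.2 hN'
  have a5 := Ts_An (N := N) (p := 0) hji' (by omega) (by omega)
  rw [Int.cast_zero, zero_div, add_zero, add_zero, add_zero, add_zero, Int.toNat_natCast,
    Int.toNat_natCast] at a5
  have q1 := An_pos (N := N) (m := i - j) (by omega)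
  have q2 := An_pos (N := N) (m := i' - j) (by omega)
  rw [Ts_An hji' h1 h3, Ts_An hji' h2 h4, a5, Sd_An (m := i - j) hN, Sd_An (m := i' - j) hN,
    cast_sub_div hji, cast_sub_div hji', Int.cast_neg, neg_div,
    ← sub_eq_add_neg ((j : ℝ) / N), ← sub_eq_add_neg ((i' : ℝ) / N), mul_pow, ← Real.exp_nat_mul]
  set E1 := Real.exp (N * Lc ((i : ℝ) / N - (j : ℝ) / N)) with hE1
  set E2 := Real.exp (N * Lc ((i' : ℝ) / N - (j : ℝ) / N)) with hE2
  set E3 := Real.exp (N * (Lc ((j : ℝ) / N + p / N) - Lc ((i' : ℝ) / N + p / N))) with hE3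
  set E4 := Real.exp (N * (Lc ((j : ℝ) / N - p / N) - Lc ((i' : ℝ) / N - p / N))) with hE4
  set E5 := Real.exp (((2 * e : ℕ) : ℝ) * (N * (Lc ((j : ℝ) / N) - Lc ((i' : ℝ) / N)))) with hE5
  have hE : Real.exp (N * gr e ((p : ℝ) / N) ((i : ℝ) / N) ((i' : ℝ) / N) ((j : ℝ) / N)) =
      E1 * E2 * E3 * E4 * E5 := by
    rw [hE1, hE2, hE3, hE4, hE5, ← Real.exp_add, ← Real.exp_add, ← Real.exp_add, ← Real.exp_add]
    congr 1
    unfold gr
    push_cast
    ring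
  have n1 : Real.exp (-(N * Lc ((i : ℝ) / N - (j : ℝ) / N))) = E1⁻¹ := by rw [Real.exp_neg]
  have n2 : Real.exp (-(N * Lc ((i' : ℝ) / N - (j : ℝ) / N))) = E2⁻¹ := by rw [Real.exp_neg]
  have p1 : 0 < E1 := Real.exp_pos _
  have p2 : 0 < E2 := Real.exp_pos _
  rw [hE, n1, n2]
  have h6 : (N : ℝ) * ((An N (i - j) * √N * E1⁻¹)⁻¹ * (An N (i' - j) * √N * E2⁻¹)⁻¹) =
      (An N (i - j))⁻¹ * (An N (i' - j))⁻¹ * (E1 * E2) := by
    field_simp
    rw [Real.sq_sqrt hN'.le]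
  rw [h6]
  unfold Bn
  ring

/-- the phase -/
noncomputable def phs (n N : ℕ) [NeZero n] (m p : ℤ) (i j : Fin n → ℕ) : ℂ :=
  Complex.exp (2 * π * Complex.I * m * p ^ 2 / N) * ∏ r, vN N ^ (((i r : ℤ) - i (r + 1)) * j r)

lemma Pq_pos {N j i : ℕ} {p : ℤ} (h1 : 0 ≤ (j : ℤ) + p) (h2 : 0 ≤ (j : ℤ) + (-p))
    (h3 : (i : ℤ) + p < N) (h4 : (i : ℤ) + (-p) < N) (hN : 0 < N) :
    Pq N j i (2 * π * p / N) = ((Ts N j i p * Ts N j i (-p) : ℝ) : ℂ) := by
  have hN' : (N : ℝ) ≠ 0 := by positivity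
  have hNp : (0 : ℝ) < N := by exact_mod_cast hN
  unfold Pq Ts
  rw [← prod_mul_distrib, Complex.ofReal_prod]
  refine prod_congr rfl fun s hs => ?_
  rw [mem_Ioc] at hs
  have hpos : ∀ q : ℤ, 0 ≤ (j : ℤ) + q → (i : ℤ) + q < N →
      0 < 2 * Real.sin (π * (s + q) / N) := by
    intro q hq1 hq2
    have h5 : (0 : ℝ) < (s : ℝ) + q := by exact_mod_cast (by omega : (0 : ℤ) < s + q)
    have h6 : (s : ℝ) + q < N := by exact_mod_cast (by omega : (s : ℤ) + q < N)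
    have h7 := sin_pi_pos (t := ((s : ℝ) + q) / N) (div_pos h5 hNp)
      (by rw [div_lt_one hNp]; exact h6)
    rw [← mul_div_assoc] at h7
    linarith
  rw [abs_of_pos (hpos p h1 h3), abs_of_pos (hpos (-p) h2 h4)]
  have h1' : (2 * π * p / N : ℂ) = ((2 * π * p / N : ℝ) : ℂ) := by push_cast; rfl
  rw [h1', ← Complex.ofReal_cos]
  have h2' := Real.cos_sub_cos (2 * π * p / N) (2 * π * s / N)
  have h3' : (2 * π * p / N + 2 * π * s / N) / 2 = π * (s + p) / N := by field_simp; ring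
  have h4' : (2 * π * p / N - 2 * π * s / N) / 2 = -(π * (s + ((-p : ℤ) : ℝ)) / N) := by
    push_cast
    field_simp
    ring
  rw [h3', h4', Real.sin_neg] at h2'
  have h5 : (2 * Real.sin (π * (s + p) / N)) * (2 * Real.sin (π * (s + ((-p : ℤ) : ℝ)) / N)) =
      2 * Real.cos (2 * π * p / N) - 2 * Real.cos (2 * π * s / N) := by linarith
  rw [h5]
  push_cast
  rfl

lemma tm_eq {e n N : ℕ} [NeZero n] (hN : 0 < N) (m p : ℤ) (i j : Fin n → ℕ) (hOk : Ok n N i j)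
    (h : ∀ r, 0 ≤ (j r : ℤ) + p ∧ 0 ≤ (j r : ℤ) + (-p) ∧ (i r : ℤ) + p < N ∧
      (i r : ℤ) + (-p) < N) :
    (N : ℂ) ^ n * tm e n N m p i j = phs n N m p i j *
      ((∏ r, Bn e N p (i r) (i (r + 1)) (j r) : ℝ) : ℂ) *
      ((Real.exp (N * ∑ r, gr e ((p : ℝ) / N) ((i r : ℝ) / N) ((i (r + 1) : ℝ) / N)
        ((j r : ℝ) / N)) : ℝ) : ℂ) := by
  have h1 : co n N i j = (∏ r, vN N ^ (((i r : ℤ) - i (r + 1)) * j r)) *
      ∏ r, (((Sd N (i r - j r))⁻¹ * (Sd N (i (r + 1) - j r))⁻¹ : ℝ) : ℂ) := by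
    unfold co
    rw [← prod_mul_distrib]
    refine prod_congr rfl fun r _ => ?_
    rw [div_eq_mul_inv, mul_inv]
    push_cast
    rfl
  have h2 : Qc n N i j (2 * π * p / N) =
      ∏ r, ((Ts N (j r) (i (r + 1)) p * Ts N (j r) (i (r + 1)) (-p) : ℝ) : ℂ) := by
    unfold Qc
    exact prod_congr rfl fun r _ => Pq_pos (h r).1 (h r).2.1 (h (r + 1)).2.2.1
      (h (r + 1)).2.2.2 hN
  have h4 : ∏ r, ((Sd N (i (r + 1)) / Sd N (j r) : ℝ) : ℂ) ^ (2 * e) =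
      ∏ r, ((Ts N (j r) (i (r + 1)) 0 ^ (2 * e) : ℝ) : ℂ) := by
    refine prod_congr rfl fun r _ => ?_
    have h5 := Ts_eq (N := N) (j := j r) (i := i (r + 1)) (p := 0) (hOk.le' r) (by omega)
      (by have := hOk.lt (r + 1); omega)
    simp only [add_zero, Int.toNat_natCast] at h5
    rw [h5]
    push_cast
    rfl
  have h5 : (N : ℂ) ^ n = ∏ _r : Fin n, ((N : ℝ) : ℂ) := by simp
  have h6 : ((∏ r, Bn e N p (i r) (i (r + 1)) (j r) : ℝ) : ℂ) *
      ((Real.exp (N * ∑ r, gr e ((p : ℝ) / N) ((i r : ℝ) / N) ((i (r + 1) : ℝ) / N)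
        ((j r : ℝ) / N)) : ℝ) : ℂ) =
      ∏ r, ((N * ((Sd N (i r - j r))⁻¹ * (Sd N (i (r + 1) - j r))⁻¹) *
      (Ts N (j r) (i (r + 1)) p * Ts N (j r) (i (r + 1)) (-p)) *
      Ts N (j r) (i (r + 1)) 0 ^ (2 * e) : ℝ) : ℂ) := by
    rw [mul_sum, Real.exp_sum, ← Complex.ofReal_mul, ← prod_mul_distrib, Complex.ofReal_prod]
    refine prod_congr rfl fun r _ => ?_
    rw [factor_eq e (hOk.lt r) (hOk.lt (r + 1)) (hOk.le r) (hOk.le' r) (h r).1 (h r).2.1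
      (h (r + 1)).2.2.1 (h (r + 1)).2.2.2]
  rw [mul_assoc, h6]
  unfold tm phs
  rw [h1, h2, h4, h5]
  have h7 : ∀ (A B C D E : ℂ), A * (B * (C * D) * E) = (B * C) * (A * D * E) := by
    intros; ring
  have h8 : ∏ r, ((N * ((Sd N (i r - j r))⁻¹ * (Sd N (i (r + 1) - j r))⁻¹) *
      (Ts N (j r) (i (r + 1)) p * Ts N (j r) (i (r + 1)) (-p)) *
      Ts N (j r) (i (r + 1)) 0 ^ (2 * e) : ℝ) : ℂ) =
      (∏ _r : Fin n, ((N : ℝ) : ℂ)) * (∏ r, (((Sd N (i r - j r))⁻¹ *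
        (Sd N (i (r + 1) - j r))⁻¹ : ℝ) : ℂ)) *
      (∏ r, ((Ts N (j r) (i (r + 1)) p * Ts N (j r) (i (r + 1)) (-p) : ℝ) : ℂ)) *
      ∏ r, ((Ts N (j r) (i (r + 1)) 0 ^ (2 * e) : ℝ) : ℂ) := by
    rw [← prod_mul_distrib, ← prod_mul_distrib, ← prod_mul_distrib]
    refine prod_congr rfl fun r _ => ?_
    push_cast
    ring
  rw [h8]
  ring

end Pool.Agent.X132.FT
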