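import Pool.Agent.X132.FTe

/-!
# 3-braids with their axis: the pointwise limit
-/

set_option autoImplicit false

namespace Pool.Agent.X132.FT

open Finset Filter Topology MeasureTheory
open scoped Real
open Pool.Agent.W711.HT (Sd vN)
open Pool.Agent.Y472.K (Lc Pq Ok co Qc cfg)
open Pool.Agent.Y988.TK (Lc_cont Lc_deriv Lc_sub Lc_half Lc_refl)
open Pool.Agent.Y180.TK (Rt tc Lc_exp)

lemma An_lim {δ : ℝ} (h0 : 0 < δ) (h1 : δ < 1) (k : ℕ → ℕ)
    (hk : Tendsto (fun N => (k N : ℝ) / N) atTop (𝓝 δ)) :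
    Tendsto (fun N => An N (k N)) atTop (𝓝 (√(2 * Real.sin (π * δ)))) :=
  Pool.Agent.Y681.TK.t_SDA.2 k δ h0 h1 hk

lemma toNat_lim {δ : ℝ} (h0 : 0 < δ) (k : ℕ → ℕ) (p : ℕ → ℤ)
    (hk : Tendsto (fun N => (k N : ℝ) / N) atTop (𝓝 δ))
    (hp : Tendsto (fun N => (p N : ℝ) / N) atTop (𝓝 0)) :
    Tendsto (fun N => ((((k N : ℤ) + p N).toNat : ℕ) : ℝ) / N) atTop (𝓝 δ) := by
  have h := hk.add hp
  rw [add_zero] at h
  refine h.congr' ?_
  filter_upwards [h.eventually_const_lt h0, eventually_gt_atTop 0] with N h1 hN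
  have hN' : (0 : ℝ) < N := by exact_mod_cast hN
  rw [← add_div] at h1 ⊢
  have h2 : (0 : ℝ) < k N + p N := by
    by_contra h3
    exact absurd h1 (not_lt.2 (div_nonpos_of_nonpos_of_nonneg (not_lt.1 h3) hN'.le))
  have h4 : (0 : ℤ) ≤ k N + p N := by exact_mod_cast h2.le
  have h3 : ((((k N : ℤ) + p N).toNat : ℕ) : ℝ) = k N + p N := by
    have : ((((k N : ℤ) + p N).toNat : ℕ) : ℤ) = k N + p N := Int.toNat_of_nonneg h4
    exact_mod_cast this
  rw [h3]

lemma Rt_lim {f : ℕ → ℝ} {c α : ℝ} (h : Rt (fun N => f N - c) α) : Tendsto f atTop (𝓝 c) := by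
  have h1 := h.zero.add_const c
  rw [zero_add] at h1
  exact h1.congr fun N => by ring

lemma sin_sym (d : ℝ) : Real.sin (π * ((1 + d) / 2)) = Real.sin (π * ((1 - d) / 2)) := by
  rw [← Real.sin_pi_sub]
  congr 1
  ring

lemma Bn_lim {e : ℕ} {d : ℝ} (P : Par e d) (i i' j : ℕ → ℕ) (p : ℕ → ℤ)
    (hi : Tendsto (fun N => (i N : ℝ) / N) atTop (𝓝 ((1 + d) / 2)))
    (hi' : Tendsto (fun N => (i' N : ℝ) / N) atTop (𝓝 ((1 + d) / 2)))
    (hj : Tendsto (fun N => (j N : ℝ) / N) atTop (𝓝 ((1 - d) / 2)))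
    (hp : Tendsto (fun N => (p N : ℝ) / N) atTop (𝓝 0))
    (hle : ∀ᶠ N in atTop, j N ≤ i N ∧ j N ≤ i' N) :
    Tendsto (fun N => Bn e N (p N) (i N) (i' N) (j N)) atTop (𝓝 (2 * Real.sin (π * d))⁻¹) := by
  have hd1 := P.d1
  have hd2 := P.d2
  have hsub : ∀ k : ℕ → ℕ, Tendsto (fun N => (k N : ℝ) / N) atTop (𝓝 ((1 + d) / 2)) →
      (∀ᶠ N in atTop, j N ≤ k N) →
      Tendsto (fun N => An N (k N - j N)) atTop (𝓝 (√(2 * Real.sin (π * d)))) := by
    intro k hk hk'
    refine An_lim (by linarith) (by linarith) _ ?_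
    have h := hk.sub hj
    rw [show (1 + d) / 2 - (1 - d) / 2 = d by ring] at h
    refine h.congr' ?_
    filter_upwards [hk'] with N hN
    rw [cast_sub_div hN]
  have a1 := hsub i hi (hle.mono fun _ h => h.1)
  have a2 := hsub i' hi' (hle.mono fun _ h => h.2)
  have hp' : Tendsto (fun N => ((-p N : ℤ) : ℝ) / N) atTop (𝓝 0) := by
    have := hp.neg
    rw [neg_zero] at this
    refine this.congr fun N => ?_
    push_cast
    ring
  have b1 := An_lim (by linarith) (by linarith) _ (toNat_lim (by linarith) i' p hi' hp)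
  have b2 := An_lim (by linarith) (by linarith) _ (toNat_lim (by linarith) j p hj hp)
  have b3 := An_lim (by linarith) (by linarith) _ (toNat_lim (by linarith) i' (fun N => -p N) hi' hp')
  have b4 := An_lim (by linarith) (by linarith) _ (toNat_lim (by linarith) j (fun N => -p N) hj hp')
  have b5 := An_lim (by linarith) (by linarith) i' hi'
  have b6 := An_lim (by linarith) (by linarith) j hj
  rw [sin_sym] at b1 b3 b5
  have s1 : 0 < √(2 * Real.sin (π * d)) := Real.sqrt_pos.2 (by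
    have := sin_pi_pos (t := d) (by linarith) (by linarith)
    linarith)
  have s2 : 0 < √(2 * Real.sin (π * ((1 - d) / 2))) := Real.sqrt_pos.2 (by
    have := sin_pi_pos (t := (1 - d) / 2) (by linarith) (by linarith)
    linarith)
  have h := (((a1.inv₀ s1.ne').mul (a2.inv₀ s1.ne')).mul ((b1.div b2 s2.ne').mul
    (b3.div b4 s2.ne'))).mul ((b5.div b6 s2.ne').pow (2 * e))
  rw [div_self s2.ne', one_pow, mul_one, mul_one, mul_one, ← mul_inv, Real.mul_self_sqrt
    (by have := sin_pi_pos (t := d) (by linarith) (by linarith); linarith)] at h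
  exact h

/-- the exponent of the limit -/
noncomputable def Rv (e : ℕ) (d : ℝ) {n : ℕ} [NeZero n] (α β : Fin n → ℝ) (γ : ℝ) : ℝ :=
  ∑ r, (qf e d γ (α r) (β r) + qf e d γ (α (r + 1)) (β r))

/-- the phase of the limit -/
noncomputable def Sv (m : ℤ) {n : ℕ} [NeZero n] (α β : Fin n → ℝ) (γ : ℝ) : ℝ :=
  π * ∑ r, (α r - α (r + 1)) * β r + 2 * π * m * γ ^ 2

lemma phs_lim (n : ℕ) [NeZero n] (m : ℤ) (a b : ℝ) (i j : ℕ → Fin n → ℕ) (p : ℕ → ℤ)
    {α β : Fin n → ℝ} {γ : ℝ} (hi : ∀ r, Rt (fun N => (i N r : ℝ) / N - a) (α r))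
    (hj : ∀ r, Rt (fun N => (j N r : ℝ) / N - b) (β r))
    (hp : Rt (fun N => (p N : ℝ) / N) γ) :
    Tendsto (fun N => phs n N m (p N) (i N) (j N)) atTop
      (𝓝 (Complex.exp (((Sv m α β γ : ℝ) : ℂ) * Complex.I))) := by
  have h1 : Tendsto (fun N : ℕ => π * ∑ r, (N : ℝ) * ((((i N r : ℝ) / N - a) -
      ((i N (r + 1) : ℝ) / N - a)) * ((j N r : ℝ) / N - b)) +
      2 * π * m * (N * ((p N : ℝ) / N * ((p N : ℝ) / N)))) atTop (𝓝 (Sv m α β γ)) := by
    unfold Sv
    rw [sq γ]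
    exact ((tendsto_finsetSum _ fun r _ => ((hi r).sub (hi (r + 1))).mul (hj r)).const_mul π).add
      ((hp.mul hp).const_mul _)
  have h2 := (Complex.continuous_exp.tendsto _).comp ((tc h1).mul_const Complex.I)
  refine h2.congr' ?_
  filter_upwards [eventually_gt_atTop 0] with N hN
  have hN' : (N : ℂ) ≠ 0 := by exact_mod_cast hN.ne'
  have hv : ∀ k : ℤ, vN N ^ k = Complex.exp (Complex.I * π / N * k) := by
    intro k
    unfold vN
    rw [← Complex.exp_int_mul]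
    congr 1
    ring
  have hprod : ∏ r, vN N ^ (((i N r : ℤ) - i N (r + 1)) * j N r) =
      Complex.exp (Complex.I * π / N * ∑ r, ((i N r : ℂ) - i N (r + 1)) * j N r) := by
    rw [mul_sum, Complex.exp_sum]
    refine prod_congr rfl fun r _ => ?_
    rw [hv]
    push_cast
    rfl
  have hsh : ∑ r, ((i N r : ℂ) - i N (r + 1)) = 0 := by
    have hkey : ∑ r, (i N (r + 1) : ℂ) = ∑ r, (i N r : ℂ) :=
      Equiv.sum_comp (Equiv.addRight (1 : Fin n)) fun r => (i N r : ℂ)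
    rw [sum_sub_distrib, hkey, sub_self]
  unfold phs
  rw [hprod, ← Complex.exp_add]
  simp only [Function.comp]
  congr 1
  have h3 : ∑ r, ((i N r : ℂ) - i N (r + 1)) * j N r =
      (N : ℂ) * ∑ r, (N : ℂ) * ((((i N r : ℂ) / N - a) -
      ((i N (r + 1) : ℂ) / N - a)) * ((j N r : ℂ) / N - b)) +
      N * b * ∑ r, ((i N r : ℂ) - i N (r + 1)) := by
    rw [mul_sum, mul_sum, ← sum_add_distrib]
    refine sum_congr rfl fun r _ => ?_
    field_simp
    ring
  rw [h3, hsh, mul_zero, add_zero]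
  push_cast
  field_simp
  ring

theorem plim {e : ℕ} {d : ℝ} (P : Par e d) (n : ℕ) [NeZero n] (m : ℤ) (i j : ℕ → Fin n → ℕ)
    (p : ℕ → ℤ) {α β : Fin n → ℝ} {γ : ℝ}
    (hi : ∀ r, Rt (fun N => (i N r : ℝ) / N - (1 + d) / 2) (α r))
    (hj : ∀ r, Rt (fun N => (j N r : ℝ) / N - (1 - d) / 2) (β r))
    (hp : Rt (fun N => (p N : ℝ) / N) γ) (hOk : ∀ᶠ N in atTop, Ok n N (i N) (j N)) :
    Tendsto (fun N : ℕ => (N : ℂ) ^ n * tm e n N m (p N) (i N) (j N) *
      ((Real.exp (-(N * (2 * n * he e d))) : ℝ) : ℂ)) atTop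
      (𝓝 (Complex.exp (((Sv m α β γ : ℝ) : ℂ) * Complex.I) *
        (((2 * Real.sin (π * d))⁻¹ ^ n : ℝ) : ℂ) * ((Real.exp (-(Rv e d α β γ)) : ℝ) : ℂ))) := by
  have hd1 := P.d1
  have hd2 := P.d2
  have li := fun r => Rt_lim (hi r)
  have lj := fun r => Rt_lim (hj r)
  have lp : Tendsto (fun N => (p N : ℝ) / N) atTop (𝓝 0) := hp.zero
  have h1 := phs_lim n m _ _ i j p hi hj hp
  have h2 : Tendsto (fun N => ∏ r, Bn e N (p N) (i N r) (i N (r + 1)) (j N r)) atTop
      (𝓝 (∏ _r : Fin n, (2 * Real.sin (π * d))⁻¹)) := by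
    refine tendsto_finsetProd _ fun r _ => Bn_lim P _ _ _ p (li r) (li (r + 1)) (lj r) lp ?_
    filter_upwards [hOk] with N hN using ⟨hN.le r, hN.le' r⟩
  rw [prod_const, card_univ, Fintype.card_fin] at h2
  have h3 : Tendsto (fun N : ℕ => Real.exp (∑ r, ((N : ℝ) * (Er e ((p N : ℝ) / N) ((i N r : ℝ) / N)
      ((j N r : ℝ) / N) - he e d) + (N : ℝ) * (Er e ((p N : ℝ) / N) ((i N (r + 1) : ℝ) / N)
      ((j N r : ℝ) / N) - he e d)))) atTop (𝓝 (Real.exp (-(Rv e d α β γ)))) := by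
    refine (Real.continuous_exp.tendsto _).comp ?_
    unfold Rv
    rw [← sum_neg_distrib]
    refine tendsto_finsetSum _ fun r _ => ?_
    rw [neg_add]
    exact (Er_exp P hp (hi r) (hj r)).add (Er_exp P hp (hi (r + 1)) (hj r))
  have h4 := (h1.mul (tc h2)).mul (tc h3)
  refine h4.congr' ?_
  have hpos : ∀ᶠ N : ℕ in atTop, ∀ r, 0 ≤ (j N r : ℤ) + p N ∧ 0 ≤ (j N r : ℤ) + (-p N) ∧
      (i N r : ℤ) + p N < N ∧ (i N r : ℤ) + (-p N) < N := by
    rw [eventually_all]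
    intro r
    have k1 := (lj r).add lp
    have k2 := (lj r).sub lp
    have k3 := (li r).add lp
    have k4 := (li r).sub lp
    rw [add_zero] at k1 k3
    rw [sub_zero] at k2 k4
    filter_upwards [k1.eventually_const_lt (by linarith : 0 < (1 - d) / 2),
      k2.eventually_const_lt (by linarith : 0 < (1 - d) / 2),
      k3.eventually_lt_const (by linarith : (1 + d) / 2 < 1),
      k4.eventually_lt_const (by linarith : (1 + d) / 2 < 1), eventually_gt_atTop 0]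
      with N g1 g2 g3 g4 hN
    have hN' : (0 : ℝ) < N := by exact_mod_cast hN
    rw [← add_div] at g1 g3
    rw [← sub_div] at g2 g4
    rw [div_lt_one hN'] at g3 g4
    have g1' : (0 : ℝ) < j N r + p N := by
      by_contra h
      exact absurd g1 (not_lt.2 (div_nonpos_of_nonpos_of_nonneg (not_lt.1 h) hN'.le))
    have g2' : (0 : ℝ) < j N r - p N := by
      by_contra h
      exact absurd g2 (not_lt.2 (div_nonpos_of_nonpos_of_nonneg (not_lt.1 h) hN'.le))
    refine ⟨?_, ?_, ?_, ?_⟩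
    · exact_mod_cast g1'.le
    · rw [← sub_eq_add_neg]; exact_mod_cast g2'.le
    · exact_mod_cast g3
    · rw [← sub_eq_add_neg]; exact_mod_cast g4
  filter_upwards [hOk, hpos, eventually_gt_atTop 0] with N g1 g2 hN
  rw [tm_eq hN m (p N) (i N) (j N) g1 g2, mul_assoc _ _ ((Real.exp (-(N * (2 * n * he e d))) : ℝ) : ℂ),
    ← Complex.ofReal_mul, ← Real.exp_add]
  congr 3
  have h5 := rate_sum (n := n) e ((p N : ℝ) / N) (fun r => (i N r : ℝ) / N)
    (fun r => (j N r : ℝ) / N)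
  rw [h5]
  simp only [mul_sub, sum_add_distrib, sum_sub_distrib, sum_const, card_univ, Fintype.card_fin,
    nsmul_eq_mul, ← mul_sum, mul_add]
  ring

end Pool.Agent.X132.FT
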