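import Pool.Agent.X132.FTf
import Pool.Agent.Y407.TK.Lap
import Pool.Agent.Y86.TK.Gau

/-!
# 3-braids with their axis: asymptotics of the sum over all configurations
-/

set_option autoImplicit false

namespace Pool.Agent.X132.FT

open Finset Filter Topology MeasureTheory
open scoped Real
open Pool.Agent.W711.HT (Sd vN)
open Pool.Agent.Y472.K (Lc Pq Ok co Qc cfg)
open Pool.Agent.Y180.TK (Rt tc Lc_exp)

/-- the indices -/
abbrev Ix (n : ℕ) : Type := (Fin n ⊕ Fin n) ⊕ Unit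

/-- the window of the residues -/
noncomputable def Wn (N : ℕ) : Finset ℤ := Finset.Ioc (((N / 2 : ℕ) : ℤ) - N) ((N / 2 : ℕ) : ℤ)

lemma Wn_le {N : ℕ} (hN : 0 < N) {p : ℤ} (hp : p ∈ Wn N) : |(p : ℝ) / N| ≤ 1 / 2 := by
  unfold Wn at hp
  rw [mem_Ioc] at hp
  have hN' : (0 : ℝ) < N := by exact_mod_cast hN
  rw [abs_div, abs_of_pos hN', div_le_iff₀ hN', abs_le]
  constructor
  · have h1 : -(N : ℤ) ≤ 2 * p := by omega
    have h2 : -(N : ℝ) ≤ 2 * p := by exact_mod_cast h1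
    linarith
  · have h1 : 2 * p ≤ (N : ℤ) := by omega
    have h2 : (2 : ℝ) * p ≤ N := by exact_mod_cast h1
    linarith

lemma mem_cfg {n N : ℕ} [NeZero n] {c : (Fin n → ℕ) × (Fin n → ℕ)} :
    c ∈ cfg n N ↔ Ok n N c.1 c.2 := by
  unfold cfg
  simp only [mem_filter, mem_product, Fintype.mem_piFinset]
  constructor
  · rintro ⟨_, h1⟩
    exact h1
  · intro h1
    exact ⟨⟨fun r => mem_range.2 (h1.lt r), fun r => mem_range.2
      ((h1.le r).trans_lt (h1.lt r))⟩, h1⟩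

/-- configurations as lattice points -/
def ph {n : ℕ} (c : ((Fin n → ℕ) × (Fin n → ℕ)) × ℤ) : Ix n → ℤ :=
  Sum.elim (Sum.elim (fun r => (c.1.1 r : ℤ)) (fun r => (c.1.2 r : ℤ))) (fun _ => c.2)

/-- lattice points as configurations -/
def ps {n : ℕ} (k : Ix n → ℤ) : ((Fin n → ℕ) × (Fin n → ℕ)) × ℤ :=
  ((fun r => (k (Sum.inl (Sum.inl r))).toNat, fun r => (k (Sum.inl (Sum.inr r))).toNat),
    k (Sum.inr ()))

theorem ps_ph {n : ℕ} (c : ((Fin n → ℕ) × (Fin n → ℕ)) × ℤ) : ps (ph c) = c := by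
  obtain ⟨⟨i, j⟩, p⟩ := c
  simp [ps, ph]

theorem ph_inj {n : ℕ} : Function.Injective (ph (n := n)) := fun c c' h => by
  rw [← ps_ph c, h, ps_ph]

/-- the set of the summands -/
noncomputable def SSt (n N : ℕ) [NeZero n] : Finset (((Fin n → ℕ) × (Fin n → ℕ)) × ℤ) :=
  cfg n N ×ˢ Wn N

/-- a summand -/
noncomputable def Ft (e n N : ℕ) [NeZero n] (m : ℤ) (d : ℝ)
    (c : ((Fin n → ℕ) × (Fin n → ℕ)) × ℤ) : ℂ :=
  (N : ℂ) ^ n * tm e n N m c.2 c.1.1 c.1.2 * ((Real.exp (-(N * (2 * n * he e d))) : ℝ) : ℂ)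

/-- the terms -/
noncomputable def fk (e n : ℕ) [NeZero n] (m : ℤ) (d : ℝ) (N : ℕ) (k : Ix n → ℤ) (x : ℝ) : ℂ :=
  if k ∈ (SSt n N).image ph then Ft e n N m d (ps k) * ((Real.exp (-(N * x ^ 2)) : ℝ) : ℂ) else 0

theorem fk_meas (e n : ℕ) [NeZero n] (m : ℤ) (d : ℝ) (N : ℕ) (k : Ix n → ℤ) :
    Measurable (fk e n m d N k) := by
  unfold fk
  by_cases h : k ∈ (SSt n N).image ph
  · simp only [if_pos h]
    refine Continuous.measurable ?_
    fun_prop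
  · simp only [if_neg h]
    exact measurable_const

theorem fk_sum (e n : ℕ) [NeZero n] (m : ℤ) (d : ℝ) {N : ℕ} :
    ∑' k : Ix n → ℤ, ∫ x, fk e n m d N k x =
      (∑ c ∈ SSt n N, Ft e n N m d c) * ((√(π / N) : ℝ) : ℂ) := by
  rw [tsum_eq_sum (s := (SSt n N).image ph)]
  · rw [sum_image fun c _ c' _ h => ph_inj h, sum_mul]
    refine sum_congr rfl fun c hc => ?_
    have h1 : ∀ x, fk e n m d N (ph c) x =
        Ft e n N m d c * ((Real.exp (-(N * x ^ 2)) : ℝ) : ℂ) := by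
      intro x
      unfold fk
      rw [if_pos (mem_image_of_mem _ hc), ps_ph]
    simp only [h1]
    rw [integral_const_mul, integral_complex_ofReal]
    congr 2
    have := integral_gaussian (N : ℝ)
    rw [← this]
    simp only [neg_mul]
  · intro k hk
    have h1 : ∀ x, fk e n m d N k x = 0 := by
      intro x
      unfold fk
      rw [if_neg hk]
    simp only [h1, integral_zero]

/-- the centre -/
noncomputable def mm (n : ℕ) (d : ℝ) (N : ℕ) : Ix n → ℝ :=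
  Sum.elim (Sum.elim (fun _ => N * ((1 + d) / 2)) (fun _ => N * ((1 - d) / 2))) (fun _ => 0)

lemma sum_dst {n N : ℕ} (hN : 0 < N) (d : ℝ) (c : ((Fin n → ℕ) × (Fin n → ℕ)) × ℤ) :
    (∑ s, ((ph c s : ℝ) - mm n d N s) ^ 2) / N = N * dst d ((c.2 : ℝ) / N)
      (fun r => (c.1.1 r : ℝ) / N) (fun r => (c.1.2 r : ℝ) / N) := by
  have hN' : (N : ℝ) ≠ 0 := by exact_mod_cast hN.ne'
  unfold dst
  rw [Fintype.sum_sum_type, Fintype.sum_sum_type, add_div, add_div, sum_div, sum_div, mul_add,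
    mul_add, mul_sum, mul_sum, add_comm (N * ((c.2 : ℝ) / N) ^ 2)]
  congr 1
  · congr 1
    · refine sum_congr rfl fun r _ => ?_
      simp only [ph, mm, Sum.elim_inl, Int.cast_natCast]
      field_simp
    · refine sum_congr rfl fun r _ => ?_
      simp only [ph, mm, Sum.elim_inl, Sum.elim_inr, Int.cast_natCast]
      field_simp
  · simp only [ph, mm, Sum.elim_inr, univ_unique, sum_const, card_singleton, one_smul]
    field_simp
    ring

/-! ### The quadratic forms -/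

section forms
variable {n : ℕ}

/-- the variables of the upper indices -/
noncomputable def al (r : Fin n) : ((Ix n → ℝ) × ℝ) →ₗ[ℝ] ℝ :=
  (LinearMap.proj (Sum.inl (Sum.inl r))) ∘ₗ (LinearMap.fst ℝ _ _)

/-- the variables of the lower indices -/
noncomputable def be (r : Fin n) : ((Ix n → ℝ) × ℝ) →ₗ[ℝ] ℝ :=
  (LinearMap.proj (Sum.inl (Sum.inr r))) ∘ₗ (LinearMap.fst ℝ _ _)

/-- the variable of the residue -/
noncomputable def ga : ((Ix n → ℝ) × ℝ) →ₗ[ℝ] ℝ :=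
  (LinearMap.proj (Sum.inr ())) ∘ₗ (LinearMap.fst ℝ _ _)

/-- the last variable -/
noncomputable def xx : ((Ix n → ℝ) × ℝ) →ₗ[ℝ] ℝ := LinearMap.snd ℝ _ _

lemma al_apply (r : Fin n) (v : (Ix n → ℝ) × ℝ) : al r v = v.1 (Sum.inl (Sum.inl r)) := rfl
lemma be_apply (r : Fin n) (v : (Ix n → ℝ) × ℝ) : be r v = v.1 (Sum.inl (Sum.inr r)) := rfl
lemma ga_apply (v : (Ix n → ℝ) × ℝ) : ga v = v.1 (Sum.inr ()) := rfl
lemma xx_apply (v : (Ix n → ℝ) × ℝ) : xx v = v.2 := rfl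

variable [NeZero n]

/-- the real quadratic form -/
noncomputable def RQ (n : ℕ) [NeZero n] (c κ μ : ℝ) : QuadraticForm ℝ ((Ix n → ℝ) × ℝ) :=
  (∑ r : Fin n, (c • (QuadraticMap.linMulLin (al r - be r) (al r - be r) +
      QuadraticMap.linMulLin (al (r + 1) - be r) (al (r + 1) - be r)) +
    κ • (QuadraticMap.linMulLin (al r) (al r) + QuadraticMap.linMulLin (al (r + 1)) (al (r + 1)) +
      (2 : ℝ) • QuadraticMap.linMulLin (be r) (be r)) + μ • QuadraticMap.linMulLin ga ga)) +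
    QuadraticMap.linMulLin xx xx

lemma RQ_apply (c κ μ : ℝ) (v : (Ix n → ℝ) × ℝ) : RQ n c κ μ v =
    (∑ r : Fin n, (c * ((v.1 (Sum.inl (Sum.inl r)) - v.1 (Sum.inl (Sum.inr r))) ^ 2 +
      (v.1 (Sum.inl (Sum.inl (r + 1))) - v.1 (Sum.inl (Sum.inr r))) ^ 2) +
      κ * (v.1 (Sum.inl (Sum.inl r)) ^ 2 + v.1 (Sum.inl (Sum.inl (r + 1))) ^ 2 +
        2 * v.1 (Sum.inl (Sum.inr r)) ^ 2) + μ * v.1 (Sum.inr ()) ^ 2)) + v.2 ^ 2 := by
  unfold RQ
  rw [add_apply, _root_.sum_apply, QuadraticMap.linMulLin_apply, xx_apply]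
  congr 1
  · refine Finset.sum_congr rfl fun r _ => ?_
    simp only [add_apply, smul_apply, QuadraticMap.linMulLin_apply,
      LinearMap.sub_apply, al_apply, be_apply, ga_apply, smul_eq_mul]
    ring
  · ring

/-- the imaginary quadratic form -/
noncomputable def SQ (n : ℕ) [NeZero n] (m : ℤ) : QuadraticForm ℝ ((Ix n → ℝ) × ℝ) :=
  (∑ r : Fin n, (-π) • QuadraticMap.linMulLin (al r - al (r + 1)) (be r)) +
    (-(2 * π * m)) • QuadraticMap.linMulLin ga ga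

lemma SQ_apply (m : ℤ) (v : (Ix n → ℝ) × ℝ) : SQ n m v =
    -(Sv m (fun r => v.1 (Sum.inl (Sum.inl r))) (fun r => v.1 (Sum.inl (Sum.inr r)))
      (v.1 (Sum.inr ()))) := by
  unfold SQ Sv
  rw [add_apply, _root_.sum_apply, neg_add, mul_sum, ← sum_neg_distrib]
  congr 1
  · refine Finset.sum_congr rfl fun r _ => ?_
    simp only [smul_apply, QuadraticMap.linMulLin_apply,
      LinearMap.sub_apply, al_apply, be_apply, smul_eq_mul]
    ring
  · simp only [smul_apply, QuadraticMap.linMulLin_apply, ga_apply, smul_eq_mul]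
    ring

lemma RQ_pos {c κ μ : ℝ} (hc : 0 ≤ c) (hκ : 0 < κ) (hμ : 0 < μ) : (RQ n c κ μ).PosDef := by
  intro v hv
  rw [RQ_apply]
  have h0 : ∀ r : Fin n, 0 ≤ c * ((v.1 (Sum.inl (Sum.inl r)) - v.1 (Sum.inl (Sum.inr r))) ^ 2 +
      (v.1 (Sum.inl (Sum.inl (r + 1))) - v.1 (Sum.inl (Sum.inr r))) ^ 2) +
      κ * (v.1 (Sum.inl (Sum.inl r)) ^ 2 + v.1 (Sum.inl (Sum.inl (r + 1))) ^ 2 +
        2 * v.1 (Sum.inl (Sum.inr r)) ^ 2) + μ * v.1 (Sum.inr ()) ^ 2 := by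
    intro r
    positivity
  have h00 := Finset.sum_nonneg fun r (_ : r ∈ (univ : Finset (Fin n))) => h0 r
  by_contra hneg
  apply hv
  have hsum : (∑ r : Fin n, (c * ((v.1 (Sum.inl (Sum.inl r)) - v.1 (Sum.inl (Sum.inr r))) ^ 2 +
      (v.1 (Sum.inl (Sum.inl (r + 1))) - v.1 (Sum.inl (Sum.inr r))) ^ 2) +
      κ * (v.1 (Sum.inl (Sum.inl r)) ^ 2 + v.1 (Sum.inl (Sum.inl (r + 1))) ^ 2 +
        2 * v.1 (Sum.inl (Sum.inr r)) ^ 2) + μ * v.1 (Sum.inr ()) ^ 2)) = 0 := by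
    nlinarith [sq_nonneg v.2]
  have hx : v.2 = 0 := by
    have : v.2 ^ 2 ≤ 0 := by linarith
    exact pow_eq_zero_iff two_ne_zero |>.1 (le_antisymm this (sq_nonneg _))
  have h1 : ∀ r : Fin n, v.1 (Sum.inl (Sum.inl r)) = 0 ∧ v.1 (Sum.inl (Sum.inr r)) = 0 ∧
      v.1 (Sum.inr ()) = 0 := by
    intro r
    have h2 := (Finset.sum_eq_zero_iff_of_nonneg fun r _ => h0 r).1 hsum r (mem_univ r)
    have h3 : 0 ≤ c * ((v.1 (Sum.inl (Sum.inl r)) - v.1 (Sum.inl (Sum.inr r))) ^ 2 +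
      (v.1 (Sum.inl (Sum.inl (r + 1))) - v.1 (Sum.inl (Sum.inr r))) ^ 2) := by positivity
    have h4 := sq_nonneg (v.1 (Sum.inl (Sum.inl r)))
    have h4' := sq_nonneg (v.1 (Sum.inl (Sum.inl (r + 1))))
    have h5 := sq_nonneg (v.1 (Sum.inl (Sum.inr r)))
    have h6 := sq_nonneg (v.1 (Sum.inr ()))
    have h7 : 0 ≤ κ * (v.1 (Sum.inl (Sum.inl r)) ^ 2 + v.1 (Sum.inl (Sum.inl (r + 1))) ^ 2 +
        2 * v.1 (Sum.inl (Sum.inr r)) ^ 2) := by positivity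
    have h8 : 0 ≤ μ * v.1 (Sum.inr ()) ^ 2 := by positivity
    have h9 : κ * (v.1 (Sum.inl (Sum.inl r)) ^ 2 + v.1 (Sum.inl (Sum.inl (r + 1))) ^ 2 +
        2 * v.1 (Sum.inl (Sum.inr r)) ^ 2) = 0 := by linarith
    have h10 : μ * v.1 (Sum.inr ()) ^ 2 = 0 := by linarith
    have h11 : v.1 (Sum.inl (Sum.inl r)) ^ 2 + v.1 (Sum.inl (Sum.inl (r + 1))) ^ 2 +
        2 * v.1 (Sum.inl (Sum.inr r)) ^ 2 = 0 := (mul_eq_zero.1 h9).resolve_left hκ.ne'
    have h12 : v.1 (Sum.inr ()) ^ 2 = 0 := (mul_eq_zero.1 h10).resolve_left hμ.ne'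
    refine ⟨?_, ?_, ?_⟩
    · exact pow_eq_zero_iff two_ne_zero |>.1 (by linarith)
    · exact pow_eq_zero_iff two_ne_zero |>.1 (by linarith)
    · exact pow_eq_zero_iff two_ne_zero |>.1 h12
  apply Prod.ext
  · funext s
    rcases s with (r | r) | r
    · exact (h1 r).1
    · exact (h1 r).2.1
    · exact (h1 0).2.2
  · exact hx

lemma RQ_eq (e : ℕ) (d : ℝ) (v : (Ix n → ℝ) × ℝ) :
    RQ n (ct d / 2) (1 / 2 * ct ((1 - d) / 2) * (1 + e)) (2 * ct ((1 - d) / 2)) v =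
    Rv e d (fun r => v.1 (Sum.inl (Sum.inl r))) (fun r => v.1 (Sum.inl (Sum.inr r)))
      (v.1 (Sum.inr ())) + v.2 ^ 2 := by
  rw [RQ_apply]
  unfold Rv qf
  congr 1
  refine Finset.sum_congr rfl fun r _ => ?_
  ring

end forms

/-- the limit function -/
noncomputable def gl (e n : ℕ) [NeZero n] (m : ℤ) (d : ℝ) (v : (Ix n → ℝ) × ℝ) : ℂ :=
  (((2 * Real.sin (π * d))⁻¹ ^ n : ℝ) : ℂ) *
    Complex.exp (-((RQ n (ct d / 2) (1 / 2 * ct ((1 - d) / 2) * (1 + e))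
      (2 * ct ((1 - d) / 2)) v : ℝ) : ℂ) - Complex.I * ((SQ n m v : ℝ) : ℂ))

lemma gl_eq (e n : ℕ) [NeZero n] (m : ℤ) (d : ℝ) (v : (Ix n → ℝ) × ℝ) :
    Complex.exp (((Sv m (fun r => v.1 (Sum.inl (Sum.inl r))) (fun r => v.1 (Sum.inl (Sum.inr r)))
      (v.1 (Sum.inr ())) : ℝ) : ℂ) * Complex.I) *
        (((2 * Real.sin (π * d))⁻¹ ^ n : ℝ) : ℂ) *
        ((Real.exp (-(Rv e d (fun r => v.1 (Sum.inl (Sum.inl r)))
          (fun r => v.1 (Sum.inl (Sum.inr r))) (v.1 (Sum.inr ())))) : ℝ) : ℂ) *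
        ((Real.exp (-(v.2 ^ 2)) : ℝ) : ℂ) = gl e n m d v := by
  unfold gl
  rw [RQ_eq, SQ_apply, Complex.ofReal_exp, Complex.ofReal_exp]
  have h : ∀ (A B C D : ℂ), A * B * C * D = B * (A * C * D) := by intros; ring
  rw [h, ← Complex.exp_add, ← Complex.exp_add]
  congr 2
  push_cast
  ring

lemma gl_ne {e : ℕ} {d : ℝ} (P : Par e d) (n : ℕ) [NeZero n] (m : ℤ) :
    ∫ v, gl e n m d v ≠ 0 := by
  have hd1 := P.d1
  have hd2 := P.d2
  unfold gl
  rw [integral_const_mul]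
  have h1 := sin_pi_pos (t := d) (by linarith) (by linarith)
  have h2 := ct_nonneg (t := d) (by linarith) hd2
  have h3 := ct_pos (t := (1 - d) / 2) (by linarith) (by linarith)
  refine mul_ne_zero ?_ (Pool.Agent.Y86.TK.t_GAU (Ix n) _ _ (RQ_pos (by positivity)
    (by positivity) (by positivity)))
  have h4 : (0 : ℝ) < (2 * Real.sin (π * d))⁻¹ ^ n := by positivity
  exact_mod_cast h4.ne'

end Pool.Agent.X132.FT
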