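import Pool.Agent.X132.FTg

/-!
# 3-braids with their axis: asymptotics of the sum over all configurations, assembly
-/

set_option autoImplicit false

namespace Pool.Agent.X132.FT

open Finset Filter Topology MeasureTheory
open scoped Real
open Pool.Agent.W711.HT (Sd vN)
open Pool.Agent.Y472.K (Lc Pq Ok co Qc cfg)
open Pool.Agent.Y180.TK (Rt tc Lc_exp)

lemma norm_Ft {e n N : ℕ} [NeZero n] (m : ℤ) (d : ℝ) (c : ((Fin n → ℕ) × (Fin n → ℕ)) × ℤ) :
    ‖Ft e n N m d c‖ = (N : ℝ) ^ n * ‖tm e n N m c.2 c.1.1 c.1.2‖ *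
      Real.exp (-(N * (2 * n * he e d))) := by
  unfold Ft
  rw [norm_mul, norm_mul, norm_pow, Complex.norm_natCast, Complex.norm_real, Real.norm_eq_abs,
    abs_of_pos (Real.exp_pos _)]

/-- the leading coefficient -/
noncomputable def KK (e n : ℕ) [NeZero n] (m : ℤ) (d : ℝ) : ℂ :=
  (∫ v, gl e n m d v) / ((√π : ℝ) : ℂ)

theorem asym {e : ℕ} {d : ℝ} (P : Par e d) (n : ℕ) [NeZero n] (m : ℤ) :
    KK e n m d ≠ 0 ∧ Tendsto (fun N : ℕ => ((((√(N : ℝ))⁻¹ : ℝ)) : ℂ) *
      ((Real.exp (-(N * (2 * n * he e d))) : ℝ) : ℂ) *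
      ∑ c ∈ SSt n N, tm e n N m c.2 c.1.1 c.1.2) atTop (𝓝 (KK e n m d)) := by
  have hd1 := P.d1
  have hd2 := P.d2
  obtain ⟨C, hC, hdom⟩ := dom P n
  have hpi : (0 : ℝ) < √π := Real.sqrt_pos.2 Real.pi_pos
  have hpic : ((√π : ℝ) : ℂ) ≠ 0 := by exact_mod_cast hpi.ne'
  refine ⟨div_ne_zero (gl_ne P n m) hpic, ?_⟩
  have h := Pool.Agent.Y407.TK.lap (Ix n) (fk e n m d) (mm n d) (gl e n m d) C (1 / 10000)
    (by norm_num) (fk_meas e n m d) ?_ ?_
  · -- conclusion
    refine (h.div_const ((√π : ℝ) : ℂ)).congr' ?_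
    filter_upwards [eventually_ge_atTop 1] with N hN
    have hNp : (0 : ℝ) < N := by exact_mod_cast hN
    have hsN : 0 < √(N : ℝ) := Real.sqrt_pos.2 hNp
    have hsNc : ((√(N : ℝ) : ℝ) : ℂ) ≠ 0 := by exact_mod_cast hsN.ne'
    rw [fk_sum e n m d, Fintype.card_sum, Fintype.card_sum, Fintype.card_fin, Fintype.card_unit]
    have hs : ((√(N : ℝ) : ℝ) : ℂ) ^ (n + n + 1) = (N : ℂ) ^ n * ((√(N : ℝ) : ℝ) : ℂ) := by
      rw [pow_succ, ← two_mul, pow_mul, sq, ← Complex.ofReal_mul, Real.mul_self_sqrt hNp.le,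
        Complex.ofReal_natCast]
    have hN0 : (N : ℂ) ^ n ≠ 0 := pow_ne_zero _ (by exact_mod_cast hNp.ne')
    have hsum : ∑ c ∈ SSt n N, Ft e n N m d c = (N : ℂ) ^ n *
        ((Real.exp (-(N * (2 * n * he e d))) : ℝ) : ℂ) *
        ∑ c ∈ SSt n N, tm e n N m c.2 c.1.1 c.1.2 := by
      rw [mul_sum]
      refine sum_congr rfl fun c _ => ?_
      unfold Ft
      ring
    rw [hs, hsum, Real.sqrt_div Real.pi_pos.le, Complex.ofReal_div, Complex.ofReal_inv]
    field_simp
  · -- domination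
    filter_upwards [hdom, eventually_ge_atTop 1] with N h1 hN k x
    have hNp : (0 : ℝ) < N := by exact_mod_cast hN
    unfold fk
    split_ifs with hk
    · obtain ⟨c, hc, rfl⟩ := mem_image.1 hk
      unfold SSt at hc
      rw [mem_product] at hc
      rw [ps_ph, norm_mul, norm_Ft, Complex.norm_real, Real.norm_eq_abs,
        abs_of_pos (Real.exp_pos _), sum_dst (by omega), mul_add, neg_add, Real.exp_add,
        ← mul_assoc C]
      refine mul_le_mul (h1 m c.2 c.1.1 c.1.2 (mem_cfg.1 hc.1) (Wn_le (by omega) hc.2)) ?_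
        (Real.exp_pos _).le (by positivity)
      refine Real.exp_le_exp.2 ?_
      have : 0 ≤ (N : ℝ) * x ^ 2 := by positivity
      linarith
    · rw [norm_zero]
      positivity
  · -- pointwise limit
    intro k x v hk hx
    have hsq : Tendsto (fun N : ℕ => (√(N : ℝ))⁻¹) atTop (𝓝 0) := Pool.Agent.Y180.TK.sqrt_inv
    -- the normalised coordinates
    have hk1 : ∀ s, Rt (fun N => (k N s : ℝ) / N -
        Sum.elim (Sum.elim (fun _ => (1 + d) / 2) (fun _ => (1 - d) / 2)) (fun _ => 0) s)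
        (v.1 s) := by
      intro s
      unfold Rt
      refine (hk s).congr' ?_
      filter_upwards [eventually_ge_atTop 1] with N hN
      have hNp : (0 : ℝ) < N := by exact_mod_cast hN
      have hs : √(N : ℝ) * √N = N := Real.mul_self_sqrt hNp.le
      have hs0 : 0 < √(N : ℝ) := Real.sqrt_pos.2 hNp
      rw [div_eq_iff hs0.ne', mul_assoc, mul_comm _ (√(N : ℝ)), ← mul_assoc, hs]
      rcases s with (r | r) | r
      · simp only [mm, Sum.elim_inl]
        field_simp
      · simp only [mm, Sum.elim_inl, Sum.elim_inr]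
        field_simp
      · simp only [mm, Sum.elim_inr, sub_zero]
        field_simp
    have hk0 : ∀ s, Tendsto (fun N : ℕ => (k N s : ℝ) / N) atTop
        (𝓝 (Sum.elim (Sum.elim (fun _ => (1 + d) / 2) (fun _ => (1 - d) / 2)) (fun _ => 0) s)) :=
      fun s => Rt_lim (hk1 s)
    have hpos : ∀ᶠ N : ℕ in atTop, ∀ s : Fin n ⊕ Fin n, 0 ≤ k N (Sum.inl s) := by
      rw [eventually_all]
      intro s
      have h1 : (0 : ℝ) < Sum.elim (Sum.elim (fun _ : Fin n => (1 + d) / 2)
          (fun _ : Fin n => (1 - d) / 2)) (fun _ : Unit => 0) (Sum.inl s) := by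
        rcases s with r | r
        · simp only [Sum.elim_inl]; linarith
        · simp only [Sum.elim_inl, Sum.elim_inr]; linarith
      filter_upwards [(hk0 (Sum.inl s)).eventually_const_lt h1, eventually_ge_atTop 1] with N h2 hN
      have hNp : (0 : ℝ) < N := by exact_mod_cast hN
      have h3 : (0 : ℝ) < k N (Sum.inl s) := by
        have := mul_pos h2 hNp
        rwa [div_mul_cancel₀ _ hNp.ne'] at this
      exact_mod_cast h3.le
    obtain ⟨i, hi⟩ : ∃ i : ℕ → Fin n → ℕ, i = fun N r => (k N (Sum.inl (Sum.inl r))).toNat :=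
      ⟨_, rfl⟩
    obtain ⟨j, hj⟩ : ∃ j : ℕ → Fin n → ℕ, j = fun N r => (k N (Sum.inl (Sum.inr r))).toNat :=
      ⟨_, rfl⟩
    obtain ⟨p, hp⟩ : ∃ p : ℕ → ℤ, p = fun N => k N (Sum.inr ()) := ⟨_, rfl⟩
    have hik : ∀ᶠ N : ℕ in atTop, (∀ r, (i N r : ℤ) = k N (Sum.inl (Sum.inl r))) ∧
        ∀ r, (j N r : ℤ) = k N (Sum.inl (Sum.inr r)) := by
      filter_upwards [hpos] with N hN
      rw [hi, hj]
      exact ⟨fun r => Int.toNat_of_nonneg (hN _), fun r => Int.toNat_of_nonneg (hN _)⟩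
    have hiR : ∀ r, Rt (fun N => (i N r : ℝ) / N - (1 + d) / 2) (v.1 (Sum.inl (Sum.inl r))) := by
      intro r
      refine (hk1 (Sum.inl (Sum.inl r))).congr' ?_
      filter_upwards [hik] with N hN
      rw [← hN.1 r, Int.cast_natCast]
      rfl
    have hjR : ∀ r, Rt (fun N => (j N r : ℝ) / N - (1 - d) / 2) (v.1 (Sum.inl (Sum.inr r))) := by
      intro r
      refine (hk1 (Sum.inl (Sum.inr r))).congr' ?_
      filter_upwards [hik] with N hN
      rw [← hN.2 r, Int.cast_natCast]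
      rfl
    have hpR : Rt (fun N => (p N : ℝ) / N) (v.1 (Sum.inr ())) := by
      refine (hk1 (Sum.inr ())).congr fun N => ?_
      rw [hp]
      simp only [Sum.elim_inr, sub_zero]
    have hi0 : ∀ r, Tendsto (fun N : ℕ => (i N r : ℝ) / N) atTop (𝓝 ((1 + d) / 2)) :=
      fun r => Rt_lim (hiR r)
    have hj0 : ∀ r, Tendsto (fun N : ℕ => (j N r : ℝ) / N) atTop (𝓝 ((1 - d) / 2)) :=
      fun r => Rt_lim (hjR r)
    have hOk : ∀ᶠ N in atTop, Ok n N (i N) (j N) := by
      have h1 : ∀ᶠ N : ℕ in atTop, ∀ r, 1 / 2 < (i N r : ℝ) / N ∧ (i N r : ℝ) / N < 1 := by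
        rw [eventually_all]
        intro r
        filter_upwards [(hi0 r).eventually_const_lt (by linarith : (1 : ℝ) / 2 < (1 + d) / 2),
          (hi0 r).eventually_lt_const (by linarith : (1 + d) / 2 < 1)] with N h2 h3 using ⟨h2, h3⟩
      have h2 : ∀ᶠ N : ℕ in atTop, ∀ r, (j N r : ℝ) / N < 1 / 2 := by
        rw [eventually_all]
        intro r
        exact (hj0 r).eventually_lt_const (by linarith : (1 - d) / 2 < 1 / 2)
      filter_upwards [h1, h2, eventually_ge_atTop 1] with N h3 h4 hN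
      have hNp : (0 : ℝ) < N := by exact_mod_cast hN
      have h5 : ∀ r s, j N s ≤ i N r := by
        intro r s
        have h6 := (h4 s).trans (h3 r).1
        rw [div_lt_div_iff_of_pos_right hNp] at h6
        exact_mod_cast h6.le
      refine ⟨fun r => ?_, fun r => h5 r r, fun r => h5 (r + 1) r⟩
      have h6 := (h3 r).2
      rw [div_lt_one hNp] at h6
      exact_mod_cast h6
    have hpW : ∀ᶠ N in atTop, p N ∈ Wn N := by
      have lp : Tendsto (fun N => (p N : ℝ) / N) atTop (𝓝 0) := hpR.zero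
      filter_upwards [lp.eventually_const_lt (by norm_num : (-1 / 4 : ℝ) < 0),
        lp.eventually_lt_const (by norm_num : (0 : ℝ) < 1 / 4), eventually_ge_atTop 4]
        with N h1 h2 hN
      have hNp : (0 : ℝ) < N := by exact_mod_cast (by omega : 0 < N)
      rw [lt_div_iff₀ hNp] at h1
      rw [div_lt_iff₀ hNp] at h2
      have h3 : -(N : ℤ) < 4 * p N := by
        have : -(N : ℝ) < 4 * p N := by linarith
        exact_mod_cast this
      have h4 : 4 * p N < (N : ℤ) := by
        have : (4 : ℝ) * p N < N := by linarith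
        exact_mod_cast this
      unfold Wn
      rw [mem_Ioc]
      omega
    have hlim := plim P n m i j p hiR hjR hpR hOk
    have hx2 : Tendsto (fun N : ℕ => ((Real.exp (-(N * x N ^ 2)) : ℝ) : ℂ)) atTop
        (𝓝 ((Real.exp (-(v.2 ^ 2)) : ℝ) : ℂ)) := by
      refine tc ((Real.continuous_exp.tendsto _).comp ?_)
      refine (hx.pow 2).neg.congr fun N => ?_
      rw [mul_pow, Real.sq_sqrt (Nat.cast_nonneg N)]
    have hall := hlim.mul hx2
    rw [gl_eq] at hall
    refine hall.congr' ?_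
    filter_upwards [hik, hOk, hpW] with N h1 h2 h3
    have ek : k N = ph ((i N, j N), p N) := by
      funext s
      rcases s with (r | r) | r
      · exact (h1.1 r).symm
      · exact (h1.2 r).symm
      · rw [hp]
        rfl
    have hmem : k N ∈ (SSt n N).image ph := by
      rw [ek]
      refine mem_image_of_mem _ ?_
      unfold SSt
      exact mem_product.2 ⟨mem_cfg.2 h2, h3⟩
    unfold fk
    rw [if_pos hmem, ek, ps_ph]
    rfl

end Pool.Agent.X132.FT
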