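import Pool.Agent.Y472.K.ExaC

/-!
# The matrix entries for the exponents `2` and `-2` and the trace for `(s_1^2 s_2^{-2})^n`
-/

set_option autoImplicit false
set_option linter.all false

namespace Pool.Agent.X132.FT

open Finset Filter Topology Pool.Agent.Y472 Pool.Agent.Y472.K Pool.Agent.Y261.TK
open Pool.Agent.W711.HT (vN Sd)
open scoped Real

/-- the closed form for the exponent `2` -/
noncomputable def GG (w l : ℂ) (i m : ℕ) : ℂ :=
  (-1) ^ m * (se w l i * se w l (i + m)) / ∏ t ∈ range m, (w ^ t * cb (w ^ (t + 1)))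

theorem gd_two {N : ℕ} {w l : ℂ} (h : Gen N w l) : ∀ m i : ℕ, i + m < N →
    gd w l 2 i (i + m) = GG w l i m := by
  intro m
  induction m with
  | zero =>
    intro i _
    rw [GG, gd, add_zero, Icc_self, sum_singleton, Lagrange.nodalWeight]
    simp
    first | rw [zpow_two] | rw [sq]
  | succ m ih =>
    intro i hi
    have h1 := ih i (by omega)
    have h2 := ih (i + 1) (by omega)
    rw [show i + 1 + m = i + m + 1 by ring] at h2
    have h3 := dd_rec (u := uu w l) (f := fun k => se w l k ^ (2 : ℤ)) (i := i) (j := i + m)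
      (by omega) (uu_injOn h (by omega))
    have h4 : (uu w l (i + m + 1) - uu w l i) * gd w l 2 i (i + m + 1) =
        gd w l 2 (i + 1) (i + m + 1) - gd w l 2 i (i + m) := h3
    rw [h1, h2] at h4
    have h5 := uu_sub h.w0 h.l0 i (m + 1)
    rw [show i + (m + 1) = i + m + 1 by ring] at h5 ⊢
    have hne : uu w l (i + m + 1) - uu w l i ≠ 0 :=
      sub_ne_zero.2 (uu_inj h (i := i) (j := i + m + 1) (by omega) (by omega)).symm
    apply mul_left_cancel₀ hne
    have h6 := zz_sub h.w0 h.l0 i m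
    have h7 : cb (l ^ 2 / (w * (w ^ i) ^ 2 * w ^ (m + 1))) =
        -(w ^ m * ((zz w l (i + 1))⁻¹ - zz w l (i + m + 1))) := by rw [h6, neg_neg]
    rw [h4, h5, h7]
    have n1 : (∏ t ∈ range m, (w ^ t * cb (w ^ (t + 1)))) ≠ 0 := by
      rw [prod_ne_zero_iff]
      intro t ht
      exact mul_ne_zero (pow_ne_zero _ h.w0) (h.h1 _ (by omega) (by have := mem_range.1 ht; omega))
    have n4 : ∀ k, zz w l k ≠ 0 := fun k =>
      div_ne_zero (pow_ne_zero _ h.l0) (pow_ne_zero _ (pow_ne_zero _ h.w0))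
    have n5 : w ^ m ≠ 0 := pow_ne_zero _ h.w0
    have n6 : cb (w ^ (m + 1)) ≠ 0 := h.h1 _ (by omega) (by omega)
    have k1 := se_succ h.w0 h.l0 i
    have k2 := se_succ h.w0 h.l0 (i + m)
    have k3 : se w l (i + m) = -(zz w l (i + m + 1) * se w l (i + m + 1)) := by
      rw [k2]
      have := n4 (i + m + 1)
      field_simp
    rw [GG, GG, GG, prod_range_succ, show i + 1 + m = i + m + 1 by ring,
      show i + (m + 1) = i + m + 1 by ring, k1, k3]
    set A := ∏ t ∈ range m, (w ^ t * cb (w ^ (t + 1)))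
    have m1 := n4 (i + 1)
    have m2 := n4 (i + m + 1)
    set z1 := zz w l (i + 1)
    set zm := zz w l (i + m + 1)
    set c := cb (w ^ (m + 1))
    set s1 := se w l i
    set s2 := se w l (i + m + 1)
    rw [pow_succ]
    field_simp
    ring

theorem gd_neg2 (w l : ℂ) (i j : ℕ) : gd w l (-2) i j = gd w⁻¹ l⁻¹ 2 i j := by
  rw [gd, gd]
  have h1 : uu w⁻¹ l⁻¹ = uu w l := funext fun k => uu_inv w l k
  rw [h1]
  refine sum_congr rfl fun k _ => ?_
  rw [se_inv, zpow_neg, inv_zpow]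

/-- triangular numbers -/
def Tn (m : ℕ) : ℕ := ∑ t ∈ range m, t

lemma Tn_succ (m : ℕ) : Tn (m + 1) = Tn m + m := by
  unfold Tn
  rw [sum_range_succ]

lemma Tn_two (m : ℕ) : 2 * (Tn m : ℤ) = m * m - m := by
  induction m with
  | zero => simp [Tn]
  | succ m ih => rw [Tn_succ]; push_cast; linear_combination ih

lemma Tn_add (i m : ℕ) : (Tn (i + m) : ℤ) = Tn i + Tn m + i * m := by
  have h1 := Tn_two (i + m)
  have h2 := Tn_two i
  have h3 := Tn_two m
  push_cast at h1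
  have : 2 * (Tn (i + m) : ℤ) = 2 * (Tn i + Tn m + i * m) := by
    rw [h1]
    linear_combination (-1) * h2 - h3
  linarith

theorem RR.den {N : ℕ} {w s : ℂ} (h : RR N w s) (m : ℕ) :
    ∏ t ∈ range m, (w ^ t * cb (w ^ (t + 1))) =
      w ^ (Tn m) * ((Complex.I * s) ^ m * (Sd N m : ℂ)) := by
  rw [prod_mul_distrib, prod_pow_eq_pow_sum]
  congr 1
  have e : ∀ t ∈ range m, cb (w ^ (t + 1)) =
      (Complex.I * s) * ((2 * Real.sin (π * (t + 1) / N) : ℝ) : ℂ) := by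
    intro t _
    rw [h.hcb]
    push_cast
    ring
  rw [prod_congr rfl e, prod_mul_distrib, prod_const, card_range, Sd]
  push_cast
  rfl

/-- the value at `l = -1` -/
theorem RR.val2 {N : ℕ} {w s : ℂ} (h : RR N w s) {i m : ℕ} (hm : i + m < N) :
    GG w (-1) i m = w ^ (i * i + i + 1 + ((i + m) * (i + m) + (i + m) + 1)) /
      (w ^ (Tn m) * ((Complex.I * s) ^ m * (Sd N m : ℂ))) := by
  rw [GG, RR.den h, se_m1, se_m1]
  congr 1
  rw [pow_add w (i * i + i + 1), pow_add (-1 : ℂ) i m]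
  have e1 : ((-1 : ℂ) ^ m) * (-1) ^ m = 1 := by rw [← mul_pow]; norm_num
  have e2 : ((-1 : ℂ) ^ i) * (-1) ^ i = 1 := by rw [← mul_pow]; norm_num
  linear_combination (w ^ (i * i + i + 1) * w ^ ((i + m) * (i + m) + (i + m) + 1)) *
    (((-1 : ℂ) ^ i * (-1) ^ i) * e1 + e2)

/-- continuity of the closed form -/
theorem RR.cont2 {N : ℕ} {w s : ℂ} (h : RR N w s) {i m : ℕ} (hm : i + m < N) :
    ContinuousAt (fun l => GG w l i m) (-1) := by
  have hs : ∀ k, ContinuousAt (fun l => se w l k) (-1) := by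
    intro k
    unfold se
    refine ContinuousAt.mul (ContinuousAt.mul continuousAt_const ?_) continuousAt_const
    exact continuousAt_zpow₀ _ _ (Or.inl (by norm_num))
  exact (continuousAt_const.mul ((hs i).mul (hs (i + m)))).div_const _

/-- the limit -/
theorem lim_eq2 {N : ℕ} {w s : ℂ} (h : RR N w s) {i m : ℕ} (hm : i + m < N) (σ : ℝ) (hσ : σ ≠ 0)
    (g G : ℂ → ℂ) (hG : DifferentiableAt ℂ G 0) (hg : ∀ᶠ ε in 𝓝[≠] (0 : ℂ), G ε = g ε)
    (hgg : ∀ ε : ℝ, ε ≠ 0 → g ε = gd w (-Complex.exp (σ * ε)) 2 i (i + m)) :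
    G 0 = GG w (-1) i m := by
  have h1 : Tendsto (fun ε : ℝ => G (ε : ℂ)) (𝓝[≠] 0) (𝓝 (G 0)) := by
    have h2 : Tendsto G (𝓝[≠] (0 : ℂ)) (𝓝 (G 0)) :=
      hG.continuousAt.tendsto.mono_left nhdsWithin_le_nhds
    exact h2.comp tendsto_real
  have h2 : Tendsto (fun ε : ℝ => GG w (-Complex.exp (σ * ε)) i m) (𝓝[≠] 0)
      (𝓝 (GG w (-1) i m)) := by
    have h3 : Tendsto (fun ε : ℝ => -Complex.exp (σ * ε)) (𝓝[≠] (0 : ℝ)) (𝓝 (-1)) := by
      have h4 : Continuous fun ε : ℝ => -Complex.exp (σ * ε) := by fun_prop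
      have h5 := (h4.tendsto 0).mono_left (nhdsWithin_le_nhds (s := {0}ᶜ))
      simpa using h5
    exact (RR.cont2 h hm).tendsto.comp h3
  have h3 : (fun ε : ℝ => G (ε : ℂ)) =ᶠ[𝓝[≠] 0] fun ε : ℝ => GG w (-Complex.exp (σ * ε)) i m := by
    filter_upwards [tendsto_real.eventually hg, self_mem_nhdsWithin] with ε e1 e2
    have e3 : ε ≠ 0 := e2
    rw [e1, hgg ε e3]
    apply gd_two _ m i hm
    apply h.gen
    · exact neg_ne_zero.2 (Complex.exp_ne_zero _)
    · rw [norm_neg, Complex.norm_exp]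
      intro h5
      rw [Real.exp_eq_one_iff] at h5
      have h6 : ((σ : ℂ) * (ε : ℂ)).re = σ * ε := by
        rw [← Complex.ofReal_mul, Complex.ofReal_re]
      rw [h6] at h5
      exact (mul_ne_zero hσ e3) h5
  exact tendsto_nhds_unique (h1.congr' h3) h2

/-- the exponent of the phase -/
def hx (j i : ℕ) : ℤ := (Tn i : ℤ) + 2 * i + i * j + Tn j + j + 2

lemma hx_eq (j m : ℕ) : ((j * j + j + 1 + ((j + m) * (j + m) + (j + m) + 1) : ℕ) : ℤ) - Tn m =
    hx j (j + m) := by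
  unfold hx
  have h1 := Tn_add j m
  have h2 := Tn_two j
  have h3 := Tn_two m
  rw [h1]
  push_cast
  linear_combination (-1) * h2 - h3

/-- the matrix entries for the exponents `2` and `-2`; the product of the two phases is `-1` -/
theorem cj2c : ∀ N : ℕ, 2 ≤ N → ∃ u u' : ℂ, u * u' = -1 ∧
  ∀ j i : ℕ, j ≤ i → i < N →
    cJ N 2 j i = u * (vN N ^ hx j i * (-Complex.I) ^ (i - j) / (Sd N (i - j) : ℂ)) ∧
    cJ N (-2) j i = u' * (vN N ^ (-hx j i) * Complex.I ^ (i - j) / (Sd N (i - j) : ℂ)) := by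
  intro N hN
  obtain ⟨c, hcdef⟩ : ∃ c : ℤ → ℂ, c = fun a => Pool.Agent.Y686.CB.Cf N 0 ^ a * Complex.I := ⟨_, rfl⟩
  have hCf : Pool.Agent.Y686.CB.Cf N 0 ≠ 0 := Pool.Agent.Y686.CB.Cf_ne N 0
  have hcG : ∀ (a : ℤ) (i j : ℕ), i ≤ j → j < N → ∃ G : ℂ → ℂ, DifferentiableAt ℂ G 0 ∧
    G 0 = c a * cJ N a i j ∧ ∀ᶠ ε in 𝓝[≠] (0 : ℂ), G ε = gd (vN N) (-Complex.exp ε) a i j := by
    intro a i j hij hj
    rw [hcdef]
    exact Pool.Agent.Y814.PH.Gd.gdx N hN a i j hij hj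
  have h1 := rr_pos hN
  have h2 := rr_neg hN
  have hc0 : ∀ a, c a ≠ 0 := by
    intro a
    rw [hcdef]
    exact mul_ne_zero (zpow_ne_zero _ hCf) Complex.I_ne_zero
  have hc1 : c 2 ≠ 0 := hc0 2
  have hc2 : c (-2) ≠ 0 := hc0 (-2)
  have hprod : c 2 * c (-2) = -1 := by
    rw [hcdef]
    simp only [zpow_neg]
    have h3 := zpow_ne_zero (2 : ℤ) hCf
    field_simp
    rw [Complex.I_sq]
  have hv0 : vN N ≠ 0 := Complex.exp_ne_zero _
  have hI : Complex.I * -Complex.I = 1 := by rw [mul_neg, Complex.I_mul_I, neg_neg]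
  refine ⟨(c 2)⁻¹, (c (-2))⁻¹, ?_, fun j i hji hi => ⟨?_, ?_⟩⟩
  · rw [← mul_inv, hprod]
    norm_num
  · obtain ⟨m, rfl⟩ : ∃ m, i = j + m := ⟨i - j, by omega⟩
    obtain ⟨G, g1, g2, g3⟩ := hcG 2 j (j + m) hji hi
    have e1 := lim_eq2 h1 hi 1 one_ne_zero (fun ε => gd (vN N) (-Complex.exp ε) 2 j (j + m)) G g1 g3
      (fun ε _ => by rw [Complex.ofReal_one, one_mul])
    rw [g2, RR.val2 h1 hi] at e1
    rw [show j + m - j = m by omega, eq_inv_mul_iff_mul_eq₀ hc1, e1, ← hx_eq, zpow_sub₀ hv0,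
      zpow_natCast, zpow_natCast, mul_one]
    have e2 : (Complex.I ^ m)⁻¹ = (-Complex.I) ^ m := by
      rw [inv_eq_iff_eq_inv, ← inv_pow]
      congr 1
      exact eq_inv_of_mul_eq_one_left hI
    have h3 : (Sd N m : ℂ) ≠ 0 := by exact_mod_cast Sd_ne (show m < N by omega)
    rw [← e2]
    have h4 : Complex.I ^ m ≠ 0 := pow_ne_zero _ Complex.I_ne_zero
    field_simp
  · obtain ⟨m, rfl⟩ : ∃ m, i = j + m := ⟨i - j, by omega⟩
    obtain ⟨G, g1, g2, g3⟩ := hcG (-2) j (j + m) hji hi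
    have e1 := lim_eq2 h2 hi (-1) (by norm_num) (fun ε => gd (vN N) (-Complex.exp ε) (-2) j (j + m))
      G g1 g3 (fun ε _ => by
        show gd (vN N) (-Complex.exp ε) (-2) j (j + m) = _
        rw [gd_neg2, inv_neg, ← Complex.exp_neg]
        congr 3
        simp)
    rw [g2, RR.val2 h2 hi] at e1
    rw [show j + m - j = m by omega, eq_inv_mul_iff_mul_eq₀ hc2, e1, ← hx_eq, zpow_neg,
      zpow_sub₀ hv0, zpow_natCast, zpow_natCast, inv_pow, inv_pow]
    have e2 : ((Complex.I * -1) ^ m)⁻¹ = Complex.I ^ m := by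
      rw [inv_eq_iff_eq_inv, ← inv_pow]
      congr 1
      rw [mul_neg_one]
      exact eq_inv_of_mul_eq_one_right hI
    have h3 : (Sd N m : ℂ) ≠ 0 := by exact_mod_cast Sd_ne (show m < N by omega)
    have h4 : (Complex.I * -1) ^ m ≠ 0 :=
      pow_ne_zero _ (mul_ne_zero Complex.I_ne_zero (by norm_num))
    rw [← e2]
    have h5 : vN N ^ (j * j + j + 1 + ((j + m) * (j + m) + (j + m) + 1)) ≠ 0 := pow_ne_zero _ hv0
    have h6 : vN N ^ Tn m ≠ 0 := pow_ne_zero _ hv0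
    field_simp

end Pool.Agent.X132.FT

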