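import Pool.Agent.X132.FTh
import Pool.Agent.X132.FTi
import Pool.Agent.Y448.PH.AxpC
import Pool.Agent.Y941.PH.TR3
import Pool.Agent.W715.VC.Axis

/-!
# The closures of `Δ^{2m} (s_1^A s_2^{-A})^n` with their axes, `A = 1, 2`: the exact formula
-/

set_option autoImplicit false

namespace Pool.Agent.X132.FT

open Finset Filter Topology Pool.Agent.Y472 Pool.Agent.Y472.K
open Pool.Agent.W711.HT (vN Sd Ea)
open scoped Real

/-! ### The trace for the exponents `2` and `-2` -/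

/-- the contribution of `j` to the matrix entry -/
noncomputable def ee2 (N i j i' : ℕ) (χ : ℂ) : ℂ :=
  if j ≤ i ∧ j ≤ i' then vN N ^ (((i : ℤ) - i') * j) /
    ((Sd N (i - j) : ℂ) * (Sd N (i' - j) : ℂ)) * Pq N j i' χ *
      ((Sd N i' / Sd N j : ℝ) : ℂ) ^ 2 else 0

/-- the diagonal matrix -/
noncomputable def Dg2 (N i : ℕ) : ℂ := vN N ^ (-((Tn i : ℤ) + 2 * i)) * Complex.I ^ i

lemma vN_ne (N : ℕ) : vN N ≠ 0 := Complex.exp_ne_zero _

lemma Sd_nec {N d : ℕ} (h : d < N) : (Sd N d : ℂ) ≠ 0 := by exact_mod_cast (Sd_pos h).ne'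

lemma Dg2_ne (N i : ℕ) : Dg2 N i ≠ 0 :=
  mul_ne_zero (zpow_ne_zero _ (vN_ne N)) (pow_ne_zero _ Complex.I_ne_zero)

theorem entry2 {N : ℕ} {u u' : ℂ} (hc : ∀ j i : ℕ, j ≤ i → i < N →
    cJ N 2 j i = u * (vN N ^ hx j i * (-Complex.I) ^ (i - j) / (Sd N (i - j) : ℂ)) ∧
    cJ N (-2) j i = u' * (vN N ^ (-hx j i) * Complex.I ^ (i - j) / (Sd N (i - j) : ℂ)))
    (χ : ℂ) (i j i' : Fin N) :
    MA0 N 2 i j * MB0 N χ (-2) j i' =
      u * u' * ((Dg2 N i)⁻¹ * ee2 N i j i' χ * Dg2 N i') := by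
  unfold MA0 MB0 ee2
  by_cases h1 : j ≤ i
  · by_cases h2 : j ≤ i'
    · have h1' : (j : ℕ) ≤ i := h1
      have h2' : (j : ℕ) ≤ i' := h2
      rw [if_pos h1, if_pos h2, if_pos ⟨h1', h2'⟩, (hc j i h1' i.2).1, (hc j i' h2' i'.2).2,
        Pool.Agent.Y941.TK.prod_Ph χ j i' h2' i'.2]
      have hv := vN_ne N
      have a1 := Sd_nec (N := N) (d := (i : ℕ) - j) (by omega)
      have a2 := Sd_nec (N := N) (d := (i' : ℕ) - j) (by omega)
      have a4 := Sd_nec (N := N) (d := (i' : ℕ)) i'.2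
      have a5 := Sd_nec (N := N) (d := (j : ℕ)) j.2
      have e1 : vN N ^ hx j i * vN N ^ (-hx j i') =
          vN N ^ (((Tn i : ℕ) : ℤ) + 2 * ((i : ℕ) : ℤ)) *
            vN N ^ ((((i : ℕ) : ℤ) - ((i' : ℕ) : ℤ)) * ((j : ℕ) : ℤ)) *
            vN N ^ (-(((Tn i' : ℕ) : ℤ) + 2 * ((i' : ℕ) : ℤ))) := by
        rw [← zpow_add₀ hv, ← zpow_add₀ hv, ← zpow_add₀ hv]
        congr 1
        unfold hx
        ring
      have hI : Complex.I * -Complex.I = 1 := by rw [mul_neg, Complex.I_mul_I, neg_neg]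
      have e2 : (-Complex.I) ^ ((i : ℕ) - j) * Complex.I ^ ((i' : ℕ) - j) =
          (Complex.I ^ (i : ℕ))⁻¹ * Complex.I ^ (i' : ℕ) := by
        have k1 : Complex.I ^ (i : ℕ) = Complex.I ^ ((i : ℕ) - j) * Complex.I ^ (j : ℕ) := by
          rw [← pow_add]; congr 1; omega
        have k2 : Complex.I ^ (i' : ℕ) = Complex.I ^ ((i' : ℕ) - j) * Complex.I ^ (j : ℕ) := by
          rw [← pow_add]; congr 1; omega
        have k3 : (-Complex.I) ^ ((i : ℕ) - j) = (Complex.I ^ ((i : ℕ) - j))⁻¹ := by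
          rw [← inv_pow]
          congr 1
          exact eq_inv_of_mul_eq_one_right hI
        have k4 : Complex.I ^ ((i : ℕ) - j) ≠ 0 := pow_ne_zero _ Complex.I_ne_zero
        have k5 : Complex.I ^ (j : ℕ) ≠ 0 := pow_ne_zero _ Complex.I_ne_zero
        rw [k1, k2, k3]
        field_simp
      have e3 : (Dg2 N i)⁻¹ = vN N ^ (((Tn i : ℕ) : ℤ) + 2 * ((i : ℕ) : ℤ)) *
          (Complex.I ^ (i : ℕ))⁻¹ := by
        unfold Dg2
        rw [mul_inv, zpow_neg, inv_inv]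
      rw [e3]
      unfold Dg2
      push_cast
      calc u * (vN N ^ hx j i * (-Complex.I) ^ ((i : ℕ) - j) / (Sd N (i - j) : ℂ)) *
            (((Sd N i' : ℂ) / Sd N j) ^ 2 * Pq N j i' χ *
              (u' * (vN N ^ (-hx j i') * Complex.I ^ ((i' : ℕ) - j) / (Sd N (i' - j) : ℂ))))
          = u * u' * (vN N ^ hx j i * vN N ^ (-hx j i')) *
            ((-Complex.I) ^ ((i : ℕ) - j) * Complex.I ^ ((i' : ℕ) - j)) *
            (((Sd N i' : ℂ) / Sd N j) ^ 2 * Pq N j i' χ /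
              ((Sd N (i - j) : ℂ) * (Sd N (i' - j) : ℂ))) := by
            field_simp
        _ = _ := by
            rw [e1, e2]
            ring
    · rw [if_neg h2, if_neg (fun h : (j : ℕ) ≤ i ∧ (j : ℕ) ≤ i' => h2 h.2)]
      ring
  · rw [if_neg h1, if_neg (fun h : (j : ℕ) ≤ i ∧ (j : ℕ) ≤ i' => h1 h.1)]
    ring

theorem Tf_eq2 {n N : ℕ} [NeZero n] {u u' : ℂ} (hc : ∀ j i : ℕ, j ≤ i → i < N →
    cJ N 2 j i = u * (vN N ^ hx j i * (-Complex.I) ^ (i - j) / (Sd N (i - j) : ℂ)) ∧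
    cJ N (-2) j i = u' * (vN N ^ (-hx j i) * Complex.I ^ (i - j) / (Sd N (i - j) : ℂ)))
    (χ : ℂ) :
    Tf N (List.replicate n (2, -2)) χ =
      (u * u') ^ n * ∑ c ∈ cfg n N, co n N c.1 c.2 * Qc n N c.1 c.2 χ *
        ∏ r, ((Sd N (c.1 (r + 1)) / Sd N (c.2 r) : ℝ) : ℂ) ^ 2 := by
  classical
  have e1 : Tf N (List.replicate n (2, -2)) χ = ((MA0 N 2 * MB0 N χ (-2)) ^ n).trace := by
    unfold Tf
    rw [List.map_replicate, List.prod_replicate]
  have e2 : ∀ i i' : Fin N, (MA0 N 2 * MB0 N χ (-2)) i i' =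
      ∑ j : Fin N, u * u' * ((Dg2 N i)⁻¹ * ee2 N i j i' χ * Dg2 N i') := by
    intro i i'
    rw [Matrix.mul_apply]
    exact Finset.sum_congr rfl fun j _ => entry2 hc χ i j i'
  rw [e1, Pool.Agent.Y941.TK.trace_pow_cyc]
  simp only [e2, Finset.prod_univ_sum, Fintype.piFinset_univ]
  have e3 : ∀ w z : Fin n → Fin N,
      (∏ r, u * u' * ((Dg2 N (w r))⁻¹ * ee2 N (w r) (z r) (w (r + 1)) χ * Dg2 N (w (r + 1)))) =
      (u * u') ^ n * ∏ r, ee2 N (w r) (z r) (w (r + 1)) χ := by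
    intro w z
    rw [Finset.prod_mul_distrib, Finset.prod_const, card_univ, Fintype.card_fin,
      Finset.prod_mul_distrib, Finset.prod_mul_distrib, Finset.prod_inv_distrib]
    have h1 : ∏ r : Fin n, Dg2 N (w (r + 1)) = ∏ r : Fin n, Dg2 N (w r) :=
      Equiv.prod_comp (Equiv.addRight (1 : Fin n)) (fun r => Dg2 N (w r))
    have h2 : ∏ r : Fin n, Dg2 N (w r) ≠ 0 := Finset.prod_ne_zero_iff.2 fun r _ => Dg2_ne N (w r)
    rw [h1]
    field_simp
  simp only [e3]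
  rw [Finset.mul_sum]
  simp only [← Finset.mul_sum]
  congr 1
  have e4 : ∀ i j : Fin n → ℕ, (∀ r, i r < N) → (∏ r, ee2 N (i r) (j r) (i (r + 1)) χ) =
      if Ok n N i j then co n N i j * Qc n N i j χ *
        ∏ r, ((Sd N (i (r + 1)) / Sd N (j r) : ℝ) : ℂ) ^ 2 else 0 := by
    intro i j hi
    unfold ee2
    rw [Finset.prod_ite_zero]
    by_cases h : ∀ r : Fin n, j r ≤ i r ∧ j r ≤ i (r + 1)
    · rw [if_pos (fun r _ => h r), if_pos ⟨hi, fun r => (h r).1, fun r => (h r).2⟩]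
      unfold co Qc
      rw [Finset.prod_mul_distrib, Finset.prod_mul_distrib]
    · rw [if_neg (fun h' => h fun r => h' r (mem_univ r)),
        if_neg (fun h' => h fun r => ⟨h'.le r, h'.le' r⟩)]
  unfold cfg
  rw [Finset.sum_filter, Finset.sum_product]
  have e5 := Pool.Agent.Y941.TK.sum_fun n N (fun i => ∑ j ∈ Fintype.piFinset
    (fun _ : Fin n => range N), ∏ r, ee2 N (i r) (j r) (i (r + 1)) χ)
  have e6 : ∀ w : Fin n → Fin N, (∑ z : Fin n → Fin N,
      ∏ r, ee2 N (w r) (z r) (w (r + 1)) χ) =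
      ∑ j ∈ Fintype.piFinset (fun _ : Fin n => range N),
        ∏ r, ee2 N (w r) (j r) (w (r + 1)) χ := fun w =>
    Pool.Agent.Y941.TK.sum_fun n N (fun j => ∏ r, ee2 N (w r) (j r) (w (r + 1)) χ)
  simp only [e6]
  rw [e5]
  refine Finset.sum_congr rfl fun i hi => Finset.sum_congr rfl fun j _ => ?_
  rw [Fintype.mem_piFinset] at hi
  rw [e4 i j (fun r => mem_range.1 (hi r))]

/-- the trace for both families -/
theorem Tf_both {e n N : ℕ} [NeZero n] (he : e ≤ 1) (hN : 2 ≤ N) (χ : ℂ) :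
    Tf N (List.replicate n ((e : ℤ) + 1, -((e : ℤ) + 1))) χ =
      (-1) ^ n * ∑ c ∈ cfg n N, co n N c.1 c.2 * Qc n N c.1 c.2 χ *
        ∏ r, ((Sd N (c.1 (r + 1)) / Sd N (c.2 r) : ℝ) : ℂ) ^ (2 * e) := by
  rcases (by omega : e = 0 ∨ e = 1) with rfl | rfl
  · obtain ⟨u, u', huu, hc⟩ := cj1c N hN
    have h := Pool.Agent.Y941.TK.Tf_eq (n := n) hc χ
    rw [huu] at h
    simp only [Nat.cast_zero, zero_add, mul_zero, pow_zero, prod_const_one, mul_one]
    exact h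
  · obtain ⟨u, u', huu, hc⟩ := cj2c N hN
    have h := Tf_eq2 (n := n) hc χ
    rw [huu] at h
    rw [show ((1 : ℕ) : ℤ) + 1 = 2 by norm_num, mul_one]
    exact h

/-! ### The sum over the residues -/

lemma sum_window {N : ℕ} (hN : 0 < N) (F : ℤ → ℂ) (hF : ∀ p, F (p + N) = F p) :
    ∑ p ∈ range N, F p = ∑ p ∈ Wn N, F p := by
  refine Finset.sum_nbij' (i := fun k : ℕ => if k ≤ N / 2 then (k : ℤ) else (k : ℤ) - N)
    (j := fun p : ℤ => if 0 ≤ p then p.toNat else (p + N).toNat) ?_ ?_ ?_ ?_ ?_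
  · intro k hk
    rw [mem_range] at hk
    unfold Wn
    rw [mem_Ioc]
    split_ifs <;> omega
  · intro p hp
    unfold Wn at hp
    rw [mem_Ioc] at hp
    rw [mem_range]
    split_ifs <;> omega
  · intro k hk
    rw [mem_range] at hk
    split_ifs <;> omega
  · intro p hp
    unfold Wn at hp
    rw [mem_Ioc] at hp
    split_ifs <;> omega
  · intro k hk
    split_ifs
    · rfl
    · rw [← hF ((k : ℤ) - N)]
      congr 1
      ring

lemma tm_period {e n N : ℕ} [NeZero n] (hN : 0 < N) (m p : ℤ) (i j : Fin n → ℕ) :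
    tm e n N m (p + N) i j = tm e n N m p i j := by
  have hN' : (N : ℂ) ≠ 0 := by exact_mod_cast hN.ne'
  have h1 : Complex.exp (2 * π * Complex.I * m * ((p + N : ℤ) : ℂ) ^ 2 / N) =
      Complex.exp (2 * π * Complex.I * m * (p : ℂ) ^ 2 / N) := by
    rw [Complex.exp_eq_exp_iff_exists_int]
    refine ⟨m * (2 * p + N), ?_⟩
    push_cast
    field_simp
    ring
  have h2 : Qc n N i j (2 * π * ((p + N : ℤ) : ℂ) / N) = Qc n N i j (2 * π * (p : ℂ) / N) := by
    unfold Qc Pq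
    refine prod_congr rfl fun r _ => prod_congr rfl fun s _ => ?_
    have h3 : (2 * π * ((p + N : ℤ) : ℂ) / N) = 2 * π * (p : ℂ) / N + 2 * π := by
      push_cast
      field_simp
    rw [h3, Complex.cos_add_two_pi]
  unfold tm
  rw [h1, h2]

theorem trace_eq {e n N : ℕ} [NeZero n] (he : e ≤ 1) (hN : 2 ≤ N) (m : ℤ) :
    (Pool.Agent.W715.VC.rep3 N (ftw m ++
      bw (List.replicate n ((e : ℤ) + 1, -((e : ℤ) + 1))))).trace =
      N * vN N ^ (4 * m) * ∑ c ∈ SSt n N, tm e n N m c.2 c.1.1 c.1.2 := by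
  have h1 := Pool.Agent.Y448.PH.axp Pool.Agent.Y941.PH.tr3 N
    (List.replicate n ((e : ℤ) + 1, -((e : ℤ) + 1))) m hN (by
      rw [Ne, List.replicate_eq_nil_iff]
      exact NeZero.ne n)
  have h6 : Pool.Agent.Y482.Ph.pz N (List.replicate n ((e : ℤ) + 1, -((e : ℤ) + 1))) m =
      vN N ^ (4 * m) * (-1) ^ n := by
    have h7 : (Pool.Agent.Y481.wts (List.replicate n ((e : ℤ) + 1, -((e : ℤ) + 1)))).sum = 0 := by
      rw [Pool.Agent.Y481.wts]
      clear * -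
      induction n with
      | zero => simp
      | succ k ih =>
        rw [List.replicate_succ, List.map_cons, List.flatten_cons, List.sum_append, ih]
        simp
    rw [Pool.Agent.Y482.Ph.pz, h7]
    simp
  have h2 : Pool.Agent.Y482.Ph.SA N (List.replicate n ((e : ℤ) + 1, -((e : ℤ) + 1))) m =
      (-1) ^ n * ∑ c ∈ SSt n N, tm e n N m c.2 c.1.1 c.1.2 := by
    unfold Pool.Agent.Y482.Ph.SA SSt
    rw [sum_product_right, ← sum_window (by omega)
      (fun p => ∑ c ∈ cfg n N, tm e n N m p c.1 c.2)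
      (fun p => sum_congr rfl fun c _ => tm_period (by omega) m p _ _), mul_sum]
    refine sum_congr rfl fun p _ => ?_
    rw [Tf_both he hN, mul_left_comm, mul_sum]
    congr 1
    refine sum_congr rfl fun c _ => ?_
    have h3 : Ea (2 * m) N (2 * π * p / N) =
        Complex.exp (2 * π * Complex.I * m * ((p : ℤ) : ℂ) ^ 2 / N) := by
      have hN' : (N : ℂ) ≠ 0 := by exact_mod_cast (by omega : N ≠ 0)
      have hpi : (π : ℂ) ≠ 0 := by exact_mod_cast Real.pi_ne_zero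
      unfold Pool.Agent.W711.HT.Ea
      congr 1
      push_cast
      field_simp
      ring
    unfold tm
    rw [h3]
    push_cast
    ring
  rw [h1, h6, h2]
  have h3 : ((-1 : ℂ) ^ n) * (-1) ^ n = 1 := by rw [← mul_pow]; norm_num
  linear_combination (N * vN N ^ (4 * m) * ∑ c ∈ SSt n N, tm e n N m c.2 c.1.1 c.1.2) * h3

end Pool.Agent.X132.FT
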