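import Pool.Agent.X132.FTj

/-!
# The closures of `Δ^{2m} (s_1^A s_2^{-A})^n` with their axes: the leading coefficient
-/

set_option autoImplicit false

namespace Pool.Agent.X132.FT

open Finset Filter Topology MeasureTheory
open scoped Real

/-- the integral over all variables is a product -/
lemma int_split {n : ℕ} (F : (Fin n ⊕ Fin n → ℝ) → ℂ) (G H : ℝ → ℂ) :
    ∫ v : (Ix n → ℝ) × ℝ, F (fun s => v.1 (Sum.inl s)) * G (v.1 (Sum.inr ())) * H v.2 =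
      (∫ y, F y) * (∫ g, G g) * ∫ x, H x := by
  have h1 : ∫ v : (Ix n → ℝ) × ℝ, F (fun s => v.1 (Sum.inl s)) * G (v.1 (Sum.inr ())) * H v.2 =
      (∫ w : Ix n → ℝ, F (fun s => w (Sum.inl s)) * G (w (Sum.inr ()))) * ∫ x, H x :=
    integral_prod_mul (fun w : Ix n → ℝ => F (fun s => w (Sum.inl s)) * G (w (Sum.inr ()))) H
  rw [h1]
  congr 1
  have h2 := volume_measurePreserving_sumPiEquivProdPi (fun _ : Ix n => ℝ)
  have h3 := h2.integral_comp' (g := fun z : ((Fin n ⊕ Fin n) → ℝ) × (Unit → ℝ) =>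
    F z.1 * G (z.2 ()))
  have h4 : ∫ w : Ix n → ℝ, F (fun s => w (Sum.inl s)) * G (w (Sum.inr ())) =
      ∫ z : ((Fin n ⊕ Fin n) → ℝ) × (Unit → ℝ), F z.1 * G (z.2 ()) := by
    rw [← h3]
    rfl
  rw [h4]
  have h5 : ∫ z : ((Fin n ⊕ Fin n) → ℝ) × (Unit → ℝ), F z.1 * G (z.2 ()) =
      (∫ y, F y) * ∫ u : Unit → ℝ, G (u ()) :=
    integral_prod_mul F fun u : Unit → ℝ => G (u ())
  rw [h5]
  congr 1
  have h6 := (volume_preserving_funUnique Unit ℝ).integral_comp' (g := G)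
  rw [← h6]
  rfl

/-- the part of the integrand which does not depend on the residue -/
noncomputable def Fy (e n : ℕ) [NeZero n] (d : ℝ) (y : Fin n ⊕ Fin n → ℝ) : ℂ :=
  Complex.exp (-((∑ r, (ct d / 2 * ((y (Sum.inl r) - y (Sum.inr r)) ^ 2 +
      (y (Sum.inl (r + 1)) - y (Sum.inr r)) ^ 2) +
      1 / 2 * ct ((1 - d) / 2) * (1 + e) * (y (Sum.inl r) ^ 2 + y (Sum.inl (r + 1)) ^ 2 +
        2 * y (Sum.inr r) ^ 2)) : ℝ) : ℂ) +
      Complex.I * ((π * ∑ r, (y (Sum.inl r) - y (Sum.inl (r + 1))) * y (Sum.inr r) : ℝ) : ℂ))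

lemma gl_split (e n : ℕ) [NeZero n] (m : ℤ) (d : ℝ) (v : (Ix n → ℝ) × ℝ) :
    gl e n m d v = (((2 * Real.sin (π * d))⁻¹ ^ n : ℝ) : ℂ) *
      (Fy e n d (fun s => v.1 (Sum.inl s)) *
        Complex.exp (-(((n * (2 * ct ((1 - d) / 2)) : ℝ) : ℂ) - 2 * π * m * Complex.I) *
          ((v.1 (Sum.inr ()) : ℝ) : ℂ) ^ 2) * Complex.exp (-1 * ((v.2 : ℝ) : ℂ) ^ 2)) := by
  unfold gl Fy
  rw [RQ_apply, SQ_apply, ← Complex.exp_add, ← Complex.exp_add]
  unfold Sv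
  congr 2
  rw [sum_add_distrib (g := fun _ : Fin n => 2 * ct ((1 - d) / 2) * v.1 (Sum.inr ()) ^ 2),
    sum_const, card_univ, Fintype.card_fin, nsmul_eq_mul]
  push_cast
  ring

lemma int_gl {e n : ℕ} [NeZero n] (m : ℤ) {d : ℝ} (hd : 0 < ct ((1 - d) / 2)) :
    ∫ v, gl e n m d v = (((2 * Real.sin (π * d))⁻¹ ^ n : ℝ) : ℂ) *
      ((∫ y, Fy e n d y) * (π / (((n * (2 * ct ((1 - d) / 2)) : ℝ) : ℂ) -
        2 * π * m * Complex.I)) ^ (1 / 2 : ℂ) * (π / 1) ^ (1 / 2 : ℂ)) := by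
  have hn : (0 : ℝ) < n := by exact_mod_cast Nat.pos_of_ne_zero (NeZero.ne n)
  simp only [gl_split]
  rw [integral_const_mul, int_split (Fy e n d)
    (fun g => Complex.exp (-(((n * (2 * ct ((1 - d) / 2)) : ℝ) : ℂ) - 2 * π * m * Complex.I) *
      ((g : ℝ) : ℂ) ^ 2)) (fun x => Complex.exp (-1 * ((x : ℝ) : ℂ) ^ 2)),
    integral_gaussian_complex, integral_gaussian_complex]
  · simp
  · have h1 : ((((n * (2 * ct ((1 - d) / 2)) : ℝ) : ℂ) - 2 * π * m * Complex.I)).re =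
        n * (2 * ct ((1 - d) / 2)) := by
      rw [Complex.sub_re, Complex.ofReal_re]
      have : (2 * (π : ℂ) * m * Complex.I).re = 0 := by
        rw [Complex.mul_I_re]
        have : (2 * (π : ℂ) * m).im = 0 := by
          rw [show (2 * (π : ℂ) * m) = ((2 * π * m : ℝ) : ℂ) by push_cast; ring]
          exact Complex.ofReal_im _
        rw [this, neg_zero]
      rw [this, sub_zero]
    rw [h1]
    positivity

/-- the dependence of the leading coefficient on the number of full twists -/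
theorem KK_eq {e n : ℕ} [NeZero n] (m : ℤ) {d : ℝ} (hd : 0 < ct ((1 - d) / 2)) :
    KK e n m d = KK e n 0 d *
      (1 - Complex.I * ((π / ct ((1 - d) / 2) * m / n : ℝ) : ℂ)) ^ (-(1 / 2) : ℂ) := by
  have hn : (0 : ℝ) < n := by exact_mod_cast Nat.pos_of_ne_zero (NeZero.ne n)
  set a : ℝ := n * (2 * ct ((1 - d) / 2)) with ha
  have ha0 : 0 < a := by positivity
  have haC : (a : ℂ) ≠ 0 := by exact_mod_cast ha0.ne'
  set z : ℂ := 1 - Complex.I * ((π / ct ((1 - d) / 2) * m / n : ℝ) : ℂ) with hz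
  have hzre : z.re = 1 := by
    rw [hz, Complex.sub_re, Complex.one_re, Complex.I_mul_re, Complex.ofReal_im, neg_zero, sub_zero]
  have hz0 : z ≠ 0 := by
    intro h
    rw [h, Complex.zero_re] at hzre
    norm_num at hzre
  have harg : z.arg ≠ π := by
    rw [Ne, Complex.arg_eq_pi_iff, hzre]
    norm_num
  have h1 : ((a : ℝ) : ℂ) - 2 * π * m * Complex.I = (a : ℂ) * z := by
    rw [hz, ha]
    have hct : ((ct ((1 - d) / 2) : ℝ) : ℂ) ≠ 0 := by exact_mod_cast hd.ne'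
    have hnc : (n : ℂ) ≠ 0 := by exact_mod_cast hn.ne'
    push_cast
    field_simp
  have h2 : (π / (((a : ℝ) : ℂ) - 2 * π * m * Complex.I)) ^ (1 / 2 : ℂ) =
      ((π / a : ℝ) : ℂ) ^ (1 / 2 : ℂ) * z ^ (-(1 / 2) : ℂ) := by
    rw [h1]
    have e1 : (π : ℂ) / ((a : ℂ) * z) = ((π / a : ℝ) : ℂ) * z⁻¹ := by
      push_cast
      field_simp
    have hpa : 0 < π / a := div_pos Real.pi_pos ha0
    have hpc : ((π / a : ℝ) : ℂ) ≠ 0 := by exact_mod_cast hpa.ne'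
    have hzi : z⁻¹ ≠ 0 := inv_ne_zero hz0
    rw [e1, Complex.cpow_def_of_ne_zero (mul_ne_zero hpc hzi), Complex.log_ofReal_mul hpa hzi,
      add_mul, Complex.exp_add, Complex.ofReal_log hpa.le, ← Complex.cpow_def_of_ne_zero hpc,
      ← Complex.cpow_def_of_ne_zero hzi, Complex.inv_cpow _ _ harg, Complex.cpow_neg]
  have h3 : (π / (((a : ℝ) : ℂ) - 2 * π * ((0 : ℤ) : ℂ) * Complex.I)) ^ (1 / 2 : ℂ) =
      ((π / a : ℝ) : ℂ) ^ (1 / 2 : ℂ) := by
    congr 1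
    push_cast
    ring
  unfold KK
  rw [int_gl m hd, int_gl 0 hd, ← ha, h2, h3]
  ring

end Pool.Agent.X132.FT
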