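import Pool.Agent.X132.FTk
import Pool.Agent.W715.VC.Growth

/-!
# The closures of `Δ^{2m} (s_1^A s_2^{-A})^n` with their axes: asymptotics of the invariants
-/

set_option autoImplicit false

namespace Pool.Agent.X132.FT

open Finset Filter Topology MeasureTheory
open Pool.Agent.Y472 (ftw bw letters)
open Pool.Agent.W711.HT (vN)
open Pool.Agent.W715.VC (rt rep3 axisClosure dual wpow)
open Pool.Agent.Y472.K (Lc)
open scoped Real

/-- the list of the exponents -/
def ex (e n : ℕ) : List (ℤ × ℤ) := List.replicate n ((e : ℤ) + 1, -((e : ℤ) + 1))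

/-- the comparison function -/
noncomputable def wt (κ : ℝ) (N : ℕ) : ℝ := (N : ℝ) ^ (3 / 2 : ℝ) * Real.exp (κ * N)

lemma wt_pos (κ : ℝ) {N : ℕ} (hN : 0 < N) : 0 < wt κ N := by
  have : (0 : ℝ) < N := by exact_mod_cast hN
  unfold wt
  positivity

lemma v_lim (k : ℤ) : Tendsto (fun N : ℕ => vN N ^ k) atTop (𝓝 1) := by
  have h1 : Tendsto (fun N : ℕ => π * Complex.I * k / (N : ℂ)) atTop (𝓝 0) :=
    tendsto_const_nhds.div_atTop' k
  have h2 := (Complex.continuous_exp.tendsto 0).comp h1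
  rw [Complex.exp_zero] at h2
  refine h2.congr fun N => ?_
  unfold vN
  rw [← Complex.exp_int_mul]
  simp only [Function.comp]
  congr 1
  ring
where
  tendsto_const_nhds.div_atTop' (k : ℤ) :
      Tendsto (fun N : ℕ => π * Complex.I * k / (N : ℂ)) atTop (𝓝 0) := by
    have := (tendsto_natCast_atTop_cobounded (α := ℂ))
    have h2 := (tendsto_inv₀_cobounded (α := ℂ)).comp this
    have h3 := h2.const_mul (π * Complex.I * k)
    rw [mul_zero] at h3
    refine h3.congr fun N => ?_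
    simp only [Function.comp]
    rw [div_eq_mul_inv]

theorem trace_asym {e : ℕ} {d : ℝ} (P : Par e d) (n : ℕ) [NeZero n] (m : ℤ) :
    Tendsto (fun N : ℕ => (rep3 N (ftw m ++ bw (ex e n))).trace /
      ((wt (2 * n * he e d) N : ℝ) : ℂ)) atTop (𝓝 (KK e n m d)) := by
  have h := (v_lim (4 * m)).mul (asym P n m).2
  rw [one_mul] at h
  refine h.congr' ?_
  filter_upwards [eventually_ge_atTop 2] with N hN
  have hNp : (0 : ℝ) < N := by exact_mod_cast (by omega : 0 < N)
  have hs : 0 < √(N : ℝ) := Real.sqrt_pos.2 hNp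
  rw [ex, trace_eq P.e1 hN m]
  have h1 : (wt (2 * n * he e d) N : ℝ) = N * √N * Real.exp (N * (2 * n * he e d)) := by
    unfold wt
    rw [show (3 / 2 : ℝ) = 1 + 1 / 2 by norm_num, Real.rpow_add hNp, Real.rpow_one,
      ← Real.sqrt_eq_rpow, mul_comm (2 * (n : ℝ) * he e d)]
  rw [h1, Real.exp_neg]
  have hsc : ((√(N : ℝ) : ℝ) : ℂ) ≠ 0 := by exact_mod_cast hs.ne'
  have hNc : (N : ℂ) ≠ 0 := by exact_mod_cast (by omega : N ≠ 0)
  have hec : ((Real.exp (N * (2 * n * he e d)) : ℝ) : ℂ) ≠ 0 := by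
    exact_mod_cast (Real.exp_pos _).ne'
  push_cast at hec ⊢
  field_simp

/-! ### The sign -/

lemma im_sum_le (s : Multiset ℂ) (hs : ∀ a ∈ s, (∃ r : ℝ, 0 < r ∧ a = r) ∨ ‖a‖ = 1) (n : ℕ) :
    |((s.map fun a => a ^ n).sum).im| ≤ (s.card : ℝ) := by
  induction s using Multiset.induction_on with
  | empty => simp
  | cons b s ih =>
    rw [Multiset.map_cons, Multiset.sum_cons, Multiset.card_cons, Complex.add_im]
    have h1 := ih fun a ha => hs a (Multiset.mem_cons_of_mem ha)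
    have h2 : |(b ^ n).im| ≤ 1 := by
      rcases hs b (Multiset.mem_cons_self b s) with ⟨r, hr, rfl⟩ | hb
      · rw [← Complex.ofReal_pow, Complex.ofReal_im, abs_zero]
        exact zero_le_one
      · have h3 := Complex.abs_im_le_norm (b ^ n)
        rwa [norm_pow, hb, one_pow] at h3
    push_cast
    refine (abs_add_le _ _).trans ?_
    linarith

lemma trace_sign {N : ℕ} (hN : 0 < N) {u : List (ℕ × Bool)} (hu : ∀ l ∈ u, l.1 < 2) {n : ℕ}
    (hn : n ≠ 0) : -(N : ℝ) ^ 3 ≤ (rep3 N (wpow (u ++ dual u) n)).trace.re ∧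
      |(rep3 N (wpow (u ++ dual u) n)).trace.im| ≤ (N : ℝ) ^ 3 := by
  rw [Pool.Agent.W715.VC.rep3_wpow]
  set B := rep3 N (u ++ dual u) with hB
  rw [Pool.Agent.W715.VC.trace_pow B hn]
  have hcard : B.charpoly.roots.card = N ^ 3 := by
    rw [Pool.Agent.W715.VC.card_roots' B]
    simp only [Pool.Agent.W715.VC.I3, Fintype.card_prod, Fintype.card_fin]
    ring
  have hr : ∀ a ∈ B.charpoly.roots, (∃ r : ℝ, 0 < r ∧ a = r) ∨ ‖a‖ = 1 := by
    intro a ha
    obtain ⟨m, hm⟩ := Pool.Agent.W715.VC.eig_of_root (Pool.Agent.W715.VC.good_rep3 _) ha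
    exact Pool.Agent.W715.VC.eig_main hN hu hm
  have h1 := Pool.Agent.W715.VC.re_sum_ge B.charpoly.roots hr n
  have h2 := im_sum_le B.charpoly.roots hr n
  rw [hcard] at h1 h2
  push_cast at h1 h2
  exact ⟨h1, h2⟩

lemma bw_eq (e n : ℕ) : bw (ex e n) = wpow (List.replicate (e + 1) (0, true) ++
    dual (List.replicate (e + 1) (0, true))) n := by
  unfold bw ex wpow
  rw [List.map_replicate]
  congr 2
  unfold letters dual
  have h1 : decide ((0 : ℤ) ≤ (e : ℤ) + 1) = true := by simp; omega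
  have h2 : decide ((0 : ℤ) ≤ -((e : ℤ) + 1)) = false := by simp; omega
  have h3 : ((e : ℤ) + 1).natAbs = e + 1 := by omega
  simp only [h1, h2, Int.natAbs_neg, h3, List.map_replicate, List.reverse_replicate]
  rfl

lemma wt_big {κ : ℝ} (hκ : 0 < κ) : Tendsto (fun N : ℕ => (N : ℝ) ^ 3 / wt κ N) atTop (𝓝 0) := by
  have h2 := Real.tendsto_pow_mul_exp_neg_atTop_nhds_zero 3
  have h3 : Tendsto (fun N : ℕ => κ * (N : ℝ)) atTop atTop :=
    tendsto_natCast_atTop_atTop.const_mul_atTop hκ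
  have h4 := (h2.comp h3).const_mul ((κ ^ 3)⁻¹)
  rw [mul_zero] at h4
  refine squeeze_zero' (Eventually.of_forall fun N => by unfold wt; positivity) ?_ h4
  filter_upwards [eventually_ge_atTop 1] with N hN
  have hN1 : (1 : ℝ) ≤ N := by exact_mod_cast hN
  have h5 : (1 : ℝ) ≤ (N : ℝ) ^ (3 / 2 : ℝ) := Real.one_le_rpow hN1 (by norm_num)
  unfold wt
  simp only [Function.comp]
  rw [Real.exp_neg, mul_pow]
  have h6 : (κ ^ 3)⁻¹ * (κ ^ 3 * (N : ℝ) ^ 3 * (Real.exp (κ * N))⁻¹) =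
      (N : ℝ) ^ 3 / Real.exp (κ * N) := by
    field_simp
  rw [h6]
  refine div_le_div_of_nonneg_left (by positivity) (Real.exp_pos _) ?_
  exact le_mul_of_one_le_left (Real.exp_pos _).le h5

lemma he_pos {e : ℕ} {d : ℝ} (P : Par e d) : 0 < he e d := by
  have h1 := P.gap 1 zero_le_one le_rfl
  rw [sub_self, zero_div, Lc_zero] at h1
  linarith

theorem KK_pos {e : ℕ} {d : ℝ} (P : Par e d) (n : ℕ) [NeZero n] :
    ∃ c : ℝ, 0 < c ∧ KK e n 0 d = (c : ℂ) := by
  have hn : (0 : ℝ) < n := by exact_mod_cast Nat.pos_of_ne_zero (NeZero.ne n)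
  have h := trace_asym P n 0
  have hκ : 0 < 2 * n * he e d := by
    have := he_pos P
    positivity
  have h0 : ftw 0 = [] := rfl
  simp only [h0, List.nil_append, bw_eq] at h
  have hw := wt_big hκ
  have hs : ∀ᶠ N : ℕ in atTop, -(N : ℝ) ^ 3 / wt (2 * n * he e d) N ≤
      ((rep3 N (wpow (List.replicate (e + 1) (0, true) ++
        dual (List.replicate (e + 1) (0, true))) n)).trace /
          ((wt (2 * n * he e d) N : ℝ) : ℂ)).re ∧
      ‖((rep3 N (wpow (List.replicate (e + 1) (0, true) ++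
        dual (List.replicate (e + 1) (0, true))) n)).trace /
          ((wt (2 * n * he e d) N : ℝ) : ℂ)).im‖ ≤ (N : ℝ) ^ 3 / wt (2 * n * he e d) N := by
    filter_upwards [eventually_ge_atTop 1] with N hN
    have h1 := trace_sign (N := N) (by omega) (u := List.replicate (e + 1) (0, true))
      (fun l hl => by rw [List.eq_of_mem_replicate hl]; norm_num) (NeZero.ne n)
    have hwp := wt_pos (2 * n * he e d) (N := N) (by omega)
    rw [Complex.div_ofReal_re, Complex.div_ofReal_im]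
    refine ⟨div_le_div_of_nonneg_right h1.1 hwp.le, ?_⟩
    rw [Real.norm_eq_abs, abs_div, abs_of_pos hwp]
    exact div_le_div_of_nonneg_right h1.2 hwp.le
  have hre := (Complex.continuous_re.tendsto _).comp h
  have him := (Complex.continuous_im.tendsto _).comp h
  have h1 : 0 ≤ (KK e n 0 d).re := by
    have hw' := hw.neg
    rw [neg_zero] at hw'
    refine le_of_tendsto_of_tendsto hw' hre ?_
    filter_upwards [hs] with N hN
    rw [← neg_div]
    exact hN.1
  have h2 : (KK e n 0 d).im = 0 := by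
    have h3 := squeeze_zero_norm' (hs.mono fun _ h => h.2) hw
    exact tendsto_nhds_unique him h3
  have hne := (asym P n 0).1
  refine ⟨(KK e n 0 d).re, lt_of_le_of_ne h1 ?_, ?_⟩
  · intro h3
    apply hne
    apply Complex.ext
    · exact h3.symm
    · exact h2
  · apply Complex.ext
    · simp
    · simp [h2]

/-! ### The invariants -/

lemma rt_pow_lim : Tendsto (fun N : ℕ => rt N ^ (-3 * ((N : ℤ) - 1))) atTop (𝓝 (-1)) := by
  have h := (v_lim 3).neg
  refine h.congr' ?_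
  filter_upwards [eventually_ge_atTop 1] with N hN
  have h1 := Pool.Agent.W715.VC.rt_zpow_N (N := N) (by omega)
  have h0 := Pool.Agent.W715.VC.rt_ne N
  rw [show -3 * ((N : ℤ) - 1) = (N : ℤ) * (-3) + 3 by ring, zpow_add₀ h0, _root_.zpow_mul, h1]
  have h2 : ((-1 : ℂ) ^ (-3 : ℤ)) = -1 := by norm_num
  rw [h2, neg_one_mul]
  rfl

/-- the leading coefficient -/
noncomputable def cf (n : ℕ) (t : ℝ) (m : ℤ) (c : ℝ) : ℂ :=
  -(c : ℂ) * (1 - Complex.I * ((t * m / n : ℝ) : ℂ)) ^ (-(1 / 2) : ℂ)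

theorem cj_asym {e : ℕ} {d : ℝ} (P : Par e d) (n : ℕ) [NeZero n] : ∃ c : ℝ, 0 < c ∧ ∀ m : ℤ,
    Tendsto (fun N : ℕ => Pool.Agent.H550R3.Jones.cjones N 3 (axisClosure
      (ftw m ++ bw (ex e n))) (rt N) / ((wt (2 * n * he e d) N : ℝ) : ℂ)) atTop
      (𝓝 (cf n (π / ct ((1 - d) / 2)) m c)) := by
  obtain ⟨c, hc, hK⟩ := KK_pos P n
  refine ⟨c, hc, fun m => ?_⟩
  have hd1 := P.d1
  have hd2 := P.d2
  have h := rt_pow_lim.mul (trace_asym P n m)
  rw [KK_eq m (ct_pos (by linarith) (by linarith)), hK, ← mul_assoc, neg_one_mul] at h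
  refine h.congr' ?_
  filter_upwards [eventually_ge_atTop 1] with N hN
  rw [Pool.Agent.W715.VC.cjones_axis (by omega), mul_div_assoc]

lemma cf_ne {n : ℕ} {t : ℝ} {m : ℤ} {c : ℝ} (hc : 0 < c) : cf n t m c ≠ 0 := by
  unfold cf
  refine mul_ne_zero (neg_ne_zero.2 (by exact_mod_cast hc.ne')) ?_
  rw [Complex.cpow_ne_zero_iff]
  left
  intro h
  have h1 := congrArg Complex.re h
  rw [Complex.sub_re, Complex.one_re, Complex.I_mul_re, Complex.ofReal_im, neg_zero, sub_zero,
    Complex.zero_re] at h1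
  norm_num at h1

/-! ### Consequences of the asymptotics -/

variable {f : ℕ → ℂ} {κ : ℝ} {K : ℂ}

lemma ev_ne (hK : K ≠ 0) (h : Tendsto (fun N : ℕ => f N / ((wt κ N : ℝ) : ℂ)) atTop (𝓝 K)) :
    ∀ᶠ N in atTop, f N ≠ 0 := by
  filter_upwards [h.eventually_ne hK] with N hN h0
  rw [h0, zero_div] at hN
  exact hN rfl

lemma log_lim (hK : K ≠ 0) (h : Tendsto (fun N : ℕ => f N / ((wt κ N : ℝ) : ℂ)) atTop (𝓝 K)) :
    Tendsto (fun N : ℕ => 2 * π * (Real.log ‖f N‖ / N)) atTop (𝓝 (2 * π * κ)) := by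
  have h1 : Tendsto (fun N : ℕ => Real.log ‖f N / ((wt κ N : ℝ) : ℂ)‖ / N) atTop (𝓝 0) :=
    ((h.norm.log (norm_ne_zero_iff.2 hK))).div_atTop tendsto_natCast_atTop_atTop
  have h2 : Tendsto (fun N : ℕ => 3 / 2 * (Real.log N / N)) atTop (𝓝 0) := by
    have h3 : Tendsto (fun x : ℝ => Real.log x / x) atTop (𝓝 0) := by
      have := Real.isLittleO_log_id_atTop.tendsto_div_nhds_zero
      exact this
    have := (h3.comp tendsto_natCast_atTop_atTop).const_mul (3 / 2)
    rw [mul_zero] at this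
    exact this
  have h3 := ((h1.add h2).add_const κ).const_mul (2 * π)
  rw [add_zero, zero_add] at h3
  refine h3.congr' ?_
  filter_upwards [ev_ne hK h, eventually_ge_atTop 1] with N hN h1N
  have hNp : (0 : ℝ) < N := by exact_mod_cast (by omega : 0 < N)
  have hwp := wt_pos κ (N := N) (by omega)
  rw [norm_div, Complex.norm_real, Real.norm_eq_abs, abs_of_pos hwp,
    Real.log_div (norm_ne_zero_iff.2 hN) hwp.ne']
  have h4 : Real.log (wt κ N) = 3 / 2 * Real.log N + κ * N := by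
    unfold wt
    rw [Real.log_mul (by positivity) (Real.exp_pos _).ne', Real.log_rpow hNp, Real.log_exp]
  rw [h4]
  field_simp
  ring

lemma wt_ratio (κ : ℝ) : Tendsto (fun N : ℕ => wt κ (N + 1) / wt κ N) atTop (𝓝 (Real.exp κ)) := by
  have h1 : Tendsto (fun N : ℕ => 1 + 1 / (N : ℝ)) atTop (𝓝 1) := by
    have := tendsto_one_div_atTop_nhds_zero_nat (𝕜 := ℝ)
    have h2 := this.const_add 1
    rwa [add_zero] at h2
  have h2 := (h1.rpow_const (p := 3 / 2) (Or.inr (by norm_num))).mul_const (Real.exp κ)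
  rw [Real.one_rpow, one_mul] at h2
  refine h2.congr' ?_
  filter_upwards [eventually_ge_atTop 1] with N hN
  have hNp : (0 : ℝ) < N := by exact_mod_cast (by omega : 0 < N)
  unfold wt
  push_cast
  rw [mul_add, mul_one, Real.exp_add, show 1 + 1 / (N : ℝ) = ((N : ℝ) + 1) / N by field_simp,
    Real.div_rpow (by positivity) hNp.le]
  field_simp

lemma ratio_lim (hK : K ≠ 0) (h : Tendsto (fun N : ℕ => f N / ((wt κ N : ℝ) : ℂ)) atTop (𝓝 K)) :
    Tendsto (fun N : ℕ => f (N + 1) / f N) atTop (𝓝 ((Real.exp κ : ℝ) : ℂ)) := by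
  have h1 := (tendsto_add_atTop_iff_nat 1).2 h
  have h2 := (h1.div h hK).mul ((Complex.continuous_ofReal.tendsto _).comp (wt_ratio κ))
  rw [div_self hK, one_mul] at h2
  refine h2.congr' ?_
  filter_upwards [ev_ne hK h, eventually_ge_atTop 1] with N hN h1N
  have hwp := wt_pos κ (N := N) (by omega)
  have hwp' := wt_pos κ (N := N + 1) (by omega)
  have e1 : ((wt κ N : ℝ) : ℂ) ≠ 0 := by exact_mod_cast hwp.ne'
  have e2 : ((wt κ (N + 1) : ℝ) : ℂ) ≠ 0 := by exact_mod_cast hwp'.ne'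
  simp only [Function.comp, Pi.div_apply]
  push_cast
  field_simp

/-! ### Values of the constants -/

lemma rate0 (n : ℕ) : 2 * n * he (0 : ℕ) (1 / 3) =
    n * (8 * -∫ t in (0 : ℝ)..(π / 6), Real.log |2 * Real.sin t|) / (2 * π) := by
  have h := Pool.Agent.Y988.TK.lob (π / 6)
  have hb := Pool.Agent.Y988.TK.base0
  have hpi := Real.pi_ne_zero
  rw [h, show π / 6 / π = 1 / 6 by field_simp]
  unfold he
  rw [Nat.cast_zero, show (1 - (1 : ℝ) / 3) / 2 = 1 / 3 by norm_num]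
  field_simp
  linear_combination (-2 * (n : ℝ)) * hb

lemma rate1 (n : ℕ) : 2 * n * he (1 : ℕ) (1 / 2) =
    n * (16 * -∫ t in (0 : ℝ)..(π / 4), Real.log |2 * Real.sin t|) / (2 * π) := by
  have h := Pool.Agent.Y988.TK.lob (π / 4)
  have hh := Pool.Agent.Y988.TK.Lc_half
  have hpi := Real.pi_ne_zero
  rw [h, show π / 4 / π = 1 / 4 by field_simp]
  unfold he
  rw [Nat.cast_one, show (1 - (1 : ℝ) / 2) / 2 = 1 / 4 by norm_num, hh]
  field_simp
  ring

lemma shape0 : π / ct ((1 - 1 / 3) / 2) = √3 := by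
  have hpi := Real.pi_ne_zero
  unfold ct
  rw [show π * ((1 - (1 : ℝ) / 3) / 2) = π / 3 by ring, Real.cos_pi_div_three,
    Real.sin_pi_div_three]
  field_simp

lemma shape1 : π / ct ((1 - 1 / 2) / 2) = 1 := by
  have hpi := Real.pi_ne_zero
  unfold ct
  rw [show π * ((1 - (1 : ℝ) / 2) / 2) = π / 4 by ring, Real.cos_pi_div_four,
    Real.sin_pi_div_four]
  have : √2 ≠ 0 := by positivity
  field_simp

end Pool.Agent.X132.FT
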