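import Pool.Agent.X132.FTl

/-!
# The closures of `Δ^{2m} (s_1^A s_2^{-A})^n` with their axes: the value of the leading coefficient
-/

set_option autoImplicit false

namespace Pool.Agent.X132.FT

open Finset Filter Topology MeasureTheory
open Pool.Agent.Y472 (ftw bw)
open Pool.Agent.W715.VC (rt axisClosure)
open scoped Real

/-! ### The determinant -/

/-- the bidiagonal circulant matrix -/
noncomputable def Bm (n : ℕ) [NeZero n] (s t : ℝ) : Matrix (Fin n) (Fin n) ℝ :=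
  fun r c => (if c = r then s else 0) - (if c = r + 1 then t else 0)

lemma val_ao {k : ℕ} (r : Fin (k + 1 + 1)) :
    ((r + 1 : Fin (k + 1 + 1)) : ℕ) = if (r : ℕ) = k + 1 then 0 else (r : ℕ) + 1 := by
  rw [Fin.val_add_one]
  by_cases h : r = Fin.last (k + 1)
  · rw [if_pos h, if_pos (by rw [h]; rfl)]
  · rw [if_neg h, if_neg]
    intro h'
    exact h (Fin.ext h')

lemma Bm_val {k : ℕ} (s t : ℝ) (r c : Fin (k + 1 + 1)) : Bm (k + 1 + 1) s t r c =
    (if (c : ℕ) = r then s else 0) -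
      (if (c : ℕ) = (if (r : ℕ) = k + 1 then 0 else (r : ℕ) + 1) then t else 0) := by
  unfold Bm
  rw [← val_ao]
  simp only [Fin.ext_iff]

lemma det_Bm (n : ℕ) [NeZero n] (s t : ℝ) : (Bm n s t).det = s ^ n - t ^ n := by
  obtain ⟨k, rfl⟩ : ∃ k, n = k + 1 := ⟨n - 1, by have := NeZero.pos n; omega⟩
  rcases k with _ | k
  · rw [Matrix.det_fin_one]
    simp [Bm]
  · rw [Matrix.det_succ_column_zero, Fin.sum_univ_castSucc, Fin.sum_univ_succ]
    have h0 : ∀ i : Fin k, Bm (k + 1 + 1) s t i.succ.castSucc 0 = 0 := by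
      intro i
      have hi := i.2
      rw [Bm_val]
      simp only [Fin.val_zero, Fin.val_castSucc, Fin.val_succ]
      rw [if_neg (by omega), if_neg (by intro h; split_ifs at h <;> omega), sub_zero]
    have h1 : ∑ i : Fin k, (-1 : ℝ) ^ (i.succ.castSucc : Fin (k + 1 + 1)).val *
        Bm (k + 1 + 1) s t i.succ.castSucc 0 *
        ((Bm (k + 1 + 1) s t).submatrix i.succ.castSucc.succAbove Fin.succ).det = 0 :=
      sum_eq_zero fun i _ => by rw [h0]; ring
    have h2 : ((Bm (k + 1 + 1) s t).submatrix (Fin.castSucc (0 : Fin (k + 1))).succAbove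
        Fin.succ).det = s ^ (k + 1) := by
      rw [Matrix.det_of_isUpperTriangular]
      · rw [prod_eq_pow_card (b := s)]
        · simp
        · intro i _
          rw [Matrix.submatrix_apply, Fin.castSucc_zero, Fin.succAbove_zero, Bm_val, if_pos rfl,
            if_neg, sub_zero]
          simp only [Fin.val_succ]
          intro h
          split_ifs at h <;> omega
      · intro i j hij
        have hij' : (j : ℕ) < i := hij
        rw [Matrix.submatrix_apply, Fin.castSucc_zero, Fin.succAbove_zero, Bm_val]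
        simp only [Fin.val_succ]
        rw [if_neg (by omega), if_neg (by intro h; split_ifs at h <;> omega), sub_zero]
    have h3 : ((Bm (k + 1 + 1) s t).submatrix (Fin.last (k + 1)).succAbove
        Fin.succ).det = (-t) ^ (k + 1) := by
      rw [Matrix.det_of_isLowerTriangular]
      · rw [prod_eq_pow_card (b := -t)]
        · simp
        · intro i _
          have hi := i.2
          rw [Matrix.submatrix_apply, Fin.succAbove_last, Bm_val]
          simp only [Fin.val_succ, Fin.val_castSucc]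
          rw [if_neg (by omega), if_pos (by rw [if_neg (by omega)]), zero_sub]
      · intro i j hij
        have hij' : (i : ℕ) < j := hij
        have hi := i.2
        rw [Matrix.submatrix_apply, Fin.succAbove_last, Bm_val]
        simp only [Fin.val_succ, Fin.val_castSucc]
        rw [if_neg (by omega), if_neg (by intro h; split_ifs at h <;> omega), sub_zero]
    rw [h1, h2, h3]
    have h4 : Bm (k + 1 + 1) s t (Fin.castSucc (0 : Fin (k + 1))) 0 = s := by
      rw [Bm_val]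
      simp only [Fin.castSucc_zero, Fin.val_zero]
      rw [if_pos trivial, if_neg (by intro h; split_ifs at h <;> omega), sub_zero]
    have h5 : Bm (k + 1 + 1) s t (Fin.last (k + 1)) 0 = -t := by
      rw [Bm_val]
      simp only [Fin.val_zero, Fin.val_last]
      rw [if_neg (by omega), if_pos (by simp), zero_sub]
    rw [h4, h5]
    simp only [Fin.castSucc_zero, Fin.val_zero, pow_zero, one_mul, add_zero, Fin.val_last]
    have h6 : (-1 : ℝ) ^ (k + 1) * -t * (-t) ^ (k + 1) = -t ^ (k + 1 + 1) := by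
      rw [neg_pow t (k + 1)]
      have : ((-1 : ℝ) ^ (k + 1)) * (-1) ^ (k + 1) = 1 := by rw [← mul_pow]; norm_num
      linear_combination (-(t * t ^ (k + 1))) * this
    rw [h6]
    ring

/-! ### The Gaussian integrals -/

/-- the real Gaussian integral -/
lemma int_alpha {n : ℕ} [NeZero n] {b s t : ℝ} (hb : 0 < b) (ht : 0 ≤ t) (hst : t < s) :
    ∫ a : Fin n → ℝ, Real.exp (-(b * ∑ r, (s * a r - t * a (r + 1)) ^ 2)) =
      √(π / b) ^ n / (s ^ n - t ^ n) := by
  have hdet : 0 < s ^ n - t ^ n := sub_pos.2 (pow_lt_pow_left₀ hst ht (NeZero.ne n))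
  have h1 := Real.map_matrix_volume_pi_eq_smul_volume_pi (M := Bm n s t)
    (by rw [det_Bm]; exact hdet.ne')
  have h2 : ∀ (a : Fin n → ℝ) (r : Fin n), Matrix.toLin' (Bm n s t) a r =
      s * a r - t * a (r + 1) := by
    intro a r
    rw [Matrix.toLin'_apply, Matrix.mulVec, dotProduct]
    unfold Bm
    simp only [sub_mul, sum_sub_distrib, ite_mul, zero_mul, sum_ite_eq', mem_univ, if_true]
  have h3 : ∫ a : Fin n → ℝ, Real.exp (-(b * ∑ r, (s * a r - t * a (r + 1)) ^ 2)) =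
      ∫ a : Fin n → ℝ, (fun u : Fin n → ℝ => Real.exp (-(b * ∑ r, u r ^ 2)))
        (Matrix.toLin' (Bm n s t) a) := by
    refine integral_congr_ae (Eventually.of_forall fun a => ?_)
    simp only [h2]
  rw [h3, ← integral_map (f := fun u : Fin n → ℝ => Real.exp (-(b * ∑ r, u r ^ 2)))
    (LinearMap.continuous_on_pi _).aemeasurable
    (by fun_prop : Continuous fun u : Fin n → ℝ =>
      Real.exp (-(b * ∑ r, u r ^ 2))).aestronglyMeasurable, h1, integral_smul_measure,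
    det_Bm, abs_of_pos (inv_pos.2 hdet), ENNReal.toReal_ofReal (inv_pos.2 hdet).le, smul_eq_mul]
  have h4 : ∫ u : Fin n → ℝ, Real.exp (-(b * ∑ r, u r ^ 2)) = √(π / b) ^ n := by
    have h5 : ∀ u : Fin n → ℝ, Real.exp (-(b * ∑ r, u r ^ 2)) =
        ∏ r, Real.exp (-b * u r ^ 2) := by
      intro u
      rw [← Real.exp_sum]
      congr 1
      rw [← mul_sum]
      ring
    simp only [h5]
    rw [integral_fintype_prod_volume_eq_pow (fun x : ℝ => Real.exp (-b * x ^ 2)),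
      integral_gaussian, Fintype.card_fin]
  rw [h4]
  field_simp

/-- the complex Gaussian integral -/
lemma int_beta {n : ℕ} {b : ℝ} (hb : 0 < b) (W : Fin n → ℂ) :
    ∫ β : Fin n → ℝ, Complex.exp (∑ r, (-(b : ℂ) * (β r : ℂ) ^ 2 + W r * (β r : ℂ))) =
      ((√(π / b) ^ n : ℝ) : ℂ) * Complex.exp (∑ r, W r ^ 2 / (4 * b)) := by
  have h1 : ∀ β : Fin n → ℝ, Complex.exp (∑ r, (-(b : ℂ) * (β r : ℂ) ^ 2 + W r * (β r : ℂ))) =
      ∏ r, (fun (r : Fin n) (x : ℝ) => Complex.exp (-(b : ℂ) * (x : ℂ) ^ 2 + W r * (x : ℂ) + 0))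
        r (β r) := by
    intro β
    rw [Complex.exp_sum]
    simp only [add_zero]
  have h3 := integral_fintype_prod_volume_eq_prod (fun (r : Fin n) (x : ℝ) =>
    Complex.exp (-(b : ℂ) * (x : ℂ) ^ 2 + W r * (x : ℂ) + 0))
  rw [integral_congr_ae (Eventually.of_forall h1), h3]
  have h2 : ∀ r, ∫ x : ℝ, Complex.exp (-(b : ℂ) * (x : ℂ) ^ 2 + W r * (x : ℂ) + 0) =
      ((√(π / b) : ℝ) : ℂ) * Complex.exp (W r ^ 2 / (4 * b)) := by
    intro r
    rw [integral_cexp_quadratic (by simpa using hb)]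
    congr 1
    · rw [neg_neg, Real.sqrt_eq_rpow, Complex.ofReal_cpow (by positivity)]
      push_cast
      rfl
    · congr 1
      field_simp
      ring
  rw [prod_congr rfl fun r _ => h2 r, prod_mul_distrib, prod_const, card_univ, Fintype.card_fin,
    ← Complex.exp_sum]
  push_cast
  rfl

/-- the coefficients of the real form after the integration over the lower indices -/
structure Fac (e : ℕ) (d b s t : ℝ) : Prop where
  b0 : 0 < b
  t0 : 0 ≤ t
  ts : t < s
  be : b = ct d + (1 + e) * ct ((1 - d) / 2)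
  sq : s ^ 2 + t ^ 2 = 1 - (ct d ^ 2 - π ^ 2) / (2 * b ^ 2)
  pr : 2 * (s * t) = (ct d ^ 2 + π ^ 2) / (2 * b ^ 2)

theorem int_Fy {e n : ℕ} [NeZero n] {d b s t : ℝ} (H : Fac e d b s t)
    (hint : Integrable (Fy e n d)) :
    ∫ y, Fy e n d y = (((π / b) ^ n / (s ^ n - t ^ n) : ℝ) : ℂ) := by
  have hb := H.b0
  have hbc : (b : ℂ) ≠ 0 := by exact_mod_cast hb.ne'
  have h2 := volume_measurePreserving_sumPiEquivProdPi (fun _ : Fin n ⊕ Fin n => ℝ)
  have h3 := h2.integral_comp' (g := fun z : (Fin n → ℝ) × (Fin n → ℝ) =>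
    Fy e n d (Sum.elim z.1 z.2))
  have h4 : ∫ y, Fy e n d y =
      ∫ z : (Fin n → ℝ) × (Fin n → ℝ), Fy e n d (Sum.elim z.1 z.2) := by
    rw [← h3]
    refine integral_congr_ae (Eventually.of_forall fun y => ?_)
    show Fy e n d y = Fy e n d (Sum.elim (fun r => y (Sum.inl r)) (fun r => y (Sum.inr r)))
    congr 1
    funext r
    rcases r with r | r <;> rfl
  have h5 : Integrable (fun z : (Fin n → ℝ) × (Fin n → ℝ) => Fy e n d (Sum.elim z.1 z.2)) := by
    rw [← h2.integrable_comp_emb (MeasurableEquiv.measurableEmbedding _)]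
    refine hint.congr (Eventually.of_forall fun y => ?_)
    show Fy e n d y = Fy e n d (Sum.elim (fun r => y (Sum.inl r)) (fun r => y (Sum.inr r)))
    congr 1
    funext r
    rcases r with r | r <;> rfl
  have h6 : ∫ z : (Fin n → ℝ) × (Fin n → ℝ), Fy e n d (Sum.elim z.1 z.2) =
      ∫ a : Fin n → ℝ, ∫ c : Fin n → ℝ, Fy e n d (Sum.elim a c) := integral_prod _ h5
  rw [h4, h6]
  have hsh : ∀ (f : ℝ → ℂ) (a : Fin n → ℝ), ∑ r, f (a (r + 1)) = ∑ r, f (a r) := fun f a =>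
    Equiv.sum_comp (Equiv.addRight (1 : Fin n)) fun r => f (a r)
  have h7 : ∀ a : Fin n → ℝ, ∫ c : Fin n → ℝ, Fy e n d (Sum.elim a c) =
      ((√(π / b) ^ n * Real.exp (-(b * ∑ r, (s * a r - t * a (r + 1)) ^ 2)) : ℝ) : ℂ) := by
    intro a
    have k1 : ∀ c : Fin n → ℝ, Fy e n d (Sum.elim a c) =
        Complex.exp (-(b * ∑ r, (a r : ℂ) ^ 2)) *
        Complex.exp (∑ r, (-(b : ℂ) * (c r : ℂ) ^ 2 +
          ((ct d : ℂ) * (a r + a (r + 1)) + Complex.I * π * (a r - a (r + 1))) * (c r : ℂ))) := by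
      intro c
      unfold Fy
      rw [← Complex.exp_add]
      congr 1
      have k2 : (b : ℂ) * ∑ r, (a r : ℂ) ^ 2 =
          ∑ r, (b / 2 * ((a r : ℂ) ^ 2 + (a (r + 1) : ℂ) ^ 2)) := by
        rw [← mul_sum, sum_add_distrib, hsh (fun x => (x : ℂ) ^ 2) a]
        ring
      rw [k2]
      simp only [Sum.elim_inl, Sum.elim_inr]
      push_cast
      rw [mul_sum, mul_sum, ← sum_neg_distrib, ← sum_neg_distrib, ← sum_add_distrib,
        ← sum_add_distrib]
      refine sum_congr rfl fun r _ => ?_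
      have k3 : (b : ℂ) = ct d + (1 + e) * ct ((1 - d) / 2) := by
        rw [H.be]
        push_cast
        ring
      rw [k3]
      ring
    rw [integral_congr_ae (Eventually.of_forall k1), integral_const_mul, int_beta hb]
    have k4 : Complex.exp (-(b * ∑ r, (a r : ℂ) ^ 2)) * (((√(π / b) ^ n : ℝ) : ℂ) *
        Complex.exp (∑ r, ((ct d : ℂ) * (a r + a (r + 1)) +
          Complex.I * π * (a r - a (r + 1))) ^ 2 / (4 * b))) =
        ((√(π / b) ^ n : ℝ) : ℂ) * Complex.exp (-(b * ∑ r, (a r : ℂ) ^ 2) +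
          ∑ r, ((ct d : ℂ) * (a r + a (r + 1)) +
          Complex.I * π * (a r - a (r + 1))) ^ 2 / (4 * b)) := by
      rw [Complex.exp_add]
      ring
    rw [k4, Complex.ofReal_mul, Complex.ofReal_exp]
    congr 2
    have hsq : (s : ℂ) ^ 2 + (t : ℂ) ^ 2 = 1 - ((ct d : ℂ) ^ 2 - π ^ 2) / (2 * b ^ 2) := by
      exact_mod_cast H.sq
    have hpr : 2 * ((s : ℂ) * t) = ((ct d : ℂ) ^ 2 + π ^ 2) / (2 * b ^ 2) := by
      exact_mod_cast H.pr
    have hz : ∑ r, ((a (r + 1) : ℂ) ^ 2 - (a r : ℂ) ^ 2) = 0 := by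
      rw [sum_sub_distrib, hsh (fun x => (x : ℂ) ^ 2) a, sub_self]
    have k5 : ∑ r, ((ct d : ℂ) * (a r + a (r + 1)) +
          Complex.I * π * (a r - a (r + 1))) ^ 2 / (4 * b) =
        ∑ r, ((2 * ((ct d : ℂ) ^ 2 - π ^ 2) * (a r : ℂ) ^ 2 +
          2 * ((ct d : ℂ) ^ 2 + π ^ 2) * (a r * a (r + 1))) / (4 * b)) := by
      have k6 : ∀ r, ((ct d : ℂ) * (a r + a (r + 1)) +
          Complex.I * π * (a r - a (r + 1))) ^ 2 / (4 * b) =
          ((2 * ((ct d : ℂ) ^ 2 - π ^ 2) * (a r : ℂ) ^ 2 +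
          2 * ((ct d : ℂ) ^ 2 + π ^ 2) * (a r * a (r + 1))) / (4 * b)) +
          ((ct d : ℂ) ^ 2 - π ^ 2 - 2 * Complex.I * π * ct d) / (4 * b) *
            ((a (r + 1) : ℂ) ^ 2 - (a r : ℂ) ^ 2) := by
        intro r
        have hI : Complex.I ^ 2 = -1 := Complex.I_sq
        field_simp
        linear_combination (π ^ 2 * ((a r : ℂ) - a (r + 1)) ^ 2) * hI
      rw [sum_congr rfl fun r _ => k6 r, sum_add_distrib, ← mul_sum, hz, mul_zero, add_zero]
    have k7 : ∑ r, ((s : ℂ) * a r - t * a (r + 1)) ^ 2 =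
        ∑ r, (((s : ℂ) ^ 2 + (t : ℂ) ^ 2) * (a r : ℂ) ^ 2 - 2 * (s * t) * (a r * a (r + 1))) := by
      have k8 : ∀ r, ((s : ℂ) * a r - t * a (r + 1)) ^ 2 =
          (((s : ℂ) ^ 2 + (t : ℂ) ^ 2) * (a r : ℂ) ^ 2 - 2 * (s * t) * (a r * a (r + 1))) +
          (t : ℂ) ^ 2 * ((a (r + 1) : ℂ) ^ 2 - (a r : ℂ) ^ 2) := by
        intro r
        ring
      rw [sum_congr rfl fun r _ => k8 r, sum_add_distrib, ← mul_sum, hz, mul_zero, add_zero]
    have k9 : ((-(b * ∑ r, (s * a r - t * a (r + 1)) ^ 2) : ℝ) : ℂ) =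
        -(b * ∑ r, ((s : ℂ) * a r - t * a (r + 1)) ^ 2) := by push_cast; rfl
    rw [k5, k9, k7, hsq, hpr, mul_sum, mul_sum, ← sum_neg_distrib, ← sum_neg_distrib,
      ← sum_add_distrib]
    refine sum_congr rfl fun r _ => ?_
    field_simp
    ring
  rw [integral_congr_ae (Eventually.of_forall h7), integral_complex_ofReal, integral_const_mul,
    int_alpha hb H.t0 H.ts]
  congr 1
  rw [← mul_div_assoc, ← mul_pow, Real.mul_self_sqrt (by positivity)]

theorem KK_val {e n : ℕ} [NeZero n] {d b s t : ℝ} (P : Par e d) (H : Fac e d b s t) :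
    KK e n 0 d = (((2 * Real.sin (π * d))⁻¹ ^ n * ((π / b) ^ n / (s ^ n - t ^ n)) *
      √(π / ct ((1 - d) / 2) / (2 * n)) : ℝ) : ℂ) := by
  have hd1 := P.d1
  have hd2 := P.d2
  have hct := ct_pos (t := (1 - d) / 2) (by linarith) (by linarith)
  have hn : (0 : ℝ) < n := by exact_mod_cast Nat.pos_of_ne_zero (NeZero.ne n)
  have hne := gl_ne P n 0
  have hg := int_gl (e := e) (n := n) 0 hct
  have hint : Integrable (Fy e n d) := by
    by_contra h
    rw [hg, integral_undef h] at hne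
    apply hne
    ring
  unfold KK
  rw [hg, int_Fy H hint]
  have h1 : (π / (((n * (2 * ct ((1 - d) / 2)) : ℝ) : ℂ) - 2 * π * ((0 : ℤ) : ℂ) *
      Complex.I)) ^ (1 / 2 : ℂ) = ((√(π / ct ((1 - d) / 2) / (2 * n)) : ℝ) : ℂ) := by
    rw [Real.sqrt_eq_rpow, Complex.ofReal_cpow (by positivity)]
    congr 1
    · push_cast
      field_simp
      ring
    · push_cast
      rfl
  have h2 : ((π : ℂ) / 1) ^ (1 / 2 : ℂ) = ((√π : ℝ) : ℂ) := by
    rw [div_one, Real.sqrt_eq_rpow, Complex.ofReal_cpow Real.pi_pos.le]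
    push_cast
    rfl
  have hpic : ((√π : ℝ) : ℂ) ≠ 0 := by
    exact_mod_cast (Real.sqrt_pos.2 Real.pi_pos).ne'
  rw [h1, h2]
  push_cast
  field_simp

/-! ### The two families -/

lemma sq3 : √(3 : ℝ) ^ 2 = 3 := Real.sq_sqrt (by norm_num)
lemma sq5 : √(5 : ℝ) ^ 2 = 5 := Real.sq_sqrt (by norm_num)
lemma sq7 : √(7 : ℝ) ^ 2 = 7 := Real.sq_sqrt (by norm_num)

lemma fac0 : Fac 0 (1 / 3) (2 * π / √3) ((√7 + √3) / 4) ((√7 - √3) / 4) := by
  have hpi := Real.pi_pos
  have h3 : 0 < √(3 : ℝ) := by positivity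
  have h37 : √(3 : ℝ) < √7 := Real.sqrt_lt_sqrt (by norm_num) (by norm_num)
  have hct : ct (1 / 3) = π / √3 := by
    unfold ct
    rw [show π * ((1 : ℝ) / 3) = π / 3 by ring, Real.cos_pi_div_three, Real.sin_pi_div_three]
    field_simp
  refine ⟨by positivity, by linarith, by linarith, ?_, ?_, ?_⟩
  · rw [show (1 - (1 : ℝ) / 3) / 2 = 1 / 3 by norm_num, hct]
    push_cast
    ring
  · have e1 : (2 * π / √3) ^ 2 = 4 * π ^ 2 / 3 := by rw [div_pow, mul_pow, sq3]; ring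
    have e2 : (π / √3) ^ 2 = π ^ 2 / 3 := by rw [div_pow, sq3]
    rw [hct, e1, e2, div_pow, div_pow]
    have e3 : (π ^ 2 / 3 - π ^ 2) / (2 * (4 * π ^ 2 / 3)) = -1 / 4 := by
      field_simp
      ring
    rw [e3]
    nlinarith [sq3, sq7]
  · have e1 : (2 * π / √3) ^ 2 = 4 * π ^ 2 / 3 := by rw [div_pow, mul_pow, sq3]; ring
    have e2 : (π / √3) ^ 2 = π ^ 2 / 3 := by rw [div_pow, sq3]
    rw [hct, e1, e2]
    have e3 : (π ^ 2 / 3 + π ^ 2) / (2 * (4 * π ^ 2 / 3)) = 1 / 2 := by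
      field_simp
      ring
    rw [e3]
    nlinarith [sq3, sq7]

lemma fac1 : Fac 1 (1 / 2) (2 * π) ((√5 + 2) / 4) ((√5 - 2) / 4) := by
  have hpi := Real.pi_pos
  have h25 : (2 : ℝ) < √5 := (Real.lt_sqrt (by norm_num)).2 (by norm_num)
  have hct : ct (1 / 2) = 0 := by
    unfold ct
    rw [show π * ((1 : ℝ) / 2) = π / 2 by ring, Real.cos_pi_div_two]
    simp
  have hct4 : ct ((1 - 1 / 2) / 2) = π := by
    have h1 := shape1
    have h2 : ct ((1 - 1 / 2) / 2) ≠ 0 := by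
      intro h
      rw [h, div_zero] at h1
      exact zero_ne_one h1
    exact ((div_eq_one_iff_eq h2).1 h1).symm
  refine ⟨by positivity, by linarith, by linarith, ?_, ?_, ?_⟩
  · rw [hct, hct4]
    push_cast
    ring
  · rw [hct, div_pow, div_pow, mul_pow]
    field_simp
    nlinarith [sq5]
  · rw [hct, mul_pow]
    field_simp
    nlinarith [sq5]

/-- the value of the constant -/
noncomputable def cc (n : ℕ) (t σ : ℝ) : ℝ := √(t / (2 * n)) / (σ ^ n - σ⁻¹ ^ n)

lemma cc_pos {n : ℕ} (hn : 0 < n) {t σ : ℝ} (ht : 0 < t) (hσ : 1 < σ) : 0 < cc n t σ := by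
  have hn' : (0 : ℝ) < n := by exact_mod_cast hn
  have h1 : σ⁻¹ ^ n < σ ^ n := pow_lt_pow_left₀ ((inv_lt_one_of_one_lt₀ hσ).trans hσ)
    (by positivity) (by omega)
  unfold cc
  have := sub_pos.2 h1
  positivity

lemma KK0 (n : ℕ) [NeZero n] : KK 0 n 0 (1 / 3) = ((cc n √3 ((√7 + √3) / 2) : ℝ) : ℂ) := by
  rw [KK_val par0 fac0, shape0]
  congr 1
  have h3 : √(3 : ℝ) ≠ 0 := by positivity
  have h4 : (√7 + √3 : ℝ) ≠ 0 := by positivity
  have h37 : √(3 : ℝ) < √7 := Real.sqrt_lt_sqrt (by norm_num) (by norm_num)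
  have hpi := Real.pi_ne_zero
  have h1 : 2 * Real.sin (π * (1 / 3)) = √3 := by
    rw [show π * ((1 : ℝ) / 3) = π / 3 by ring, Real.sin_pi_div_three]
    ring
  have h2 : π / (2 * π / √3) = √3 / 2 := by field_simp
  have h5 : ((√7 + √3) / 2 : ℝ)⁻¹ = 2 * ((√7 - √3) / 4) := by
    field_simp
    nlinarith [sq3, sq7]
  have h6 : ((√7 + √3) / 2 : ℝ) = 2 * ((√7 + √3) / 4) := by ring
  unfold cc
  rw [h1, h2, h5, h6, mul_pow, mul_pow, div_pow, inv_pow, ← mul_sub]
  have h7 : 0 < ((√7 + √3) / 4) ^ n - ((√7 - √3) / 4 : ℝ) ^ n :=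
    sub_pos.2 (pow_lt_pow_left₀ (by linarith [Real.sqrt_pos.2 (by norm_num : (0 : ℝ) < 3)])
      (by linarith) (NeZero.ne n))
  field_simp

lemma KK1 (n : ℕ) [NeZero n] : KK 1 n 0 (1 / 2) = ((cc n 1 (√5 + 2) : ℝ) : ℂ) := by
  rw [KK_val par1 fac1, shape1]
  congr 1
  have h4 : (√5 + 2 : ℝ) ≠ 0 := by positivity
  have h25 : (2 : ℝ) < √5 := (Real.lt_sqrt (by norm_num)).2 (by norm_num)
  have hpi := Real.pi_ne_zero
  have h1 : 2 * Real.sin (π * (1 / 2)) = 2 := by
    rw [show π * ((1 : ℝ) / 2) = π / 2 by ring, Real.sin_pi_div_two]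
    ring
  have h2 : π / (2 * π) = 1 / 2 := by field_simp
  have h5 : (√5 + 2 : ℝ)⁻¹ = 4 * ((√5 - 2) / 4) := by
    field_simp
    nlinarith [sq5]
  have h6 : (√5 + 2 : ℝ) = 4 * ((√5 + 2) / 4) := by ring
  unfold cc
  rw [h1, h2, h5]
  conv_rhs => rw [h6, mul_pow, mul_pow, ← mul_sub]
  rw [div_pow, inv_pow, one_pow]
  have h7 : 0 < ((√5 + 2) / 4) ^ n - ((√5 - 2) / 4 : ℝ) ^ n :=
    sub_pos.2 (pow_lt_pow_left₀ (by linarith) (by linarith) (NeZero.ne n))
  have h8 : (4 : ℝ) ^ n = 2 ^ n * 2 ^ n := by rw [← mul_pow]; norm_num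
  rw [h8]
  field_simp

theorem cj_asym' {e : ℕ} {d c : ℝ} (P : Par e d) (n : ℕ) [NeZero n] (hK : KK e n 0 d = (c : ℂ))
    (m : ℤ) :
    Tendsto (fun N : ℕ => Pool.Agent.H550R3.Jones.cjones N 3 (axisClosure
      (ftw m ++ bw (ex e n))) (rt N) / ((wt (2 * n * he e d) N : ℝ) : ℂ)) atTop
      (𝓝 (cf n (π / ct ((1 - d) / 2)) m c)) := by
  have hd1 := P.d1
  have hd2 := P.d2
  have h := rt_pow_lim.mul (trace_asym P n m)
  rw [KK_eq m (ct_pos (by linarith) (by linarith)), hK, ← mul_assoc, neg_one_mul] at h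
  refine h.congr' ?_
  filter_upwards [eventually_ge_atTop 1] with N hN
  rw [Pool.Agent.W715.VC.cjones_axis (by omega), mul_div_assoc]

end Pool.Agent.X132.FT
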